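import Pool.Agent.H29.FreeOn

open CategoryTheory Limits TopologicalSpace AlgebraicGeometry Opposite

universe u

namespace Pool.H29

variable {X : Scheme.{u}}

/-- Restriction of functions. -/
noncomputable def rr {U V : X.Opens} (h : V ≤ U) : Γ(X, U) →+* Γ(X, V) :=
  (X.presheaf.map (homOfLE h).op).hom

lemma rr_rr {U V W : X.Opens} (h : V ≤ U) (h' : W ≤ V) (r : Γ(X, U)) :
    rr h' (rr h r) = rr (h'.trans h) r := by
  change (X.presheaf.map (homOfLE h).op ≫ X.presheaf.map (homOfLE h').op) r = _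
  rw [← X.presheaf.map_comp]
  rfl

lemma rr_rg {U V : X.Opens} (h : V ≤ U) (r : Γ(X, ⊤)) : rr h (rg U r) = rg V r := rg_map h r

lemma res_smul' (M : X.Modules) {U V : X.Opens} (h : V ≤ U) (r : Γ(X, U)) (s : Γ(M, U)) :
    res M h (r • s) = rr h r • res M h s := res_smul M h r s

lemma res_toO' {U V : X.Opens} (h : V ≤ U) (r : Γ(X, U)) :
    res (OX X) h (toO r) = toO (rr h r) := rfl

lemma isUnit_rr {V : X.Opens} (c : Γ(X, V)) {W : X.Opens} (h : W ≤ V)
    (hW : W ≤ X.basicOpen c) : IsUnit (rr h c) := by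
  have h1 : IsUnit (rr (X.basicOpen_le c) c) := X.toRingedSpace.isUnit_res_basicOpen c
  have h2 := h1.map (rr hW)
  rwa [rr_rr] at h2

lemma exists_pow_mul {V : X.Opens} (hV : IsAffineOpen V) (c : Γ(X, V)) {W : X.Opens}
    (h : W ≤ V) (hW : W = X.basicOpen c) (z : Γ(X, W)) :
    ∃ (y : Γ(X, V)) (m : ℕ), rr h y = z * (rr h c) ^ m := by
  subst hW
  have := hV.isLocalization_basicOpen c
  obtain ⟨⟨y, ⟨_, m, rfl⟩⟩, hy⟩ := IsLocalization.surj (Submonoid.powers c) z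
  refine ⟨y, m, ?_⟩
  have e : ∀ r, algebraMap Γ(X, V) Γ(X, X.basicOpen c) r = rr h r := fun r => rfl
  simp only [e, map_pow] at hy
  rw [hy]

lemma exists_pow_mul_eq_zero {V : X.Opens} (hV : IsAffineOpen V) (c : Γ(X, V)) {W : X.Opens}
    (h : W ≤ V) (hW : W = X.basicOpen c) (y : Γ(X, V)) (hy : rr h y = 0) :
    ∃ m : ℕ, c ^ m * y = 0 := by
  subst hW
  have := hV.isLocalization_basicOpen c
  have e : ∀ r, algebraMap Γ(X, V) Γ(X, X.basicOpen c) r = rr h r := fun r => rfl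
  have h1 : algebraMap Γ(X, V) Γ(X, X.basicOpen c) y =
      algebraMap Γ(X, V) Γ(X, X.basicOpen c) 0 := by rw [e, hy, map_zero]
  obtain ⟨⟨_, m, rfl⟩, hm⟩ := (IsLocalization.eq_iff_exists (Submonoid.powers c) _).1 h1
  exact ⟨m, by simpa using hm⟩

lemma isCoprime_of_le_sup {V : X.Opens} (hV : IsAffineOpen V) (a b : Γ(X, V))
    (hab : V ≤ X.basicOpen a ⊔ X.basicOpen b) : IsCoprime a b := by
  have h1 : (⨆ f : ({a, b} : Set Γ(X, V)), X.basicOpen (f : Γ(X, V))) = V := by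
    apply le_antisymm
    · exact iSup_le fun f => X.basicOpen_le _
    · refine hab.trans (sup_le ?_ ?_)
      · exact le_iSup (fun f : ({a, b} : Set Γ(X, V)) => X.basicOpen (f : Γ(X, V))) ⟨a, by simp⟩
      · exact le_iSup (fun f : ({a, b} : Set Γ(X, V)) => X.basicOpen (f : Γ(X, V))) ⟨b, by simp⟩
  rw [hV.iSup_basicOpen_eq_self_iff] at h1
  have h2 : (1 : Γ(X, V)) ∈ Ideal.span {a, b} := by rw [h1]; trivial
  rw [Ideal.mem_span_pair] at h2
  obtain ⟨x, y, h⟩ := h2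
  exact ⟨x, y, h⟩

lemma split_affine {V : X.Opens} (hV : IsAffineOpen V) (a b : Γ(X, V))
    (hab : V ≤ X.basicOpen a ⊔ X.basicOpen b) (z : Γ(X, X.basicOpen b ⊓ X.basicOpen a)) :
    ∃ (u : Γ(X, X.basicOpen a)) (v : Γ(X, X.basicOpen b)),
      z = rr inf_le_right u + rr inf_le_left v := by
  have hW : X.basicOpen b ⊓ X.basicOpen a = X.basicOpen (b * a) := (X.basicOpen_mul _ _).symm
  have hWV : X.basicOpen b ⊓ X.basicOpen a ≤ V := inf_le_left.trans (X.basicOpen_le _)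
  obtain ⟨y, m, hy⟩ := exists_pow_mul hV (b * a) hWV hW z
  obtain ⟨x, x', hx⟩ := (isCoprime_of_le_sup hV a b hab).pow (m := m) (n := m)
  obtain ⟨α, hα⟩ := isUnit_rr a (X.basicOpen_le a) le_rfl
  obtain ⟨β, hβ⟩ := isUnit_rr b (X.basicOpen_le b) le_rfl
  refine ⟨rr (X.basicOpen_le a) (x' * y) * (↑α⁻¹) ^ m, rr (X.basicOpen_le b) (x * y) *
    (↑β⁻¹) ^ m, ?_⟩
  have hα' : rr (inf_le_right : X.basicOpen b ⊓ X.basicOpen a ≤ X.basicOpen a)
      (↑α⁻¹ : Γ(X, X.basicOpen a)) *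
      rr hWV a = 1 := by
    rw [← rr_rr (X.basicOpen_le a) inf_le_right, ← hα, ← map_mul, Units.inv_mul, map_one]
  have hβ' : rr (inf_le_left : X.basicOpen b ⊓ X.basicOpen a ≤ X.basicOpen b)
      (↑β⁻¹ : Γ(X, X.basicOpen b)) *
      rr hWV b = 1 := by
    rw [← rr_rr (X.basicOpen_le b) inf_le_left, ← hβ, ← map_mul, Units.inv_mul, map_one]
  have hu : IsUnit ((rr hWV (b * a)) ^ m) := (isUnit_rr (b * a) hWV hW.le).pow m
  apply hu.mul_left_injective
  simp only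
  rw [← hy]
  simp only [map_mul, map_pow, rr_rr] at hα' hβ' ⊢
  generalize rr inf_le_right (↑α⁻¹ : Γ(X, X.basicOpen a)) = α' at hα' ⊢
  generalize rr inf_le_left (↑β⁻¹ : Γ(X, X.basicOpen b)) = β' at hβ' ⊢
  have hx1 := congrArg (rr hWV) hx
  simp only [map_add, map_mul, map_pow, map_one] at hx1
  generalize rr hWV a = A at *
  generalize rr hWV b = B at *
  generalize rr hWV y = Y at *
  generalize rr hWV x = x1 at *
  generalize rr hWV x' = x2 at *
  have e1 : α' ^ m * A ^ m = 1 := by rw [← mul_pow, hα', one_pow]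
  have e2 : β' ^ m * B ^ m = 1 := by rw [← mul_pow, hβ', one_pow]
  calc Y = Y * (x1 * A ^ m + x2 * B ^ m) := by rw [hx1, mul_one]
    _ = x2 * Y * (α' ^ m * A ^ m) * B ^ m + x1 * Y * (β' ^ m * B ^ m) * A ^ m := by
        rw [e1, e2]; ring
    _ = _ := by rw [mul_pow]; ring

end Pool.H29
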