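import Pool.Agent.H29.KS

open CategoryTheory Limits AlgebraicGeometry ZeroObject TopologicalSpace Pretriangulated

universe w v u

namespace Pool.H29

section General

variable {A : Type*} [Category A] [Abelian A] [HasDerivedCategory A]

/-- The embedding in degree `b`. -/
noncomputable abbrev Sd (A : Type*) [Category A] [Abelian A] [HasDerivedCategory A] (b : ℤ) :
    A ⥤ DerivedCategory A := DerivedCategory.singleFunctor A b

omit [HasDerivedCategory A] in
/-- A retract of an object in the image of a fully faithful functor. -/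
lemma exists_retract_of_full {D : Type*} [Category D] (F : A ⥤ D) [F.Full] [F.Faithful] {M : A}
    {E : D} (r : Retract E (F.obj M)) :
    ∃ N : A, Nonempty (Retract N M) ∧ Nonempty (E ≅ F.obj N) := by
  let e : M ⟶ M := F.preimage (r.r ≫ r.i)
  have he : F.map e = r.r ≫ r.i := F.map_preimage _
  have hee : e ≫ e = e := by
    apply F.map_injective
    rw [F.map_comp, he]
    simp
  obtain ⟨N, i, p, h1, h2⟩ := IsIdempotentComplete.idempotents_split M e hee
  refine ⟨N, ⟨⟨i, p, h1⟩⟩, ⟨⟨r.i ≫ F.map p, F.map i ≫ r.r, ?_, ?_⟩⟩⟩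
  · rw [Category.assoc, ← Category.assoc (F.map p), ← F.map_comp, h2, he]
    simp
  · rw [Category.assoc, ← Category.assoc r.r, ← he, ← F.map_comp, ← F.map_comp, ← h2]
    rw [Category.assoc, ← Category.assoc i p, h1]
    simp

/-- The top degree part of a complex. -/
lemma exists_top_triangle (F : CochainComplex A ℤ) (b : ℤ) (hb : ∀ i, b < i → IsZero (F.X i)) :
    ∃ (F' : CochainComplex A ℤ) (f : (Sd A b).obj (F.X b) ⟶ DerivedCategory.Q.obj F)
      (g : DerivedCategory.Q.obj F ⟶ DerivedCategory.Q.obj F')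
      (h : DerivedCategory.Q.obj F' ⟶ ((Sd A b).obj (F.X b))⟦(1 : ℤ)⟧),
      Triangle.mk f g h ∈ distTriang (DerivedCategory A) ∧ IsZero (F'.X b) ∧
        ∀ i, i ≠ b → Nonempty (F.X i ≅ F'.X i) := by
  let c : (HomologicalComplex.single A (ComplexShape.up ℤ) b).obj (F.X b) ⟶ F :=
    HomologicalComplex.mkHomFromSingle (𝟙 _) (by
      intro k hk
      exact (hb k (by simp only [ComplexShape.up_Rel] at hk; lia)).eq_of_tgt _ _)
  have hcb : IsIso (c.f b) := by
    simp only [c, HomologicalComplex.mkHomFromSingle_f, Category.comp_id]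
    infer_instance
  have hmono : Mono c := by
    have : ∀ i, Mono (c.f i) := by
      intro i
      by_cases hi : i = b
      · subst hi
        infer_instance
      · exact ⟨fun _ _ _ => (HomologicalComplex.isZero_single_obj_X (ComplexShape.up ℤ) _ _ _ hi).eq_of_tgt _ _⟩
    exact HomologicalComplex.mono_of_mono_f c this
  let S : ShortComplex (CochainComplex A ℤ) := ShortComplex.mk c (cokernel.π c) (by simp)
  have hS : S.ShortExact :=
    { exact := ShortComplex.exact_cokernel c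
      mono_f := hmono
      epi_g := inferInstanceAs (Epi (cokernel.π c)) }
  have hSi : ∀ i, (S.map (HomologicalComplex.eval A (ComplexShape.up ℤ) i)).ShortExact :=
    fun i => hS.map_of_exact _
  have hne : ∀ i, i ≠ b → Nonempty (F.X i ≅ S.X₃.X i) := by
    intro i hi
    have h1 := (hSi i).isIso_g_iff.2 (HomologicalComplex.isZero_single_obj_X (ComplexShape.up ℤ) _ _ _ hi)
    exact ⟨@asIso _ _ _ _ _ h1⟩
  have hb0 : IsZero (S.X₃.X b) := (hSi b).isIso_f_iff.1 hcb
  exact ⟨S.X₃, _, _, _, DerivedCategory.triangleOfSES_distinguished hS, hb0, hne⟩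

/-- A complex concentrated in degree `b`. -/
noncomputable def isoSingle (F : CochainComplex A ℤ) (b : ℤ) (hb : ∀ i, i ≠ b → IsZero (F.X i)) :
    F ≅ (HomologicalComplex.single A (ComplexShape.up ℤ) b).obj (F.X b) :=
  let c : (HomologicalComplex.single A (ComplexShape.up ℤ) b).obj (F.X b) ⟶ F :=
    HomologicalComplex.mkHomFromSingle (𝟙 _) (by
      intro k hk
      exact (hb k (by simp only [ComplexShape.up_Rel] at hk; lia)).eq_of_tgt _ _)
  have : ∀ i, IsIso (c.f i) := by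
    intro i
    by_cases hi : i = b
    · subst hi
      simp only [c, HomologicalComplex.mkHomFromSingle_f, Category.comp_id]
      infer_instance
    · exact DP.isIso_of_isZero (HomologicalComplex.isZero_single_obj_X (ComplexShape.up ℤ) _ _ _ hi)
        (hb i hi) _
  have : IsIso c := HomologicalComplex.Hom.isIso_of_components c
  (asIso c).symm

end General

variable {X Y : Scheme.{u}} [HasDerivedCategory.{w} X.Modules] [HasDerivedCategory.{w} Y.Modules]

variable (X) in
/-- Objects represented by bounded complexes of finite free modules in degrees `[b - n, b]`. -/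
def BQ (n : ℕ) (b : ℤ) (E : DerivedCategory X.Modules) : Prop :=
  ∃ F : CochainComplex X.Modules ℤ, (∀ i, ∃ m, FF X m (F.X i)) ∧ (∀ i, b < i → IsZero (F.X i)) ∧
    (∀ i, i < b - n → IsZero (F.X i)) ∧ Nonempty (E ≅ DerivedCategory.Q.obj F)

lemma BQ.iso {n : ℕ} {b : ℤ} {E E' : DerivedCategory X.Modules} (h : BQ X n b E) (e : E ≅ E') :
    BQ X n b E' := by
  obtain ⟨F, h1, h2, h3, ⟨e'⟩⟩ := h
  exact ⟨F, h1, h2, h3, ⟨e.symm ≪≫ e'⟩⟩

lemma BQ.mono {n n' : ℕ} {b b' : ℤ} {E : DerivedCategory X.Modules} (h : BQ X n b E)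
    (hb : b ≤ b') (hn : b' - n' ≤ b - n) : BQ X n' b' E := by
  obtain ⟨F, h1, h2, h3, h4⟩ := h
  exact ⟨F, h1, fun i hi => h2 i (by lia), fun i hi => h3 i (by lia), h4⟩

lemma BQ.biprod {n : ℕ} {b : ℤ} {E E' : DerivedCategory X.Modules} (h : BQ X n b E)
    (h' : BQ X n b E') : BQ X n b (E ⊞ E') := by
  obtain ⟨F, h1, h2, h3, ⟨e⟩⟩ := h
  obtain ⟨F', h1', h2', h3', ⟨e'⟩⟩ := h'
  have := preservesBinaryBiproducts_of_preservesBiproducts
    (DerivedCategory.Q : _ ⥤ DerivedCategory X.Modules)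
  have hi : ∀ i, Nonempty ((F ⊞ F').X i ≅ F.X i ⊞ F'.X i) := by
    intro i
    have := preservesBinaryBiproducts_of_preservesBiproducts
      (HomologicalComplex.eval X.Modules (ComplexShape.up ℤ) i)
    exact ⟨(HomologicalComplex.eval X.Modules (ComplexShape.up ℤ) i).mapBiprod F F'⟩
  refine ⟨F ⊞ F', ?_, ?_, ?_, ⟨biprod.mapIso e e' ≪≫ (DerivedCategory.Q.mapBiprod F F').symm⟩⟩
  · intro i
    obtain ⟨m, hm⟩ := h1 i
    obtain ⟨m', hm'⟩ := h1' i
    obtain ⟨e''⟩ := hi i
    exact ⟨m + m', (hm.biprod hm').iso e''.symm⟩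
  · intro i hb
    obtain ⟨e''⟩ := hi i
    exact ((biprod_isZero_iff _ _).2 ⟨h2 i hb, h2' i hb⟩).of_iso e''
  · intro i hb
    obtain ⟨e''⟩ := hi i
    exact ((biprod_isZero_iff _ _).2 ⟨h3 i hb, h3' i hb⟩).of_iso e''

lemma bq_single {m : ℕ} {M : X.Modules} (h : FF X m M) (b : ℤ) :
    BQ X 0 b ((Sd X.Modules b).obj M) := by
  have h0 : ∀ i, i ≠ b → IsZero
      (((HomologicalComplex.single X.Modules (ComplexShape.up ℤ) b).obj M).X i) :=
    fun i hi => HomologicalComplex.isZero_single_obj_X (ComplexShape.up ℤ) _ _ _ hi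
  refine ⟨(HomologicalComplex.single X.Modules (ComplexShape.up ℤ) b).obj M, ?_, ?_, ?_,
    ⟨Iso.refl _⟩⟩
  · intro i
    by_cases hi : i = b
    · subst hi
      exact ⟨m, h.iso (HomologicalComplex.singleObjXSelf _ _ _).symm⟩
    · exact ⟨0, h0 i hi⟩
  · exact fun i hi => h0 i (by lia)
  · exact fun i hi => h0 i (by push_cast at hi; lia)

lemma BQ.exists_single {b : ℤ} {E : DerivedCategory X.Modules} (h : BQ X 0 b E) :
    ∃ (m : ℕ) (M : X.Modules), FF X m M ∧ Nonempty (E ≅ (Sd X.Modules b).obj M) := by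
  obtain ⟨F, h1, h2, h3, ⟨e⟩⟩ := h
  obtain ⟨m, hm⟩ := h1 b
  refine ⟨m, F.X b, hm, ⟨e ≪≫ DerivedCategory.Q.mapIso (isoSingle F b ?_)⟩⟩
  intro i hi
  rcases lt_or_gt_of_ne hi with h | h
  · exact h3 i (by push_cast; lia)
  · exact h2 i h

lemma BQ.exists_triangle {n : ℕ} {b : ℤ} {E : DerivedCategory X.Modules} (h : BQ X (n + 1) b E) :
    ∃ (m : ℕ) (M : X.Modules) (E' : DerivedCategory X.Modules) (f : (Sd X.Modules b).obj M ⟶ E)
      (g : E ⟶ E') (h : E' ⟶ ((Sd X.Modules b).obj M)⟦(1 : ℤ)⟧), FF X m M ∧ BQ X n (b - 1) E' ∧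
      Triangle.mk f g h ∈ distTriang (DerivedCategory X.Modules) := by
  obtain ⟨F, h1, h2, h3, ⟨e⟩⟩ := h
  obtain ⟨F', f, g, h, hT, h4, h5⟩ := exists_top_triangle F b h2
  obtain ⟨m, hm⟩ := h1 b
  refine ⟨m, F.X b, DerivedCategory.Q.obj F', f ≫ e.inv, e.hom ≫ g, h, hm,
    ⟨F', ?_, ?_, ?_, ⟨Iso.refl _⟩⟩, ?_⟩
  · intro i
    by_cases hi : i = b
    · subst hi
      exact ⟨0, h4⟩
    · obtain ⟨e'⟩ := h5 i hi
      obtain ⟨m', hm'⟩ := h1 i
      exact ⟨m', hm'.iso e'⟩
  · intro i hi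
    by_cases hi' : i = b
    · subst hi'
      exact h4
    · obtain ⟨e'⟩ := h5 i hi'
      exact (h2 i (by lia)).of_iso e'.symm
  · intro i hi
    obtain ⟨e'⟩ := h5 i (by lia)
    exact (h3 i (by push_cast; lia)).of_iso e'.symm
  · refine isomorphic_distinguished _ hT _ (Triangle.isoMk _ _ (Iso.refl _) e (Iso.refl _) ?_ ?_ ?_)
    · change (f ≫ e.inv) ≫ e.hom = 𝟙 _ ≫ f
      rw [Category.assoc, e.inv_hom_id, Category.comp_id, Category.id_comp]
    · exact Category.comp_id _
    · change h ≫ (𝟙 _)⟦(1 : ℤ)⟧' = 𝟙 _ ≫ h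
      rw [CategoryTheory.Functor.map_id, Category.id_comp]
      exact Category.comp_id _

/-- Shifting. -/
noncomputable def SdShift (M : X.Modules) (b : ℤ) :
    ((Sd X.Modules b).obj M)⟦(1 : ℤ)⟧ ≅ (Sd X.Modules (b - 1)).obj M :=
  ((DerivedCategory.singleFunctors X.Modules).shiftIso 1 (b - 1) b (by lia)).app M

end Pool.H29
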