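import Mathlib

open CategoryTheory Limits Pretriangulated ZeroObject

namespace Pool.H29

section

variable {D : Type*} [Category D] [HasZeroObject D] [HasShift D ℤ] [Preadditive D]
  [∀ n : ℤ, (shiftFunctor D n).Additive] [Pretriangulated D]

/-- Closure properties of a thick subcategory. -/
structure IsThick (Pr : D → Prop) : Prop where
  zero : ∀ X, IsZero X → Pr X
  shift : ∀ X (n : ℤ), Pr X → Pr (X⟦n⟧)
  ext₂ : ∀ T ∈ distTriang D, Pr T.obj₁ → Pr T.obj₃ → Pr T.obj₂
  retract : ∀ X Y, Nonempty (Retract X Y) → Pr Y → Pr X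

namespace IsThick

variable {Pr : D → Prop} (h : IsThick Pr)
include h

lemma iso {X Y : D} (e : X ≅ Y) (hX : Pr X) : Pr Y :=
  h.retract Y X ⟨Retract.ofIso e.symm⟩ hX

lemma unshift {X : D} (n : ℤ) (hX : Pr (X⟦n⟧)) : Pr X :=
  h.iso ((shiftFunctorCompIsoId D n (-n) (by simp)).app X) (h.shift _ (-n) hX)

lemma ext₁ (T : Triangle D) (hT : T ∈ distTriang D) (h2 : Pr T.obj₂) (h3 : Pr T.obj₃) :
    Pr T.obj₁ :=
  h.ext₂ _ (inv_rot_of_distTriang _ hT) (h.shift _ _ h3) h2

lemma ext₃ (T : Triangle D) (hT : T ∈ distTriang D) (h1 : Pr T.obj₁) (h2 : Pr T.obj₂) :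
    Pr T.obj₃ :=
  h.ext₂ _ (rot_of_distTriang _ hT) h2 (h.shift _ _ h1)

end IsThick

/-- The thick subcategory generated by an object. -/
def thick (O : D) (A : D) : Prop := (ObjectProperty.singleton O).triangEnvelope A

lemma thick_isThick [IsTriangulated D] (O : D) : IsThick (thick O) where
  zero X hX := (ObjectProperty.prop_of_isZero (P := (ObjectProperty.singleton O).triangEnvelope) hX)
  shift X n hX := ObjectProperty.le_shift (P := (ObjectProperty.singleton O).triangEnvelope) n _ hX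
  ext₂ T hT h1 h3 := ObjectProperty.ext_of_isTriangulatedClosed₂
    (P := (ObjectProperty.singleton O).triangEnvelope) T hT h1 h3
  retract X Y e hY := by
    obtain ⟨e⟩ := e
    exact ObjectProperty.prop_of_retract (P := (ObjectProperty.singleton O).triangEnvelope) e hY

lemma thick_self (O : D) : thick O O :=
  ObjectProperty.le_triangEnvelope _ _ (by simp)

lemma thick_ind [IsTriangulated D] {Pr : D → Prop} (h : IsThick Pr) {O : D} (hO : Pr O) {A : D}
    (hA : thick O A) : Pr A := by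
  let P : ObjectProperty D := Pr
  have hr : P.IsStableUnderRetracts := ⟨fun e hY => h.retract _ _ ⟨e⟩ hY⟩
  have ht : P.IsTriangulated :=
    { exists_zero := ⟨0, isZero_zero D, h.zero _ (isZero_zero D)⟩
      isStableUnderShiftBy := fun a => ⟨fun X hX => h.shift X a hX⟩
      ext₂' := fun T hT h1 h3 => P.le_isoClosure _ (h.ext₂ T hT h1 h3) }
  exact (ObjectProperty.triangEnvelope_le_iff (P := ObjectProperty.singleton O) (Q := P)).2
    (by
      intro X hX
      simp only [ObjectProperty.singleton_iff] at hX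
      subst hX
      exact hO) _ hA

lemma IsThick.and {P Q : D → Prop} (hP : IsThick P) (hQ : IsThick Q) :
    IsThick (fun A => P A ∧ Q A) where
  zero X hX := ⟨hP.zero X hX, hQ.zero X hX⟩
  shift X n h := ⟨hP.shift X n h.1, hQ.shift X n h.2⟩
  ext₂ T hT h1 h3 := ⟨hP.ext₂ T hT h1.1 h3.1, hQ.ext₂ T hT h1.2 h3.2⟩
  retract X Y e h := ⟨hP.retract X Y e h.1, hQ.retract X Y e h.2⟩

lemma isThick_isZero : IsThick (fun A : D => IsZero A) where
  zero X hX := hX
  shift X n hX := Functor.map_isZero _ hX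
  ext₂ T hT h1 h3 := Triangle.isZero₂_of_isZero₁₃ T hT h1 h3
  retract X Y e h := by
    obtain ⟨e⟩ := e
    rw [IsZero.iff_id_eq_zero, ← e.retract, h.eq_of_tgt e.i 0, zero_comp]

variable {D' : Type*} [Category D'] [HasZeroObject D'] [HasShift D' ℤ] [Preadditive D']
  [∀ n : ℤ, (shiftFunctor D' n).Additive] [Pretriangulated D']

lemma IsThick.comap {Pr : D' → Prop} (h : IsThick Pr) (F : D ⥤ D') [F.CommShift ℤ]
    [F.IsTriangulated] : IsThick (fun A => Pr (F.obj A)) where
  zero X hX := h.zero _ (F.map_isZero hX)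
  shift X n hX := h.iso ((F.commShiftIso n).app X).symm (h.shift _ n hX)
  ext₂ T hT h1 h3 := h.ext₂ _ (F.map_distinguished T hT) h1 h3
  retract X Y e hY := by
    obtain ⟨e⟩ := e
    exact h.retract _ _ ⟨e.map F⟩ hY

lemma thick_map [IsTriangulated D] [IsTriangulated D'] (F : D ⥤ D') [F.CommShift ℤ]
    [F.IsTriangulated] {O A : D} (h : thick O A) : thick (F.obj O) (F.obj A) :=
  thick_ind ((thick_isThick (F.obj O)).comap F) (thick_self _) h

lemma thick_of_iso [IsTriangulated D] {O O' A : D} (e : O ≅ O') (h : thick O A) : thick O' A :=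
  thick_ind (thick_isThick O') ((thick_isThick O').iso e.symm (thick_self O')) h

lemma thick_trans [IsTriangulated D] {O O' A : D} (h : thick O O') (h' : thick O' A) :
    thick O A :=
  thick_ind (thick_isThick O) h h'

end

section tors

variable {D : Type*} [Category D] [HasZeroObject D] [HasShift D ℤ] [Preadditive D]
  [∀ n : ℤ, (shiftFunctor D n).Additive] [Pretriangulated D]
  {k : Type*} [CommRing k] [Linear k D] [∀ n : ℤ, (shiftFunctor D n).Linear k] (f : k)

/-- All morphisms `A ⟶ B` are killed by a power of `f`. -/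
def TorsHom (A B : D) : Prop := ∀ ξ : A ⟶ B, ∃ N : ℕ, f ^ N • ξ = 0

/-- All morphisms `A⟦m⟧ ⟶ B⟦n⟧` are killed by a power of `f`. -/
def Tors (A B : D) : Prop := ∀ m n : ℤ, TorsHom f (A⟦m⟧) (B⟦n⟧)

variable {f}

omit [HasZeroObject D] [HasShift D ℤ] [∀ n : ℤ, (shiftFunctor D n).Additive]
  [Pretriangulated D] [∀ n : ℤ, (shiftFunctor D n).Linear k] in
lemma TorsHom.retract {A A' B B' : D} (e : Retract A' A) (e' : Retract B' B)
    (h : TorsHom f A B) : TorsHom f A' B' := by
  intro ξ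
  obtain ⟨N, hN⟩ := h (e.r ≫ ξ ≫ e'.i)
  refine ⟨N, ?_⟩
  have h1 : f ^ N • ξ = e.i ≫ (f ^ N • (e.r ≫ ξ ≫ e'.i)) ≫ e'.r := by
    simp only [Linear.smul_comp, Linear.comp_smul, Category.assoc, e'.retract, Category.comp_id]
    rw [← Category.assoc, e.retract, Category.id_comp]
  rw [h1, hN, zero_comp, comp_zero]

omit [∀ n : ℤ, (shiftFunctor D n).Linear k] in
lemma TorsHom.ext_left {T : Triangle D} (hT : T ∈ distTriang D) {B : D}
    (h1 : TorsHom f T.obj₁ B) (h3 : TorsHom f T.obj₃ B) : TorsHom f T.obj₂ B := by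
  intro ξ
  obtain ⟨N, hN⟩ := h1 (T.mor₁ ≫ ξ)
  obtain ⟨η, hη⟩ := Triangle.yoneda_exact₂ T hT (f ^ N • ξ) (by rw [Linear.comp_smul, hN])
  obtain ⟨M, hM⟩ := h3 η
  refine ⟨M + N, ?_⟩
  rw [pow_add, mul_smul, hη, ← Linear.comp_smul, hM, comp_zero]

omit [∀ n : ℤ, (shiftFunctor D n).Linear k] in
lemma TorsHom.ext_right {T : Triangle D} (hT : T ∈ distTriang D) {A : D}
    (h1 : TorsHom f A T.obj₁) (h3 : TorsHom f A T.obj₃) : TorsHom f A T.obj₂ := by
  intro ξ
  obtain ⟨N, hN⟩ := h3 (ξ ≫ T.mor₂)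
  obtain ⟨η, hη⟩ := Triangle.coyoneda_exact₂ T hT (f ^ N • ξ) (by rw [Linear.smul_comp, hN])
  obtain ⟨M, hM⟩ := h1 η
  refine ⟨M + N, ?_⟩
  rw [pow_add, mul_smul, hη, ← Linear.smul_comp, hM, zero_comp]

omit [∀ n : ℤ, (shiftFunctor D n).Linear k] in
lemma tors_isThick_left (B : D) : IsThick (fun A => Tors f A B) where
  zero X hX m n ξ := ⟨0, by rw [(Functor.map_isZero (shiftFunctor D m) hX).eq_of_src ξ 0,
    smul_zero]⟩
  shift X a h m n := (h (a + m) n).retract
    (Retract.ofIso ((shiftFunctorAdd D a m).app X).symm) (Retract.refl _)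
  ext₂ T hT h1 h3 m n :=
    TorsHom.ext_left (Triangle.shift_distinguished T hT m) (h1 m n) (h3 m n)
  retract X Y e h m n := by
    obtain ⟨e⟩ := e
    exact (h m n).retract (e.map _) (Retract.refl _)

omit [∀ n : ℤ, (shiftFunctor D n).Linear k] in
lemma tors_isThick_right (A : D) : IsThick (fun B => Tors f A B) where
  zero X hX m n ξ := ⟨0, by rw [(Functor.map_isZero (shiftFunctor D n) hX).eq_of_tgt ξ 0,
    smul_zero]⟩
  shift X a h m n := (h m (a + n)).retract (Retract.refl _)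
    (Retract.ofIso ((shiftFunctorAdd D a n).app X).symm)
  ext₂ T hT h1 h3 m n :=
    TorsHom.ext_right (Triangle.shift_distinguished T hT n) (h1 m n) (h3 m n)
  retract X Y e h m n := by
    obtain ⟨e⟩ := e
    exact (h m n).retract (Retract.refl _) (e.map _)

lemma tors_of_zero_left {A B : D} (h : ∀ n : ℤ, TorsHom f A (B⟦n⟧)) : Tors f A B := by
  intro m n ξ
  -- shift by `-m`
  let e1 : A ≅ (A⟦m⟧)⟦-m⟧ := ((shiftFunctorCompIsoId D m (-m) (by simp)).app A).symm
  let e2 : (B⟦n⟧)⟦-m⟧ ≅ B⟦n + -m⟧ := ((shiftFunctorAdd D n (-m)).app B).symm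
  obtain ⟨N, hN⟩ := h (n + -m) (e1.hom ≫ ξ⟦-m⟧' ≫ e2.hom)
  refine ⟨N, (shiftFunctor D (-m)).map_injective ?_⟩
  rw [Functor.map_smul, Functor.map_zero]
  rw [← Linear.comp_smul, ← Linear.smul_comp] at hN
  have h1 := (Preadditive.IsIso.comp_left_eq_zero e1.hom _).1 hN
  exact (Preadditive.IsIso.comp_right_eq_zero _ e2.hom).1 h1

end tors

end Pool.H29
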