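import Pool.Agent.H29.Eff
import Pool.Agent.H29.Thick

open CategoryTheory Limits Pretriangulated ZeroObject

universe w v u

namespace Pool.H29

variable {A : Type u} [Category.{v} A] [Abelian A] [HasDerivedCategory.{w} A]

lemma thick_coproduct (O : A) (I : Type) [Finite I] [HasCoproduct fun _ : I => O] :
    thick ((S₀ A).obj O) ((S₀ A).obj (∐ fun _ : I => O)) := by
  have := Abelian.hasFiniteBiproducts (C := A)
  have h0 : (S₀ A).obj (∐ fun _ : I => O) ≅ (S₀ A).obj (⨁ fun _ : I => O) :=
    (S₀ A).mapIso (biproduct.isoCoproduct _).symm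
  have h1 : (S₀ A).obj (⨁ fun _ : I => O) ≅ ⨁ fun _ : I => (S₀ A).obj O :=
    (S₀ A).mapBiproduct _
  refine (thick_isThick _).iso (h0 ≪≫ h1).symm ?_
  let P := (ObjectProperty.singleton ((S₀ A).obj O)).triangEnvelope
  have h2 : P (∏ᶜ fun _ : I => (S₀ A).obj O) := by
    apply P.prop_pi
    intro _
    exact thick_self _
  exact P.prop_of_iso (biproduct.isoProduct _).symm h2

lemma thick_single (O M : A) (b : ℤ) (h : thick ((S₀ A).obj O) ((S₀ A).obj M)) :
    thick ((S₀ A).obj O) ((DerivedCategory.singleFunctor A b).obj M) := by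
  refine (thick_isThick _).unshift b ((thick_isThick _).iso ?_ h)
  exact (((DerivedCategory.singleFunctors A).shiftIso b 0 b (by simp)).app M).symm

/-- A bounded complex whose terms are in the thick subcategory generated by `O` is in it too. -/
lemma thick_Q_of_bounded (O : A) (n : ℕ) : ∀ (F : CochainComplex A ℤ) (b : ℤ)
    (_ : ∀ i, thick ((S₀ A).obj O) ((S₀ A).obj (F.X i)))
    (_ : ∀ i, b < i → IsZero (F.X i)) (_ : ∀ i, i ≤ b - n → IsZero (F.X i)),
    thick ((S₀ A).obj O) (DerivedCategory.Q.obj F) := by
  induction n with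
  | zero =>
    intro F b _ hb ha
    refine (thick_isThick _).zero _ (Functor.map_isZero _ ?_)
    rw [IsZero.iff_id_eq_zero]
    ext i
    rcases le_or_gt i b with h | h
    · exact (ha i (by simpa using h)).eq_of_src _ _
    · exact (hb i h).eq_of_src _ _
  | succ n ih =>
    intro F b hF hb ha
    let c : (HomologicalComplex.single A (ComplexShape.up ℤ) b).obj (F.X b) ⟶ F :=
      HomologicalComplex.mkHomFromSingle (𝟙 _) (by
        intro k hk
        exact (hb k (by simp only [ComplexShape.up_Rel] at hk; lia)).eq_of_tgt _ _)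
    have hcb : IsIso (c.f b) := by
      simp only [c, HomologicalComplex.mkHomFromSingle_f, Category.comp_id]
      infer_instance
    have hmono : Mono c := by
      have : ∀ i, Mono (c.f i) := by
        intro i
        by_cases hi : i = b
        · subst hi
          infer_instance
        · exact ⟨fun _ _ _ => (HomologicalComplex.isZero_single_obj_X (ComplexShape.up ℤ) _ _ _ hi).eq_of_tgt _ _⟩
      exact HomologicalComplex.mono_of_mono_f c this
    let S : ShortComplex (CochainComplex A ℤ) := ShortComplex.mk c (cokernel.π c) (by simp)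
    have hS : S.ShortExact :=
      { exact := ShortComplex.exact_cokernel c
        mono_f := hmono
        epi_g := inferInstanceAs (Epi (cokernel.π c)) }
    have hSi : ∀ i, (S.map (HomologicalComplex.eval A (ComplexShape.up ℤ) i)).ShortExact :=
      fun i => hS.map_of_exact _
    have hne : ∀ i, i ≠ b → Nonempty (F.X i ≅ S.X₃.X i) := by
      intro i hi
      have h1 := (hSi i).isIso_g_iff.2 (HomologicalComplex.isZero_single_obj_X (ComplexShape.up ℤ) _ _ _ hi)
      exact ⟨@asIso _ _ _ _ _ h1⟩
    have hb0 : IsZero (S.X₃.X b) := (hSi b).isIso_f_iff.1 hcb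
    have h3 : thick ((S₀ A).obj O) (DerivedCategory.Q.obj S.X₃) := by
      refine ih S.X₃ (b - 1) ?_ ?_ ?_
      · intro i
        by_cases hi : i = b
        · subst hi
          exact (thick_isThick _).zero _ (Functor.map_isZero _ hb0)
        · obtain ⟨e⟩ := hne i hi
          exact (thick_isThick _).iso ((S₀ A).mapIso e) (hF i)
      · intro i hi
        by_cases hi' : i = b
        · subst hi'
          exact hb0
        · obtain ⟨e⟩ := hne i hi'
          exact (hb i (by lia)).of_iso e.symm
      · intro i hi
        obtain ⟨e⟩ := hne i (by lia)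
        exact (ha i (by push_cast; lia)).of_iso e.symm
    have h1 : thick ((S₀ A).obj O) (DerivedCategory.Q.obj S.X₁) :=
      thick_single O (F.X b) b (hF b)
    exact (thick_isThick _).ext₂ _ (DerivedCategory.triangleOfSES_distinguished hS) h1 h3

end Pool.H29
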