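import Mathlib

open CategoryTheory Limits Pretriangulated ZeroObject

universe w w' w'' v v' v'' u u' u''

namespace Pool.H29.DP

lemma isIso_of_isZero {D : Type*} [Category D] {X Y : D} (hX : IsZero X) (hY : IsZero Y)
    (f : X ⟶ Y) : IsIso f := by
  have : f = (hX.iso hY).hom := hX.eq_of_src _ _
  rw [this]
  infer_instance

/-- A degreewise short exact sequence of complexes. -/
lemma shortExact_of_degreewise {A : Type u} [Category.{v} A] [Abelian A]
    {S : ShortComplex (CochainComplex A ℤ)}
    (h : ∀ i, (S.map (HomologicalComplex.eval _ _ i)).ShortExact) : S.ShortExact :=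
  HomologicalComplex.shortExact_of_degreewise_shortExact S h

section

variable {A : Type u} [Category.{v} A] [Abelian A] [HasDerivedCategory.{w} A]
  {B : Type u'} [Category.{v'} B] [Abelian B] [HasDerivedCategory.{w'} B]
  {C : Type u''} [Category.{v''} C] [Abelian C] [HasDerivedCategory.{w''} C]

variable (F : A ⥤ B) [F.Additive] [PreservesFiniteLimits F] [PreservesFiniteColimits F]

/-- `F^D (Q K) ≅ Q (F K)`. -/
noncomputable def objIso (K : CochainComplex A ℤ) :
    F.mapDerivedCategory.obj (DerivedCategory.Q.obj K) ≅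
      DerivedCategory.Q.obj ((F.mapHomologicalComplex (ComplexShape.up ℤ)).obj K) :=
  F.mapDerivedCategoryFactors.app K

/-- Homology commutes with the functor induced by an exact functor. -/
lemma homology_iso (P : DerivedCategory A) (n : ℤ) :
    Nonempty ((DerivedCategory.homologyFunctor B n).obj (F.mapDerivedCategory.obj P) ≅
      F.obj ((DerivedCategory.homologyFunctor A n).obj P)) := by
  obtain ⟨K, ⟨e⟩⟩ : ∃ K : CochainComplex A ℤ, Nonempty (DerivedCategory.Q.obj K ≅ P) :=
    ⟨_, ⟨DerivedCategory.Q.objObjPreimageIso P⟩⟩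
  have e1 : (DerivedCategory.homologyFunctor B n).obj (F.mapDerivedCategory.obj P) ≅
      (HomologicalComplex.homologyFunctor B (ComplexShape.up ℤ) n).obj
        ((F.mapHomologicalComplex (ComplexShape.up ℤ)).obj K) :=
    (DerivedCategory.homologyFunctor B n).mapIso
      (F.mapDerivedCategory.mapIso e.symm ≪≫ objIso F K) ≪≫
      (DerivedCategory.homologyFunctorFactors B n).app _
  have e2 : F.obj ((DerivedCategory.homologyFunctor A n).obj P) ≅
      F.obj ((HomologicalComplex.homologyFunctor A (ComplexShape.up ℤ) n).obj K) :=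
    F.mapIso ((DerivedCategory.homologyFunctor A n).mapIso e.symm ≪≫
      (DerivedCategory.homologyFunctorFactors A n).app _)
  have e3 : ((F.mapHomologicalComplex (ComplexShape.up ℤ)).obj K).homology n ≅
      F.obj (K.homology n) := (K.sc n).mapHomologyIso F
  exact ⟨e1 ≪≫ e3 ≪≫ e2.symm⟩

lemma isZero_iff_homology (P : DerivedCategory A) :
    IsZero P ↔ ∀ n, IsZero ((DerivedCategory.homologyFunctor A n).obj P) := by
  constructor
  · intro h n
    exact Functor.map_isZero _ h
  · intro h
    have : IsIso (0 : P ⟶ 0) := by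
      rw [DerivedCategory.isIso_iff]
      intro n
      exact isIso_of_isZero (h n) (Functor.map_isZero _ (isZero_zero _)) _
    exact IsZero.of_iso (isZero_zero _) (asIso (0 : P ⟶ 0))

lemma isZero_map_iff (P : DerivedCategory A) :
    IsZero (F.mapDerivedCategory.obj P) ↔
      ∀ n, IsZero (F.obj ((DerivedCategory.homologyFunctor A n).obj P)) := by
  rw [isZero_iff_homology]
  refine forall_congr' fun n => ?_
  obtain ⟨e⟩ := homology_iso F P n
  exact ⟨fun h => h.of_iso e.symm, fun h => h.of_iso e⟩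

/-- Composition. -/
lemma comp_iso (G : B ⥤ C) [G.Additive] [PreservesFiniteLimits G] [PreservesFiniteColimits G]
    (H : A ⥤ C) [H.Additive] [PreservesFiniteLimits H] [PreservesFiniteColimits H]
    (e : F ⋙ G ≅ H) (P : DerivedCategory A) :
    Nonempty (G.mapDerivedCategory.obj (F.mapDerivedCategory.obj P) ≅
      H.mapDerivedCategory.obj P) := by
  obtain ⟨K, ⟨i⟩⟩ : ∃ K : CochainComplex A ℤ, Nonempty (DerivedCategory.Q.obj K ≅ P) :=
    ⟨_, ⟨DerivedCategory.Q.objObjPreimageIso P⟩⟩
  refine ⟨(G.mapDerivedCategory.mapIso (F.mapDerivedCategory.mapIso i.symm ≪≫ objIso F K)) ≪≫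
    objIso G _ ≪≫ DerivedCategory.Q.mapIso ?_ ≪≫ (objIso H K).symm ≪≫
      H.mapDerivedCategory.mapIso i⟩
  exact (NatIso.mapHomologicalComplex e (ComplexShape.up ℤ)).app K

end

section nat

variable {A : Type u} [Category.{v} A] [Abelian A] [HasDerivedCategory.{w} A]

variable {F G : A ⥤ A} [F.Additive] [PreservesFiniteLimits F] [PreservesFiniteColimits F]
  [G.Additive] [PreservesFiniteLimits G] [PreservesFiniteColimits G]

/-- The map of complexes `F K ⟶ K`. -/
noncomputable def cι (ι : F ⟶ 𝟭 A) (K : CochainComplex A ℤ) :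
    (F.mapHomologicalComplex (ComplexShape.up ℤ)).obj K ⟶ K where
  f i := ι.app (K.X i)
  comm' i j _ := (ι.naturality (K.d i j)).symm

/-- The map of complexes `K ⟶ G K`. -/
noncomputable def cπ (π : 𝟭 A ⟶ G) (K : CochainComplex A ℤ) :
    K ⟶ (G.mapHomologicalComplex (ComplexShape.up ℤ)).obj K where
  f i := π.app (K.X i)
  comm' i j _ := (π.naturality (K.d i j)).symm

/-- The induced transformation `F^D ⟶ 𝟭`. -/
noncomputable def dι (ι : F ⟶ 𝟭 A) : F.mapDerivedCategory ⟶ 𝟭 (DerivedCategory A) :=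
  Localization.liftNatTrans DerivedCategory.Q
    (HomologicalComplex.quasiIso A (ComplexShape.up ℤ))
    (F.mapHomologicalComplex (ComplexShape.up ℤ) ⋙ DerivedCategory.Q) DerivedCategory.Q _ _
    { app := fun K => DerivedCategory.Q.map (cι ι K)
      naturality := fun K K' f => by
        dsimp only [Functor.comp_map]
        rw [← DerivedCategory.Q.map_comp, ← DerivedCategory.Q.map_comp]
        congr 1
        ext i
        exact ι.naturality (f.f i) }

/-- The induced transformation `𝟭 ⟶ G^D`. -/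
noncomputable def dπ (π : 𝟭 A ⟶ G) : 𝟭 (DerivedCategory A) ⟶ G.mapDerivedCategory :=
  Localization.liftNatTrans DerivedCategory.Q
    (HomologicalComplex.quasiIso A (ComplexShape.up ℤ))
    DerivedCategory.Q (G.mapHomologicalComplex (ComplexShape.up ℤ) ⋙ DerivedCategory.Q) _ _
    { app := fun K => DerivedCategory.Q.map (cπ π K)
      naturality := fun K K' f => by
        dsimp only [Functor.comp_map]
        rw [← DerivedCategory.Q.map_comp, ← DerivedCategory.Q.map_comp]
        congr 1
        ext i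
        exact π.naturality (f.f i) }

lemma dι_app_Q (ι : F ⟶ 𝟭 A) (K : CochainComplex A ℤ) :
    (dι ι).app (DerivedCategory.Q.obj K) =
      (objIso F K).hom ≫ DerivedCategory.Q.map (cι ι K) := by
  refine (Localization.liftNatTrans_app _ _ _ _ _ _ _ _).trans ?_
  exact congrArg (fun z => (objIso F K).hom ≫ z) (Category.comp_id _)

lemma dπ_app_Q (π : 𝟭 A ⟶ G) (K : CochainComplex A ℤ) :
    (dπ π).app (DerivedCategory.Q.obj K) =
      DerivedCategory.Q.map (cπ π K) ≫ (objIso G K).inv := by
  refine (Localization.liftNatTrans_app _ _ _ _ _ _ _ _).trans ?_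
  exact (Category.id_comp _)

/-- The distinguished triangle `F^D P ⟶ P ⟶ G^D P ⟶`. -/
lemma exists_triangle (ι : F ⟶ 𝟭 A) (π : 𝟭 A ⟶ G) (w : ∀ M, ι.app M ≫ π.app M = 0)
    (h : ∀ M, (ShortComplex.mk (ι.app M) (π.app M) (w M)).ShortExact) (P : DerivedCategory A) :
    ∃ δ : G.mapDerivedCategory.obj P ⟶ (F.mapDerivedCategory.obj P)⟦(1 : ℤ)⟧,
      Triangle.mk ((dι ι).app P) ((dπ π).app P) δ ∈ distTriang (DerivedCategory A) := by
  obtain ⟨K, ⟨e⟩⟩ : ∃ K : CochainComplex A ℤ, Nonempty (DerivedCategory.Q.obj K ≅ P) :=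
    ⟨_, ⟨DerivedCategory.Q.objObjPreimageIso P⟩⟩
  have wK : cι ι K ≫ cπ π K = 0 := by
    ext i
    exact w (K.X i)
  have hS : (ShortComplex.mk (cι ι K) (cπ π K) wK).ShortExact :=
    shortExact_of_degreewise (fun i => h (K.X i))
  have hT := DerivedCategory.triangleOfSES_distinguished hS
  let a := F.mapDerivedCategory.mapIso e.symm ≪≫ objIso F K
  let b := G.mapDerivedCategory.mapIso e.symm ≪≫ objIso G K
  refine ⟨b.hom ≫ DerivedCategory.triangleOfSESδ hS ≫ a.inv⟦(1 : ℤ)⟧', ?_⟩
  refine isomorphic_distinguished _ hT _ (Triangle.isoMk _ _ a e.symm b ?_ ?_ ?_)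
  · have h1 := (dι ι).naturality e.inv
    dsimp only [Functor.id_obj, Functor.id_map] at h1
    change (dι ι).app P ≫ e.inv = (F.mapDerivedCategory.map e.inv ≫ (objIso F K).hom) ≫
      DerivedCategory.Q.map (cι ι K)
    rw [Category.assoc, ← dι_app_Q, h1]
  · have h1 := (dπ π).naturality e.inv
    dsimp only [Functor.id_obj, Functor.id_map] at h1
    change (dπ π).app P ≫ G.mapDerivedCategory.map e.inv ≫ (objIso G K).hom = e.inv ≫
      DerivedCategory.Q.map (cπ π K)
    rw [← Category.assoc, ← h1, dπ_app_Q]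
    simp
  · change (b.hom ≫ DerivedCategory.triangleOfSESδ hS ≫ a.inv⟦(1 : ℤ)⟧') ≫ a.hom⟦(1 : ℤ)⟧' =
      b.hom ≫ DerivedCategory.triangleOfSESδ hS
    simp only [Category.assoc, ← Functor.map_comp, Iso.inv_hom_id]
    rw [CategoryTheory.Functor.map_id]
    exact congrArg (fun z => b.hom ≫ z) (Category.comp_id _)

end nat

end Pool.H29.DP
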