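import Pool.Agent.H29.DP

open CategoryTheory Limits Pretriangulated ZeroObject

universe w v u

namespace Pool.H29

variable {A : Type u} [Category.{v} A] [Abelian A] [HasDerivedCategory.{w} A]

/-- The embedding in degree `0`. -/
noncomputable abbrev S₀ (A : Type u) [Category.{v} A] [Abelian A] [HasDerivedCategory.{w} A] :
    A ⥤ DerivedCategory A := DerivedCategory.singleFunctor A 0

/-- The single complex. -/
noncomputable abbrev sg (M : A) : CochainComplex A ℤ :=
  (HomologicalComplex.single A (ComplexShape.up ℤ) 0).obj M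

lemma exists_epi_comp_eq_zero_aux {M N : A} {n : ℤ} (hn : n ≠ 0)
    (ξ : DerivedCategory.Q.obj (sg M) ⟶ (DerivedCategory.Q.obj (sg N))⟦n⟧) :
    ∃ (M' : A) (e : M' ⟶ M), Epi e ∧
      DerivedCategory.Q.map ((HomologicalComplex.single A (ComplexShape.up ℤ) 0).map e) ≫ ξ =
        0 := by
  let ξ' : DerivedCategory.Q.obj (sg M) ⟶ DerivedCategory.Q.obj ((sg N)⟦n⟧) :=
    ξ ≫ (DerivedCategory.Q.commShiftIso n).inv.app (sg N)
  have hLE : (sg M).IsStrictlyLE 0 := inferInstance
  obtain ⟨K, hK, s, hs, g, hfac⟩ := DerivedCategory.right_fac_of_isStrictlyLE ξ' 0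
  let c : (HomologicalComplex.single A (ComplexShape.up ℤ) 0).obj (K.X 0) ⟶ K :=
    HomologicalComplex.mkHomFromSingle (𝟙 _) (by
      intro k hk
      have : IsZero (K.X k) := K.isZero_of_isStrictlyLE 0 k (by
        simp only [ComplexShape.up_Rel] at hk
        lia)
      exact this.eq_of_tgt _ _)
  have hcg : c ≫ g = 0 := by
    apply HomologicalComplex.from_single_hom_ext
    apply IsZero.eq_of_tgt
    have : IsZero ((sg N).X (0 + n)) := HomologicalComplex.isZero_single_obj_X _ _ _ _ (by lia)
    exact this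
  let e : K.X 0 ⟶ M := (HomologicalComplex.single A (ComplexShape.up ℤ) 0).preimage (c ≫ s)
  have he : (HomologicalComplex.single A (ComplexShape.up ℤ) 0).map e = c ≫ s :=
    Functor.map_preimage _ _
  refine ⟨K.X 0, e, ?_, ?_⟩
  · rw [Preadditive.epi_iff_cancel_zero]
    intro T t ht
    have h1 : s ≫ (HomologicalComplex.single A (ComplexShape.up ℤ) 0).map t = 0 := by
      apply HomologicalComplex.to_single_hom_ext
      have h2 : c ≫ (s ≫ (HomologicalComplex.single A (ComplexShape.up ℤ) 0).map t) = 0 := by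
        rw [← Category.assoc, ← he, ← Functor.map_comp, ht, Functor.map_zero]
      have h3 := congrArg (fun φ => HomologicalComplex.Hom.f φ 0) h2
      simp only [HomologicalComplex.comp_f, HomologicalComplex.zero_f] at h3
      have h4 : IsIso (c.f 0) := by
        simp only [c, HomologicalComplex.mkHomFromSingle_f, Category.comp_id]
        infer_instance
      have h5 := (Preadditive.IsIso.comp_left_eq_zero (c.f 0) _).1 h3
      exact h5
    have h2 : DerivedCategory.Q.map s ≫
        DerivedCategory.Q.map ((HomologicalComplex.single A (ComplexShape.up ℤ) 0).map t) = 0 := by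
      rw [← DerivedCategory.Q.map_comp, h1, Functor.map_zero]
    have h3 := (Preadditive.IsIso.comp_left_eq_zero (DerivedCategory.Q.map s) _).1 h2
    have h4 : (S₀ A).map t = 0 := h3
    exact (S₀ A).map_injective (by rw [h4, Functor.map_zero])
  · have h1 : DerivedCategory.Q.map ((HomologicalComplex.single A (ComplexShape.up ℤ) 0).map e) ≫
        ξ' = 0 := by
      rw [he, hfac, DerivedCategory.Q.map_comp, Category.assoc, IsIso.hom_inv_id_assoc,
        ← DerivedCategory.Q.map_comp, hcg, Functor.map_zero]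
    have h2 : (DerivedCategory.Q.map
        ((HomologicalComplex.single A (ComplexShape.up ℤ) 0).map e) ≫ ξ) ≫
          (DerivedCategory.Q.commShiftIso n).inv.app (sg N) = 0 := by
      rw [Category.assoc]; exact h1
    exact (Preadditive.IsIso.comp_right_eq_zero _ _).1 h2

/-- A morphism `M ⟶ N⟦n⟧` with `n ≠ 0` is killed by an epimorphism of `A`. -/
lemma exists_epi_comp_eq_zero {M N : A} {n : ℤ} (hn : n ≠ 0)
    (ξ : (S₀ A).obj M ⟶ ((S₀ A).obj N)⟦n⟧) :
    ∃ (M' : A) (e : M' ⟶ M), Epi e ∧ (S₀ A).map e ≫ ξ = 0 :=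
  exists_epi_comp_eq_zero_aux hn ξ

/-- There are no morphisms of negative degree. -/
lemma eq_zero_of_neg {M N : A} {n : ℤ} (hn : n < 0)
    (ξ : (S₀ A).obj M ⟶ ((S₀ A).obj N)⟦n⟧) : ξ = 0 := by
  have h1 : DerivedCategory.TStructure.t.IsLE ((S₀ A).obj M) 0 := inferInstance
  have h2 : DerivedCategory.TStructure.t.IsGE ((S₀ A).obj N) 0 := inferInstance
  have h3 : DerivedCategory.TStructure.t.IsGE (((S₀ A).obj N)⟦n⟧) (-n) :=
    DerivedCategory.TStructure.t.isGE_shift _ 0 n (-n) (by lia)
  exact DerivedCategory.TStructure.t.zero_of_isLE_of_isGE ξ 0 (-n) (by lia) h1 h3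

end Pool.H29
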