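import Mathlib

open Polynomial

namespace Pool.H29.Ex

/-- `ℤ[x, 1/x]`. -/
abbrev B : Type := Localization.Away (X : ℤ[X])

/-- `ℤ[s, 1/(2s)]`. -/
abbrev Lr : Type := Localization.Away (2 * X : ℤ[X])

/-- `ℤ[s] → ℤ[s, 1/(2s)]`. -/
noncomputable abbrev ιR : ℤ[X] →+* Lr := algebraMap ℤ[X] Lr

/-- `x ↦ 2 s`. -/
noncomputable def α : ℤ[X] →+* ℤ[X] := compRingHom (2 * X)

lemma α_apply (p : ℤ[X]) : α p = p.comp (2 * X) := rfl

lemma α_X : α X = 2 * X := by simp [α_apply]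

lemma α_coeff (p : ℤ[X]) (n : ℕ) : (α p).coeff n = p.coeff n * 2 ^ n := by
  have : (2 * X : ℤ[X]) = C 2 * X := by simp
  rw [α_apply, this, comp_C_mul_X_coeff]

lemma isUnit_ιR : IsUnit (ιR (2 * X)) := IsLocalization.Away.algebraMap_isUnit _

lemma isUnit_X : IsUnit ((ιR.comp α) X) := by
  rw [RingHom.comp_apply, α_X]
  exact isUnit_ιR

/-- `ℤ[x, 1/x] → ℤ[s, 1/(2s)]`, `x ↦ 2 s`. -/
noncomputable def β : B →+* Lr := IsLocalization.Away.lift (X : ℤ[X]) isUnit_X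

lemma β_algebraMap (p : ℤ[X]) : β (algebraMap ℤ[X] B p) = ιR (α p) :=
  IsLocalization.Away.lift_eq _ _ _

lemma β_two : β 2 = ιR 2 := by
  have h := β_algebraMap (C 2)
  have h1 : algebraMap ℤ[X] B (C 2) = 2 := by
    rw [show (C 2 : ℤ[X]) = 2 from rfl]
    exact map_ofNat _ 2
  have h2 : α (C 2) = 2 := by
    rw [α_apply, C_comp]
    rfl
  rw [h1, h2] at h
  exact h

lemma ιR_injective : Function.Injective ιR := by
  apply IsLocalization.injective Lr (M := Submonoid.powers (2 * X : ℤ[X]))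
  apply powers_le_nonZeroDivisors_of_noZeroDivisors
  simp

lemma α_injective : Function.Injective α := by
  rw [injective_iff_map_eq_zero]
  intro p hp
  ext n
  have h := α_coeff p n
  rw [hp, coeff_zero] at h
  rcases mul_eq_zero.1 h.symm with h | h
  · simpa using h
  · exact absurd h (by positivity)

/-- Presentation of elements of `B`. -/
lemma exists_B (b : B) : ∃ (p : ℤ[X]) (m : ℕ), b * algebraMap ℤ[X] B (X ^ m) = algebraMap _ _ p := by
  obtain ⟨⟨p, ⟨_, m, rfl⟩⟩, h⟩ := IsLocalization.surj (Submonoid.powers (X : ℤ[X])) b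
  exact ⟨p, m, h⟩

/-- Presentation of elements of `Lr`. -/
lemma exists_L (z : Lr) : ∃ (p : ℤ[X]) (m : ℕ), z * ιR ((2 * X) ^ m) = ιR p := by
  obtain ⟨⟨p, ⟨_, m, rfl⟩⟩, h⟩ := IsLocalization.surj (Submonoid.powers (2 * X : ℤ[X])) z
  exact ⟨p, m, h⟩

lemma key_eq {φ : ℤ[X]} {ψ : B} (h : ιR φ = β ψ) : ∃ (p : ℤ[X]) (m : ℕ),
    φ * (2 * X) ^ m = α p := by
  obtain ⟨p, m, hp⟩ := exists_B ψ
  refine ⟨p, m, ιR_injective ?_⟩
  have h1 := congrArg β hp
  rw [map_mul, β_algebraMap, β_algebraMap, ← h, map_pow, α_X] at h1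
  rw [map_mul, h1]

lemma coeff_even {φ : ℤ[X]} {ψ : B} (h : ιR φ = β ψ) (i : ℕ) (hi : i ≠ 0) :
    (2 : ℤ) ∣ φ.coeff i := by
  obtain ⟨p, m, hp⟩ := key_eq h
  have h1 : (φ * (2 * X) ^ m).coeff (i + m) = 2 ^ m * φ.coeff i := by
    have : φ * (2 * X) ^ m = C (2 ^ m) * φ * X ^ m := by
      rw [mul_pow, C_pow, C_ofNat]; ring
    rw [this, coeff_mul_X_pow, coeff_C_mul]
  rw [hp, α_coeff, pow_add] at h1
  have h2 : (2 : ℤ) ^ m ≠ 0 := by positivity
  have h3 : φ.coeff i = p.coeff (i + m) * 2 ^ i := by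
    apply mul_left_cancel₀ h2
    rw [← h1]; ring
  rw [h3]
  exact (dvd_pow_self 2 hi).mul_left _

/-- Evaluation at `0` modulo `2`. -/
noncomputable def ev₀ : ℤ[X] →+* ZMod 2 := eval₂RingHom (Int.castRingHom (ZMod 2)) 0

/-- Evaluation at `1` modulo `2`. -/
noncomputable def ev₁ : ℤ[X] →+* ZMod 2 := eval₂RingHom (Int.castRingHom (ZMod 2)) 1

lemma ev_eq {φ : ℤ[X]} {ψ : B} (h : ιR φ = β ψ) : ev₀ φ = ev₁ φ := by
  have h0 : ev₀ φ = ((φ.coeff 0 : ℤ) : ZMod 2) := by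
    simp [ev₀, eval₂_at_zero]
  have h1 : ev₁ φ = ((φ.coeff 0 : ℤ) : ZMod 2) := by
    rw [ev₁, coe_eval₂RingHom, eval₂_eq_sum_range, Finset.sum_range_succ']
    simp only [one_pow, mul_one, pow_zero, Int.coe_castRingHom]
    rw [Finset.sum_eq_zero, zero_add]
    intro i _
    have := coeff_even h (i + 1) (by simp)
    exact (ZMod.intCast_zmod_eq_zero_iff_dvd _ 2).2 (by exact_mod_cast this)
  rw [h0, h1]

lemma ev_ne : ev₀ ≠ ev₁ := by
  intro h
  have := congrArg (fun g => g X) h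
  simp [ev₀, ev₁] at this

lemma β_injective : Function.Injective β := by
  rw [injective_iff_map_eq_zero]
  intro b hb
  obtain ⟨p, m, hp⟩ := exists_B b
  have h1 := congrArg β hp
  rw [map_mul, hb, zero_mul, β_algebraMap] at h1
  have h2 : p = 0 := by
    apply α_injective
    apply ιR_injective
    rw [← h1, map_zero, map_zero]
  rw [h2, map_zero] at hp
  have hu : IsUnit (algebraMap ℤ[X] B (X ^ m)) := by
    rw [map_pow]
    exact (IsLocalization.Away.algebraMap_isUnit (X : ℤ[X])).pow m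
  exact (hu.mul_left_eq_zero).1 hp

/-- `Lr` is the localization of `B` at `2`. -/
lemma isLocalization_β : letI := β.toAlgebra; IsLocalization.Away (2 : B) Lr := by
  let := β.toAlgebra
  have halg : ∀ b : B, algebraMap B Lr b = β b := fun _ => rfl
  have hu2 : IsUnit (ιR 2) := by
    have := isUnit_ιR
    rw [map_mul] at this
    exact isUnit_of_mul_isUnit_left this
  have hmono : ∀ (i : ℕ) , ∃ b : B, β b = ιR (X ^ i) * ιR 2 ^ i := by
    intro i
    refine ⟨algebraMap ℤ[X] B (X ^ i), ?_⟩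
    rw [β_algebraMap, map_pow, α_X, map_pow, map_pow, map_mul, mul_pow, mul_comm]
  have hpoly : ∀ p : ℤ[X], ∃ (n : ℕ) (b : B), β b = ιR p * ιR 2 ^ n := by
    intro p
    induction p using Polynomial.induction_on' with
    | add p q hp hq =>
      obtain ⟨n, b, hb⟩ := hp
      obtain ⟨n', b', hb'⟩ := hq
      refine ⟨n + n', b * 2 ^ n' + b' * 2 ^ n, ?_⟩
      have h2 : β 2 = ιR 2 := β_two
      rw [map_add, map_mul, map_mul, map_pow, map_pow, h2, hb, hb', map_add, pow_add]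
      ring
    | monomial n a =>
      obtain ⟨b, hb⟩ := hmono n
      refine ⟨n, algebraMap ℤ[X] B (C a) * b, ?_⟩
      rw [map_mul, hb, β_algebraMap]
      have : α (C a) = C a := by rw [α_apply, C_comp]
      rw [this, ← C_mul_X_pow_eq_monomial, map_mul]
      ring
  rw [IsLocalization.Away, isLocalization_iff]
  refine ⟨?_, ?_, ?_⟩
  · rintro ⟨_, n, rfl⟩
    rw [halg, map_pow]
    have h2 : β 2 = ιR 2 := β_two
    rw [h2]
    exact hu2.pow n
  · intro z
    obtain ⟨p, m, hp⟩ := exists_L z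
    obtain ⟨n, b, hb⟩ := hpoly p
    have hT : IsUnit (algebraMap ℤ[X] B (X ^ m)) := by
      rw [map_pow]
      exact (IsLocalization.Away.algebraMap_isUnit (X : ℤ[X])).pow m
    obtain ⟨t, ht⟩ := hT
    refine ⟨⟨b * ↑t⁻¹, ⟨2 ^ n, n, rfl⟩⟩, ?_⟩
    simp only
    rw [halg, halg, map_mul, map_pow]
    have h2 : β 2 = ιR 2 := β_two
    rw [h2, hb]
    have hβt : β ↑t = ιR ((2 * X) ^ m) := by
      rw [ht, β_algebraMap, map_pow, α_X]
    have hinv : β ↑t * β ↑t⁻¹ = 1 := by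
      rw [← map_mul, Units.mul_inv, map_one]
    rw [← hp, ← hβt]
    calc z * ιR 2 ^ n = z * (β ↑t * β ↑t⁻¹) * ιR 2 ^ n := by rw [hinv, mul_one]
      _ = _ := by ring
  · intro x y hxy
    rw [halg, halg] at hxy
    exact ⟨1, by rw [β_injective hxy]⟩

/-- `Lr` is generated by the images of `ℤ[s]` and `B`. -/
lemma exists_mul (z : Lr) : ∃ (p : ℤ[X]) (b : B), z = ιR p * β b := by
  obtain ⟨p, m, hp⟩ := exists_L z
  have hT : IsUnit (algebraMap ℤ[X] B (X ^ m)) := by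
    rw [map_pow]
    exact (IsLocalization.Away.algebraMap_isUnit (X : ℤ[X])).pow m
  obtain ⟨t, ht⟩ := hT
  refine ⟨p, ↑t⁻¹, ?_⟩
  have hβt : β ↑t = ιR ((2 * X) ^ m) := by
    rw [ht, β_algebraMap, map_pow, α_X]
  have hinv : β ↑t * β ↑t⁻¹ = 1 := by
    rw [← map_mul, Units.mul_inv, map_one]
  rw [← hp, ← hβt, mul_assoc, hinv, mul_one]

end Pool.H29.Ex
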