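import Pool.Agent.H29.Sep
import Pool.Agent.H29.Rings

open CategoryTheory Limits TopologicalSpace AlgebraicGeometry Opposite Polynomial

namespace Pool.H29.Ex

/-- `Spec ℤ[s]`. -/
noncomputable abbrev SU : Scheme.{0} := Spec (CommRingCat.of ℤ[X])

/-- `Spec ℤ[x, 1/x]`. -/
noncomputable abbrev SW : Scheme.{0} := Spec (CommRingCat.of B)

/-- `Spec ℤ[s, 1/(2s)]`. -/
noncomputable abbrev SV : Scheme.{0} := Spec (CommRingCat.of Lr)

/-- The open immersion `Spec ℤ[s, 1/(2s)] ⟶ Spec ℤ[s]`. -/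
noncomputable def jU : SV ⟶ SU := Spec.map (CommRingCat.ofHom ιR)

/-- The open immersion `Spec ℤ[s, 1/(2s)] ⟶ Spec ℤ[x, 1/x]`, `x ↦ 2 s`. -/
noncomputable def jW : SV ⟶ SW := Spec.map (CommRingCat.ofHom β)

instance : IsOpenImmersion jU :=
  inferInstanceAs (IsOpenImmersion (Spec.map (CommRingCat.ofHom (algebraMap ℤ[X] Lr))))

instance : IsOpenImmersion jW := by
  let := β.toAlgebra
  have := isLocalization_β
  exact IsOpenImmersion.of_isLocalization (S := Lr) (2 : B)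

/-- The glued scheme. -/
noncomputable def XX : Scheme.{0} := pushout jU jW

/-- The first chart. -/
noncomputable def iU : SU ⟶ XX := pushout.inl jU jW

/-- The second chart. -/
noncomputable def iW : SW ⟶ XX := pushout.inr jU jW

instance : IsOpenImmersion iU :=
  inferInstanceAs (IsOpenImmersion (colimit.ι (span jU jW) WalkingSpan.left))

instance : IsOpenImmersion iW :=
  inferInstanceAs (IsOpenImmersion (colimit.ι (span jU jW) WalkingSpan.right))

lemma jU_iU : jU ≫ iU = jW ≫ iW := pushout.condition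

lemma jointly_surjective (x : XX) : (∃ u : SU, iU u = x) ∨ (∃ w : SW, iW w = x) := by
  obtain ⟨i, xi, h⟩ := Scheme.IsLocallyDirected.ι_jointly_surjective (span jU jW) x
  rcases i with _ | _ | _
  · left
    have e : jU ≫ iU = colimit.ι (span jU jW) WalkingSpan.zero :=
      colimit.w (span jU jW) WalkingSpan.Hom.fst
    refine ⟨jU xi, ?_⟩
    rw [← Scheme.Hom.comp_apply, e]
    exact h
  · exact Or.inl ⟨xi, h⟩
  · exact Or.inr ⟨xi, h⟩

lemma iU_eq_iW_iff (u : SU) (w : SW) : iU u = iW w ↔ ∃ v : SV, jU v = u ∧ jW v = w := by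
  constructor
  · intro h
    obtain ⟨k, fi, fj, x, h1, h2⟩ := (Scheme.IsLocallyDirected.ι_eq_ι_iff (span jU jW)
      (i := WalkingSpan.left) (j := WalkingSpan.right)).1 h
    rcases k with _ | _ | _
    · obtain rfl : fi = WalkingSpan.Hom.fst := Subsingleton.elim _ _
      obtain rfl : fj = WalkingSpan.Hom.snd := Subsingleton.elim _ _
      exact ⟨x, h1, h2⟩
    · nomatch fj
    · nomatch fi
  · rintro ⟨v, rfl, rfl⟩
    rw [← Scheme.Hom.comp_apply, ← Scheme.Hom.comp_apply, jU_iU]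

lemma isPullback_UW : IsPullback jU jW iU iW := by
  refine IsOpenImmersion.isPullback jU jW iU iW jU_iU.symm ?_
  ext w
  constructor
  · rintro ⟨u, hu⟩
    obtain ⟨v, -, hv⟩ := (iU_eq_iW_iff u w).1 hu
    exact ⟨v, hv⟩
  · rintro ⟨v, rfl⟩
    refine ⟨jU v, ?_⟩
    rw [← Scheme.Hom.comp_apply, ← Scheme.Hom.comp_apply, jU_iU]

/-- The affine cover. -/
noncomputable def cov : XX.OpenCover :=
  Scheme.Cover.mkOfCovers Bool (fun i => bif i then SU else SW)
    (fun i => match i with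
      | true => iU
      | false => iW)
    (fun x => by
      rcases jointly_surjective x with ⟨u, hu⟩ | ⟨w, hw⟩
      · exact ⟨true, u, hu⟩
      · exact ⟨false, w, hw⟩)
    (fun i => by
      cases i
      · exact (inferInstance : IsOpenImmersion iW)
      · exact (inferInstance : IsOpenImmersion iU))

instance (i : cov.I₀) : IsAffine (cov.X i) := by
  change Bool at i
  cases i
  · exact (inferInstance : IsAffine SW)
  · exact (inferInstance : IsAffine SU)

lemma exists_sections (z : Γ(SV, ⊤)) : ∃ (p : Γ(SU, ⊤)) (q : Γ(SW, ⊤)),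
    z = jU.appTop p * jW.appTop q := by
  obtain ⟨p, b, h⟩ := exists_mul ((Scheme.ΓSpecIso (CommRingCat.of Lr)).hom z)
  refine ⟨(Scheme.ΓSpecIso (CommRingCat.of ℤ[X])).inv p,
    (Scheme.ΓSpecIso (CommRingCat.of B)).inv b, ?_⟩
  have e1 : jU.appTop ((Scheme.ΓSpecIso (CommRingCat.of ℤ[X])).inv p) =
      (Scheme.ΓSpecIso (CommRingCat.of Lr)).inv (ιR p) :=
    (ConcreteCategory.congr_hom
      (Scheme.ΓSpecIso_inv_naturality (CommRingCat.ofHom ιR)) p).symm
  have e2 : jW.appTop ((Scheme.ΓSpecIso (CommRingCat.of B)).inv b) =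
      (Scheme.ΓSpecIso (CommRingCat.of Lr)).inv (β b) :=
    (ConcreteCategory.congr_hom
      (Scheme.ΓSpecIso_inv_naturality (CommRingCat.ofHom β)) b).symm
  rw [e1, e2, ← map_mul]
  have h3 : (Scheme.ΓSpecIso (CommRingCat.of Lr)).inv
      ((Scheme.ΓSpecIso (CommRingCat.of Lr)).hom z) = z :=
    ConcreteCategory.congr_hom (Scheme.ΓSpecIso (CommRingCat.of Lr)).hom_inv_id z
  rw [← h3, h]

lemma id_sections {Z : Scheme.{0}} (z : Γ(Z, ⊤)) : ∃ (p : Γ(Z, ⊤)) (q : Γ(Z, ⊤)),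
    z = (𝟙 Z : Z ⟶ Z).appTop p * (𝟙 Z : Z ⟶ Z).appTop q :=
  ⟨z, 1, by simp⟩

theorem XX_isSeparated : XX.IsSeparated := by
  refine isSeparated_of_cover cov ?_
  intro i j
  change Bool at i j
  cases i <;> cases j
  · exact ⟨SW, inferInstance, 𝟙 _, 𝟙 _, IsKernelPair.id_of_mono iW, id_sections⟩
  · refine ⟨SV, inferInstance, jW, jU, isPullback_UW.flip, fun z => ?_⟩
    obtain ⟨p, q, h⟩ := exists_sections z
    exact ⟨q, p, h.trans (mul_comm _ _)⟩
  · exact ⟨SV, inferInstance, jU, jW, isPullback_UW, exists_sections⟩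
  · exact ⟨SU, inferInstance, 𝟙 _, 𝟙 _, IsKernelPair.id_of_mono iU, id_sections⟩

/-- The scheme is not quasi-affine. -/
theorem XX_not_isQuasiAffine : ¬ XX.IsQuasiAffine := by
  intro hq
  have hmono : Mono XX.toSpecΓ := inferInstance
  let c : Γ(XX, ⊤) ⟶ CommRingCat.of ℤ[X] :=
    iU.appTop ≫ (Scheme.ΓSpecIso (CommRingCat.of ℤ[X])).hom
  let c' : Γ(XX, ⊤) ⟶ CommRingCat.of B :=
    iW.appTop ≫ (Scheme.ΓSpecIso (CommRingCat.of B)).hom
  have hcc : c ≫ CommRingCat.ofHom ιR = c' ≫ CommRingCat.ofHom β := by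
    have h1 : iU.appTop ≫ jU.appTop = iW.appTop ≫ jW.appTop := by
      rw [← Scheme.Hom.comp_appTop, ← Scheme.Hom.comp_appTop, jU_iU]
    have h2 : jU.appTop ≫ (Scheme.ΓSpecIso (CommRingCat.of Lr)).hom =
        (Scheme.ΓSpecIso (CommRingCat.of ℤ[X])).hom ≫ CommRingCat.ofHom ιR :=
      Scheme.ΓSpecIso_naturality (CommRingCat.ofHom ιR)
    have h3 : jW.appTop ≫ (Scheme.ΓSpecIso (CommRingCat.of Lr)).hom =
        (Scheme.ΓSpecIso (CommRingCat.of B)).hom ≫ CommRingCat.ofHom β :=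
      Scheme.ΓSpecIso_naturality (CommRingCat.ofHom β)
    simp only [c, c', Category.assoc]
    rw [← h2, ← h3, ← Category.assoc, h1, Category.assoc]
  have hev : c ≫ CommRingCat.ofHom ev₀ = c ≫ CommRingCat.ofHom ev₁ := by
    ext g
    exact ev_eq (ψ := c' g) (ConcreteCategory.congr_hom hcc g)
  have hSpec : iU ≫ XX.toSpecΓ = Spec.map c := by
    rw [Scheme.toSpecΓ_naturality, ← SpecMap_ΓSpecIso_hom, ← Spec.map_comp]
  have h4 : Spec.map (CommRingCat.ofHom ev₀) ≫ iU ≫ XX.toSpecΓ =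
      Spec.map (CommRingCat.ofHom ev₁) ≫ iU ≫ XX.toSpecΓ := by
    rw [hSpec, ← Spec.map_comp, ← Spec.map_comp, hev]
  rw [← Category.assoc, ← Category.assoc, cancel_mono, cancel_mono] at h4
  have h5 := Spec.map_injective h4
  exact ev_ne (congrArg CommRingCat.Hom.hom h5)

lemma comp_eq : ιR.comp α = β.comp (algebraMap ℤ[X] B) :=
  RingHom.ext fun p => (β_algebraMap p).symm

/-- The morphism to the affine line. -/
noncomputable def toA : XX ⟶ Spec (CommRingCat.of ℤ[X]) :=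
  pushout.desc (Spec.map (CommRingCat.ofHom α))
    (Spec.map (CommRingCat.ofHom (algebraMap ℤ[X] B))) (by
      rw [jU, jW, ← Spec.map_comp, ← Spec.map_comp]
      exact congrArg (fun g => Spec.map (CommRingCat.ofHom g)) comp_eq)

lemma iU_toA : iU ≫ toA = Spec.map (CommRingCat.ofHom α) := pushout.inl_desc _ _ _

lemma iW_toA : iW ≫ toA = Spec.map (CommRingCat.ofHom (algebraMap ℤ[X] B)) :=
  pushout.inr_desc _ _ _

/-- The global function `x`. -/
noncomputable def ff : Γ(XX, ⊤) :=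
  toA.appTop ((Scheme.ΓSpecIso (CommRingCat.of ℤ[X])).inv X)

lemma basicOpen_ff : XX.basicOpen ff = iW.opensRange := by
  have h1 : XX.basicOpen ff = toA ⁻¹ᵁ (PrimeSpectrum.basicOpen (X : ℤ[X])) := by
    rw [ff, ← Scheme.preimage_basicOpen_top]
    congr 1
    exact basicOpen_eq_of_affine _
  rw [h1]
  have hU : iU ⁻¹ᵁ toA ⁻¹ᵁ (PrimeSpectrum.basicOpen (X : ℤ[X])) = jU.opensRange := by
    rw [← Scheme.Hom.comp_preimage, iU_toA]
    have : jU.opensRange = PrimeSpectrum.basicOpen (2 * X : ℤ[X]) :=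
      Scheme.Hom.opensRange_localizationAway (R := CommRingCat.of ℤ[X]) (2 * X)
    rw [this, ← α_X]
    rfl
  have hW : iW ⁻¹ᵁ toA ⁻¹ᵁ (PrimeSpectrum.basicOpen (X : ℤ[X])) = ⊤ := by
    rw [← Scheme.Hom.comp_preimage, iW_toA]
    have : Spec.map (CommRingCat.ofHom (algebraMap ℤ[X] B)) ⁻¹ᵁ
        PrimeSpectrum.basicOpen (X : ℤ[X]) = PrimeSpectrum.basicOpen (algebraMap ℤ[X] B X) := rfl
    rw [this]
    ext p
    refine ⟨fun _ => trivial, fun _ hp => ?_⟩
    exact p.2.ne_top (Ideal.eq_top_of_isUnit_mem _ hp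
      (IsLocalization.Away.algebraMap_isUnit (X : ℤ[X])))
  ext x
  constructor
  · intro hx
    rcases jointly_surjective x with ⟨u, rfl⟩ | ⟨w, rfl⟩
    · have h2 : u ∈ iU ⁻¹ᵁ toA ⁻¹ᵁ (PrimeSpectrum.basicOpen (X : ℤ[X])) := hx
      rw [hU] at h2
      obtain ⟨v, rfl⟩ := h2
      refine ⟨jW v, ?_⟩
      rw [← Scheme.Hom.comp_apply, ← Scheme.Hom.comp_apply, jU_iU]
    · exact ⟨w, rfl⟩
  · rintro ⟨w, rfl⟩
    have : w ∈ iW ⁻¹ᵁ toA ⁻¹ᵁ (PrimeSpectrum.basicOpen (X : ℤ[X])) := by rw [hW]; trivial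
    exact this

lemma covers : (⊤ : XX.Opens) ≤ iU.opensRange ⊔ XX.basicOpen ff := by
  rw [basicOpen_ff]
  rintro x -
  rcases jointly_surjective x with ⟨u, hu⟩ | ⟨w, hw⟩
  · exact Or.inl ⟨u, hu⟩
  · exact Or.inr ⟨w, hw⟩

end Pool.H29.Ex
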