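import Pool.Agent.H29.ResD
import Pool.Agent.H29.Bdd

open CategoryTheory Limits AlgebraicGeometry ZeroObject

universe v u

namespace Pool.H29

section Category

variable {C : Type*} [Category C] [Preadditive C] [HasBinaryBiproducts C]

/-- Adding one summand to a constant coproduct. -/
noncomputable def optIso (O : C) (I : Type v) [HasCoproduct fun _ : I => O]
    [HasCoproduct fun _ : Option I => O] :
    (∐ fun _ : Option I => O) ≅ O ⊞ (∐ fun _ : I => O) where
  hom := Sigma.desc fun i => match i with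
    | none => biprod.inl
    | some i => Sigma.ι (fun _ : I => O) i ≫ biprod.inr
  inv := biprod.desc (Sigma.ι (fun _ : Option I => O) none)
    (Sigma.desc fun i => Sigma.ι (fun _ : Option I => O) (some i))
  hom_inv_id := by
    apply Sigma.hom_ext
    intro i
    cases i with
    | none => simp
    | some i => simp
  inv_hom_id := by
    apply biprod.hom_ext'
    · simp
    · simp only [biprod.inr_desc_assoc, Category.comp_id]
      apply Sigma.hom_ext
      intro i
      simp

end Category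

variable {X Y : Scheme.{u}}

variable (X) in
/-- Finite free modules. -/
def FF : ℕ → X.Modules → Prop
  | 0, M => IsZero M
  | n + 1, M => ∃ N : X.Modules, FF n N ∧ Nonempty (M ≅ OX X ⊞ N)

lemma FF.iso {n : ℕ} {M M' : X.Modules} (h : FF X n M) (e : M ≅ M') : FF X n M' := by
  cases n with
  | zero => exact IsZero.of_iso h e.symm
  | succ n =>
    obtain ⟨N, hN, ⟨e'⟩⟩ := h
    exact ⟨N, hN, ⟨e.symm ≪≫ e'⟩⟩

lemma ff_one : FF X 1 (OX X) := ⟨0, isZero_zero _, ⟨(isoBiprodZero (isZero_zero _))⟩⟩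

lemma FF.biprod {m n : ℕ} {M N : X.Modules} (h : FF X m M) (h' : FF X n N) :
    FF X (m + n) (M ⊞ N) := by
  induction m generalizing M with
  | zero =>
    rw [Nat.zero_add]
    exact h'.iso (isoZeroBiprod h)
  | succ m ih =>
    obtain ⟨K, hK, ⟨e⟩⟩ := h
    rw [Nat.succ_add]
    exact ⟨K ⊞ N, ih hK, ⟨biprod.mapIso e (Iso.refl N) ≪≫ biprod.associator _ _ _⟩⟩

lemma FF.restrict {n : ℕ} {M : X.Modules} (h : FF X n M) (f : Y ⟶ X) [IsOpenImmersion f] :
    FF Y n ((rF f).obj M) := by
  induction n generalizing M with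
  | zero => exact Functor.map_isZero _ h
  | succ n ih =>
    obtain ⟨N, hN, ⟨e⟩⟩ := h
    have := preservesBinaryBiproducts_of_preservesBiproducts (rF f)
    exact ⟨_, ih hN, ⟨(rF f).mapIso e ≪≫ (rF f).mapBiprod _ _ ≪≫
      biprod.mapIso (Scheme.Modules.restrictUnitIso f) (Iso.refl _)⟩⟩

lemma FF.exists_free {n : ℕ} {M : X.Modules} (h : FF X n M) :
    ∃ I : Type u, Finite I ∧ Nonempty (M ≅ SheafOfModules.free I) := by
  induction n generalizing M with
  | zero =>
    refine ⟨PEmpty, inferInstance, ⟨IsZero.iso h ?_⟩⟩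
    rw [IsZero.iff_id_eq_zero]
    exact Sigma.hom_ext (f := fun _ : PEmpty.{u + 1} => OX X) _ _ (fun i => i.elim)
  | succ n ih =>
    obtain ⟨N, hN, ⟨e⟩⟩ := h
    obtain ⟨I, hI, ⟨e'⟩⟩ := ih hN
    exact ⟨Option I, inferInstance, ⟨e ≪≫ biprod.mapIso (Iso.refl _) e' ≪≫
      (optIso (OX X) I).symm⟩⟩

lemma exists_ff_free (I : Type u) [Finite I] :
    ∃ n, FF X n (SheafOfModules.free (R := X.ringCatSheaf) I) := by
  induction I using Finite.induction_empty_option with
  | of_equiv e h =>
    obtain ⟨n, hn⟩ := h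
    exact ⟨n, hn.iso (Sigma.whiskerEquiv e fun _ => Iso.refl (OX X))⟩
  | h_empty =>
    refine ⟨0, ?_⟩
    change IsZero _
    rw [IsZero.iff_id_eq_zero]
    exact Sigma.hom_ext (f := fun _ : PEmpty.{u + 1} => OX X) _ _ (fun i => i.elim)
  | h_option h =>
    obtain ⟨n, hn⟩ := h
    exact ⟨n + 1, _, hn, ⟨optIso (OX X) _⟩⟩

end Pool.H29
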