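import Pool.Agent.H29.Van

open CategoryTheory Limits TopologicalSpace AlgebraicGeometry Opposite

universe u

namespace Pool.H29

variable {X : Scheme.{u}}

/-- `B` is supported in `W` and free of rank one on `W` with generator `b`. -/
structure FreeOn (W : X.Opens) (B : X.Modules) (b : Γ(B, W)) : Prop where
  supp : Supp W B
  bij : ∀ (U : X.Opens) (h : U ≤ W),
    Function.Bijective (fun r : Γ(X, U) => r • res B h b)

variable (X) in
/-- The structure sheaf. -/
noncomputable abbrev OX : X.Modules := SheafOfModules.unit X.ringCatSheaf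

/-- The section of the structure sheaf given by a function. -/
def toO {U : X.Opens} (r : Γ(X, U)) : Γ(OX X, U) := r

lemma res_toO {U V : X.Opens} (h : V ≤ U) (r : Γ(X, U)) :
    res (OX X) h (toO r) = toO (X.presheaf.map (homOfLE h).op r) := rfl

lemma smul_toO {U : X.Opens} (r s : Γ(X, U)) : r • toO s = toO (r * s) := rfl

lemma freeOn_top : FreeOn ⊤ (OX X) (toO 1) where
  supp U s x hx hxW := (hxW trivial).elim
  bij U h := by
    have e : ∀ r : Γ(X, U), r • res (OX X) h (toO 1) = toO r := by
      intro r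
      rw [res_toO, map_one, smul_toO, mul_one]
    constructor
    · intro r s hrs
      simp only [e] at hrs
      exact hrs
    · intro s
      exact ⟨s, e s⟩

/-- The section of `L_V M` over `U ≤ V` given by a section of `M` over `U`. -/
noncomputable def toL (V : X.Opens) {M : X.Modules} {U : X.Opens} (h : U ≤ V) (s : Γ(M, U)) :
    Γ((L V).obj M, U) := (Lι_exists (V := V) (M := M) (t := s) (Small.of_le h)).choose

@[simp]
lemma ι_toL (V : X.Opens) {M : X.Modules} {U : X.Opens} (h : U ≤ V) (s : Γ(M, U)) :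
    (lι V M).app U (toL V h s) = s :=
  (Lι_exists (V := V) (M := M) (t := s) (Small.of_le h)).choose_spec

lemma res_toL (V : X.Opens) {M : X.Modules} {U U' : X.Opens} (h : U ≤ V) (h' : U' ≤ U)
    (s : Γ(M, U)) : res _ h' (toL V h s) = toL V (h'.trans h) (res M h' s) := by
  apply Lι_inj V M U'
  rw [app_res, ι_toL, ι_toL]

/-- Restricting a rank one free object. -/
lemma FreeOn.resL {W : X.Opens} {B : X.Modules} {b : Γ(B, W)} (h : FreeOn W B b) (V : X.Opens) :
    FreeOn (W ⊓ V) ((L V).obj B) (toL V inf_le_right (res B inf_le_left b)) where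
  supp U s x hx hxW := by
    by_cases hxV : x ∈ V
    · have hxW' : x ∉ W := fun h => hxW ⟨h, hxV⟩
      exact h.supp.L V U s x hx hxW'
    · exact supp_L V B U s x hx hxV
  bij U hU := by
    have e : ∀ r : Γ(X, U), (lι V B).app U
        (r • res _ hU (toL V inf_le_right (res B inf_le_left b))) =
          r • res B (hU.trans inf_le_left) b := by
      intro r
      rw [Scheme.Modules.Hom.app_smul, app_res, ι_toL, res_res]
    have hb := h.bij U (hU.trans inf_le_left)
    constructor
    · intro r s hrs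
      apply hb.1
      simp only at hrs ⊢
      rw [← e, ← e, hrs]
    · intro s
      obtain ⟨r, hr⟩ := hb.2 ((lι V B).app U s)
      refine ⟨r, Lι_inj V B U ?_⟩
      simp only at hr ⊢
      rw [e, hr]

namespace FreeOn

variable {W : X.Opens} {B : X.Modules} {b : Γ(B, W)} (hB : FreeOn W B b) {M : X.Modules}
include hB

lemma hom_ext {φ ψ : B ⟶ M} (h : φ.app W b = ψ.app W b) : φ = ψ := by
  refine hom_ext' fun U s => res_ext fun x hx => ?_
  by_cases hxW : x ∈ W
  · refine ⟨U ⊓ W, inf_le_left, ⟨hx, hxW⟩, ?_⟩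
    obtain ⟨r, hr⟩ := (hB.bij (U ⊓ W) inf_le_right).2 (res B inf_le_left s)
    simp only at hr
    rw [← app_res, ← app_res, ← hr, Scheme.Modules.Hom.app_smul, Scheme.Modules.Hom.app_smul,
      app_res, app_res, h]
  · obtain ⟨V, hV, hxV, e⟩ := hB.supp U s x hx hxW
    refine ⟨V, hV, hxV, ?_⟩
    rw [← app_res, ← app_res, e, map_zero, map_zero]

/-- The relation between sections of `B` and `M` defining a morphism. -/
def Rel (m : Γ(M, W)) (U : X.Opens) (s : Γ(B, U)) (t : Γ(M, U)) : Prop :=
  Small W M U t ∧ ∀ (U' : X.Opens) (h : U' ≤ U) (h' : U' ≤ W) (r : Γ(X, U')),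
    res B h s = r • res B h' b → res M h t = r • res M h' m

lemma rel_unique {m : Γ(M, W)} {U : X.Opens} {s : Γ(B, U)} {t t' : Γ(M, U)}
    (h : Rel (b := b) m U s t) (h' : Rel (b := b) m U s t') : t = t' := by
  refine res_ext fun x hx => ?_
  by_cases hxW : x ∈ W
  · refine ⟨U ⊓ W, inf_le_left, ⟨hx, hxW⟩, ?_⟩
    obtain ⟨r, hr⟩ := (hB.bij (U ⊓ W) inf_le_right).2 (res B inf_le_left s)
    rw [h.2 _ inf_le_left inf_le_right r hr.symm, h'.2 _ inf_le_left inf_le_right r hr.symm]
  · obtain ⟨V, hV, hxV, e⟩ := h.1 x hx hxW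
    obtain ⟨V', hV', hxV', e'⟩ := h'.1 x hx hxW
    refine ⟨V ⊓ V', inf_le_left.trans hV, ⟨hxV, hxV'⟩, ?_⟩
    rw [← res_res M hV inf_le_left, e, ← res_res M hV' inf_le_right, e', res_zero, res_zero]

lemma rel_exists (m : Γ(M, W)) (U : X.Opens) (s : Γ(B, U)) :
    ∃ t : Γ(M, U), Rel (b := b) m U s t := by
  obtain ⟨r, hr⟩ := (hB.bij (U ⊓ W) inf_le_right).2 (res B inf_le_left s)
  simp only at hr
  have hN : ∀ x : { x : X // x ∈ U ∧ x ∉ W }, ∃ (N : X.Opens) (h : N ≤ U), x.1 ∈ N ∧
      res B h s = 0 := fun x => hB.supp U s x.1 x.2.1 x.2.2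
  choose N hNU hxN hN0 using hN
  let V : Option { x : X // x ∈ U ∧ x ∉ W } → X.Opens := fun i => i.elim (U ⊓ W) N
  let t : ∀ i, Γ(M, V i) := fun i => match i with
    | none => r • res M inf_le_right m
    | some x => 0
  have hkey : ∀ x, res M (inf_le_right : N x ⊓ (U ⊓ W) ≤ U ⊓ W) (r • res M inf_le_right m) = 0 := by
    intro x
    have h1 : X.presheaf.map (homOfLE (inf_le_right : N x ⊓ (U ⊓ W) ≤ U ⊓ W)).op r = 0 := by
      apply (hB.bij (N x ⊓ (U ⊓ W)) (inf_le_right.trans inf_le_right)).1
      simp only [zero_smul]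
      rw [← res_res B inf_le_right inf_le_right, ← res_smul, hr, res_res,
        ← res_res B (hNU x) inf_le_left, hN0, res_zero]
    rw [res_smul, h1, zero_smul]
  obtain ⟨t', ht'⟩ := res_glue V U
    (by
      intro i
      cases i with
      | none => exact inf_le_left
      | some x => exact hNU x)
    (by
      intro x hx
      rw [Opens.mem_iSup]
      by_cases hxW : x ∈ W
      · exact ⟨none, hx, hxW⟩
      · exact ⟨some ⟨x, hx, hxW⟩, hxN _⟩)
    t
    (by
      intro i j
      cases i with
      | none =>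
        cases j with
        | none => rfl
        | some y =>
          change res M (inf_le_left : (U ⊓ W) ⊓ N y ≤ U ⊓ W) (r • res M inf_le_right m) =
            res M inf_le_right 0
          rw [res_zero]
          have h2 := hkey y
          have h3 : (U ⊓ W) ⊓ N y ≤ N y ⊓ (U ⊓ W) := by rw [inf_comm]
          rw [← res_res M (inf_le_right : N y ⊓ (U ⊓ W) ≤ U ⊓ W) h3, h2, res_zero]
      | some x =>
        cases j with
        | none =>
          change res M (inf_le_left : N x ⊓ (U ⊓ W) ≤ N x) 0 =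
            res M inf_le_right (r • res M inf_le_right m)
          rw [res_zero, hkey]
        | some y =>
          change res M _ 0 = res M _ 0
          rw [res_zero, res_zero])
  refine ⟨t', ?_, ?_⟩
  · intro x hx hxW
    exact ⟨N ⟨x, hx, hxW⟩, hNU _, hxN _, ht' (some ⟨x, hx, hxW⟩)⟩
  · intro U' h h' r' hr'
    have h0 : U' ≤ U ⊓ W := le_inf h h'
    have h1 : res M (inf_le_left : U ⊓ W ≤ U) t' = r • res M inf_le_right m := ht' none
    rw [← res_res M (inf_le_left : U ⊓ W ≤ U) h0, h1, res_smul, res_res]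
    congr 1
    apply (hB.bij U' h').1
    simp only
    rw [← hr', ← res_res B inf_le_right h0, ← res_smul, hr, res_res]

/-- A morphism out of `B` with prescribed value on the generator. -/
lemma exists_hom (m : Γ(M, W)) : ∃ φ : B ⟶ M, φ.app W b = m := by
  choose F hF using hB.rel_exists m
  refine ⟨mkHom F ?_ ?_ ?_, ?_⟩
  · intro U s t
    refine hB.rel_unique (hF U (s + t)) ⟨(Lsub W M).add U _ _ (hF U s).1 (hF U t).1, ?_⟩
    intro U' h h' r hr
    obtain ⟨r1, hr1⟩ := (hB.bij U' h').2 (res B h s)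
    obtain ⟨r2, hr2⟩ := (hB.bij U' h').2 (res B h t)
    simp only at hr1 hr2
    have : r = r1 + r2 := by
      apply (hB.bij U' h').1
      simp only
      rw [add_smul, hr1, hr2, ← hr, res_add]
    rw [this, add_smul, res_add, (hF U s).2 U' h h' r1 hr1.symm, (hF U t).2 U' h h' r2 hr2.symm]
  · intro U a s
    refine hB.rel_unique (hF U (a • s)) ⟨(Lsub W M).smul U _ _ (hF U s).1, ?_⟩
    intro U' h h' r hr
    obtain ⟨r1, hr1⟩ := (hB.bij U' h').2 (res B h s)
    simp only at hr1
    have : r = X.presheaf.map (homOfLE h).op a * r1 := by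
      apply (hB.bij U' h').1
      simp only
      rw [mul_smul, hr1, ← hr, res_smul]
    rw [this, mul_smul, res_smul, (hF U s).2 U' h h' r1 hr1.symm]
  · intro U V h s
    refine hB.rel_unique (hF V (res B h s)) ⟨(Lsub W M).res U V h _ (hF U s).1, ?_⟩
    intro U' h1 h' r hr
    rw [res_res] at hr ⊢
    exact (hF U s).2 U' (h1.trans h) h' r hr
  · rw [mkHom_app]
    have h1 := (hF W b).2 W le_rfl le_rfl 1 (by rw [one_smul])
    rw [one_smul, res_self, res_self] at h1
    exact h1

end FreeOn

end Pool.H29
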