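import Pool.Agent.Helper7.Comm.Subst

set_option autoImplicit false

/-! # Substitution moves in the weighted lower central series of a free group of rank two -/

namespace Pool.Agent.H29.GMove

open Pool.Agent.Helper7.Comm
open scoped commutatorElement

variable {G : Type*} [Group G]

section NS

variable {H : ℕ → Subgroup G} (hN : IsNSeries H)

include hN

theorem mem_comm {m n k : ℕ} {x y : G} (hx : x ∈ H m) (hy : y ∈ H n) (hk : k ≤ m + n) :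
    ⁅x, y⁆ ∈ H k :=
  hN.anti hk (hN.comm m n (Subgroup.commutator_mem_commutator hx hy))

theorem mem_one (x : G) : x ∈ H 1 := by rw [hN.one]; trivial

theorem mem_zero (x : G) : x ∈ H 0 := hN.anti (Nat.zero_le 1) (mem_one hN x)

theorem normal (n : ℕ) : (H n).Normal := ⟨fun t ht g => by
  have : g * t * g⁻¹ = ⁅g, t⁆ * t := by simp [commutatorElement_def]
  rw [this]
  exact mul_mem (mem_comm hN (mem_one hN g) ht (by omega)) ht⟩

end NS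

section Quot

variable {H : ℕ → Subgroup G} (hN : IsNSeries H) (w : ℕ) {Q : Type*} [Group Q] (π : G →* Q)
  (hπ : ∀ g, π g = 1 ↔ g ∈ H (w + 1))

include hN hπ

theorem pi_comm {g c : G} (hc : c ∈ H w) : π g * π c = π c * π g := by
  have h1 : π ⁅g, c⁆ = 1 := (hπ _).2 (mem_comm hN (mem_one hN g) hc (by omega))
  rw [map_commutatorElement] at h1
  exact commutatorElement_eq_one_iff_mul_comm.mp h1

theorem pi_conj {g c : G} (hc : c ∈ H w) : π (g * c * g⁻¹) = π c := by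
  rw [map_mul, map_mul, pi_comm hN w π hπ hc, map_inv, mul_inv_cancel_right]

theorem pi_bracket_mul_right {i : ℕ} {a z z' : G} (ha : a ∈ H i) (hi : i ≤ w)
    (hz' : z' ∈ H (w - i)) : π ⁅a, z * z'⁆ = π ⁅a, z⁆ * π ⁅a, z'⁆ := by
  have : ⁅a, z * z'⁆ = ⁅a, z⁆ * (z * ⁅a, z'⁆ * z⁻¹) := by
    simp [commutatorElement_def, mul_assoc]
  rw [this, map_mul, pi_conj hN w π hπ (mem_comm hN ha hz' (by omega))]

/-- The subgroup generated by the brackets with `a` and `b` modulo `H (w + 1)`. -/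
def T {i j : ℕ} {a b : G} (ha : a ∈ H i) (hb : b ∈ H j) (hi : i ≤ w) (hj : j ≤ w) :
    Subgroup G where
  carrier := {g | ∃ z ∈ H (w - i), ∃ z' ∈ H (w - j), π g = π ⁅a, z⁆ * π ⁅b, z'⁆}
  mul_mem' := by
    rintro g h ⟨z, hz, z', hz', hg⟩ ⟨y, hy, y', hy', hh⟩
    refine ⟨z * y, mul_mem hz hy, z' * y', mul_mem hz' hy', ?_⟩
    rw [map_mul, hg, hh, pi_bracket_mul_right hN w π hπ ha hi hy,
      pi_bracket_mul_right hN w π hπ hb hj hy']
    have h1 : π ⁅a, y⁆ * π ⁅b, z'⁆ = π ⁅b, z'⁆ * π ⁅a, y⁆ :=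
      pi_comm hN w π hπ (mem_comm hN hb hz' (by omega))
    rw [mul_assoc, mul_assoc, ← mul_assoc (π ⁅b, z'⁆), ← h1, mul_assoc]
  one_mem' := ⟨1, one_mem _, 1, one_mem _, by simp⟩
  inv_mem' := by
    rintro g ⟨z, hz, z', hz', hg⟩
    refine ⟨z⁻¹, inv_mem hz, z'⁻¹, inv_mem hz', ?_⟩
    have h1 : π ⁅a, z⁻¹⁆ = (π ⁅a, z⁆)⁻¹ := by
      have := pi_bracket_mul_right hN w π hπ ha hi (z := z) (inv_mem hz)
      rw [mul_inv_cancel, commutatorElement_one_right, map_one] at this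
      exact (inv_eq_of_mul_eq_one_right this.symm).symm
    have h2 : π ⁅b, z'⁻¹⁆ = (π ⁅b, z'⁆)⁻¹ := by
      have := pi_bracket_mul_right hN w π hπ hb hj (z := z') (inv_mem hz')
      rw [mul_inv_cancel, commutatorElement_one_right, map_one] at this
      exact (inv_eq_of_mul_eq_one_right this.symm).symm
    rw [map_inv, hg, h1, h2, mul_inv_rev]
    have h3 : π ⁅b, z'⁆ * π ⁅a, z⁆ = π ⁅a, z⁆ * π ⁅b, z'⁆ :=
      pi_comm hN w π hπ (mem_comm hN ha hz (by omega))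
    rw [← mul_inv_rev, ← mul_inv_rev, h3]

variable {i j : ℕ} {a b : G} (ha : a ∈ H i) (hb : b ∈ H j) (hi : i ≤ w) (hj : j ≤ w)

theorem mem_T {g : G} : g ∈ T hN w π hπ ha hb hi hj ↔
    ∃ z ∈ H (w - i), ∃ z' ∈ H (w - j), π g = π ⁅a, z⁆ * π ⁅b, z'⁆ := Iff.rfl

theorem le_T : H (w + 1) ≤ T hN w π hπ ha hb hi hj := fun g hg =>
  ⟨1, one_mem _, 1, one_mem _, by simp [(hπ g).2 hg]⟩

theorem T_le : T hN w π hπ ha hb hi hj ≤ H w := by
  rintro g ⟨z, hz, z', hz', hg⟩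
  rw [← map_mul] at hg
  have h1 : π (g * (⁅a, z⁆ * ⁅b, z'⁆)⁻¹) = 1 := by rw [map_mul, map_inv, hg, mul_inv_cancel]
  have h2 := hN.anti (by omega : w ≤ w + 1) ((hπ _).1 h1)
  have h3 : ⁅a, z⁆ * ⁅b, z'⁆ ∈ H w :=
    mul_mem (mem_comm hN ha hz (by omega)) (mem_comm hN hb hz' (by omega))
  have := mul_mem h2 h3
  rwa [inv_mul_cancel_right] at this

theorem T_normal : (T hN w π hπ ha hb hi hj).Normal := ⟨fun t ht g => by
  have : g * t * g⁻¹ = ⁅g, t⁆ * t := by simp [commutatorElement_def]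
  rw [this]
  exact mul_mem (le_T hN w π hπ ha hb hi hj
    (mem_comm hN (mem_one hN g) (T_le hN w π hπ ha hb hi hj ht) (by omega))) ht⟩

theorem bra_a {z : G} (hz : z ∈ H (w - i)) : ⁅a, z⁆ ∈ T hN w π hπ ha hb hi hj :=
  ⟨z, hz, 1, one_mem _, by simp⟩

theorem bra_b {z : G} (hz : z ∈ H (w - j)) : ⁅b, z⁆ ∈ T hN w π hπ ha hb hi hj :=
  ⟨1, one_mem _, z, hz, by simp⟩

/-- Hall–Witt modulo `H (w + 1)`. -/
theorem hallWitt {m n p : ℕ} {x y z : G} (hx : x ∈ H m) (hy : y ∈ H n) (hz : z ∈ H p)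
    (hw : w = m + n + p) (hm : 1 ≤ m) (hn : 1 ≤ n) (hp : 1 ≤ p) :
    π ⁅⁅x, y⁆, z⁆ * π ⁅⁅y, z⁆, x⁆ * π ⁅⁅z, x⁆, y⁆ = 1 := by
  have key : ∀ {m n p : ℕ} {x y z : G} (hx : x ∈ H m) (hy : y ∈ H n) (hz : z ∈ H p)
    (hw : w = m + n + p) (hn : 1 ≤ n), π ⁅⁅x, y⁆, y * z * y⁻¹⁆ = π ⁅⁅x, y⁆, z⁆ := by
    intro m n p x y z hx hy hz hw hn
    have e : ⁅⁅x, y⁆, y * z * y⁻¹⁆ = ⁅⁅x, y⁆, ⁅y, z⁆⁆ * (⁅y, z⁆ * ⁅⁅x, y⁆, z⁆ * ⁅y, z⁆⁻¹) := by
      have e1 : y * z * y⁻¹ = ⁅y, z⁆ * z := by simp [commutatorElement_def]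
      rw [e1]
      generalize ⁅y, z⁆ = u
      generalize ⁅x, y⁆ = v
      simp [commutatorElement_def, mul_assoc]
    have h1 : ⁅x, y⁆ ∈ H (m + n) := mem_comm hN hx hy le_rfl
    have h2 : ⁅y, z⁆ ∈ H (n + p) := mem_comm hN hy hz le_rfl
    have h3 : ⁅⁅x, y⁆, ⁅y, z⁆⁆ ∈ H (w + 1) := mem_comm hN h1 h2 (by omega)
    have h4 : ⁅⁅x, y⁆, z⁆ ∈ H w := mem_comm hN h1 hz (by omega)
    rw [e, map_mul, (hπ _).2 h3, one_mul, pi_conj hN w π hπ h4]
  rw [← key hx hy hz hw hn, ← key hy hz hx (by omega) hp, ← key hz hx hy (by omega) hm,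
    ← map_mul, ← map_mul]
  have : ⁅⁅x, y⁆, y * z * y⁻¹⁆ * ⁅⁅y, z⁆, z * x * z⁻¹⁆ * ⁅⁅z, x⁆, x * y * x⁻¹⁆ = 1 := by
    simp [commutatorElement_def, mul_assoc]
  rw [this, map_one]

/-- The auxiliary series of the first minimality argument. -/
def H' (n : ℕ) : Subgroup G where
  carrier := {z | z ∈ H n ∧ (n < w → ∀ z' ∈ H (w - n), ⁅z, z'⁆ ∈ T hN w π hπ ha hb hi hj)}
  mul_mem' := by
    rintro x y ⟨hx, hx'⟩ ⟨hy, hy'⟩
    refine ⟨mul_mem hx hy, fun hn z hz => ?_⟩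
    have e : ⁅x * y, z⁆ = (x * ⁅y, z⁆ * x⁻¹) * ⁅x, z⁆ := by
      simp [commutatorElement_def, mul_assoc]
    rw [e]
    exact mul_mem ((T_normal hN w π hπ ha hb hi hj).conj_mem _ (hy' hn z hz) x) (hx' hn z hz)
  one_mem' := ⟨one_mem _, fun _ z _ => by
    rw [commutatorElement_one_left]; exact one_mem _⟩
  inv_mem' := by
    rintro x ⟨hx, hx'⟩
    refine ⟨inv_mem hx, fun hn z hz => ?_⟩
    have e : ⁅x⁻¹, z⁆ = x⁻¹ * ⁅x, z⁆⁻¹ * x⁻¹⁻¹ := by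
      simp [commutatorElement_def, mul_assoc]
    rw [e]
    exact (T_normal hN w π hπ ha hb hi hj).conj_mem _ (inv_mem (hx' hn z hz)) _

theorem mem_H' {n : ℕ} {z : G} : z ∈ H' hN w π hπ ha hb hi hj n ↔ z ∈ H n ∧
    (n < w → ∀ z' ∈ H (w - n), ⁅z, z'⁆ ∈ T hN w π hπ ha hb hi hj) := Iff.rfl

theorem mem_H'_of_mem {n : ℕ} {z : G} (hz : z ∈ H (n + 1)) :
    z ∈ H' hN w π hπ ha hb hi hj n :=
  ⟨hN.anti (by omega) hz, fun _ _ hz' =>
    le_T hN w π hπ ha hb hi hj (mem_comm hN hz hz' (by omega))⟩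

theorem isNSeries_H' (h1 : ∀ K : Subgroup G, a ∈ K → b ∈ K → K = ⊤) (i0 : 0 < i) (j0 : 0 < j) :
    IsNSeries (H' hN w π hπ ha hb hi hj) where
  anti := by
    refine antitone_nat_of_succ_le fun n z hz => ?_
    exact mem_H'_of_mem hN w π hπ ha hb hi hj hz.1
  one := by
    apply h1
    · rcases Nat.lt_or_ge 1 i with h | h
      · exact mem_H'_of_mem hN w π hπ ha hb hi hj (hN.anti h ha)
      · obtain rfl : i = 1 := by omega
        exact ⟨ha, fun _ z' hz' => bra_a hN w π hπ ha hb hi hj hz'⟩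
    · rcases Nat.lt_or_ge 1 j with h | h
      · exact mem_H'_of_mem hN w π hπ ha hb hi hj (hN.anti h hb)
      · obtain rfl : j = 1 := by omega
        exact ⟨hb, fun _ z' hz' => bra_b hN w π hπ ha hb hi hj hz'⟩
  comm := by
    intro m n
    rw [Subgroup.commutator_le]
    intro x hx y hy
    rcases Nat.eq_zero_or_pos m with rfl | hm
    · refine mem_H'_of_mem hN w π hπ ha hb hi hj (mem_comm hN (mem_one hN x) hy.1 (by omega))
    rcases Nat.eq_zero_or_pos n with rfl | hn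
    · refine mem_H'_of_mem hN w π hπ ha hb hi hj (mem_comm hN hx.1 (mem_one hN y) (by omega))
    refine ⟨mem_comm hN hx.1 hy.1 le_rfl, fun hw z hz => ?_⟩
    have hW := hallWitt hN w π hπ hx.1 hy.1 hz (by omega) hm hn (by omega)
    have h1 : ⁅⁅y, z⁆, x⁆ ∈ T hN w π hπ ha hb hi hj := by
      rw [← commutatorElement_inv]
      exact inv_mem (hx.2 (by omega) _ (mem_comm hN hy.1 hz (by omega)))
    have h2 : ⁅⁅z, x⁆, y⁆ ∈ T hN w π hπ ha hb hi hj := by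
      rw [← commutatorElement_inv]
      exact inv_mem (hy.2 (by omega) _ (mem_comm hN hz hx.1 (by omega)))
    rw [← map_mul, ← map_mul] at hW
    have h3 := le_T hN w π hπ ha hb hi hj ((hπ _).1 hW)
    have := mul_mem (mul_mem h3 (inv_mem h2)) (inv_mem h1)
    rwa [mul_inv_cancel_right, mul_inv_cancel_right] at this

/-- The series of the second minimality argument. -/
def H'' (n : ℕ) : Subgroup G := if n = w then T hN w π hπ ha hb hi hj else H n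

theorem H''_le (n : ℕ) : H'' hN w π hπ ha hb hi hj n ≤ H n := by
  unfold H''
  split_ifs with h
  · subst h; exact T_le hN _ π hπ ha hb hi hj
  · exact le_rfl

theorem isNSeries_H'' (hw : 1 < w)
    (h1 : ∀ m n, 1 ≤ m → 1 ≤ n → m + n = w → ∀ x ∈ H m, ∀ y ∈ H n,
      ⁅x, y⁆ ∈ T hN w π hπ ha hb hi hj) :
    IsNSeries (H'' hN w π hπ ha hb hi hj) where
  anti := by
    refine antitone_nat_of_succ_le fun n => ?_
    by_cases h : n = w
    · subst h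
      refine (H''_le hN n π hπ ha hb hi hj _).trans ?_
      rw [H'', if_pos rfl]
      exact le_T hN _ π hπ ha hb hi hj
    · refine (H''_le hN w π hπ ha hb hi hj _).trans ?_
      rw [H'', if_neg h]
      exact hN.anti (by omega)
  one := by
    rw [H'', if_neg (by omega), hN.one]
  comm := by
    intro m n
    by_cases h : m + n = w
    · rcases Nat.eq_zero_or_pos m with rfl | hm
      · obtain rfl : n = w := by omega
        rw [Subgroup.commutator_le]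
        intro x hx y hy
        rw [H'', if_pos (by omega)] at hy ⊢
        have h2 := T_le hN _ π hπ ha hb hi hj hy
        exact le_T hN _ π hπ ha hb hi hj (mem_comm hN (mem_one hN x) h2 (by omega))
      rcases Nat.eq_zero_or_pos n with rfl | hn
      · obtain rfl : m = w := by omega
        rw [Subgroup.commutator_le]
        intro x hx y hy
        rw [H'', if_pos (by omega)] at hx ⊢
        have h2 := T_le hN _ π hπ ha hb hi hj hx
        exact le_T hN _ π hπ ha hb hi hj (mem_comm hN h2 (mem_one hN y) (by omega))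
      rw [Subgroup.commutator_le]
      intro x hx y hy
      have hx' := H''_le hN w π hπ ha hb hi hj _ hx
      have hy' := H''_le hN w π hπ ha hb hi hj _ hy
      rw [H'', if_pos h]
      exact h1 m n hm hn h x hx' y hy'
    · refine (Subgroup.commutator_mono (H''_le hN w π hπ ha hb hi hj m)
        (H''_le hN w π hπ ha hb hi hj n)).trans ?_
      rw [H'', if_neg h]
      exact hN.comm m n

end Quot

section Free

variable (i j : ℕ)

theorem Gam_le {H : ℕ → Subgroup (FreeGroup (Fin 2))} (hN : IsNSeries H)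
    (ha : FreeGroup.of 0 ∈ H i) (hb : FreeGroup.of 1 ∈ H j) (n : ℕ) :
    Gam ![i, j] n ≤ H n := by
  refine sInf_le ⟨H, hN, ?_, rfl⟩
  intro x
  fin_cases x
  · exact ha
  · exact hb

theorem eq_top_of_mem (K : Subgroup (FreeGroup (Fin 2))) (ha : FreeGroup.of 0 ∈ K)
    (hb : FreeGroup.of 1 ∈ K) : K = ⊤ := by
  rw [eq_top_iff, ← FreeGroup.closure_range_of, Subgroup.closure_le]
  rintro _ ⟨x, rfl⟩
  fin_cases x
  · exact ha
  · exact hb

theorem gen (hN : IsNSeries (Gam ![i, j])) (hi : 0 < i) (hj : 0 < j)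
    (ha : FreeGroup.of 0 ∈ Gam ![i, j] i) (hb : FreeGroup.of 1 ∈ Gam ![i, j] j)
    {Q : Type*} [Group Q] (w : ℕ) (π : FreeGroup (Fin 2) →* Q)
    (hπ : ∀ g, π g = 1 ↔ g ∈ Gam ![i, j] (w + 1)) (wi : i < w) (wj : j < w)
    (g : FreeGroup (Fin 2)) (hg : g ∈ Gam ![i, j] w) :
    ∃ z ∈ Gam ![i, j] (w - i), ∃ z' ∈ Gam ![i, j] (w - j),
      π g = π ⁅FreeGroup.of (0 : Fin 2), z⁆ * π ⁅FreeGroup.of (1 : Fin 2), z'⁆ := by
  have A1 := isNSeries_H' hN w π hπ ha hb wi.le wj.le eq_top_of_mem hi hj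
  have A2 := Gam_le i j A1 ⟨ha, fun _ z' hz' => bra_a hN w π hπ ha hb wi.le wj.le hz'⟩
    ⟨hb, fun _ z' hz' => bra_b hN w π hπ ha hb wi.le wj.le hz'⟩
  have A3 : ∀ m n, 1 ≤ m → 1 ≤ n → m + n = w → ∀ x ∈ Gam ![i, j] m, ∀ y ∈ Gam ![i, j] n,
      ⁅x, y⁆ ∈ T hN w π hπ ha hb wi.le wj.le := by
    intro m n hm hn hmn x hx y hy
    refine (A2 m hx).2 (by omega) y ?_
    rwa [show w - m = n by omega]
  have A4 := isNSeries_H'' hN w π hπ ha hb wi.le wj.le (by omega) A3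
  have A5 := Gam_le i j A4 (by rw [H'', if_neg (by omega)]; exact ha)
    (by rw [H'', if_neg (by omega)]; exact hb) w hg
  rw [H'', if_pos rfl] at A5
  exact A5

theorem step (l k : ℕ) (hi : 0 < i) (hj : 0 < j) (hl : 0 < l)
    (hN : IsNSeries (Gam ![i, j])) 
    (ha : FreeGroup.of 0 ∈ Gam ![i, j] i) (hb : FreeGroup.of 1 ∈ Gam ![i, j] j)
    (h₁ h₂ : FreeGroup (Fin 2)) (m1 : h₁ ∈ Gam ![i, j] (i + l)) (m2 : h₂ ∈ Gam ![i, j] (j + l))
    (h : ⁅FreeGroup.of 0 * h₁, FreeGroup.of 1 * h₂⁆ *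
      ⁅FreeGroup.of (0 : Fin 2), FreeGroup.of 1⁆⁻¹ ∈ Gam ![i, j] (i + j + k + 1)) :
    ∃ k₁ k₂ : FreeGroup (Fin 2), k₁ ∈ Gam ![i, j] (i + k + 1) ∧ k₂ ∈ Gam ![i, j] (j + k + 1) ∧
      ⁅FreeGroup.of 0 * (h₁ * k₁), FreeGroup.of 1 * (h₂ * k₂)⁆ *
        ⁅FreeGroup.of (0 : Fin 2), FreeGroup.of 1⁆⁻¹ ∈ Gam ![i, j] (i + j + k + 2) := by
  set w := i + j + k + 1 with hw
  set a : FreeGroup (Fin 2) := FreeGroup.of 0 with haa
  set b : FreeGroup (Fin 2) := FreeGroup.of 1 with hbb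
  have := normal hN (w + 1)
  let π := QuotientGroup.mk' (Gam ![i, j] (w + 1))
  have hπ : ∀ g, π g = 1 ↔ g ∈ Gam ![i, j] (w + 1) := fun g => QuotientGroup.eq_one_iff g
  obtain ⟨z, hz, z', hz', hg⟩ := gen i j hN hi hj ha hb w π hπ (by omega) (by omega) _
    (inv_mem h)
  rw [show w - i = j + k + 1 by omega] at hz
  rw [show w - j = i + k + 1 by omega] at hz'
  refine ⟨z'⁻¹, z, inv_mem hz', hz, (hπ _).1 ?_⟩
  have hz'' := inv_mem hz'
  -- expansions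
  have E : ∀ A B u v : FreeGroup (Fin 2), ⁅A * u, B * v⁆ =
      (A * ⁅u, B⁆ * A⁻¹) * ⁅A, B⁆ * (B * ((A * ⁅u, v⁆ * A⁻¹) * ⁅A, v⁆) * B⁻¹) := by
    intro A B u v
    simp [commutatorElement_def, mul_assoc]
  have c1 : π ⁅z'⁻¹, b * h₂⁆ = π ⁅z'⁻¹, b⁆ := by
    have e : ⁅z'⁻¹, b * h₂⁆ = ⁅z'⁻¹, b⁆ * (b * ⁅z'⁻¹, h₂⁆ * b⁻¹) := by
      simp [commutatorElement_def, mul_assoc]
    have e1 : ⁅z'⁻¹, h₂⁆ ∈ Gam ![i, j] (w + 1) := mem_comm hN hz'' m2 (by omega)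
    rw [e, map_mul, pi_conj hN w π hπ (hN.anti (by omega) e1), (hπ _).2 e1, mul_one]
  have c2 : π ⁅a * h₁, z⁆ = π ⁅a, z⁆ := by
    have e : ⁅a * h₁, z⁆ = (a * ⁅h₁, z⁆ * a⁻¹) * ⁅a, z⁆ := by
      simp [commutatorElement_def, mul_assoc]
    have e1 : ⁅h₁, z⁆ ∈ Gam ![i, j] (w + 1) := mem_comm hN m1 hz (by omega)
    rw [e, map_mul, pi_conj hN w π hπ (hN.anti (by omega) e1), (hπ _).2 e1, one_mul]
  have c3 : ⁅z'⁻¹, z⁆ ∈ Gam ![i, j] (w + 1) := mem_comm hN hz'' hz (by omega)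
  have c4 : ⁅a * h₁, z⁆ ∈ Gam ![i, j] w :=
    mem_comm hN (mul_mem ha (hN.anti (by omega) m1)) hz (by omega)
  have c5 : ⁅z'⁻¹, b * h₂⁆ ∈ Gam ![i, j] w :=
    mem_comm hN hz'' (mul_mem hb (hN.anti (by omega) m2)) (by omega)
  have c6 : (a * h₁ * ⁅z'⁻¹, z⁆ * (a * h₁)⁻¹) * ⁅a * h₁, z⁆ ∈ Gam ![i, j] w :=
    mul_mem ((normal hN w).conj_mem _ (hN.anti (by omega) c3) _) c4
  have c7 : π ⁅z'⁻¹, b⁆ = π ⁅b, z'⁆ := by
    have e := pi_bracket_mul_right hN w π hπ hb (by omega) (z := z') (z' := z'⁻¹)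
      (by rw [show w - j = i + k + 1 by omega]; exact hz'')
    rw [mul_inv_cancel, commutatorElement_one_right, map_one] at e
    rw [← commutatorElement_inv, map_inv]
    exact inv_eq_of_mul_eq_one_left e.symm
  rw [← mul_assoc a h₁, ← mul_assoc b h₂, E, map_mul, map_mul, map_mul,
    pi_conj hN w π hπ c5, pi_conj hN w π hπ c6, map_mul,
    pi_conj hN w π hπ (hN.anti (by omega) c3), (hπ _).2 c3, one_mul, c1, c2, c7]
  have c8 : ∀ g, π g * π ⁅a, z⁆ = π ⁅a, z⁆ * π g := fun g =>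
    pi_comm hN w π hπ (mem_comm hN ha hz (by omega))
  rw [mul_assoc, ← c8, ← mul_assoc, mul_assoc (π ⁅b, z'⁆), ← map_mul, mul_assoc, c8,
    ← mul_assoc, c8, ← hg, map_inv, inv_mul_cancel]

end Free

theorem gmove (i j l W : ℕ) (hi : 0 < i) (hj : 0 < j) (hl : 0 < l)
    (hN : IsNSeries (Gam ![i, j])) (hof : ∀ k : Fin 2, FreeGroup.of k ∈ Gam ![i, j] (![i, j] k))
    (h₁ h₂ : FreeGroup (Fin 2)) (m1 : h₁ ∈ Gam ![i, j] (i + l)) (m2 : h₂ ∈ Gam ![i, j] (j + l))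
    (h : ⁅FreeGroup.of 0 * h₁, FreeGroup.of 1 * h₂⁆ * ⁅FreeGroup.of (0 : Fin 2), FreeGroup.of 1⁆⁻¹ ∈ Gam ![i, j] (i + j + l + 1)) :
    ∃ k₁ k₂ : FreeGroup (Fin 2), k₁ ∈ Gam ![i, j] (i + l + 1) ∧ k₂ ∈ Gam ![i, j] (j + l + 1) ∧
      ⁅FreeGroup.of 0 * (h₁ * k₁), FreeGroup.of 1 * (h₂ * k₂)⁆ * ⁅FreeGroup.of (0 : Fin 2), FreeGroup.of 1⁆⁻¹ ∈ Gam ![i, j] W := by
  have ha : FreeGroup.of 0 ∈ Gam ![i, j] i := hof 0
  have hb : FreeGroup.of 1 ∈ Gam ![i, j] j := hof 1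
  have key : ∀ k : ℕ, ∃ k₁ k₂ : FreeGroup (Fin 2), k₁ ∈ Gam ![i, j] (i + l + 1) ∧
      k₂ ∈ Gam ![i, j] (j + l + 1) ∧
      ⁅FreeGroup.of 0 * (h₁ * k₁), FreeGroup.of 1 * (h₂ * k₂)⁆ *
        ⁅FreeGroup.of (0 : Fin 2), FreeGroup.of 1⁆⁻¹ ∈ Gam ![i, j] (i + j + (l + k) + 1) := by
    intro k
    induction k with
    | zero => exact ⟨1, 1, one_mem _, one_mem _, by simpa using h⟩
    | succ k ih =>
      obtain ⟨k₁, k₂, hk₁, hk₂, hk⟩ := ih
      obtain ⟨y₁, y₂, hy₁, hy₂, hy⟩ := step i j l (l + k) hi hj hl hN ha hb (h₁ * k₁) (h₂ * k₂)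
        (mul_mem m1 (hN.anti (by omega) hk₁)) (mul_mem m2 (hN.anti (by omega) hk₂)) hk
      refine ⟨k₁ * y₁, k₂ * y₂, mul_mem hk₁ (hN.anti (by omega) hy₁),
        mul_mem hk₂ (hN.anti (by omega) hy₂), ?_⟩
      rw [← mul_assoc h₁, ← mul_assoc h₂]
      exact hN.anti (by omega) hy
  obtain ⟨k₁, k₂, hk₁, hk₂, hk⟩ := key W
  exact ⟨k₁, k₂, hk₁, hk₂, hN.anti (by omega) hk⟩

end Pool.Agent.H29.GMove
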