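import Pool.Agent.Helper13.Blk

/-!
# Block homogeneity of the ideals (handoff H of MP_430249_ag)
-/

namespace Pool.Agent.Helper13

open Finset AddMonoidAlgebra

set_option linter.unusedSectionVars false

section Shift

variable {k : Type*} [Field k] {M : Type*} [AddCommGroup M] {Λ : Type*} [AddCommGroup Λ]

theorem flt_single_of_mem {S : Set M} {μ : M} (h : μ ∈ S) (c : k) :
    flt k S (single μ c) = single μ c := by
  apply flt_eq
  intro ν hν
  by_cases h' : μ = ν
  · rwa [← h']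
  · exact absurd (by simp [coeff_single, h']) hν

theorem flt_single_of_notMem {S : Set M} {μ : M} (h : μ ∉ S) (c : k) :
    flt k S (single μ c) = 0 := by
  classical
  ext ν
  rw [flt_coeff]
  split_ifs with h'
  · have : μ ≠ ν := by rintro rfl; exact h h'
    simp [coeff_single, this]
  · rfl

/-- multiplication by a monomial shifts the degree -/
theorem single_mul_flt (deg : M →+ Λ) (ν : M) (a : k) (l : Λ) (p : AddMonoidAlgebra k M) :
    single ν a * flt k (deg ⁻¹' {l}) p = flt k (deg ⁻¹' {l + deg ν}) (single ν a * p) := by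
  induction p using AddMonoidAlgebra.induction_linear with
  | zero => simp
  | add p q hp hq => rw [map_add, mul_add, hp, hq, mul_add, map_add]
  | single μ c =>
    rw [single_mul_single]
    by_cases h : deg μ = l
    · rw [flt_single_of_mem (by exact h), flt_single_of_mem, single_mul_single]
      change deg (ν + μ) = l + deg ν
      rw [map_add, h, add_comm]
    · rw [flt_single_of_notMem (by exact h), flt_single_of_notMem, mul_zero]
      change ¬ (deg (ν + μ) = l + deg ν)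
      rw [map_add, add_comm (deg ν)]
      intro h'
      exact h (add_right_cancel h')

/-- multiplication by a homogeneous element shifts the degree -/
theorem mul_flt (deg : M →+ Λ) {e : Λ} {q : AddMonoidAlgebra k M} (hq : q ∈ SupL k (deg ⁻¹' {e}))
    (l : Λ) (p : AddMonoidAlgebra k M) :
    q * flt k (deg ⁻¹' {l}) p = flt k (deg ⁻¹' {l + e}) (q * p) := by
  classical
  have hsum : q = ∑ ν ∈ q.coeff.support, single ν (q.coeff ν) := by
    ext μ
    rw [coeff_sum, Finsupp.finsetSum_apply]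
    simp only [coeff_single, Finsupp.single_apply]
    rw [Finset.sum_ite_eq']
    split_ifs with h
    · rfl
    · simpa using h
  have hdeg : ∀ ν ∈ q.coeff.support, deg ν = e := fun ν hν => hq ν (by simpa using hν)
  generalize q.coeff.support = s at hsum hdeg
  generalize q.coeff = f at hsum
  subst hsum
  rw [sum_mul, sum_mul, map_sum]
  refine sum_congr rfl fun ν hν => ?_
  rw [single_mul_flt, hdeg ν hν]

theorem SupL_mul (deg : M →+ Λ) {d e : Λ} {p q : AddMonoidAlgebra k M}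
    (hp : p ∈ SupL k (deg ⁻¹' {d})) (hq : q ∈ SupL k (deg ⁻¹' {e})) :
    p * q ∈ SupL k (deg ⁻¹' {d + e}) := by
  have h := mul_flt deg hp e q
  rw [flt_eq hq] at h
  rw [h, add_comm d e]
  exact flt_mem _ _

theorem SupL_one (deg : M →+ Λ) : (1 : AddMonoidAlgebra k M) ∈ SupL k (deg ⁻¹' {0}) := by
  have h : flt k (deg ⁻¹' {0}) (single (0 : M) (1 : k)) = single 0 1 :=
    flt_single_of_mem (by simp) 1
  rw [AddMonoidAlgebra.one_def, ← h]
  exact flt_mem _ _

theorem SupL_single (deg : M →+ Λ) (μ : M) (c : k) : single μ c ∈ SupL k (deg ⁻¹' {deg μ}) := by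
  rw [← flt_single_of_mem (S := deg ⁻¹' {deg μ}) (by simp) c]
  exact flt_mem _ _

theorem SupL_pow (deg : M →+ Λ) {d : Λ} {p : AddMonoidAlgebra k M}
    (hp : p ∈ SupL k (deg ⁻¹' {d})) (n : ℕ) : p ^ n ∈ SupL k (deg ⁻¹' {n • d}) := by
  induction n with
  | zero => rw [pow_zero, zero_smul]; exact SupL_one deg
  | succ n ih => rw [pow_succ, succ_nsmul]; exact SupL_mul deg ih hp

theorem SupL_prod (deg : M →+ Λ) {ι : Type*} (s : Finset ι) (d : ι → Λ)
    (p : ι → AddMonoidAlgebra k M) (hp : ∀ i ∈ s, p i ∈ SupL k (deg ⁻¹' {d i})) :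
    ∏ i ∈ s, p i ∈ SupL k (deg ⁻¹' {∑ i ∈ s, d i}) := by
  classical
  induction s using Finset.induction_on with
  | empty => rw [prod_empty, sum_empty]; exact SupL_one deg
  | insert i s hi ih =>
    rw [prod_insert hi, sum_insert hi]
    exact SupL_mul deg (hp i (mem_insert_self _ _))
      (ih fun j hj => hp j (mem_insert_of_mem hj))

end Shift

section HomBlk

variable (k : Type*) [Field k]

/-- the block degree of a Laurent monomial in 18 variables -/
def blkM : (Fin 18 → ℤ) →+ Lam := blkL.comp expMap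

theorem SM_def (l : Lam) : SM l = blkM ⁻¹' {l} := rfl

theorem lx_mem_SM (v : Fin 18) : lx k 18 v ∈ SupL k (SM (blkM (Pi.single v 1))) :=
  SupL_single blkM _ _

theorem toLaur_X (v : Fin 18) : toLaur k 18 (MvPolynomial.X v) = lx k 18 v := by
  simp [toLaur]

theorem lat_closed_mul {J : Ideal (MvPolynomial (Fin 18) k)} (a : MvPolynomial (Fin 18) k)
    {p : Laur k 18} (hp : p ∈ lat k 18 J) : toLaur k 18 a * p ∈ lat k 18 J := by
  obtain ⟨q, hq, rfl⟩ := hp
  refine ⟨a * q, J.mul_mem_left a hq, ?_⟩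
  simp

/-- generated by block homogeneous elements -/
def BH (J : Ideal (MvPolynomial (Fin 18) k)) : Prop :=
  ∃ s : Set (MvPolynomial (Fin 18) k), J = Ideal.span s ∧
    ∀ p ∈ s, ∃ e : Lam, toLaur k 18 p ∈ SupL k (SM e)

variable {k}

theorem lat_flt_aux {J : Ideal (MvPolynomial (Fin 18) k)} (a : MvPolynomial (Fin 18) k) :
    ∀ q : Laur k 18, (∀ l, flt k (SM l) q ∈ lat k 18 J) →
      ∀ l, flt k (SM l) (toLaur k 18 a * q) ∈ lat k 18 J := by
  induction a using MvPolynomial.induction_on with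
  | C c =>
    intro q hq l
    have h1 : toLaur k 18 (MvPolynomial.C c) * q = c • q := by
      rw [← MvPolynomial.algebraMap_eq, AlgHom.commutes, Algebra.smul_def]
    rw [h1, map_smul]
    exact Submodule.smul_mem _ _ (hq l)
  | add a b ha hb =>
    intro q hq l
    rw [map_add, add_mul, map_add]
    exact Submodule.add_mem _ (ha q hq l) (hb q hq l)
  | mul_X a v ha =>
    intro q hq l
    rw [show toLaur k 18 (a * MvPolynomial.X v) * q =
      toLaur k 18 a * (toLaur k 18 (MvPolynomial.X v) * q) by rw [map_mul, mul_assoc]]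
    refine ha _ (fun l' => ?_) l
    rw [toLaur_X]
    have h2 : flt k (SM l') (lx k 18 v * q) =
        lx k 18 v * flt k (SM (l' - blkM (Pi.single v 1))) q := by
      rw [SM_def, SM_def, mul_flt blkM (lx_mem_SM k v), sub_add_cancel]
    rw [h2, ← toLaur_X]
    exact lat_closed_mul k _ (hq _)

theorem BH.lat_flt {J : Ideal (MvPolynomial (Fin 18) k)} (hJ : BH k J) (l : Lam) {p : Laur k 18}
    (hp : p ∈ lat k 18 J) : flt k (SM l) p ∈ lat k 18 J := by
  obtain ⟨s, rfl, hs⟩ := hJ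
  obtain ⟨q, hq, rfl⟩ := hp
  change flt k (SM l) (toLaur k 18 q) ∈ _
  have hq' : q ∈ Ideal.span s := hq
  clear hq
  revert l
  induction hq' using Submodule.span_induction with
  | mem x hx =>
    intro l
    obtain ⟨e, he⟩ := hs x hx
    by_cases h : l = e
    · rw [h, flt_eq he]
      exact ⟨x, Ideal.subset_span hx, rfl⟩
    · have : flt k (SM l) (toLaur k 18 x) = 0 := by
        classical
        ext μ
        rw [flt_coeff]
        split_ifs with h'
        · by_contra h2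
          have h3 : μ ∈ SM e := he μ (fun h4 => h2 (by rw [h4]; rfl))
          exact h (by rw [← (show blkL (expMap μ) = l from h'), ← (show blkL (expMap μ) = e from h3)])
        · rfl
      rw [this]
      exact Submodule.zero_mem _
  | zero => intro l; simp
  | add x y _ _ hx hy =>
    intro l
    rw [map_add, map_add]
    exact Submodule.add_mem _ (hx l) (hy l)
  | smul a x _ hx =>
    intro l
    rw [smul_eq_mul, map_mul]
    exact lat_flt_aux a _ hx l

theorem BH.hom {J : Ideal (MvPolynomial (Fin 18) k)} (hJ : BH k J) (l : Lam) :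
    Hom (fam k 18 J) (SM l) := by
  rintro T p ⟨N, hN⟩
  refine ⟨N, fun n hn => ?_⟩
  have h1 : (∏ v ∈ T, lx k 18 v) ^ n ∈
      SupL k (blkM ⁻¹' {n • ∑ v ∈ T, blkM (Pi.single v 1)}) :=
    SupL_pow blkM (SupL_prod blkM T _ _ fun v _ => lx_mem_SM k v) n
  rw [SM_def, mul_flt blkM h1]
  exact hJ.lat_flt _ (hN n hn)

theorem BH.span {s : Set (MvPolynomial (Fin 18) k)}
    (hs : ∀ p ∈ s, ∃ e : Lam, toLaur k 18 p ∈ SupL k (SM e)) : BH k (Ideal.span s) :=
  ⟨s, rfl, hs⟩

theorem BH.sup {I J : Ideal (MvPolynomial (Fin 18) k)} (hI : BH k I) (hJ : BH k J) :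
    BH k (I ⊔ J) := by
  obtain ⟨s, rfl, hs⟩ := hI
  obtain ⟨t, rfl, ht⟩ := hJ
  refine ⟨s ∪ t, (Ideal.span_union s t).symm, ?_⟩
  rintro p (hp | hp)
  · exact hs p hp
  · exact ht p hp

open scoped Pointwise in
theorem BH.mul {I J : Ideal (MvPolynomial (Fin 18) k)} (hI : BH k I) (hJ : BH k J) :
    BH k (I * J) := by
  obtain ⟨s, rfl, hs⟩ := hI
  obtain ⟨t, rfl, ht⟩ := hJ
  refine ⟨s * t, Ideal.span_mul_span' s t, ?_⟩
  rintro _ ⟨p, hp, q, hq, rfl⟩
  obtain ⟨d, hd⟩ := hs p hp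
  obtain ⟨e, he⟩ := ht q hq
  refine ⟨d + e, ?_⟩
  change toLaur k 18 (p * q) ∈ _
  rw [map_mul]
  exact SupL_mul blkM hd he

theorem BH.top : BH k (⊤ : Ideal (MvPolynomial (Fin 18) k)) := by
  refine ⟨{1}, Ideal.span_singleton_one.symm, ?_⟩
  rintro _ rfl
  refine ⟨0, ?_⟩
  rw [map_one]
  exact SupL_one blkM

theorem BH.pow {I : Ideal (MvPolynomial (Fin 18) k)} (hI : BH k I) (n : ℕ) : BH k (I ^ n) := by
  induction n with
  | zero => rw [pow_zero, Ideal.one_eq_top]; exact BH.top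
  | succ n ih => rw [pow_succ]; exact ih.mul hI

/-- block degree of `g^β` -/
def degg (β : Fin 5 → ℕ) : Lam :=
  ![2 * β 4, β 0 + β 1, β 0 + 2 * β 4, β 1, β 2 + β 3, β 2 + 2 * β 4, β 3]

theorem lx_deg (v : Fin 18) {d : Lam} (h : blkM (Pi.single v 1) = d) :
    lx k 18 v ∈ SupL k (blkM ⁻¹' {d}) := h ▸ lx_mem_SM k v

theorem gg_mem (i : Fin 5) : toLaur k 18 (gg k i) ∈ SupL k (SM (degg (Pi.single i 1))) := by
  have hx : ∀ a : Fin 2, blkM (Pi.single ⟨a.1, by omega⟩ 1) = ![1, 0, 0, 0, 0, 0, 0] := by decide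
  have e6 : blkM (Pi.single 6 1) = ![0, 1, 0, 0, 0, 0, 0] := by decide
  have e7 : blkM (Pi.single 7 1) = ![0, 0, 1, 0, 0, 0, 0] := by decide
  have e8 : blkM (Pi.single 8 1) = ![0, 0, 0, 1, 0, 0, 0] := by decide
  have e9 : blkM (Pi.single 9 1) = ![0, 1, 0, 0, 0, 0, 0] := by decide
  have e10 : blkM (Pi.single 10 1) = ![0, 0, 1, 0, 0, 0, 0] := by decide
  have e11 : blkM (Pi.single 11 1) = ![0, 0, 0, 1, 0, 0, 0] := by decide
  have e12 : blkM (Pi.single 12 1) = ![0, 0, 0, 0, 1, 0, 0] := by decide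
  have e13 : blkM (Pi.single 13 1) = ![0, 0, 0, 0, 0, 1, 0] := by decide
  have e14 : blkM (Pi.single 14 1) = ![0, 0, 0, 0, 0, 0, 1] := by decide
  have e15 : blkM (Pi.single 15 1) = ![0, 0, 0, 0, 1, 0, 0] := by decide
  have e16 : blkM (Pi.single 16 1) = ![0, 0, 0, 0, 0, 1, 0] := by decide
  have e17 : blkM (Pi.single 17 1) = ![0, 0, 0, 0, 0, 0, 1] := by decide
  fin_cases i
  · have h : degg (Pi.single 0 1) = ![0, 1, 0, 0, 0, 0, 0] + ![0, 0, 1, 0, 0, 0, 0] := by decide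
    change toLaur k 18 (MvPolynomial.X 9 * MvPolynomial.X 7 - MvPolynomial.X 6 * MvPolynomial.X 10)
      ∈ SupL k (blkM ⁻¹' {degg (Pi.single 0 1)})
    rw [h]
    simp only [map_sub, map_mul, toLaur_X]
    exact Submodule.sub_mem _ (SupL_mul blkM (lx_deg _ e9) (lx_deg _ e7))
      (SupL_mul blkM (lx_deg _ e6) (lx_deg _ e10))
  · have h : degg (Pi.single 1 1) = ![0, 1, 0, 0, 0, 0, 0] + ![0, 0, 0, 1, 0, 0, 0] := by decide
    change toLaur k 18 (MvPolynomial.X 6 * MvPolynomial.X 11 - MvPolynomial.X 9 * MvPolynomial.X 8)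
      ∈ SupL k (blkM ⁻¹' {degg (Pi.single 1 1)})
    rw [h]
    simp only [map_sub, map_mul, toLaur_X]
    exact Submodule.sub_mem _ (SupL_mul blkM (lx_deg _ e6) (lx_deg _ e11))
      (SupL_mul blkM (lx_deg _ e9) (lx_deg _ e8))
  · have h : degg (Pi.single 2 1) = ![0, 0, 0, 0, 1, 0, 0] + ![0, 0, 0, 0, 0, 1, 0] := by decide
    change toLaur k 18 (MvPolynomial.X 15 * MvPolynomial.X 13 -
      MvPolynomial.X 12 * MvPolynomial.X 16) ∈ SupL k (blkM ⁻¹' {degg (Pi.single 2 1)})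
    rw [h]
    simp only [map_sub, map_mul, toLaur_X]
    exact Submodule.sub_mem _ (SupL_mul blkM (lx_deg _ e15) (lx_deg _ e13))
      (SupL_mul blkM (lx_deg _ e12) (lx_deg _ e16))
  · have h : degg (Pi.single 3 1) = ![0, 0, 0, 0, 1, 0, 0] + ![0, 0, 0, 0, 0, 0, 1] := by decide
    change toLaur k 18 (MvPolynomial.X 12 * MvPolynomial.X 17 -
      MvPolynomial.X 15 * MvPolynomial.X 14) ∈ SupL k (blkM ⁻¹' {degg (Pi.single 3 1)})
    rw [h]
    simp only [map_sub, map_mul, toLaur_X]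
    exact Submodule.sub_mem _ (SupL_mul blkM (lx_deg _ e12) (lx_deg _ e17))
      (SupL_mul blkM (lx_deg _ e15) (lx_deg _ e14))
  · -- the form `f`
    have hx0 : lx k 18 0 ∈ SupL k (blkM ⁻¹' {![1, 0, 0, 0, 0, 0, 0]}) := lx_deg _ (hx 0)
    have hx1 : lx k 18 1 ∈ SupL k (blkM ⁻¹' {![1, 0, 0, 0, 0, 0, 0]}) := lx_deg _ (hx 1)
    have hY0 : lx k 18 7 ∈ SupL k (blkM ⁻¹' {![0, 0, 1, 0, 0, 0, 0]}) := lx_deg _ e7
    have hY1 : lx k 18 10 ∈ SupL k (blkM ⁻¹' {![0, 0, 1, 0, 0, 0, 0]}) := lx_deg _ e10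
    have hZ0 : lx k 18 13 ∈ SupL k (blkM ⁻¹' {![0, 0, 0, 0, 0, 1, 0]}) := lx_deg _ e13
    have hZ1 : lx k 18 16 ∈ SupL k (blkM ⁻¹' {![0, 0, 0, 0, 0, 1, 0]}) := lx_deg _ e16
    have hm : ∀ x Y Z : Laur k 18, x ∈ SupL k (blkM ⁻¹' {![1, 0, 0, 0, 0, 0, 0]}) →
        Y ∈ SupL k (blkM ⁻¹' {![0, 0, 1, 0, 0, 0, 0]}) →
        Z ∈ SupL k (blkM ⁻¹' {![0, 0, 0, 0, 0, 1, 0]}) →
        x * Y * Z ∈ SupL k (blkM ⁻¹' {![1, 0, 1, 0, 0, 1, 0]}) := by
      intro x Y Z h1 h2 h3
      have h := SupL_mul blkM (SupL_mul blkM h1 h2) h3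
      have e : (![1, 0, 0, 0, 0, 0, 0] + ![0, 0, 1, 0, 0, 0, 0] + ![0, 0, 0, 0, 0, 1, 0] : Lam) =
        ![1, 0, 1, 0, 0, 1, 0] := by decide
      rwa [e] at h
    have h : degg (Pi.single 4 1) = ![1, 0, 1, 0, 0, 1, 0] + ![1, 0, 1, 0, 0, 1, 0] := by decide
    have e : toLaur k 18 (gg k 4) =
        ff (lx k 18 0) (lx k 18 1) (lx k 18 7) (lx k 18 10) (lx k 18 13) (lx k 18 16) := by
      change toLaur k 18 (ff (MvPolynomial.X 0) (MvPolynomial.X 1) (MvPolynomial.X 7)
        (MvPolynomial.X 10) (MvPolynomial.X 13) (MvPolynomial.X 16)) = _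
      simp only [ff, map_add, map_mul, map_pow, toLaur_X]
    change toLaur k 18 (gg k 4) ∈ SupL k (blkM ⁻¹' {degg (Pi.single 4 1)})
    rw [e, h]
    unfold ff
    rw [pow_two]
    refine Submodule.add_mem _ (SupL_mul blkM (hm _ _ _ hx0 hY0 hZ0) ?_) (SupL_mul blkM ?_ ?_)
    · exact Submodule.add_mem _ (Submodule.add_mem _ (hm _ _ _ hx1 hY0 hZ0) (hm _ _ _ hx0 hY1 hZ0))
        (hm _ _ _ hx0 hY0 hZ1)
    · exact Submodule.add_mem _ (Submodule.add_mem _ (hm _ _ _ hx1 hY1 hZ0) (hm _ _ _ hx1 hY0 hZ1))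
        (hm _ _ _ hx0 hY1 hZ1)
    · exact Submodule.add_mem _ (Submodule.add_mem _ (hm _ _ _ hx1 hY1 hZ0) (hm _ _ _ hx1 hY0 hZ1))
        (hm _ _ _ hx0 hY1 hZ1)

theorem gpow_mem (β : Fin 5 → ℕ) : toLaur k 18 (gpow k β) ∈ SupL k (SM (degg β)) := by
  have h : toLaur k 18 (gpow k β) = ∏ i, toLaur k 18 (gg k i) ^ β i := by
    simp [gpow, map_prod, map_pow]
  have h2 : degg β = ∑ i, β i • degg (Pi.single i 1) := by
    have h0 : degg (Pi.single 0 1) = ![0, 1, 1, 0, 0, 0, 0] := by decide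
    have h1 : degg (Pi.single 1 1) = ![0, 1, 0, 1, 0, 0, 0] := by decide
    have h2 : degg (Pi.single 2 1) = ![0, 0, 0, 0, 1, 1, 0] := by decide
    have h3 : degg (Pi.single 3 1) = ![0, 0, 0, 0, 1, 0, 1] := by decide
    have h4 : degg (Pi.single 4 1) = ![2, 0, 2, 0, 0, 2, 0] := by decide
    rw [Fin.sum_univ_five, h0, h1, h2, h3, h4]
    ext j
    fin_cases j <;> simp [degg] <;> ring
  rw [h, h2]
  exact SupL_prod blkM _ _ _ fun i _ => SupL_pow blkM (gg_mem i) _

theorem monomial_mem (M : Ex) (c : k) :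
    ∃ e : Lam, toLaur k 18 (MvPolynomial.monomial M c) ∈ SupL k (SM e) := by
  refine ⟨∑ i ∈ M.support, M i • blkM (Pi.single i 1), ?_⟩
  rw [MvPolynomial.monomial_eq, map_mul, ← MvPolynomial.algebraMap_eq, AlgHom.commutes,
    ← Algebra.smul_def]
  refine Submodule.smul_mem _ _ ?_
  rw [Finsupp.prod, map_prod]
  simp only [map_pow, toLaur_X]
  exact SupL_prod blkM _ _ _ fun i _ => SupL_pow blkM (lx_mem_SM k i) _

theorem BH_GG : BH k (GG k) := by
  refine BH.span ?_
  rintro _ ⟨i, rfl⟩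
  exact ⟨_, gg_mem i⟩

theorem BH_bb (m : ℕ) : BH k (bb k m) := by
  refine BH.span ?_
  rintro _ ⟨M, _, rfl⟩
  exact monomial_mem M 1

theorem BH_II : BH k (II k) := BH_GG.sup (BH_bb 1)

theorem BH_JJ (n : ℕ) (S : Finset (Fin 5 → ℕ)) : BH k (JJ k n S) := by
  refine (BH_II.pow n).sup (BH.span ?_)
  rintro _ ⟨β, _, rfl⟩
  exact ⟨_, gpow_mem β⟩

variable (k)

theorem hom_fam_top (l : Lam) : Hom (fam k 18 ⊤) (SM l) := BH.top.hom l

theorem hom_fam_GG (l : Lam) : Hom (fam k 18 (GG k)) (SM l) := BH_GG.hom l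

theorem hom_fam_bb (m : ℕ) (l : Lam) : Hom (fam k 18 (bb k m)) (SM l) := (BH_bb m).hom l

theorem hom_fam_GG_bb (m : ℕ) (l : Lam) : Hom (fam k 18 (GG k ⊔ bb k m)) (SM l) :=
  (BH_GG.sup (BH_bb m)).hom l

theorem hom_fam_JJ (n : ℕ) (S : Finset (Fin 5 → ℕ)) (l : Lam) : Hom (fam k 18 (JJ k n S)) (SM l) :=
  (BH_JJ n S).hom l

theorem hom_fam_II_pow (n : ℕ) (l : Lam) : Hom (fam k 18 (II k ^ n)) (SM l) := (BH_II.pow n).hom l

theorem phi_flt (l : Lam) (p : Laur k 18) : phi k (flt k (SM l) p) = flt k (SL l) (phi k p) := by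
  induction p using AddMonoidAlgebra.induction_linear with
  | zero => simp
  | add p q hp hq => rw [map_add, map_add, hp, hq, map_add, map_add]
  | single μ c =>
    have h1 : ∀ (μ : Fin 18 → ℤ) (c : k), phi k (single μ c) = single (expMap μ) c := by
      intro μ c
      simp [phi]
    by_cases h : μ ∈ SM l
    · rw [flt_single_of_mem h, h1, flt_single_of_mem (by exact h)]
    · rw [flt_single_of_notMem h, h1, flt_single_of_notMem (by exact h), map_zero]

theorem gpow_flt (β : Fin 5 → ℕ) (l : Lam) (p : Laur k 18) :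
    toLaur k 18 (gpow k β) * flt k (SM l) p =
      flt k (SM (l + degg β)) (toLaur k 18 (gpow k β) * p) :=
  mul_flt blkM (gpow_mem β) l p

theorem II_homogeneous :
    letI := MvPolynomial.gradedAlgebra (σ := Fin 18) (R := k)
    (II k).IsHomogeneous (MvPolynomial.homogeneousSubmodule (Fin 18) k) := by
  let _ := MvPolynomial.gradedAlgebra (σ := Fin 18) (R := k)
  have hX : ∀ v : Fin 18, (MvPolynomial.X v : MvPolynomial (Fin 18) k).IsHomogeneous 1 :=
    fun v => MvPolynomial.isHomogeneous_X k v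
  unfold II
  refine Ideal.IsHomogeneous.sup ?_ ?_
  · refine Ideal.homogeneous_span _ _ ?_
    rintro _ ⟨i, rfl⟩
    have h2 : ∀ a b c d : Fin 18, (MvPolynomial.X a * MvPolynomial.X b -
        MvPolynomial.X c * MvPolynomial.X d : MvPolynomial (Fin 18) k).IsHomogeneous 2 :=
      fun a b c d => ((hX a).mul (hX b)).sub ((hX c).mul (hX d))
    fin_cases i
    · exact ⟨2, h2 9 7 6 10⟩
    · exact ⟨2, h2 6 11 9 8⟩
    · exact ⟨2, h2 15 13 12 16⟩
    · exact ⟨2, h2 12 17 15 14⟩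
    · have hm : ∀ a b c : Fin 18, (MvPolynomial.X a * MvPolynomial.X b * MvPolynomial.X c :
          MvPolynomial (Fin 18) k).IsHomogeneous 3 :=
        fun a b c => ((hX a).mul (hX b)).mul (hX c)
      refine ⟨6, ?_⟩
      change (ff (MvPolynomial.X 0) (MvPolynomial.X 1) (MvPolynomial.X 7)
        (MvPolynomial.X 10) (MvPolynomial.X 13) (MvPolynomial.X 16) :
          MvPolynomial (Fin 18) k).IsHomogeneous 6
      unfold ff
      rw [pow_two]
      exact ((hm _ _ _).mul (((hm _ _ _).add (hm _ _ _)).add (hm _ _ _))).add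
        ((((hm _ _ _).add (hm _ _ _)).add (hm _ _ _)).mul
          (((hm _ _ _).add (hm _ _ _)).add (hm _ _ _)))
  · refine Ideal.homogeneous_span _ _ ?_
    rintro _ ⟨M, _, rfl⟩
    exact ⟨_, MvPolynomial.isHomogeneous_monomial (1 : k) rfl⟩

end HomBlk

end Pool.Agent.Helper13
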