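import Pool.Agent.H29.Eff
import Pool.Agent.H29.Aff

open CategoryTheory Limits TopologicalSpace AlgebraicGeometry Opposite Pretriangulated

universe w u

namespace Pool.H29

variable {X : Scheme.{u}}

/-- Second version of `FreeOn.resL`. -/
lemma FreeOn.resL' {W : X.Opens} {B : X.Modules} {b : Γ(B, W)} (h : FreeOn W B b) {V : X.Opens}
    (hV : V ≤ W) : FreeOn V ((L V).obj B) (toL V le_rfl (res B hV b)) where
  supp := supp_L V B
  bij U hU := by
    have e : ∀ r : Γ(X, U), (lι V B).app U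
        (r • res _ hU (toL V le_rfl (res B hV b))) = r • res B (hU.trans hV) b := by
      intro r
      rw [Scheme.Modules.Hom.app_smul, app_res, ι_toL, res_res]
    have hb := h.bij U (hU.trans hV)
    constructor
    · intro r s hrs
      apply hb.1
      simp only at hrs ⊢
      rw [← e, ← e, hrs]
    · intro s
      obtain ⟨r, hr⟩ := hb.2 ((lι V B).app U s)
      refine ⟨r, Lι_inj V B U ?_⟩
      simp only at hr ⊢
      rw [e, hr]

/-- Factoring through `L_V`. -/
noncomputable def facL (V : X.Opens) {T B : X.Modules} (t : T ⟶ B) (hT : Supp V T) :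
    T ⟶ (L V).obj B := (Lsub V B).lift t (fun U s => Small.app (hT U s) t)

@[reassoc (attr := simp)]
lemma facL_ι (V : X.Opens) {T B : X.Modules} (t : T ⟶ B) (hT : Supp V T) :
    facL V t hT ≫ lι V B = t := SubSh.lift_ι _ _ _

variable [HasDerivedCategory.{w} X.Modules]

variable (X) in
/-- The embedding in degree `0`. -/
noncomputable abbrev SX : X.Modules ⥤ DerivedCategory X.Modules := S₀ X.Modules

/-- `Hom(B, O⟦n⟧) = 0`. -/
def HVan (B : X.Modules) (n : ℤ) : Prop :=
  ∀ ξ : (SX X).obj B ⟶ ((SX X).obj (OX X))⟦n⟧, ξ = 0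

/-- `ξ` vanishes on `V`. -/
def Kill {B : X.Modules} {n : ℤ} (ξ : (SX X).obj B ⟶ ((SX X).obj (OX X))⟦n⟧) (V : X.Opens) :
    Prop := (SX X).map (lι V B) ≫ ξ = 0

lemma Kill.comp {B T : X.Modules} {n : ℤ} {ξ : (SX X).obj B ⟶ ((SX X).obj (OX X))⟦n⟧}
    {V : X.Opens} (h : Kill ξ V) (t : T ⟶ B) (hT : Supp V T) : (SX X).map t ≫ ξ = 0 := by
  rw [← facL_ι V t hT, Functor.map_comp, Category.assoc, h, comp_zero]

lemma Kill.mono {B : X.Modules} {n : ℤ} {ξ : (SX X).obj B ⟶ ((SX X).obj (OX X))⟦n⟧}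
    {V V' : X.Opens} (h : Kill ξ V) (hV : V' ≤ V) : Kill ξ V' :=
  h.comp _ ((supp_L V' B).mono_open hV)

/-- Local vanishing. -/
lemma exists_kill {V : X.Opens} {B : X.Modules} {b : Γ(B, V)} (hB : FreeOn V B b) {n : ℤ}
    (hn : n ≠ 0) (ξ : (SX X).obj B ⟶ ((SX X).obj (OX X))⟦n⟧) (x : X) (hx : x ∈ V) :
    ∃ V' : X.Opens, V' ≤ V ∧ x ∈ V' ∧ Kill ξ V' := by
  obtain ⟨M', e, he, h0⟩ := exists_epi_comp_eq_zero hn ξ
  obtain ⟨V', hV', hxV', s, hs⟩ := locSurj_of_epi e V b x hx
  refine ⟨V', hV', hxV', ?_⟩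
  have hF := hB.resL' hV'
  obtain ⟨φ, hφ⟩ := hF.exists_hom s
  have h1 : φ ≫ e = lι V' B := by
    apply hF.hom_ext
    rw [comp_app', hφ, hs, ι_toL]
  rw [Kill, ← h1, Functor.map_comp, Category.assoc, h0, comp_zero]

/-- The surjectivity hypothesis of the patching lemma. -/
def PatchHyp (a b : X.Opens) (B : X.Modules) (n : ℤ) : Prop :=
  ∀ ζ : ((SX X).obj ((L a).obj ((L b).obj B)))⟦(1 : ℤ)⟧ ⟶ ((SX X).obj (OX X))⟦n⟧,
    ∃ (ζa : ((SX X).obj ((L a).obj B))⟦(1 : ℤ)⟧ ⟶ ((SX X).obj (OX X))⟦n⟧)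
      (ζb : ((SX X).obj ((L b).obj B))⟦(1 : ℤ)⟧ ⟶ ((SX X).obj (OX X))⟦n⟧),
      ζ = ((SX X).map ((L a).map (lι b B)))⟦(1 : ℤ)⟧' ≫ ζa +
        ((SX X).map (lι a ((L b).obj B)))⟦(1 : ℤ)⟧' ≫ ζb

lemma patch {a b : X.Opens} {B : X.Modules} {n : ℤ} (hB : Supp (a ⊔ b) B)
    (hP : PatchHyp a b B n) (ξ : (SX X).obj B ⟶ ((SX X).obj (OX X))⟦n⟧)
    (ha : Kill ξ a) (hb : Kill ξ b) : ξ = 0 := by
  have h1 := LRseq_shortExact a B
  have h2 := LRseq_shortExact a ((L b).obj B)
  let f : LRseq a ((L b).obj B) ⟶ LRseq a B :=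
    { τ₁ := (L a).map (lι b B)
      τ₂ := lι b B
      τ₃ := (R a).map (lι b B)
      comm₁₂ := lι_nat a (lι b B)
      comm₂₃ := rπ_nat a (lι b B) }
  have hiso : IsIso ((R a).map (lι b B)) := by
    have h3 := R_shortExact a (LRseq_shortExact b B)
    have h4 := h3.isIso_f_iff.2 (by
      change IsZero ((R a).obj ((R b).obj B))
      rw [← supp_iff_isZero_R]
      exact supp_of_van (hB.R b) (van_R b B) (by rw [sup_comm]))
    exact h4
  have hτ₃ : IsIso ((SX X).map ((R a).map (lι b B))) := inferInstance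
  obtain ⟨η, hη⟩ := Triangle.yoneda_exact₂ _ h1.singleTriangle_distinguished ξ ha
  change (SX X).obj ((R a).obj B) ⟶ ((SX X).obj (OX X))⟦n⟧ at η
  change ξ = (SX X).map (rπ a B) ≫ η at hη
  have h5 : (SX X).map (rπ a ((L b).obj B)) ≫ (SX X).map ((R a).map (lι b B)) ≫ η = 0 := by
    rw [← Category.assoc, ← Functor.map_comp, ← rπ_nat, Functor.map_comp, Category.assoc, ← hη]
    exact hb
  obtain ⟨ζ, hζ⟩ := Triangle.yoneda_exact₃ _ h2.singleTriangle_distinguished
    ((SX X).map ((R a).map (lι b B)) ≫ η) h5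
  change (SX X).map ((R a).map (lι b B)) ≫ η = h2.singleδ ≫ ζ at hζ
  obtain ⟨ζa, ζb, hab⟩ := hP ζ
  have hnat := (ShortComplex.ShortExact.singleTriangle.map h2 h1 f).comm₃
  change h2.singleδ ≫ ((SX X).map ((L a).map (lι b B)))⟦(1 : ℤ)⟧' =
    (SX X).map ((R a).map (lι b B)) ≫ h1.singleδ at hnat
  have hz2 := comp_distTriang_mor_zero₃₁ _ h2.singleTriangle_distinguished
  change h2.singleδ ≫ ((SX X).map (lι a ((L b).obj B)))⟦(1 : ℤ)⟧' = 0 at hz2
  have h6 : (SX X).map ((R a).map (lι b B)) ≫ η =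
      (SX X).map ((R a).map (lι b B)) ≫ h1.singleδ ≫ ζa := by
    rw [hζ, hab, Preadditive.comp_add, ← Category.assoc, hnat, ← Category.assoc h2.singleδ, hz2,
      zero_comp, add_zero, Category.assoc]
  have h7 : η = h1.singleδ ≫ ζa := (cancel_epi _).1 h6
  have hz1 := comp_distTriang_mor_zero₂₃ _ h1.singleTriangle_distinguished
  change (SX X).map (rπ a B) ≫ h1.singleδ = 0 at hz1
  rw [hη, h7, ← Category.assoc, hz1, zero_comp]

lemma patchHyp_of_van {a b : X.Opens} {B : X.Modules} {n : ℤ}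
    (h : HVan ((L a).obj ((L b).obj B)) n) : PatchHyp a b B (n + 1) := by
  intro ζ
  refine ⟨0, 0, ?_⟩
  rw [comp_zero, comp_zero, add_zero]
  let e := (shiftFunctorAdd (DerivedCategory X.Modules) n 1).app ((SX X).obj (OX X))
  obtain ⟨ζ', hζ'⟩ := (shiftFunctor (DerivedCategory X.Modules) (1 : ℤ)).map_surjective
    (ζ ≫ e.hom)
  have h0 : ζ' = 0 := h ζ'
  rw [h0, Functor.map_zero] at hζ'
  exact (Preadditive.IsIso.comp_right_eq_zero ζ e.hom).1 hζ'.symm

/-- The case of degree one on affine opens. -/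
lemma patchHyp_one {V : X.Opens} (hV : IsAffineOpen V) {B : X.Modules} {g : Γ(B, V)}
    (hB : FreeOn V B g) (a b : Γ(X, V)) (hab : V ≤ X.basicOpen a ⊔ X.basicOpen b) :
    PatchHyp (X.basicOpen a) (X.basicOpen b) B 1 := by
  intro ζ
  obtain ⟨ζ', rfl⟩ := (shiftFunctor (DerivedCategory X.Modules) (1 : ℤ)).map_surjective ζ
  obtain ⟨z, rfl⟩ := (SX X).map_surjective ζ'
  have hFa := hB.resL' (X.basicOpen_le a)
  have hFb := hB.resL' (X.basicOpen_le b)
  have hFab := hFb.resL (X.basicOpen a)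
  obtain ⟨z₀, hz₀⟩ : ∃ z₀ : Γ(X, X.basicOpen b ⊓ X.basicOpen a), toO z₀ = z.app _ _ :=
    ⟨z.app _ (toL (X.basicOpen a) inf_le_right (res _ inf_le_left
      (toL (X.basicOpen b) le_rfl (res B (X.basicOpen_le b) g)))), rfl⟩
  obtain ⟨u, v, huv⟩ := split_affine hV a b hab z₀
  obtain ⟨za, hza⟩ := hFa.exists_hom (M := OX X) (toO u)
  obtain ⟨zb, hzb⟩ := hFb.exists_hom (M := OX X) (toO v)
  have key : z = (L (X.basicOpen a)).map (lι (X.basicOpen b) B) ≫ za +
      lι (X.basicOpen a) ((L (X.basicOpen b)).obj B) ≫ zb := by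
    apply hFab.hom_ext
    rw [← hz₀, add_app', comp_app', comp_app', ι_toL, app_res, hzb]
    have h1 : ((L (X.basicOpen a)).map (lι (X.basicOpen b) B)).app
        (X.basicOpen b ⊓ X.basicOpen a) (toL (X.basicOpen a) inf_le_right (res _ inf_le_left
          (toL (X.basicOpen b) le_rfl (res B (X.basicOpen_le b) g)))) =
        res _ inf_le_right (toL (X.basicOpen a) le_rfl (res B (X.basicOpen_le a) g)) := by
      apply Lι_inj
      rw [L_map_app_ι, ι_toL, app_res, ι_toL, app_res, ι_toL, res_res, res_res]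
    rw [h1, app_res, hza, res_toO', res_toO', huv]
    rfl
  refine ⟨((SX X).map za)⟦(1 : ℤ)⟧', ((SX X).map zb)⟦(1 : ℤ)⟧', ?_⟩
  rw [← Functor.map_comp, ← Functor.map_comp, ← Functor.map_comp, ← Functor.map_comp,
    ← Functor.map_add, ← Functor.map_add, ← key]

lemma hvan_step (n : ℕ)
    (hP : ∀ (V : X.Opens) (_ : IsAffineOpen V) (B : X.Modules) (g : Γ(B, V)) (_ : FreeOn V B g)
      (a b : Γ(X, V)) (_ : V ≤ X.basicOpen a ⊔ X.basicOpen b),
      PatchHyp (X.basicOpen a) (X.basicOpen b) B ((n : ℤ) + 1))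
    (V : X.Opens) (hV : IsAffineOpen V) (B : X.Modules) (g : Γ(B, V)) (hB : FreeOn V B g) :
    HVan B ((n : ℤ) + 1) := by
  intro ξ
  let J : Ideal Γ(X, V) :=
    { carrier := { h | Kill ξ (X.basicOpen h) }
      zero_mem' := by
        change Kill ξ (X.basicOpen 0)
        have hz : IsZero ((L (X.basicOpen (0 : Γ(X, V)))).obj B) := by
          rw [X.basicOpen_zero, ← van_iff_isZero_L]
          intro U hU s
          refine res_ext fun x hx => ?_
          exact (hU hx).elim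
        rw [Kill, (Functor.map_isZero (SX X) hz).eq_of_src
          ((SX X).map (lι (X.basicOpen (0 : Γ(X, V))) B)) 0, zero_comp]
      add_mem' := by
        intro h1 h2 hk1 hk2
        change Kill ξ (X.basicOpen h1) at hk1
        change Kill ξ (X.basicOpen h2) at hk2
        change Kill ξ (X.basicOpen (h1 + h2))
        have hV' := hV.basicOpen (h1 + h2)
        have hle := X.basicOpen_le (h1 + h2)
        have hB' := hB.resL' hle
        have e1 : X.basicOpen (rr hle h1) = X.basicOpen (h1 + h2) ⊓ X.basicOpen h1 :=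
          X.basicOpen_res _ _
        have e2 : X.basicOpen (rr hle h2) = X.basicOpen (h1 + h2) ⊓ X.basicOpen h2 :=
          X.basicOpen_res _ _
        have ha : X.basicOpen (rr hle h1) ≤ X.basicOpen h1 := by
          rw [e1]
          exact inf_le_right
        have hb : X.basicOpen (rr hle h2) ≤ X.basicOpen h2 := by
          rw [e2]
          exact inf_le_right
        have hcov : X.basicOpen (h1 + h2) ≤
            X.basicOpen (rr hle h1) ⊔ X.basicOpen (rr hle h2) := by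
          rw [e1, e2, ← inf_sup_left]
          exact le_inf le_rfl (X.basicOpen_add_le _ _)
        refine patch (a := X.basicOpen (rr hle h1)) (b := X.basicOpen (rr hle h2))
          (B := (L (X.basicOpen (h1 + h2))).obj B) (hB'.supp.mono_open hcov)
          (hP _ hV' _ _ hB' _ _ hcov)
          ((SX X).map (lι (X.basicOpen (h1 + h2)) B) ≫ ξ) ?_ ?_
        · rw [Kill, ← Category.assoc, ← Functor.map_comp]
          exact hk1.comp _ ((supp_L _ _).mono_open ha)
        · rw [Kill, ← Category.assoc, ← Functor.map_comp]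
          exact hk2.comp _ ((supp_L _ _).mono_open hb)
      smul_mem' := by
        intro c h hk
        change Kill ξ (X.basicOpen h) at hk
        change Kill ξ (X.basicOpen (c * h))
        exact hk.mono (by rw [X.basicOpen_mul]; exact inf_le_right) }
  have hJ : J = ⊤ := by
    rw [← Ideal.span_eq J, ← hV.iSup_basicOpen_eq_self_iff]
    apply le_antisymm
    · exact iSup_le fun f => X.basicOpen_le _
    · intro x hx
      obtain ⟨V', hV', hxV', hk⟩ := exists_kill hB (by lia) ξ x hx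
      obtain ⟨f, hf, hxf⟩ := hV.exists_basicOpen_le ⟨x, hxV'⟩ hx
      have : X.basicOpen f ≤ ⨆ f : (J : Set Γ(X, V)), X.basicOpen (f : Γ(X, V)) :=
        le_iSup (fun f : (J : Set Γ(X, V)) => X.basicOpen (f : Γ(X, V))) ⟨f, hk.mono hf⟩
      exact this hxf
  have h1 : (1 : Γ(X, V)) ∈ J := by rw [hJ]; trivial
  have h2 : Kill ξ (X.basicOpen (1 : Γ(X, V))) := h1
  have h3 := h2.comp (𝟙 B) (by rw [X.basicOpen_one]; exact hB.supp)
  rw [CategoryTheory.Functor.map_id, Category.id_comp] at h3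
  exact h3

/-- Vanishing of the cohomology of the structure sheaf on affine opens. -/
theorem hvan_affine (n : ℕ) : ∀ (V : X.Opens) (_ : IsAffineOpen V) (B : X.Modules) (g : Γ(B, V)),
    FreeOn V B g → HVan B ((n : ℤ) + 1) := by
  induction n with
  | zero =>
    intro V hV B g hB
    exact hvan_step 0 (fun V hV B g hB a b hab => patchHyp_one hV hB a b hab) V hV B g hB
  | succ n ih =>
    intro V hV B g hB
    refine hvan_step (n + 1) (fun V hV B g hB a b hab => ?_) V hV B g hB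
    have hF := (hB.resL' (X.basicOpen_le b)).resL (X.basicOpen a)
    have haff : IsAffineOpen (X.basicOpen b ⊓ X.basicOpen a) := by
      rw [← X.basicOpen_mul]
      exact hV.basicOpen _
    have := patchHyp_of_van (ih _ haff _ _ hF)
    exact_mod_cast this

end Pool.H29
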