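import Mathlib

set_option autoImplicit false

namespace Pool.Agent.Helper13.K

open Polynomial Finset

-- F j i = coefficient of y^j z^i in
-- f = x + y + z + y^2z^2 + 2x y^2 z + 2x y z^2 + x^2 (y+z)^2, as polynomial in x
noncomputable def F (k : Type*) [Field k] : ℕ → ℕ → k[X]
  | 0, 0 => X | 1, 0 => 1 | 0, 1 => 1 | 2, 0 => X^2 | 1, 1 => 2*X^2 | 0, 2 => X^2 | 2, 1 => 2*X | 1, 2 => 2*X | 2, 2 => 1 | _, _ => 0

def Rel {k} [Field k] (P Q : ℕ) (U : ℕ → ℕ → k[X]) : Prop :=
  ∀ b c, b + 2 ≤ P → c + 2 ≤ Q → ∑ j ∈ range 3, ∑ i ∈ range 3, F k j i * U (b+j) (c+i) = 0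

section step1

variable {k : Type*} [Field k]

theorem exists_coprime (p q : k[X]) (hp : p ≠ 0) :
    ∃ d r t : k[X], d ≠ 0 ∧ p = d * r ∧ q = d * t ∧ IsCoprime r t := by
  classical
  obtain ⟨r, t, hr, ht, h⟩ := extract_gcd p q
  refine ⟨GCDMonoid.gcd p q, r, t, ?_, hr, ht, (gcd_isUnit_iff _ _).1 h⟩
  intro h0
  rw [h0, zero_mul] at hr
  exact hp hr

theorem lemma22 (a b c : k[X]) (L P : ℕ) (da : a.natDegree ≤ 2) (db : b.natDegree ≤ 2)
    (dc : c.natDegree ≤ 2) (hac : IsCoprime a c) (ha : a ≠ 0) (hc : c ≠ 0)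
    (hd : c.natDegree = 2 ∨ a.natDegree = 2)
    (hη : ∀ η : k, a + b * C η + c * C η ^ 2 ≠ 0)
    (v : ℕ → k[X]) (hv : ∀ i, i ≤ P → (v i).natDegree ≤ L) (hP : L + 3 ≤ P)
    (hrec : ∀ i, i + 2 ≤ P → a * v i + b * v (i + 1) + c * v (i + 2) = 0) :
    ∀ i, i ≤ P → v i = 0 := by
  let S : ℕ → k[X] := fun i => a * v i ^ 2 + b * v i * v (i + 1) + c * v (i + 1) ^ 2
  have hS : ∀ i, i + 2 ≤ P → c * S (i + 1) = a * S i := by
    intro i hi
    have h1 := hrec i hi
    have e : c * S (i + 1) - a * S i =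
        (a * v i + b * v (i + 1) + c * v (i + 2)) * (c * v (i + 2) - a * v i) := by
      simp only [S]; ring
    rw [h1, zero_mul] at e
    exact sub_eq_zero.mp e
  have hSn : ∀ n, n + 1 ≤ P → c ^ n * S n = a ^ n * S 0 := by
    intro n
    induction n with
    | zero => intro _; simp
    | succ n ih =>
      intro hn
      rw [pow_succ, mul_assoc, hS n (by omega), pow_succ, mul_left_comm, ih (by omega)]
      ring
  have hdeg : ∀ i, i + 1 ≤ P → (S i).natDegree ≤ 2 * L + 2 := by
    intro i hi
    have h1 := hv i (by omega)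
    have h2 := hv (i + 1) hi
    refine natDegree_add_le_of_degree_le (natDegree_add_le_of_degree_le ?_ ?_) ?_
    · refine natDegree_mul_le.trans ?_
      have := natDegree_pow_le (p := v i) (n := 2)
      omega
    · refine natDegree_mul_le.trans ?_
      have := natDegree_mul_le (p := b) (q := v i)
      omega
    · refine natDegree_mul_le.trans ?_
      have := natDegree_pow_le (p := v (i + 1)) (n := 2)
      omega
  have hS0 : S 0 = 0 := by
    have h1 := hSn (P - 1) (by omega)
    rcases hd with hd | hd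
    · have h2 : c ^ (P - 1) ∣ S 0 :=
        (IsCoprime.pow hac.symm).dvd_of_dvd_mul_left (Dvd.intro _ h1)
      by_contra h3
      have h4 := natDegree_le_of_dvd h2 h3
      rw [natDegree_pow, hd] at h4
      have := hdeg 0 (by omega)
      omega
    · have h2 : a ^ (P - 1) ∣ S (P - 1) :=
        (IsCoprime.pow hac).dvd_of_dvd_mul_left (Dvd.intro _ h1.symm)
      have h5 : S (P - 1) = 0 := by
        by_contra h3
        have h4 := natDegree_le_of_dvd h2 h3
        rw [natDegree_pow, hd] at h4
        have := hdeg (P - 1) (by omega)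
        omega
      rw [h5, mul_zero] at h1
      exact (mul_eq_zero.mp h1.symm).resolve_left (pow_ne_zero _ ha)
  by_cases h0 : v 0 = 0
  · have h1 : v 1 = 0 := by
      simp only [S, h0] at hS0
      simpa [hc] using hS0
    have key : ∀ i, i + 1 ≤ P → v i = 0 ∧ v (i + 1) = 0 := by
      intro i
      induction i with
      | zero => intro _; exact ⟨h0, h1⟩
      | succ i ih =>
        intro hi
        obtain ⟨e1, e2⟩ := ih (by omega)
        refine ⟨e2, ?_⟩
        have := hrec i hi
        rw [e1, e2] at this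
        simpa [hc] using this
    intro i hi
    rcases Nat.eq_zero_or_pos i with rfl | hi0
    · exact h0
    · have := (key (i - 1) (by omega)).2
      rwa [Nat.sub_add_cancel hi0] at this
  · exfalso
    obtain ⟨d, r, t, hd0, hr, ht, hrt⟩ := exists_coprime (v 0) (v 1) h0
    have hr0 : r ≠ 0 := by rintro rfl; exact h0 (by rw [hr, mul_zero])
    have hq : a * r ^ 2 + b * r * t + c * t ^ 2 = 0 := by
      have : d ^ 2 * (a * r ^ 2 + b * r * t + c * t ^ 2) = 0 := by
        have e : S 0 = d ^ 2 * (a * r ^ 2 + b * r * t + c * t ^ 2) := by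
          simp only [S, zero_add, hr, ht]; ring
        rw [← e, hS0]
      exact (mul_eq_zero.mp this).resolve_left (pow_ne_zero _ hd0)
    have ht0 : t ≠ 0 := by
      rintro rfl
      have : a * r ^ 2 = 0 := by simpa using hq
      exact (mul_ne_zero ha (pow_ne_zero _ hr0)) this
    have hprop : ∀ i, i + 1 ≤ P → r * v (i + 1) = t * v i := by
      intro i
      induction i with
      | zero => intro _; rw [zero_add, hr, ht]; ring
      | succ i ih =>
        intro hi
        have e1 := ih (by omega)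
        have e2 := hrec i hi
        have e3 : c * r * (r * v (i + 1 + 1) - t * v (i + 1)) = 0 := by
          have : c * r * (r * v (i + 1 + 1) - t * v (i + 1)) =
            r ^ 2 * (a * v i + b * v (i + 1) + c * v (i + 2)) -
              (b * r + c * t) * (r * v (i + 1) - t * v i) -
              (a * r ^ 2 + b * r * t + c * t ^ 2) * v i := by ring
          rw [this, e1, e2, hq]; ring
        exact sub_eq_zero.mp ((mul_eq_zero.mp e3).resolve_left (mul_ne_zero hc hr0))
    have hpow : ∀ n, n ≤ P → r ^ n * v n = t ^ n * v 0 := by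
      intro n
      induction n with
      | zero => intro _; simp
      | succ n ih =>
        intro hn
        rw [pow_succ, mul_assoc, hprop n hn, mul_left_comm, ih (by omega), pow_succ]
        ring
    have hP' := hpow P le_rfl
    have hvP : v P ≠ 0 := by
      intro h
      rw [h, mul_zero] at hP'
      exact (mul_ne_zero (pow_ne_zero _ ht0) h0) hP'.symm
    have dr : r.natDegree = 0 := by
      have h2 : r ^ P ∣ v 0 := (IsCoprime.pow hrt).dvd_of_dvd_mul_left (Dvd.intro _ hP')
      have h4 := natDegree_le_of_dvd h2 h0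
      rw [natDegree_pow] at h4
      have := hv 0 (by omega)
      by_contra h5
      have : P * 1 ≤ P * r.natDegree := Nat.mul_le_mul_left _ (by omega)
      omega
    have dt : t.natDegree = 0 := by
      have h2 : t ^ P ∣ v P := (IsCoprime.pow hrt.symm).dvd_of_dvd_mul_left (Dvd.intro _ hP'.symm)
      have h4 := natDegree_le_of_dvd h2 hvP
      rw [natDegree_pow] at h4
      have := hv P (by omega)
      by_contra h5
      have : P * 1 ≤ P * t.natDegree := Nat.mul_le_mul_left _ (by omega)
      omega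
    rw [eq_C_of_natDegree_eq_zero dr, eq_C_of_natDegree_eq_zero dt] at hq
    rw [eq_C_of_natDegree_eq_zero dr] at hr0
    have hr1 : r.coeff 0 ≠ 0 := by
      intro h; exact hr0 (by rw [h, C_0])
    refine hη (t.coeff 0 / r.coeff 0) ?_
    have e : C (r.coeff 0) ^ 2 * (a + b * C (t.coeff 0 / r.coeff 0) +
        c * C (t.coeff 0 / r.coeff 0) ^ 2) = 0 := by
      have e1 : C (r.coeff 0) * C (t.coeff 0 / r.coeff 0) = C (t.coeff 0) := by
        rw [← C_mul, mul_div_cancel₀ _ hr1]
      rw [← hq]
      linear_combination (b * C (r.coeff 0) + c * (C (r.coeff 0) * C (t.coeff 0 / r.coeff 0)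
        + C (t.coeff 0))) * e1
    exact (mul_eq_zero.mp e).resolve_left (pow_ne_zero _ hr0)

end step1

section step2

variable {k : Type*} [Field k]

theorem ne_zero_of_coeffs (A B D : k) (h : A ≠ 0 ∨ B ≠ 0) : C A * X ^ 2 + C B * X + C D ≠ 0 := by
  intro h0
  have h2 := congrArg (fun p : k[X] => p.coeff 2) h0
  have h1 := congrArg (fun p : k[X] => p.coeff 1) h0
  simp [coeff_C] at h1 h2
  rcases h with h | h
  · exact h h2
  · exact h h1

theorem pencil_ne (τ η : k) : (X + C τ + C τ ^ 2 * X ^ 2) +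
    (1 + 2 * X ^ 2 * C τ + 2 * X * C τ ^ 2) * C η + (X + C τ) ^ 2 * C η ^ 2 ≠ 0 := by
  have e : (X + C τ + C τ ^ 2 * X ^ 2) +
    (1 + 2 * X ^ 2 * C τ + 2 * X * C τ ^ 2) * C η + (X + C τ) ^ 2 * C η ^ 2 =
    C ((τ + η) ^ 2) * X ^ 2 + C (1 + 2 * τ * η * (τ + η)) * X + C (τ + η + τ ^ 2 * η ^ 2) := by
    simp only [map_add, map_mul, map_pow, map_one, map_ofNat]
    ring
  rw [e]
  apply ne_zero_of_coeffs
  by_cases h : τ + η = 0
  · right; rw [h]; simp
  · left; exact pow_ne_zero _ h

theorem fin_tau_ne (L P : ℕ) (hP : L + 3 ≤ P) (τ : k) (hτ : τ ≠ 0)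
    (v : ℕ → k[X]) (hv : ∀ i, i ≤ P → (v i).natDegree ≤ L)
    (hrec : ∀ i, i + 2 ≤ P → (X + C τ + C τ ^ 2 * X ^ 2) * v i +
      (1 + 2 * X ^ 2 * C τ + 2 * X * C τ ^ 2) * v (i + 1) + (X + C τ) ^ 2 * v (i + 2) = 0) :
    ∀ i, i ≤ P → v i = 0 := by
  have hc : (X + C τ : k[X]) ^ 2 ≠ 0 := pow_ne_zero _ (X_add_C_ne_zero τ)
  refine lemma22 _ _ _ L P ?_ ?_ ?_ ?_ ?_ hc ?_ (pencil_ne τ) v hv hP hrec
  · compute_degree
  · rw [← map_ofNat C 2]
    compute_degree
  · compute_degree
  · apply IsCoprime.pow_right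
    refine ⟨C (τ⁻¹) ^ 4, - C (τ⁻¹) ^ 4 * (C τ ^ 2 * (X - C τ) + 1), ?_⟩
    have h1 : C (τ⁻¹) * C τ = (1 : k[X]) := by rw [← C_mul, inv_mul_cancel₀ hτ, C_1]
    have h4 : C (τ⁻¹) ^ 4 * C τ ^ 4 = (1 : k[X]) := by rw [← mul_pow, h1, one_pow]
    linear_combination h4
  · intro h
    have h0 := congrArg (fun p : k[X] => p.coeff 0) h
    simp at h0
    exact hτ h0
  · left
    rw [natDegree_pow, natDegree_X_add_C]

theorem fin_inf (L P : ℕ) (hP : L + 3 ≤ P) (v : ℕ → k[X]) (hv : ∀ i, i ≤ P → (v i).natDegree ≤ L)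
    (hrec : ∀ i, i + 2 ≤ P → X ^ 2 * v i + (2 * X) * v (i + 1) + 1 * v (i + 2) = 0) :
    ∀ i, i ≤ P → v i = 0 := by
  refine lemma22 _ _ _ L P ?_ ?_ ?_ isCoprime_one_right (pow_ne_zero _ X_ne_zero) one_ne_zero
    (Or.inr (natDegree_X_pow 2)) ?_ v hv hP hrec
  · simp
  · rw [← map_ofNat C 2]
    compute_degree
    norm_num
  · simp
  · intro η
    have e : X ^ 2 + 2 * X * C η + 1 * C η ^ 2 = (X + C η) ^ 2 := by ring
    rw [e]
    exact pow_ne_zero _ (X_add_C_ne_zero η)

/-- Iterated binomial transform. -/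
noncomputable def W (v : ℕ → k[X]) : ℕ → ℕ → k[X]
  | 0, s => v s
  | i + 1, s => W v i s + W v i (s + 1)

theorem fin_zero (L P : ℕ) (hP : L + 3 ≤ P) (v : ℕ → k[X]) (hv : ∀ i, i ≤ P → (v i).natDegree ≤ L)
    (hrec : ∀ i, i + 2 ≤ P → X * v i + 1 * v (i + 1) + X ^ 2 * v (i + 2) = 0) :
    ∀ i, i ≤ P → v i = 0 := by
  have hW : ∀ i s, i + s ≤ P → (W v i s).natDegree ≤ L := by
    intro i
    induction i with
    | zero => intro s hs; exact hv s (by omega)
    | succ i ih =>
      intro s hs
      exact natDegree_add_le_of_degree_le (ih s (by omega)) (ih (s + 1) (by omega))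
  have hR : ∀ i s, i + s + 2 ≤ P → X * W v i s + W v i (s + 1) + X ^ 2 * W v i (s + 2) = 0 := by
    intro i
    induction i with
    | zero =>
      intro s hs
      have := hrec s (by omega)
      rw [one_mul] at this
      exact this
    | succ i ih =>
      intro s hs
      have h1 := ih s (by omega)
      have h2 := ih (s + 1) (by omega)
      simp only [W]
      rw [show s + 1 + 1 = s + 2 by ring, show s + 2 + 1 = s + 3 by ring]
      rw [show s + 1 + 1 = s + 2 by ring, show s + 1 + 2 = s + 3 by ring] at h2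
      linear_combination h1 + h2
  have hw : ∀ i, i + 2 ≤ P → (X ^ 2 + X - 1) * W v i 0 + (1 - 2 * X ^ 2) * W v (i + 1) 0 +
      X ^ 2 * W v (i + 2) 0 = 0 := by
    intro i hi
    have h1 := hR i 0 (by omega)
    simp only [W, zero_add] at h1 ⊢
    rw [show 1 + 1 = 2 by norm_num]
    linear_combination h1
  have key : ∀ i, i ≤ P → W v i 0 = 0 := by
    refine lemma22 _ _ _ L P ?_ ?_ ?_ ?_ ?_ (pow_ne_zero 2 X_ne_zero)
      (Or.inl (natDegree_X_pow 2)) ?_ (fun i => W v i 0) (fun i hi => hW i 0 (by omega)) hP hw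
    · compute_degree
    · rw [← map_ofNat C 2]
      compute_degree
    · simp
    · apply IsCoprime.pow_right
      exact ⟨-1, X + 1, by ring⟩
    · intro h
      have h0 := congrArg (fun p : k[X] => p.coeff 0) h
      simp at h0
    · intro η
      have e : (X ^ 2 + X - 1 : k[X]) + (1 - 2 * X ^ 2) * C η + X ^ 2 * C η ^ 2 =
        C ((1 - η) ^ 2) * X ^ 2 + C 1 * X + C (η - 1) := by
        simp only [map_sub, map_pow, map_one]
        ring
      rw [e]
      apply ne_zero_of_coeffs
      right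
      exact one_ne_zero
  have back : ∀ s i, i + s ≤ P → W v i s = 0 := by
    intro s
    induction s with
    | zero => intro i hi; exact key i (by omega)
    | succ s ih =>
      intro i hi
      have h1 := ih i (by omega)
      have h2 := ih (i + 1) (by omega)
      simp only [W] at h2
      rw [h1, zero_add] at h2
      exact h2
  intro i hi
  exact back i 0 (by omega)

theorem fin_tau (L P : ℕ) (hP : L + 3 ≤ P) (τ : k)
    (v : ℕ → k[X]) (hv : ∀ i, i ≤ P → (v i).natDegree ≤ L)
    (hrec : ∀ i, i + 2 ≤ P → (X + C τ + C τ ^ 2 * X ^ 2) * v i +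
      (1 + 2 * X ^ 2 * C τ + 2 * X * C τ ^ 2) * v (i + 1) + (X + C τ) ^ 2 * v (i + 2) = 0) :
    ∀ i, i ≤ P → v i = 0 := by
  rcases eq_or_ne τ 0 with rfl | hτ
  · refine fin_zero L P hP v hv fun i hi => ?_
    have := hrec i hi
    simp only [map_zero] at this
    linear_combination this
  · exact fin_tau_ne L P hP τ hτ v hv hrec

end step2

set_option linter.dupNamespace false

section step3

variable (k : Type*) [Field k]

/-- The solution space. -/
def K (L P Q : ℕ) : Submodule k (ℕ → ℕ → k[X]) where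
  carrier := {U | (∀ b c, (U b c).natDegree ≤ L) ∧ Rel P Q U ∧ ∀ b c, P < b ∨ Q < c → U b c = 0}
  add_mem' := by
    rintro U V ⟨h1, h2, h3⟩ ⟨h1', h2', h3'⟩
    refine ⟨fun b c => natDegree_add_le_of_degree_le (h1 b c) (h1' b c), fun b c hb hc => ?_,
      fun b c h => by simp [h3 b c h, h3' b c h]⟩
    have := h2 b c hb hc
    have := h2' b c hb hc
    simp only [Pi.add_apply, mul_add, sum_add_distrib, *, add_zero]
  zero_mem' := ⟨fun b c => by simp, fun b c hb hc => by simp, fun b c h => rfl⟩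
  smul_mem' := by
    rintro r U ⟨h1, h2, h3⟩
    refine ⟨fun b c => (natDegree_smul_le r _).trans (h1 b c), fun b c hb hc => ?_,
      fun b c h => by simp [h3 b c h]⟩
    have := h2 b c hb hc
    simp only [Pi.smul_apply, mul_smul_comm, ← smul_sum, this, smul_zero]

variable {k}

theorem mem_K {L P Q : ℕ} {U : ℕ → ℕ → k[X]} : U ∈ K k L P Q ↔
    (∀ b c, (U b c).natDegree ≤ L) ∧ Rel P Q U ∧ ∀ b c, P < b ∨ Q < c → U b c = 0 := Iff.rfl

instance (L P Q : ℕ) : FiniteDimensional k (K k L P Q) := by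
  let f : K k L P Q →ₗ[k] (Fin (P + 1) → Fin (Q + 1) → Fin (L + 1) → k) :=
    { toFun := fun U b c l => (U.1 b c).coeff l
      map_add' := by intro U V; ext b c l; simp
      map_smul' := by intro r U; ext b c l; simp }
  refine FiniteDimensional.of_injective f ?_
  rw [injective_iff_map_eq_zero]
  rintro ⟨U, h1, h2, h3⟩ h
  apply Subtype.ext
  funext b c
  change U b c = 0
  by_cases hbc : P < b ∨ Q < c
  · exact h3 b c hbc
  · push Not at hbc
    ext l
    by_cases hl : l ≤ L
    · have := congrFun (congrFun (congrFun h ⟨b, by omega⟩) ⟨c, by omega⟩) ⟨l, by omega⟩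
      simpa [f] using this
    · rw [coeff_eq_zero_of_natDegree_lt (by have := h1 b c; omega), coeff_zero]

/-- Truncation. -/
noncomputable def S₀ (L P Q : ℕ) : K k L P (Q + 1) →ₗ[k] K k L P Q where
  toFun U := ⟨fun b c => if c ≤ Q then U.1 b c else 0, by
    obtain ⟨U, h1, h2, h3⟩ := U
    refine ⟨fun b c => ?_, fun b c hb hc => ?_, fun b c h => ?_⟩
    · dsimp only
      split_ifs
      · exact h1 b c
      · simp
    · refine Eq.trans ?_ (h2 b c hb (by omega))
      refine sum_congr rfl fun j hj => sum_congr rfl fun i hi => ?_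
      rw [mem_range] at hj hi
      dsimp only
      rw [if_pos (by omega)]
    · dsimp only
      split_ifs with hc
      · exact h3 b c (by omega)
      · rfl⟩
  map_add' := by
    intro U V
    apply Subtype.ext
    funext b c
    simp only [Submodule.coe_add, Pi.add_apply]
    split_ifs <;> simp
  map_smul' := by
    intro r U
    apply Subtype.ext
    funext b c
    simp only [Submodule.coe_smul, Pi.smul_apply, RingHom.id_apply]
    split_ifs <;> simp

/-- Shift. -/
noncomputable def S₁ (L P Q : ℕ) : K k L P (Q + 1) →ₗ[k] K k L P Q where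
  toFun U := ⟨fun b c => U.1 b (c + 1), by
    obtain ⟨U, h1, h2, h3⟩ := U
    refine ⟨fun b c => h1 b _, fun b c hb hc => ?_, fun b c h => h3 b _ (by omega)⟩
    refine Eq.trans ?_ (h2 b (c + 1) hb (by omega))
    refine sum_congr rfl fun j hj => sum_congr rfl fun i hi => ?_
    dsimp only
    rw [show c + 1 + i = c + i + 1 by ring]⟩
  map_add' := by
    intro U V
    rfl
  map_smul' := by
    intro r U
    rfl

theorem S₀_injective (L P Q : ℕ) (hP : L + 3 ≤ P) (hQ : 1 ≤ Q) :
    Function.Injective (S₀ (k := k) L P Q) := by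
  rw [injective_iff_map_eq_zero]
  rintro ⟨U, h1, h2, h3⟩ h
  have hU : ∀ b c, c ≤ Q → U b c = 0 := by
    intro b c hc
    have := congrFun (congrFun (congrArg Subtype.val h) b) c
    simpa [S₀, hc] using this
  have key : ∀ b, b ≤ P → U b (Q + 1) = 0 := by
    refine fin_inf L P hP (fun b => U b (Q + 1)) (fun b _ => h1 b _) fun b hb => ?_
    have := h2 b (Q - 1) hb (by omega)
    simp only [sum_range_succ, sum_range_zero, zero_add, add_zero, F,
      hU _ (Q - 1) (by omega), hU _ (Q - 1 + 1) (by omega), mul_zero,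
      show Q - 1 + 2 = Q + 1 by omega] at this
    exact this
  apply Subtype.ext
  funext b c
  change U b c = 0
  by_cases hb : b ≤ P
  · by_cases hc : c ≤ Q
    · exact hU b c hc
    · by_cases hc' : c = Q + 1
      · subst hc'
        exact key b hb
      · exact h3 b c (by omega)
  · exact h3 b c (by omega)

theorem finrank_lt [IsAlgClosed k] (L P Q : ℕ) (hP : L + 3 ≤ P) (hQ : 1 ≤ Q) :
    Module.finrank k (K k L P (Q + 1)) ≤ Module.finrank k (K k L P Q) - 1 := by
  have hinj := S₀_injective (k := k) L P Q hP hQ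
  have hle := LinearMap.finrank_le_finrank_of_injective hinj
  rcases hle.lt_or_eq with h | h
  · omega
  rcases Nat.eq_zero_or_pos (Module.finrank k (K k L P (Q + 1))) with h0 | h0
  · omega
  exfalso
  have : Nontrivial (K k L P (Q + 1)) := Module.nontrivial_of_finrank_pos h0
  let e := LinearEquiv.ofBijective (S₀ (k := k) L P Q)
    ⟨hinj, (LinearMap.injective_iff_surjective_of_finrank_eq_finrank h).mp hinj⟩
  obtain ⟨τ, hτ⟩ := Module.End.exists_eigenvalue (e.symm.toLinearMap ∘ₗ S₁ (k := k) L P Q)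
  obtain ⟨U, hU⟩ := hτ.exists_hasEigenvector
  have h5 := hU.apply_eq_smul
  have h6 : S₁ L P Q U = τ • S₀ L P Q U := by
    have := congrArg e h5
    simp only [LinearMap.comp_apply, LinearEquiv.coe_coe, LinearEquiv.apply_symm_apply,
      map_smul] at this
    exact this
  apply hU.2
  obtain ⟨U, h1, h2, h3⟩ := U
  have h7 : ∀ b c, c ≤ Q → U b (c + 1) = C τ * U b c := by
    intro b c hc
    have := congrFun (congrFun (congrArg Subtype.val h6) b) c
    simp only [S₀, S₁, LinearMap.coe_mk, AddHom.coe_mk, Submodule.coe_smul, Pi.smul_apply,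
      if_pos hc] at this
    rw [this, smul_eq_C_mul]
  have key : ∀ b, b ≤ P → U b 0 = 0 := by
    refine fin_tau L P hP τ (fun b => U b 0) (fun b _ => h1 b _) fun b hb => ?_
    have := h2 b 0 hb (by omega)
    have e1 : ∀ b, U b 1 = C τ * U b 0 := fun b => h7 b 0 (by omega)
    have e2 : ∀ b, U b 2 = C τ * (C τ * U b 0) := fun b => by
      rw [← e1]; exact h7 b 1 (by omega)
    simp only [sum_range_succ, sum_range_zero, zero_add, add_zero, F, e1, e2] at this
    linear_combination this
  apply Subtype.ext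
  funext b c
  change U b c = 0
  by_cases hb : b ≤ P
  · by_cases hc : c ≤ Q + 1
    · have : ∀ c, c ≤ Q + 1 → U b c = 0 := by
        intro c
        induction c with
        | zero => intro _; exact key b hb
        | succ c ih =>
          intro hc
          rw [h7 b c (by omega), ih (by omega), mul_zero]
      exact this c hc
    · exact h3 b c (by omega)
  · exact h3 b c (by omega)

theorem F_symm (i j : ℕ) (hi : i < 3) (hj : j < 3) : F k i j = F k j i := by
  interval_cases i <;> interval_cases j <;> rfl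

theorem swap_mem (L P Q : ℕ) (U : ℕ → ℕ → k[X]) (h : U ∈ K k L P Q) :
    (fun b c => U c b) ∈ K k L Q P := by
  obtain ⟨h1, h2, h3⟩ := h
  refine ⟨fun b c => h1 c b, fun b c hb hc => ?_, fun b c h => h3 c b h.symm⟩
  rw [← h2 c b hc hb, sum_comm]
  refine sum_congr rfl fun j hj => sum_congr rfl fun i hi => ?_
  rw [mem_range] at hj hi
  rw [F_symm _ _ hi hj]

/-- Swap. -/
noncomputable def swap (L P Q : ℕ) : K k L P Q →ₗ[k] K k L Q P where
  toFun U := ⟨fun b c => U.1 c b, swap_mem L P Q U.1 U.2⟩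
  map_add' := by intro U V; rfl
  map_smul' := by intro r U; rfl

theorem finrank_swap (L P Q : ℕ) :
    Module.finrank k (K k L P Q) = Module.finrank k (K k L Q P) := by
  refine LinearEquiv.finrank_eq (LinearEquiv.ofLinearMap (swap L P Q) (swap L Q P) ?_ ?_)
  · ext; rfl
  · ext; rfl

theorem finrank_le [IsAlgClosed k] (L p q : ℕ) :
    Module.finrank k (K k L (L + 3 + p) (L + 3 + q)) ≤
      Module.finrank k (K k L (L + 3) (L + 3)) - (p + q) := by
  induction q with
  | zero =>
    induction p with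
    | zero => simp
    | succ p ih =>
      rw [finrank_swap]
      have := finrank_lt (k := k) L (L + 3 + 0) (L + 3 + p) (by omega) (by omega)
      rw [finrank_swap _ _ (L + 3 + p)] at this
      rw [show L + 3 + (p + 1) = L + 3 + p + 1 by ring]
      omega
  | succ q ih =>
    have := finrank_lt (k := k) L (L + 3 + p) (L + 3 + q) (by omega) (by omega)
    rw [show L + 3 + (q + 1) = L + 3 + q + 1 by ring]
    omega

theorem T_fin_closed (k : Type*) [Field k] [IsAlgClosed k] (L : ℕ) :
    ∃ N : ℕ, ∀ P Q, L+3 ≤ P → L+3 ≤ Q → N ≤ P+Q → ∀ U : ℕ → ℕ → k[X],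
   (∀ b c, b ≤ P → c ≤ Q → (U b c).natDegree ≤ L) → Rel P Q U → ∀ b c, b ≤ P → c ≤ Q → U b c = 0 := by
  refine ⟨Module.finrank k (K k L (L + 3) (L + 3)) + 2 * (L + 3), ?_⟩
  intro P Q hP hQ hN U hdeg hrel b c hb hc
  obtain ⟨p, rfl⟩ := Nat.exists_eq_add_of_le hP
  obtain ⟨q, rfl⟩ := Nat.exists_eq_add_of_le hQ
  have h1 := finrank_le (k := k) L p q
  have h2 : Module.finrank k (K k L (L + 3 + p) (L + 3 + q)) = 0 := by omega
  have h3 : (fun b c => if b ≤ L + 3 + p ∧ c ≤ L + 3 + q then U b c else 0) ∈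
      K k L (L + 3 + p) (L + 3 + q) := by
    refine ⟨fun b c => ?_, fun b c hb hc => ?_, fun b c h => ?_⟩
    · dsimp only
      split_ifs with h
      · exact hdeg b c h.1 h.2
      · simp
    · refine Eq.trans ?_ (hrel b c hb hc)
      refine sum_congr rfl fun j hj => sum_congr rfl fun i hi => ?_
      rw [mem_range] at hj hi
      dsimp only
      rw [if_pos (by omega)]
    · dsimp only
      rw [if_neg (by omega)]
  have h4 : Subsingleton (K k L (L + 3 + p) (L + 3 + q)) := Module.finrank_zero_iff.mp h2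
  have h5 := Subsingleton.elim (⟨_, h3⟩ : K k L (L + 3 + p) (L + 3 + q)) 0
  have h6 := congrFun (congrFun (congrArg Subtype.val h5) b) c
  simpa [hb, hc] using h6

end step3

theorem T_fin (k : Type*) [Field k] (L : ℕ) : ∃ N : ℕ, ∀ P Q, L+3 ≤ P → L+3 ≤ Q → N ≤ P+Q → ∀ U : ℕ → ℕ → k[X],
   (∀ b c, b ≤ P → c ≤ Q → (U b c).natDegree ≤ L) → Rel P Q U → ∀ b c, b ≤ P → c ≤ Q → U b c = 0 := by
  obtain ⟨N, hN⟩ := T_fin_closed (AlgebraicClosure k) L
  refine ⟨N, fun P Q hP hQ hPQ U hdeg hrel b c hb hc => ?_⟩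
  let φ := algebraMap k (AlgebraicClosure k)
  have hF : ∀ j i, j < 3 → i < 3 → F (AlgebraicClosure k) j i = (F k j i).map φ := by
    intro j i hj hi
    interval_cases j <;> interval_cases i <;> simp [F]
  have := hN P Q hP hQ hPQ (fun b c => (U b c).map φ)
    (fun b c hb hc => (natDegree_map_le).trans (hdeg b c hb hc)) (fun b c hb hc => by
      have h := congrArg (Polynomial.map φ) (hrel b c hb hc)
      rw [Polynomial.map_sum, Polynomial.map_zero] at h
      rw [← h]
      refine sum_congr rfl fun j hj => ?_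
      rw [Polynomial.map_sum]
      refine sum_congr rfl fun i hi => ?_
      rw [mem_range] at hj hi
      rw [Polynomial.map_mul, hF j i hj hi]) b c hb hc
  exact (Polynomial.map_eq_zero φ).mp this

theorem natDegree_F (k : Type*) [Field k] (j i : ℕ) (hj : j < 3) (hi : i < 3) :
    (F k j i).natDegree ≤ 2 := by
  interval_cases j <;> interval_cases i <;> simp only [F] <;>
    first
    | (compute_degree; done)
    | (rw [← map_ofNat C 2]; compute_degree; done)
    | (rw [← map_ofNat C 2]; compute_degree; norm_num)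
    | simp

theorem T_nz (k : Type*) [Field k] (L P Q : ℕ) (hP : 2 ≤ P) (hQ : 2 ≤ Q) (h : (L+3)*(P-1)*(Q-1) < (L+1)*(P+1)*(Q+1)) :
   ∃ U : ℕ → ℕ → k[X], (∀ b c, (U b c).natDegree ≤ L) ∧ Rel P Q U ∧ ∃ b ≤ P, ∃ c ≤ Q, U b c ≠ 0 := by
  let A : (Fin (P + 1) → Fin (Q + 1) → degreeLT k (L + 1)) →ₗ[k] (ℕ → ℕ → k[X]) :=
    { toFun := fun u b c => if h : b < P + 1 then if h' : c < Q + 1 then
        (u ⟨b, h⟩ ⟨c, h'⟩ : k[X]) else 0 else 0
      map_add' := by
        intro u v
        funext b c
        simp only [Pi.add_apply]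
        split_ifs <;> simp
      map_smul' := by
        intro r u
        funext b c
        simp only [Pi.smul_apply, RingHom.id_apply]
        split_ifs <;> simp }
  let B : (ℕ → ℕ → k[X]) →ₗ[k] (Fin (P - 1) → Fin (Q - 1) → Fin (L + 3) → k) :=
    { toFun := fun U b c m =>
        (∑ j ∈ range 3, ∑ i ∈ range 3, F k j i * U (b+j) (c+i)).coeff m
      map_add' := by
        intro U V
        funext b c m
        simp [mul_add, sum_add_distrib]
      map_smul' := by
        intro r U
        funext b c m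
        simp only [Pi.smul_apply, mul_smul_comm, ← smul_sum, coeff_smul, RingHom.id_apply] }
  have hker : LinearMap.ker (B ∘ₗ A) ≠ ⊥ := by
    apply LinearMap.ker_ne_bot_of_finrank_lt
    have h1 : Module.finrank k (degreeLT k (L + 1)) = L + 1 := by
      rw [(degreeLTEquiv k (L + 1)).finrank_eq]; simp
    simp only [Module.finrank_pi_fintype, Module.finrank_self, sum_const, card_univ,
      Fintype.card_fin, smul_eq_mul, h1, mul_one]
    nlinarith [h]
  obtain ⟨u, hu, hu0⟩ := (Submodule.ne_bot_iff _).mp hker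
  have hdeg : ∀ b c, (A u b c).natDegree ≤ L := by
    intro b c
    simp only [A, LinearMap.coe_mk, AddHom.coe_mk]
    split_ifs with h1 h2
    · have := (u ⟨b, h1⟩ ⟨c, h2⟩).2
      rw [mem_degreeLT] at this
      exact natDegree_le_iff_coeff_eq_zero.2 fun N hN => coeff_eq_zero_of_degree_lt
        (this.trans_le (by exact_mod_cast (by omega : L + 1 ≤ N)))
    · simp
    · simp
  refine ⟨A u, hdeg, ?_, ?_⟩
  · intro b c hb hc
    ext m
    by_cases hm : m < L + 3
    · have := congrFun (congrFun (congrFun (LinearMap.mem_ker.mp hu) ⟨b, by omega⟩)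
        ⟨c, by omega⟩) ⟨m, hm⟩
      simpa [B] using this
    · rw [coeff_zero]
      apply coeff_eq_zero_of_natDegree_lt
      refine lt_of_le_of_lt (natDegree_sum_le_of_forall_le (n := L + 2) _ _ fun j hj => 
        natDegree_sum_le_of_forall_le (n := L + 2) _ _ fun i hi => ?_) (by omega)
      rw [mem_range] at hj hi
      refine natDegree_mul_le.trans ?_
      have h1 := natDegree_F k j i hj hi
      have h2 := hdeg (b + j) (c + i)
      omega
  · by_contra hcon
    push Not at hcon
    apply hu0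
    funext b c
    have := hcon b (by omega) c (by omega)
    have hb : (b : ℕ) ≤ P := by omega
    have hc : (c : ℕ) ≤ Q := by omega
    simpa [A, hb, hc] using this

end Pool.Agent.Helper13.K
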