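import Pool.Agent.H29.FF

open CategoryTheory Limits AlgebraicGeometry ZeroObject TopologicalSpace

universe v u

namespace Pool.H29

section Formal

variable {C : Type*} [Category C] [Abelian C] {O N B E : C} {inl : O ⟶ B} {fst : B ⟶ O}
  {inr : N ⟶ B} {snd : B ⟶ N} {i : E ⟶ B} {p : B ⟶ E}

lemma exists_split (h5 : fst ≫ inl + snd ≫ inr = 𝟙 B) (hip : i ≫ p = 𝟙 E)
    (hε : IsIso (inl ≫ p ≫ i ≫ fst)) :
    ∃ E₁ : C, Nonempty (Retract E₁ N) ∧ Nonempty (E ≅ O ⊞ E₁) := by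
  let β : E ⟶ O := i ≫ fst
  let α : O ⟶ E := inv (inl ≫ p ≫ i ≫ fst) ≫ inl ≫ p
  have hαβ : α ≫ β = 𝟙 O := by
    simp only [α, β, Category.assoc]
    exact IsIso.inv_hom_id _
  let κ := kernel.ι β
  have hκβ : κ ≫ β = 0 := kernel.condition β
  let π : E ⟶ kernel β := kernel.lift β (𝟙 E - β ≫ α) (by
    rw [Preadditive.sub_comp, Category.assoc, hαβ, Category.id_comp, Category.comp_id, sub_self])
  have hπκ : π ≫ κ = 𝟙 E - β ≫ α := kernel.lift_ι _ _ _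
  have hαπ : α ≫ π = 0 := by
    rw [← cancel_mono κ, Category.assoc, hπκ, Preadditive.comp_sub, ← Category.assoc, hαβ]
    simp
  have hκπ : κ ≫ π = 𝟙 _ := by
    rw [← cancel_mono κ, Category.assoc, hπκ, Preadditive.comp_sub, ← Category.assoc, hκβ]
    simp
  have h6 : κ ≫ i = (κ ≫ i ≫ snd) ≫ inr := by
    have : κ ≫ i = κ ≫ i ≫ (fst ≫ inl + snd ≫ inr) := by rw [h5, Category.comp_id]
    rw [this]
    have h7 : κ ≫ i ≫ fst = 0 := hκβ
    simp only [Preadditive.comp_add, Category.assoc]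
    rw [reassoc_of% h7]
    simp
  refine ⟨kernel β, ⟨⟨κ ≫ i ≫ snd, inr ≫ p ≫ π, ?_⟩⟩, ⟨⟨biprod.lift β π, biprod.desc α κ, ?_, ?_⟩⟩⟩
  · have : (κ ≫ i ≫ snd) ≫ inr ≫ p ≫ π = ((κ ≫ i ≫ snd) ≫ inr) ≫ p ≫ π := by
      simp only [Category.assoc]
    rw [this, ← h6, Category.assoc, reassoc_of% hip, hκπ]
  · rw [biprod.lift_desc, hπκ]
    abel
  · ext <;> simp [hαβ, hαπ, hκβ, hκπ]

lemma exists_retract (h5 : fst ≫ inl + snd ≫ inr = 𝟙 B)
    (hip : i ≫ p = 𝟙 E) (hε : IsIso (𝟙 O - inl ≫ p ≫ i ≫ fst)) : Nonempty (Retract E N) := by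
  let ε := inl ≫ p ≫ i ≫ fst
  have hε' : IsIso (𝟙 O - ε) := hε
  have e1 : snd ≫ inr = 𝟙 B - fst ≫ inl := by rw [← h5]; abel
  have e2 : i ≫ snd ≫ inr ≫ p = 𝟙 E - i ≫ fst ≫ inl ≫ p := by
    rw [← Category.assoc snd, e1]
    simp only [Preadditive.sub_comp, Preadditive.comp_sub, Category.id_comp, Category.assoc, hip]
  have e3 : inl ≫ p ≫ i ≫ snd ≫ inr ≫ p = (𝟙 O - ε) ≫ inl ≫ p := by
    rw [e2]
    simp only [ε, Preadditive.sub_comp, Preadditive.comp_sub, Category.id_comp, Category.assoc,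
      Category.comp_id]
  refine ⟨⟨i ≫ snd + i ≫ fst ≫ inv (𝟙 O - ε) ≫ inl ≫ p ≫ i ≫ snd, inr ≫ p, ?_⟩⟩
  simp only [Preadditive.add_comp, Category.assoc]
  rw [e3, e2, IsIso.inv_hom_id_assoc]
  abel

end Formal

variable {X Y : Scheme.{u}}

/-- The function by which an endomorphism of the structure sheaf acts. -/
noncomputable def fn (φ : OX Y ⟶ OX Y) : Γ(Y, ⊤) := φ.app ⊤ (toO 1)

lemma app_fn (φ : OX Y ⟶ OX Y) (U : Y.Opens) (s : Γ(Y, U)) :
    φ.app U (toO s) = toO (s * rg U (fn φ)) := by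
  have h1 : (toO s : Γ(OX Y, U)) = s • res (OX Y) le_top (toO 1) := by
    rw [res_toO, map_one, smul_toO, mul_one]
  rw [h1, Scheme.Modules.Hom.app_smul, app_res]
  rfl

lemma fn_one_sub (φ : OX Y ⟶ OX Y) : fn (𝟙 _ - φ) = 1 - fn φ := rfl

lemma isIso_map_of_fn (φ : OX Y ⟶ OX Y) : IsIso ((rF (Y.basicOpen (fn φ)).ι).map φ) := by
  refine isIso_of_app_bij _ fun W => ?_
  have hU : (Y.basicOpen (fn φ)).ι ''ᵁ W ≤ Y.basicOpen (fn φ) := by
    rintro _ ⟨w, -, rfl⟩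
    exact w.2
  have hu := isUnit_rg (fn φ) _ hU
  have h1 : Function.Bijective (φ.app ((Y.basicOpen (fn φ)).ι ''ᵁ W)) := by
    constructor
    · intro s t hst
      have h2 := app_fn φ ((Y.basicOpen (fn φ)).ι ''ᵁ W) s
      have h3 := app_fn φ ((Y.basicOpen (fn φ)).ι ''ᵁ W) t
      exact hu.mul_left_injective (h2.symm.trans (hst.trans h3))
    · intro t
      obtain ⟨u, hu⟩ := hu
      let t' : Γ(Y, (Y.basicOpen (fn φ)).ι ''ᵁ W) := t
      refine ⟨toO (t' * (↑u⁻¹ : Γ(Y, (Y.basicOpen (fn φ)).ι ''ᵁ W))), ?_⟩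
      rw [app_fn, ← hu, mul_assoc, Units.inv_mul, mul_one]
      rfl
  exact h1

lemma exists_isIso (y : Y) (φ : OX Y ⟶ OX Y) : ∃ V : Y.Opens, y ∈ V ∧
    (IsIso ((rF V.ι).map φ) ∨ IsIso ((rF V.ι).map (𝟙 _ - φ))) := by
  rcases IsLocalRing.isUnit_or_isUnit_one_sub_self (Y.presheaf.germ ⊤ y trivial (fn φ)) with h | h
  · exact ⟨Y.basicOpen (fn φ), (Y.mem_basicOpen (fn φ) y (U := ⊤) trivial).2 h,
      Or.inl (isIso_map_of_fn φ)⟩
  · refine ⟨Y.basicOpen (fn (𝟙 _ - φ)), (Y.mem_basicOpen (fn (𝟙 _ - φ)) y (U := ⊤) trivial).2 ?_,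
      Or.inr (isIso_map_of_fn _)⟩
    rw [fn_one_sub, map_sub, map_one]
    exact h

/-- Direct summands of finite free modules are locally free. -/
theorem exists_ff_of_retract : ∀ (n : ℕ) {Y : Scheme.{u}} (y : Y) {E M : Y.Modules} (_ : FF Y n M)
    (_ : Retract E M), ∃ (W : Scheme.{u}) (j : W ⟶ Y) (_ : IsOpenImmersion j) (w : W), j w = y ∧
      ∃ m, FF W m ((rF j).obj E) := by
  intro n
  induction n with
  | zero =>
    intro Y y E M hM r
    have hE : IsZero E := by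
      rw [IsZero.iff_id_eq_zero, ← r.retract, IsZero.eq_zero_of_tgt hM r.i, zero_comp]
    exact ⟨Y, 𝟙 Y, inferInstance, y, rfl, 0, Functor.map_isZero _ hE⟩
  | succ n ih =>
    intro Y y E M hM r
    obtain ⟨N, hN, ⟨e⟩⟩ := hM
    let i : E ⟶ OX Y ⊞ N := r.i ≫ e.hom
    let p : OX Y ⊞ N ⟶ E := e.inv ≫ r.r
    have hip : i ≫ p = 𝟙 E := by simp [i, p]
    obtain ⟨V, hy, hV⟩ := exists_isIso y (biprod.inl ≫ p ≫ i ≫ biprod.fst)
    have h5 : (rF V.ι).map (biprod.fst : OX Y ⊞ N ⟶ OX Y) ≫ (rF V.ι).map biprod.inl +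
        (rF V.ι).map (biprod.snd : OX Y ⊞ N ⟶ N) ≫ (rF V.ι).map biprod.inr = 𝟙 _ := by
      rw [← Functor.map_comp, ← Functor.map_comp, ← Functor.map_add, biprod.total,
        CategoryTheory.Functor.map_id]
    have hip' : (rF V.ι).map i ≫ (rF V.ι).map p = 𝟙 _ := by
      rw [← Functor.map_comp, hip, CategoryTheory.Functor.map_id]
    have hε : (rF V.ι).map (biprod.inl ≫ p ≫ i ≫ biprod.fst) = (rF V.ι).map biprod.inl ≫
        (rF V.ι).map p ≫ (rF V.ι).map i ≫ (rF V.ι).map biprod.fst := by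
      simp only [Functor.map_comp]
    rcases hV with hV | hV
    · rw [hε] at hV
      obtain ⟨E₁, ⟨r₁⟩, ⟨e₁⟩⟩ := exists_split h5 hip' hV
      obtain ⟨W, j, hj, w, hw, m, hm⟩ := ih (⟨y, hy⟩ : V.toScheme) (hN.restrict V.ι) r₁
      refine ⟨W, j ≫ V.ι, inferInstance, w, ?_, m + 1, (rF j).obj E₁, hm, ⟨?_⟩⟩
      · rw [Scheme.Hom.comp_apply, hw]
        rfl
      · have := preservesBinaryBiproducts_of_preservesBiproducts (rF j)
        exact (Scheme.Modules.restrictFunctorComp j V.ι).app E ≪≫ (rF j).mapIso e₁ ≪≫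
          (rF j).mapBiprod _ _ ≪≫ biprod.mapIso
            ((rF j).mapIso (Scheme.Modules.restrictUnitIso V.ι) ≪≫
              Scheme.Modules.restrictUnitIso j) (Iso.refl _)
    · rw [Functor.map_sub, CategoryTheory.Functor.map_id, hε] at hV
      obtain ⟨r₁⟩ := exists_retract h5 hip' hV
      obtain ⟨W, j, hj, w, hw, m, hm⟩ := ih (⟨y, hy⟩ : V.toScheme) (hN.restrict V.ι) r₁
      refine ⟨W, j ≫ V.ι, inferInstance, w, ?_, m, hm.iso ?_⟩
      · rw [Scheme.Hom.comp_apply, hw]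
        rfl
      · exact ((Scheme.Modules.restrictFunctorComp j V.ι).app E).symm

end Pool.H29
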