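import Pool.Agent.H29.LFun

open CategoryTheory Limits TopologicalSpace AlgebraicGeometry Opposite

universe u

namespace Pool.H29

variable {X : Scheme.{u}}

section exact

variable {M N K : X.Modules}

/-- The kernel subsheaf. -/
def kerSub (g : M ⟶ N) : SubSh M where
  mem U s := g.app U s = 0
  zero U := map_zero _
  add U s t hs ht := by rw [map_add, hs, ht, add_zero]
  smul U r s hs := by rw [Scheme.Modules.Hom.app_smul, hs, smul_zero]
  res U V h s hs := by rw [app_res, hs, res_zero]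
  loc U s hs := res_ext fun x hx => by
    obtain ⟨V, h, hV, e⟩ := hs x hx
    exact ⟨V, h, hV, by rw [← app_res, e, res_zero]⟩

/-- The kernel fork given by the kernel subsheaf. -/
noncomputable def kerFork (g : M ⟶ N) : KernelFork g :=
  KernelFork.ofι (kerSub g).ι (hom_ext' fun U s => (kerSub g).mem_ι U s)

lemma kerSub_ι_comp (g : M ⟶ N) : (kerSub g).ι ≫ g = 0 :=
  hom_ext' fun U s => (kerSub g).mem_ι U s

/-- It is a kernel. -/
noncomputable def kerForkIsLimit (g : M ⟶ N) : IsLimit (kerFork g) :=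
  KernelFork.IsLimit.ofι' (kerSub g).ι (kerSub_ι_comp g) (fun {A} k hk =>
    ⟨(kerSub g).lift k (fun U s => by
      change g.app U (k.app U s) = 0
      rw [← comp_app', hk, zero_app']), SubSh.lift_ι _ _ _⟩)

/-- Elementwise exactness. -/
def ElemExact (S : ShortComplex X.Modules) : Prop :=
  ∀ (U : X.Opens) (t : Γ(S.X₂, U)), S.g.app U t = 0 → ∀ x ∈ U,
    ∃ (V : X.Opens) (h : V ≤ U), x ∈ V ∧ ∃ s : Γ(S.X₁, V), S.f.app V s = res S.X₂ h t

lemma exact_iff_elem (S : ShortComplex X.Modules) : S.Exact ↔ ElemExact S := by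
  rw [ShortComplex.exact_iff_epi_kernel_lift]
  let e : kernel S.g ≅ (kerSub S.g).obj :=
    (kernelIsKernel S.g).conePointUniqueUpToIso (kerForkIsLimit S.g)
  have he : e.hom ≫ (kerSub S.g).ι = kernel.ι S.g :=
    IsLimit.conePointUniqueUpToIso_hom_comp _ _ WalkingParallelPair.zero
  have h1 : Epi (kernel.lift S.g S.f S.zero) ↔ Epi (kernel.lift S.g S.f S.zero ≫ e.hom) := by
    constructor
    · intro h; infer_instance
    · intro h
      have : Epi ((kernel.lift S.g S.f S.zero ≫ e.hom) ≫ e.inv) := inferInstance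
      simpa using this
  rw [h1, epi_iff_locSurj]
  have h2 : ∀ (V : X.Opens) (s : Γ(S.X₁, V)),
      (kerSub S.g).ι.app V ((kernel.lift S.g S.f S.zero ≫ e.hom).app V s) = S.f.app V s := by
    intro V s
    rw [← comp_app', Category.assoc, he, kernel.lift_ι]
  constructor
  · intro H U t ht x hx
    obtain ⟨t', rfl⟩ := (kerSub S.g).exists_of_mem ht
    obtain ⟨V, h, hV, s, hs⟩ := H U t' x hx
    refine ⟨V, h, hV, s, ?_⟩
    rw [← h2, hs, app_res]
  · intro H U t x hx
    obtain ⟨V, h, hV, s, hs⟩ := H U ((kerSub S.g).ι.app U t) ((kerSub S.g).mem_ι U t) x hx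
    refine ⟨V, h, hV, s, (kerSub S.g).ι_inj V ?_⟩
    rw [h2, hs, app_res]

/-- For an exact sequence with mono first map, sections lift globally. -/
lemma exists_section_of_exact {S : ShortComplex X.Modules} (hS : S.Exact) [Mono S.f]
    (U : X.Opens) (t : Γ(S.X₂, U)) (ht : S.g.app U t = 0) :
    ∃ s : Γ(S.X₁, U), S.f.app U s = t := by
  let l : S.X₁ ⟶ (kerSub S.g).obj := (kerSub S.g).lift S.f (fun U s => by
    change S.g.app U (S.f.app U s) = 0
    rw [← comp_app', S.zero, zero_app'])
  have hl : l ≫ (kerSub S.g).ι = S.f := SubSh.lift_ι _ _ _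
  have hls : ∀ (V : X.Opens) (s : Γ(S.X₁, V)), (kerSub S.g).ι.app V (l.app V s) = S.f.app V s := by
    intro V s
    rw [← comp_app', hl]
  have : Epi l := epi_of_locSurj _ fun U t x hx => by
    obtain ⟨V, h, hV, s, hs⟩ := (exact_iff_elem S).1 hS U ((kerSub S.g).ι.app U t)
      ((kerSub S.g).mem_ι U t) x hx
    refine ⟨V, h, hV, s, (kerSub S.g).ι_inj V ?_⟩
    rw [hls, hs, app_res]
  have : Mono l := by
    have : Mono (l ≫ (kerSub S.g).ι) := by rw [hl]; infer_instance
    exact mono_of_mono l (kerSub S.g).ι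
  have : IsIso l := isIso_of_mono_of_epi _
  have hb : Function.Bijective (l.app U) := by
    rw [← ConcreteCategory.isIso_iff_bijective]
    infer_instance
  obtain ⟨t', ht'⟩ := (kerSub S.g).exists_of_mem (U := U) (t := t) ht
  obtain ⟨s, rfl⟩ := hb.2 t'
  exact ⟨s, by rw [← hls, ht']⟩

end exact

end Pool.H29
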