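import Pool.Agent.H29.Sec

open CategoryTheory Limits TopologicalSpace AlgebraicGeometry Opposite

universe u

namespace Pool.H29

variable {X : Scheme.{u}}

/-- A subsheaf of a sheaf of modules, given by a local predicate on sections. -/
structure SubSh (M : X.Modules) where
  mem : ∀ U : X.Opens, Γ(M, U) → Prop
  zero : ∀ U, mem U 0
  add : ∀ U s t, mem U s → mem U t → mem U (s + t)
  smul : ∀ U (r : Γ(X, U)) s, mem U s → mem U (r • s)
  res : ∀ (U V : X.Opens) (h : V ≤ U) s, mem U s → mem V (res M h s)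
  loc : ∀ (U : X.Opens) s,
    (∀ x ∈ U, ∃ (V : X.Opens) (h : V ≤ U), x ∈ V ∧ mem V (Pool.H29.res M h s)) → mem U s

namespace SubSh

variable {M : X.Modules} (P : SubSh M)

/-- The underlying presheaf submodule. -/
def sub : PresheafOfModules.Submodule M.val where
  obj U :=
    { carrier := { s | P.mem U.unop s }
      zero_mem' := P.zero _
      add_mem' := P.add _ _ _
      smul_mem' := fun r _ hs => P.smul U.unop r _ hs }
  map {U U'} f := fun s hs => P.res U.unop U'.unop (leOfHom f.unop) s hs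

lemma sub_isSheaf : TopCat.Presheaf.IsSheaf (X := X) P.sub.toPresheafOfModules.presheaf := by
  rw [TopCat.Presheaf.isSheaf_iff_isSheafUniqueGluing]
  intro ι U sf hsf
  have hM := M.isSheaf
  rw [TopCat.Presheaf.isSheaf_iff_isSheafUniqueGluing] at hM
  obtain ⟨t, ht, htu⟩ := hM U (fun i => (sf i).1) (fun i j => congrArg Subtype.val (hsf i j))
  have hts : P.mem (iSup U) t := by
    refine P.loc _ _ fun x hx => ?_
    obtain ⟨i, hi⟩ := Opens.mem_iSup.mp hx
    refine ⟨U i, le_iSup U i, hi, ?_⟩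
    have e : Pool.H29.res M (le_iSup U i) t = (sf i).1 := ht i
    rw [e]
    exact (sf i).2
  refine ⟨⟨t, hts⟩, fun i => Subtype.ext (ht i), fun t' ht' => Subtype.ext ?_⟩
  exact htu t'.1 (fun i => congrArg Subtype.val (ht' i))

/-- The subsheaf as a sheaf of modules. -/
noncomputable def obj : X.Modules :=
  { val := P.sub.toPresheafOfModules
    isSheaf := P.sub_isSheaf }

/-- The inclusion. -/
noncomputable def ι : P.obj ⟶ M := ⟨P.sub.ι⟩

lemma mem_ι (U : X.Opens) (s : Γ(P.obj, U)) : P.mem U (P.ι.app U s) := s.2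

lemma ι_inj (U : X.Opens) : Function.Injective (P.ι.app U) := fun _ _ h => Subtype.ext h

lemma exists_of_mem {U : X.Opens} {t : Γ(M, U)} (h : P.mem U t) :
    ∃ s : Γ(P.obj, U), P.ι.app U s = t := ⟨⟨t, h⟩, rfl⟩

instance : Mono P.ι := mono_of_app_inj _ P.ι_inj

/-- Lifting through the inclusion. -/
noncomputable def lift {T : X.Modules} (f : T ⟶ M) (h : ∀ U s, P.mem U (f.app U s)) :
    T ⟶ P.obj :=
  mkHom (fun U s => (⟨f.app U s, h U s⟩ : { t : Γ(M, U) // P.mem U t }))
    (fun U s t => Subtype.ext (map_add _ _ _))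
    (fun U r s => Subtype.ext (Scheme.Modules.Hom.app_smul f r s))
    (fun U V hVU s => Subtype.ext (app_res f hVU s))

@[reassoc (attr := simp)]
lemma lift_ι {T : X.Modules} (f : T ⟶ M) (h : ∀ U s, P.mem U (f.app U s)) :
    P.lift f h ≫ P.ι = f := hom_ext' fun _ _ => rfl

lemma isIso_ι (h : ∀ U s, P.mem U s) : IsIso P.ι :=
  isIso_of_app_bij _ fun U => ⟨P.ι_inj U, fun _ => P.exists_of_mem (h U _)⟩

end SubSh

section epi

variable {M N : X.Modules}

lemma epi_of_locSurj (f : M ⟶ N) (hf : LocSurj f) : Epi f := by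
  constructor
  intro K g g' e
  refine hom_ext' fun U t => res_ext fun x hx => ?_
  obtain ⟨V, h, hxV, s, hs⟩ := hf U t x hx
  refine ⟨V, h, hxV, ?_⟩
  rw [← app_res, ← app_res, ← hs, ← comp_app', e, comp_app']

/-- The image subsheaf. -/
def imSub (f : M ⟶ N) : SubSh N where
  mem U t := ∀ x ∈ U, ∃ (V : X.Opens) (h : V ≤ U), x ∈ V ∧ ∃ s : Γ(M, V), f.app V s = res N h t
  zero U x hx := ⟨U, le_rfl, hx, 0, by rw [map_zero, res_zero]⟩
  add U s t hs ht x hx := by
    obtain ⟨V, h, hV, a, ha⟩ := hs x hx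
    obtain ⟨V', h', hV', a', ha'⟩ := ht x hx
    refine ⟨V ⊓ V', inf_le_left.trans h, ⟨hV, hV'⟩,
      res M inf_le_left a + res M inf_le_right a', ?_⟩
    rw [map_add, app_res, app_res, ha, ha', res_res, res_res, res_add]
  smul U r s hs x hx := by
    obtain ⟨V, h, hV, a, ha⟩ := hs x hx
    refine ⟨V, h, hV, X.presheaf.map (homOfLE h).op r • a, ?_⟩
    rw [Scheme.Modules.Hom.app_smul, ha, res_smul]
  res U V h s hs x hx := by
    obtain ⟨W, h', hW, a, ha⟩ := hs x (h hx)
    refine ⟨W ⊓ V, inf_le_right, ⟨hW, hx⟩, res M inf_le_left a, ?_⟩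
    rw [app_res, ha, res_res, res_res]
  loc U s hs x hx := by
    obtain ⟨V, h, hV, H⟩ := hs x hx
    obtain ⟨W, h', hW, a, ha⟩ := H x hV
    exact ⟨W, h'.trans h, hW, a, by rw [ha, res_res]⟩

lemma locSurj_of_epi (f : M ⟶ N) [Epi f] : LocSurj f := by
  let g := (imSub f).lift f (fun U s x hx => ⟨U, le_rfl, hx, s, by rw [res_self]⟩)
  have e : g ≫ (imSub f).ι = f := SubSh.lift_ι _ _ _
  have : Epi (imSub f).ι := by
    have : Epi (g ≫ (imSub f).ι) := by rw [e]; infer_instance
    exact epi_of_epi g _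
  have : IsIso (imSub f).ι := isIso_of_mono_of_epi _
  intro U t x hx
  have hb : Function.Bijective ((imSub f).ι.app U) := by
    rw [← ConcreteCategory.isIso_iff_bijective]
    infer_instance
  obtain ⟨t', rfl⟩ := hb.2 t
  exact (imSub f).mem_ι U t' x hx

lemma epi_iff_locSurj (f : M ⟶ N) : Epi f ↔ LocSurj f :=
  ⟨fun _ => locSurj_of_epi f, epi_of_locSurj f⟩

end epi

end Pool.H29
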