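import Pool.Agent.H29.LocX

open CategoryTheory Limits TopologicalSpace AlgebraicGeometry Opposite Pretriangulated

universe w u

namespace Pool.H29

variable {X : Scheme.{u}} [HasDerivedCategory.{w} X.Modules]

variable (X) in
/-- The structure sheaf, in the derived category. -/
noncomputable abbrev SO : DerivedCategory X.Modules := (SX X).obj (OX X)

/-- `L_V E` is in the thick subcategory generated by `L_V O`. -/
def LG (E : DerivedCategory X.Modules) (V : X.Opens) : Prop :=
  thick ((LD V).obj (SO X)) ((LD V).obj E)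

lemma isIso_LD_ι {V V' : X.Opens} (h : V ≤ V') (P : DerivedCategory X.Modules) :
    IsIso ((LD V).map ((locX V').ι.app P)) := by
  obtain ⟨δ, hδ⟩ := (locX V').tri P
  have h1 := (LD V).map_distinguished _ hδ
  exact (Triangle.isZero₃_iff_isIso₁ _ h1).1
    ((isZero_LD_iff V _).2 ((vanD_RD V' P).mono_open h))

/-- `L_V L_V' P ≅ L_V P` for `V ≤ V'`. -/
noncomputable def LDLD {V V' : X.Opens} (h : V ≤ V') (P : DerivedCategory X.Modules) :
    (LD V).obj ((LD V').obj P) ≅ (LD V).obj P :=
  @asIso _ _ _ _ ((LD V).map ((locX V').ι.app P)) (isIso_LD_ι h P)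

lemma thick_iff_of_iso {O O' A A' : DerivedCategory X.Modules} (e : O ≅ O') (e' : A ≅ A')
    (h : thick O A) : thick O' A' :=
  (thick_isThick O').iso e' (thick_of_iso e h)

lemma LG.mono {E : DerivedCategory X.Modules} {V V' : X.Opens} (h : LG E V') (hV : V ≤ V') :
    LG E V :=
  thick_iff_of_iso (LDLD hV (SO X)) (LDLD hV E) (thick_map (LD V) h)

theorem LG.patch {E : DerivedCategory X.Modules} (f : Γ(X, ⊤)) {U Y : X.Opens}
    (hU : IsAffineOpen U) (hUY : U ≤ Y) (hY : Y ≤ U ⊔ X.basicOpen f) (h1 : LG E U)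
    (h2 : LG E (Y ⊓ X.basicOpen f)) : LG E Y := by
  let W : X.Opens := Y ⊓ X.basicOpen f
  have hWY : W ≤ Y := inf_le_left
  have hYUW : Y ≤ U ⊔ W := by
    change Y ≤ U ⊔ Y ⊓ X.basicOpen f
    rw [sup_inf_left, sup_eq_right.2 hUY]
    exact le_inf le_rfl hY
  have hUW : U ⊓ W = U ⊓ X.basicOpen f := by
    change U ⊓ (Y ⊓ X.basicOpen f) = _
    rw [← inf_assoc, inf_eq_left.2 hUY]
  have hzero : ∀ {C : DerivedCategory X.Modules}, IsZero ((RD Y).obj C) ↔ SuppD Y C :=
    fun {C} => isZero_RD_iff Y C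
  have hT : Tors f ((RD W).obj ((LD U).obj ((LD Y).obj (SO X)))) ((LD Y).obj (SO X)) := by
    have hF : FreeOn U ((L U).obj (OX X)) _ := freeOn_top.resL' (le_top : U ≤ ⊤)
    have hA1 : Tors f ((SX X).obj ((R W).obj ((L U).obj (OX X)))) (SO X) :=
      tors_of_zero_left (fun n => torsHom_single hU f hUW hF n)
    have e : (SX X).obj ((R W).obj ((L U).obj (OX X))) ≅
        (RD W).obj ((LD U).obj ((LD Y).obj (SO X))) :=
      ((R W).mapDerivedCategorySingleFunctor 0).symm.app ((L U).obj (OX X)) ≪≫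
        (RD W).mapIso (((L U).mapDerivedCategorySingleFunctor 0).symm.app (OX X) ≪≫
          (LDLD hUY (SO X)).symm)
    have hA2 := (tors_isThick_left (f := f) (SO X)).iso e hA1
    obtain ⟨δ, hδ⟩ := (locX Y).tri (SO X)
    refine (tors_isThick_right _).ext₁ _ hδ hA2 ?_
    refine (locX Y).tors_zero ?_ ((locX Y).LR _)
    exact (isZero_RD_iff Y _).2 (((suppD_LD U _).mono_open hUY).RD W)
  refine thmG (k := Γ(X, ⊤)) f (locX U) (locX W) (Y := fun C => IsZero ((RD Y).obj C))
    (isThick_isZero.comap (RD Y)) ?_ ?_ ?_ ?_ ?_ ?_ ?_ ?_ hT ?_ ?_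
  · intro A hA
    exact (isZero_RD_iff Y _).2 (((isZero_RD_iff Y _).1 hA).LD U)
  · intro A hA
    exact (isZero_RD_iff Y _).2 (((isZero_RD_iff Y _).1 hA).RD U)
  · intro A hA
    exact (isZero_RD_iff Y _).2 (((isZero_RD_iff Y _).1 hA).RD W)
  · intro C hC h
    have h3 := (isZero_RD_iff Y _).1 hC
    have h4 := (isZero_LD_iff U _).1 h
    exact (isZero_RD_iff W _).2 (fun n => supp_of_van (h3 n) (h4 n) hYUW)
  · intro C hC h
    have h3 := (isZero_RD_iff Y _).1 hC
    have h4 := (isZero_LD_iff W _).1 h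
    exact (isZero_RD_iff U _).2 (fun n => supp_of_van (h3 n) (h4 n) (by rwa [sup_comm]))
  · intro A
    exact isIso_smul_LD f inf_le_right A
  · exact (isZero_RD_iff Y _).2 (suppD_LD Y _)
  · exact (isZero_RD_iff Y _).2 (suppD_LD Y _)
  · exact thick_iff_of_iso (LDLD hUY (SO X)).symm (LDLD hUY E).symm h1
  · exact thick_iff_of_iso (LDLD hWY (SO X)).symm (LDLD hWY E).symm h2

end Pool.H29

namespace Pool.H29

variable {X : Scheme.{u}} [HasDerivedCategory.{w} X.Modules]

lemma LG.bot (E : DerivedCategory X.Modules) : LG E ⊥ := by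
  refine (thick_isThick _).zero _ ?_
  rw [isZero_LD_iff]
  intro n U hU s
  exact res_ext fun x hx => (hU hx).elim

lemma LG.top {E : DerivedCategory X.Modules} (h : LG E ⊤) : thick (SO X) E := by
  have h1 : ∀ P : DerivedCategory X.Modules, IsIso ((locX (⊤ : X.Opens)).ι.app P) := by
    intro P
    apply Loc.isIso_ι
    exact (isZero_RD_iff ⊤ P).2 (fun n U s x _ hx => (hx trivial).elim)
  have h2 := h1 (SO X)
  have h3 := h1 E
  exact thick_iff_of_iso (asIso ((locX (⊤ : X.Opens)).ι.app (SO X)))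
    (asIso ((locX (⊤ : X.Opens)).ι.app E)) h

/-- On an affine scheme, a complex that is locally in the thick subcategory generated by the
structure sheaf is globally so. -/
theorem thick_of_affine [IsAffine X] (E : DerivedCategory X.Modules)
    (hE : ∀ x : X, ∃ V : X.Opens, x ∈ V ∧ LG E V) : thick (SO X) E := by
  let J : Ideal Γ(X, ⊤) :=
    { carrier := { h | LG E (X.basicOpen h) }
      zero_mem' := by
        change LG E (X.basicOpen 0)
        rw [X.basicOpen_zero]
        exact LG.bot E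
      add_mem' := by
        intro h1 h2 hk1 hk2
        change LG E (X.basicOpen h1) at hk1
        change LG E (X.basicOpen h2) at hk2
        change LG E (X.basicOpen (h1 + h2))
        refine LG.patch h2 (U := X.basicOpen (h1 * (h1 + h2)))
          ((isAffineOpen_top X).basicOpen _) ?_ ?_ ?_ ?_
        · rw [X.basicOpen_mul]
          exact inf_le_right
        · rw [X.basicOpen_mul]
          have := X.basicOpen_add_le h1 h2
          rw [sup_comm, sup_inf_left]
          exact le_inf (by rwa [sup_comm]) le_sup_right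
        · exact hk1.mono (by rw [X.basicOpen_mul]; exact inf_le_left)
        · exact hk2.mono inf_le_right
      smul_mem' := by
        intro c h hk
        change LG E (X.basicOpen h) at hk
        change LG E (X.basicOpen (c * h))
        exact hk.mono (by rw [X.basicOpen_mul]; exact inf_le_right) }
  have hJ : J = ⊤ := by
    rw [← Ideal.span_eq J, ← (isAffineOpen_top X).iSup_basicOpen_eq_self_iff]
    apply le_antisymm le_top
    intro x hx
    obtain ⟨V', hxV', hk⟩ := hE x
    obtain ⟨f, hf, hxf⟩ := (isAffineOpen_top X).exists_basicOpen_le ⟨x, hxV'⟩ hx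
    have : X.basicOpen f ≤ ⨆ f : (J : Set Γ(X, ⊤)), X.basicOpen (f : Γ(X, ⊤)) :=
      le_iSup (fun f : (J : Set Γ(X, ⊤)) => X.basicOpen (f : Γ(X, ⊤))) ⟨f, hk.mono hf⟩
    exact this hxf
  have h1 : (1 : Γ(X, ⊤)) ∈ J := by rw [hJ]; trivial
  have h2 : LG E (X.basicOpen (1 : Γ(X, ⊤))) := h1
  rw [X.basicOpen_one] at h2
  exact h2.top

end Pool.H29
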