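import Pool.Agent.H29.LEx

open CategoryTheory Limits TopologicalSpace AlgebraicGeometry Opposite

universe u

namespace Pool.H29

variable {X : Scheme.{u}}

/-- The section `s` of `M` over `U` vanishes near every point of `U` outside `V`. -/
def Small (V : X.Opens) (M : X.Modules) (U : X.Opens) (s : Γ(M, U)) : Prop :=
  ∀ x ∈ U, x ∉ V → ∃ (W : X.Opens) (h : W ≤ U), x ∈ W ∧ res M h s = 0

/-- The subsheaf of sections vanishing near the points outside `V`. -/
def Lsub (V : X.Opens) (M : X.Modules) : SubSh M where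
  mem U s := Small V M U s
  zero U x hx _ := ⟨U, le_rfl, hx, res_zero M _⟩
  add U s t hs ht x hx hV := by
    obtain ⟨W, h, hW, e⟩ := hs x hx hV
    obtain ⟨W', h', hW', e'⟩ := ht x hx hV
    refine ⟨W ⊓ W', inf_le_left.trans h, ⟨hW, hW'⟩, ?_⟩
    rw [res_add, ← res_res M h inf_le_left, e, ← res_res M h' inf_le_right, e']
    simp [res_zero]
  smul U r s hs x hx hV := by
    obtain ⟨W, h, hW, e⟩ := hs x hx hV
    exact ⟨W, h, hW, by rw [res_smul, e, smul_zero]⟩
  res U U' h s hs x hx hV := by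
    obtain ⟨W, h', hW, e⟩ := hs x (h hx) hV
    refine ⟨W ⊓ U', inf_le_right, ⟨hW, hx⟩, ?_⟩
    rw [res_res, ← res_res M h' inf_le_left, e, res_zero]
  loc U s H x hx hV := by
    obtain ⟨W, h, hW, e⟩ := H x hx
    obtain ⟨W', h', hW', e'⟩ := e x hW hV
    exact ⟨W', h'.trans h, hW', by rw [← e', res_res]⟩

section
variable {V : X.Opens} {M N : X.Modules} {U U' : X.Opens}

lemma Small.app {s : Γ(M, U)} (hs : Small V M U s) (φ : M ⟶ N) :
    Small V N U (φ.app U s) := by
  intro x hx hV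
  obtain ⟨W, h', hW, e⟩ := hs x hx hV
  exact ⟨W, h', hW, by rw [← app_res, e, map_zero]⟩

lemma Small.of_app {s : Γ(M, U)} (φ : M ⟶ N) [Mono φ] (hs : Small V N U (φ.app U s)) :
    Small V M U s := by
  intro x hx hV
  obtain ⟨W, h', hW, e⟩ := hs x hx hV
  refine ⟨W, h', hW, app_inj_of_mono φ W ?_⟩
  rw [app_res, e, map_zero]

lemma Small.of_le {s : Γ(M, U)} (h : U ≤ V) : Small V M U s :=
  fun _ hx hV => (hV (h hx)).elim

end

/-- The functor `M ↦ L_V M`, the subsheaf of sections vanishing near the points outside `V`. -/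
noncomputable def L (V : X.Opens) : X.Modules ⥤ X.Modules where
  obj M := (Lsub V M).obj
  map {M N} φ := (Lsub V N).lift ((Lsub V M).ι ≫ φ)
    (fun U s => by
      rw [comp_app']
      exact Small.app ((Lsub V M).mem_ι U s) φ)
  map_id M := by
    rw [← cancel_mono (Lsub V M).ι]
    simp
  map_comp {M N K} φ ψ := by
    rw [← cancel_mono (Lsub V K).ι]
    simp

/-- The inclusion `L_V M ⟶ M`. -/
noncomputable def lι (V : X.Opens) (M : X.Modules) : (L V).obj M ⟶ M := (Lsub V M).ι

/-- The inclusion `L_V M ⟶ M`, as a natural transformation. -/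
noncomputable def Lι (V : X.Opens) : L V ⟶ 𝟭 X.Modules where
  app M := lι V M
  naturality {M N} φ := by
    change (Lsub V N).lift _ _ ≫ (Lsub V N).ι = _
    rw [SubSh.lift_ι]
    rfl

lemma lι_nat (V : X.Opens) {M N : X.Modules} (φ : M ⟶ N) :
    (L V).map φ ≫ lι V N = lι V M ≫ φ := (Lι V).naturality φ

instance (V : X.Opens) (M : X.Modules) : Mono (lι V M) :=
  inferInstanceAs (Mono (Lsub V M).ι)

section
variable {V : X.Opens} {M N : X.Modules} {U : X.Opens}

lemma Lι_small (s : Γ((L V).obj M, U)) : Small V M U ((lι V M).app U s) :=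
  (Lsub V M).mem_ι U s

lemma Lι_inj (V : X.Opens) (M : X.Modules) (U : X.Opens) :
    Function.Injective ((lι V M).app U) :=
  (Lsub V M).ι_inj U

lemma Lι_exists {t : Γ(M, U)} (h : Small V M U t) :
    ∃ s : Γ((L V).obj M, U), (lι V M).app U s = t :=
  (Lsub V M).exists_of_mem h

lemma Lι_L_small (s : Γ((L V).obj M, U)) : Small V ((L V).obj M) U s :=
  Small.of_app (lι V M) (Lι_small s)

end

instance (V : X.Opens) : (L V).Additive where
  map_add {M N f g} := by
    rw [← cancel_mono (lι V N), Preadditive.add_comp, lι_nat, lι_nat, lι_nat,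
      Preadditive.comp_add]

lemma L_map_app_ι {V : X.Opens} {M N : X.Modules} (φ : M ⟶ N) (U : X.Opens)
    (s : Γ((L V).obj M, U)) :
    (lι V N).app U (((L V).map φ).app U s) = φ.app U ((lι V M).app U s) := by
  rw [← comp_app', lι_nat, comp_app']

lemma L_shortExact (V : X.Opens) {S : ShortComplex X.Modules} (hS : S.ShortExact) :
    (S.map (L V)).ShortExact := by
  have := hS.mono_f
  have := hS.epi_g
  have hm : Mono (S.map (L V)).f := mono_of_app_inj _ fun U s t h => by
    apply Lι_inj V S.X₁ U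
    apply app_inj_of_mono S.f U
    have := congrArg ((lι V S.X₂).app U) h
    change (lι V S.X₂).app U (((L V).map S.f).app U s) =
      (lι V S.X₂).app U (((L V).map S.f).app U t) at this
    rwa [L_map_app_ι, L_map_app_ι] at this
  have he : Epi (S.map (L V)).g := epi_of_locSurj _ fun U t x hx => by
    change ∃ (W : X.Opens) (h : W ≤ U), x ∈ W ∧ ∃ s : Γ((L V).obj S.X₂, W),
      ((L V).map S.g).app W s = res ((L V).obj S.X₃) h t
    by_cases hxV : x ∈ V
    · obtain ⟨W, h, hW, s, hs⟩ := locSurj_of_epi S.g U ((lι V S.X₃).app U t) x hx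
      refine ⟨W ⊓ V, inf_le_left.trans h, ⟨hW, hxV⟩, ?_⟩
      obtain ⟨s', hs'⟩ := Lι_exists (V := V) (M := S.X₂) (U := W ⊓ V)
        (t := res S.X₂ inf_le_left s) (Small.of_le inf_le_right)
      refine ⟨s', Lι_inj V S.X₃ _ ?_⟩
      rw [L_map_app_ι, hs', app_res, hs, app_res, res_res]
    · obtain ⟨W, h, hW, e⟩ := Lι_L_small t x hx hxV
      exact ⟨W, h, hW, 0, by rw [map_zero, e]⟩
  refine { exact := ?_, mono_f := hm, epi_g := he }
  rw [exact_iff_elem]
  intro U t ht x hx
  change ((L V).map S.g).app U t = 0 at ht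
  change ∃ (W : X.Opens) (h : W ≤ U), x ∈ W ∧ ∃ s : Γ((L V).obj S.X₁, W),
      ((L V).map S.f).app W s = res ((L V).obj S.X₂) h t
  have ht' : S.g.app U ((lι V S.X₂).app U t) = 0 := by
    rw [← L_map_app_ι, ht, map_zero]
  obtain ⟨s, hs⟩ := exists_section_of_exact hS.exact U _ ht'
  have hsm : Small V S.X₁ U s := Small.of_app S.f (by rw [hs]; exact Lι_small t)
  obtain ⟨s', rfl⟩ := Lι_exists hsm
  refine ⟨U, le_rfl, hx, s', Lι_inj V S.X₂ U ?_⟩
  rw [L_map_app_ι, hs, res_self]

lemma preserves_of_shortExact {A B : Type*} [Category A] [Category B] [Abelian A] [Abelian B]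
    (F : A ⥤ B) [F.Additive]
    (h : ∀ S : ShortComplex A, S.ShortExact → (S.map F).ShortExact) :
    PreservesFiniteLimits F ∧ PreservesFiniteColimits F :=
  ((Functor.exact_tfae F).out 0 3 :
    (∀ S : ShortComplex A, S.ShortExact → (S.map F).ShortExact) ↔
      (PreservesFiniteLimits F ∧ PreservesFiniteColimits F)).1 h

instance (V : X.Opens) : PreservesFiniteLimits (L V) :=
  (preserves_of_shortExact (L V) (fun _ hS => L_shortExact V hS)).1

instance (V : X.Opens) : PreservesFiniteColimits (L V) :=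
  (preserves_of_shortExact (L V) (fun _ hS => L_shortExact V hS)).2

/-- The functor `M ↦ M / L_V M`. -/
noncomputable def R (V : X.Opens) : X.Modules ⥤ X.Modules where
  obj M := cokernel (lι V M)
  map {M N} φ := cokernel.map _ _ ((L V).map φ) φ ((Lι V).naturality φ).symm
  map_id M := by
    rw [← cancel_epi (cokernel.π (lι V M))]
    simp
  map_comp {M N K} φ ψ := by
    rw [← cancel_epi (cokernel.π (lι V M))]
    simp

/-- The projection `M ⟶ M / L_V M`. -/
noncomputable def rπ (V : X.Opens) (M : X.Modules) : M ⟶ (R V).obj M := cokernel.π (lι V M)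

/-- The projection `M ⟶ M / L_V M`, as a natural transformation. -/
noncomputable def Rπ (V : X.Opens) : 𝟭 X.Modules ⟶ R V where
  app M := rπ V M
  naturality {_ _} _ := (cokernel.π_desc _ _ _).symm

lemma rπ_nat (V : X.Opens) {M N : X.Modules} (φ : M ⟶ N) :
    φ ≫ rπ V N = rπ V M ≫ (R V).map φ := (Rπ V).naturality φ

instance (V : X.Opens) (M : X.Modules) : Epi (rπ V M) :=
  inferInstanceAs (Epi (cokernel.π (lι V M)))

lemma Lι_Rπ (V : X.Opens) (M : X.Modules) : lι V M ≫ rπ V M = 0 :=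
  cokernel.condition _

/-- The short exact sequence `0 → L_V M → M → R_V M → 0`. -/
noncomputable abbrev LRseq (V : X.Opens) (M : X.Modules) : ShortComplex X.Modules :=
  ShortComplex.mk (lι V M) (rπ V M) (Lι_Rπ V M)

lemma LRseq_shortExact (V : X.Opens) (M : X.Modules) : (LRseq V M).ShortExact where
  exact := ShortComplex.exact_of_g_is_cokernel _ (cokernelIsCokernel _)
  mono_f := inferInstanceAs (Mono (lι V M))
  epi_g := inferInstanceAs (Epi (rπ V M))

instance (V : X.Opens) : (R V).Additive where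
  map_add {M N f g} := by
    rw [← cancel_epi (rπ V M), Preadditive.comp_add, ← rπ_nat, ← rπ_nat, ← rπ_nat,
      Preadditive.add_comp]

lemma Rπ_exists {V : X.Opens} {M : X.Modules} {U : X.Opens} (t : Γ((R V).obj M, U)) (x : X)
    (hx : x ∈ U) : ∃ (W : X.Opens) (h : W ≤ U), x ∈ W ∧ ∃ s : Γ(M, W),
      (rπ V M).app W s = res ((R V).obj M) h t :=
  locSurj_of_epi (rπ V M) U t x hx

lemma Rπ_eq_zero_iff {V : X.Opens} {M : X.Modules} {U : X.Opens} (s : Γ(M, U)) :
    (rπ V M).app U s = 0 ↔ Small V M U s := by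
  constructor
  · intro h
    have : Mono (LRseq V M).f := (LRseq_shortExact V M).mono_f
    obtain ⟨t, rfl⟩ := exists_section_of_exact (LRseq_shortExact V M).exact U s h
    exact Lι_small t
  · intro h
    obtain ⟨t, rfl⟩ := Lι_exists h
    have := Lι_Rπ V M
    rw [← comp_app', this, zero_app']

lemma Rπ_map_app {V : X.Opens} {M N : X.Modules} (φ : M ⟶ N) (U : X.Opens) (s : Γ(M, U)) :
    ((R V).map φ).app U ((rπ V M).app U s) = (rπ V N).app U (φ.app U s) := by
  rw [← comp_app', ← rπ_nat, comp_app']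

lemma R_shortExact (V : X.Opens) {S : ShortComplex X.Modules} (hS : S.ShortExact) :
    (S.map (R V)).ShortExact := by
  have := hS.mono_f
  have := hS.epi_g
  have hm : Mono ((R V).map S.f) := mono_of_app_inj _ fun U => by
    rw [injective_iff_map_eq_zero]
    intro t ht
    refine res_ext fun x hx => ?_
    obtain ⟨W, h, hW, s, hs⟩ := Rπ_exists t x hx
    refine ⟨W, h, hW, ?_⟩
    rw [res_zero, ← hs, Rπ_eq_zero_iff]
    refine Small.of_app S.f ?_
    rw [← Rπ_eq_zero_iff, ← Rπ_map_app, hs, app_res, ht, res_zero]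
  have he : Epi ((R V).map S.g) := by
    have : Epi (rπ V S.X₂ ≫ (R V).map S.g) := by rw [← rπ_nat]; infer_instance
    exact epi_of_epi (rπ V S.X₂) ((R V).map S.g)
  refine { exact := ?_, mono_f := hm, epi_g := he }
  rw [exact_iff_elem]
  intro U t ht x hx
  change ((R V).map S.g).app U t = 0 at ht
  change ∃ (W : X.Opens) (h : W ≤ U), x ∈ W ∧ ∃ s : Γ((R V).obj S.X₁, W),
      ((R V).map S.f).app W s = res ((R V).obj S.X₂) h t
  obtain ⟨W, h, hW, s, hs⟩ := Rπ_exists t x hx
  have hgs : Small V S.X₃ W (S.g.app W s) := by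
    rw [← Rπ_eq_zero_iff, ← Rπ_map_app, hs, app_res, ht, res_zero]
  obtain ⟨t₃, ht₃⟩ := Lι_exists hgs
  have hL := L_shortExact V hS
  have := hL.epi_g
  obtain ⟨W', h', hW', s₂, hs₂⟩ := locSurj_of_epi (S.map (L V)).g W t₃ x hW
  change Γ((L V).obj S.X₂, W') at s₂
  change ((L V).map S.g).app W' s₂ = res ((L V).obj S.X₃) h' t₃ at hs₂
  have e1 : S.g.app W' ((lι V S.X₂).app W' s₂) = res S.X₃ h' (S.g.app W s) := by
    rw [← L_map_app_ι, hs₂, app_res, ht₃]
  obtain ⟨s₃, hs₃⟩ : ∃ s₃ : Γ(S.X₂, W'), s₃ = (lι V S.X₂).app W' s₂ := ⟨_, rfl⟩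
  have hs₃s : Small V S.X₂ W' s₃ := by rw [hs₃]; exact Lι_small s₂
  rw [← hs₃] at e1
  have e2 : S.g.app W' (res S.X₂ h' s - s₃) = 0 := by
    rw [map_sub, e1, app_res, sub_self]
  obtain ⟨s₁, hs₁⟩ := exists_section_of_exact hS.exact W' _ e2
  refine ⟨W', h'.trans h, hW', (rπ V S.X₁).app W' s₁, ?_⟩
  have e3 : (rπ V S.X₂).app W' (res S.X₂ h' s - s₃) =
      res ((R V).obj S.X₂) (h'.trans h) t := by
    rw [map_sub, (Rπ_eq_zero_iff _).2 hs₃s, sub_zero]
    have := app_res (rπ V S.X₂) h' s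
    exact this.trans ((congrArg _ hs).trans (res_res _ _ _ _))
  rw [Rπ_map_app, hs₁, e3]

instance (V : X.Opens) : PreservesFiniteLimits (R V) :=
  (preserves_of_shortExact (R V) (fun _ hS => R_shortExact V hS)).1

instance (V : X.Opens) : PreservesFiniteColimits (R V) :=
  (preserves_of_shortExact (R V) (fun _ hS => R_shortExact V hS)).2

end Pool.H29
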