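import Pool.Agent.H29.FF

open CategoryTheory Limits AlgebraicGeometry ZeroObject TopologicalSpace Opposite

universe v u

namespace Pool.H29

variable {X Y : Scheme.{u}}

lemma smul_toR (f : Y ⟶ X) [IsOpenImmersion f] {M : X.Modules} {U : Y.Opens} (r : Γ(Y, U))
    (s : Γ(M, f ''ᵁ U)) : r • toR f s = toR f (((f.appIso U).inv r : Γ(X, f ''ᵁ U)) • s) := rfl

lemma freeOn_rF (f : Y ⟶ X) [IsOpenImmersion f] :
    FreeOn ⊤ ((rF f).obj (OX X)) (toR f (toO 1)) where
  supp U s x hx hxW := (hxW trivial).elim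
  bij U h := by
    have e : ∀ r : Γ(Y, U), r • res ((rF f).obj (OX X)) h (toR f (toO 1)) =
        toR f (toO ((f.appIso U).inv r)) := by
      intro r
      rw [res_toR, smul_toR, res_toO, map_one, smul_toO, mul_one]
    have hb : Function.Bijective (f.appIso U).inv :=
      (ConcreteCategory.isIso_iff_bijective (f.appIso U).inv).1 inferInstance
    constructor
    · intro r s hrs
      simp only [e] at hrs
      exact hb.1 hrs
    · intro s
      obtain ⟨r, hr⟩ := hb.2 s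
      refine ⟨r, ?_⟩
      simp only [e]
      exact hr

/-- Local lifting from the structure sheaf. -/
lemma exists_lift_unit (y : Y) {K L : Y.Modules} (π : K ⟶ L) [Epi π] (m : OX Y ⟶ L) :
    ∃ V : Y.Opens, y ∈ V ∧ ∃ t : (rF V.ι).obj (OX Y) ⟶ (rF V.ι).obj K,
      t ≫ (rF V.ι).map π = (rF V.ι).map m := by
  obtain ⟨V, hV, hyV, s, hs⟩ := locSurj_of_epi π ⊤ (m.app ⊤ (toO 1)) y trivial
  have h : V.ι ''ᵁ ⊤ ≤ V := by
    rintro _ ⟨v, -, rfl⟩
    exact v.2
  obtain ⟨t, ht⟩ := (freeOn_rF V.ι).exists_hom (toR V.ι (res K h s))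
  refine ⟨V, hyV, t, (freeOn_rF V.ι).hom_ext ?_⟩
  rw [comp_app', ht, rF_map_app, rF_map_app]
  congr 1
  change π.app _ (res K h s) = m.app _ (toO 1)
  rw [app_res, hs, res_res, ← app_res]
  congr 1
  rw [res_toO, map_one]

/-- Local lifting from finite free modules. -/
lemma exists_lift : ∀ (n : ℕ) {Y : Scheme.{u}} (y : Y) {M K L : Y.Modules} (_ : FF Y n M)
    (π : K ⟶ L) (_ : Epi π) (m : M ⟶ L), ∃ (W : Scheme.{u}) (j : W ⟶ Y) (_ : IsOpenImmersion j)
      (w : W), j w = y ∧ ∃ t : (rF j).obj M ⟶ (rF j).obj K,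
        t ≫ (rF j).map π = (rF j).map m := by
  intro n
  induction n with
  | zero =>
    intro Y y M K L hM π hπ m
    refine ⟨Y, 𝟙 Y, inferInstance, y, rfl, 0, ?_⟩
    rw [IsZero.eq_zero_of_src hM m, Functor.map_zero, zero_comp]
  | succ n ih =>
    intro Y y M K L hM π hπ m
    obtain ⟨N, hN, ⟨e⟩⟩ := hM
    obtain ⟨V, hy, t₁, ht₁⟩ := exists_lift_unit y π (biprod.inl ≫ e.inv ≫ m)
    obtain ⟨W, k, hk, w, hw, t₂, ht₂⟩ := ih (⟨y, hy⟩ : V.toScheme) (hN.restrict V.ι)
      ((rF V.ι).map π) inferInstance ((rF V.ι).map (biprod.inr ≫ e.inv ≫ m))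
    let θ := Scheme.Modules.restrictFunctorComp k V.ι
    let G := rF V.ι ⋙ rF k
    let t' : G.obj M ⟶ G.obj K := G.map (e.hom ≫ biprod.fst) ≫ (rF k).map t₁ +
      G.map (e.hom ≫ biprod.snd) ≫ t₂
    have ht' : t' ≫ G.map π = G.map m := by
      have h1 : (rF k).map t₁ ≫ G.map π = G.map (biprod.inl ≫ e.inv ≫ m) := by
        change (rF k).map t₁ ≫ (rF k).map ((rF V.ι).map π) = _
        rw [← Functor.map_comp, ht₁]
        rfl
      have h2 : t₂ ≫ G.map π = G.map (biprod.inr ≫ e.inv ≫ m) := ht₂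
      rw [Preadditive.add_comp, Category.assoc, Category.assoc, h1, h2, ← G.map_comp,
        ← G.map_comp, ← G.map_add]
      congr 1
      have : e.hom ≫ (biprod.fst ≫ biprod.inl + biprod.snd ≫ biprod.inr) ≫ e.inv ≫ m = m := by
        rw [biprod.total]
        simp
      rw [Preadditive.add_comp, Preadditive.comp_add] at this
      simpa only [Category.assoc] using this
    refine ⟨W, k ≫ V.ι, inferInstance, w, ?_, θ.hom.app M ≫ t' ≫ θ.inv.app K, ?_⟩
    · rw [Scheme.Hom.comp_apply, hw]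
      rfl
    · have h3 := θ.inv.naturality π
      have h4 := θ.inv.naturality m
      rw [Category.assoc, Category.assoc, ← h3]
      have h6 : t' ≫ (rF V.ι ⋙ rF k).map π ≫ θ.inv.app L =
          (rF V.ι ⋙ rF k).map m ≫ θ.inv.app L :=
        (Category.assoc _ _ _).symm.trans (congrArg (fun z => z ≫ θ.inv.app L) ht')
      exact (congrArg (fun z => θ.hom.app M ≫ z) (h6.trans h4)).trans
        (θ.hom_inv_id_app_assoc M _)

end Pool.H29
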