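import Pool.Agent.H29.ThmG

open CategoryTheory Limits Pretriangulated ZeroObject

namespace Pool.H29

universe v u

variable {D : Type u} [Category.{v} D] [HasZeroObject D] [HasShift D ℤ] [Preadditive D]
  [∀ n : ℤ, (shiftFunctor D n).Additive] [Pretriangulated D] [IsTriangulated D]
  {k : Type*} [CommRing k] [Linear k D] [∀ n : ℤ, (shiftFunctor D n).Linear k]

/-- The thick subcategory generated by `O`, as an `ObjectProperty`. -/
abbrev TP (O : D) : ObjectProperty D := (ObjectProperty.singleton O).triangEnvelope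

/-- The Verdier quotient functor. -/
noncomputable abbrev qT (O : D) : D ⥤ (TP O).trW.Localization := (TP O).trW.Q

omit [∀ n : ℤ, (shiftFunctor D n).Linear k] [IsTriangulated D] in
lemma Tors.hom {f : k} {A B : D} (h : Tors f A B) : TorsHom f A B :=
  (h 0 0).retract (Retract.ofIso ((shiftFunctorZero D ℤ).app A).symm)
    (Retract.ofIso ((shiftFunctorZero D ℤ).app B).symm)

lemma isZero_q_of_thick {O A : D} (h : thick O A) : IsZero ((qT O).obj A) := by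
  have hT := contractible_distinguished₁ A
  have hW : (TP O).trW (0 : (0 : D) ⟶ A) := ObjectProperty.trW.mk _ hT h
  have : IsIso ((qT O).map (0 : (0 : D) ⟶ A)) := Localization.inverts _ (TP O).trW _ hW
  exact ((qT O).map_isZero (isZero_zero D)).of_iso (asIso ((qT O).map (0 : (0 : D) ⟶ A))).symm

lemma thick_of_isZero_q {O A : D} (h : IsZero ((qT O).obj A)) : thick O A := by
  have h1 : (qT O).map (0 : A ⟶ A) = (qT O).map (𝟙 A) := h.eq_of_src _ _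
  obtain ⟨Z, s, hs, e⟩ := (MorphismProperty.map_eq_iff_postcomp (qT O) (TP O).trW _ _).1 h1
  rw [zero_comp, Category.id_comp] at e
  obtain ⟨C, g, h', hT, hC⟩ := ((TP O).trW_iff s).1 hs
  obtain ⟨r, hr⟩ := Triangle.coyoneda_exact₁ _ hT (𝟙 (A⟦(1 : ℤ)⟧)) (by
    change 𝟙 _ ≫ s⟦(1 : ℤ)⟧' = 0
    rw [← e, Functor.map_zero, comp_zero])
  have h2 : thick O (A⟦(1 : ℤ)⟧) :=
    (thick_isThick O).retract _ _ ⟨{ i := r, r := h', retract := hr.symm }⟩ hC
  exact (thick_isThick O).unshift 1 h2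

omit [∀ n : ℤ, (shiftFunctor D n).Linear k] in
lemma q_eq_zero_of_smul {O A B : D} {f : k} (hB : FInv (qT O) f B) (ξ : A ⟶ B) (N : ℕ)
    (h : (qT O).map (f ^ N • ξ) = 0) : (qT O).map ξ = 0 := by
  induction N with
  | zero => simpa using h
  | succ N ih =>
    apply ih
    have h1 : f ^ (N + 1) • ξ = (f ^ N • ξ) ≫ (f • 𝟙 B) := by
      rw [Linear.comp_smul, Category.comp_id, smul_smul, pow_succ']
    rw [h1, (qT O).map_comp] at h
    have : IsIso ((qT O).map (f • 𝟙 B)) := hB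
    exact (Preadditive.IsIso.comp_right_eq_zero _ ((qT O).map (f • 𝟙 B))).1 h

theorem thmG (f : k) (U W : Loc D) {Y : D → Prop} (hY : IsThick Y)
    (hYLU : ∀ A, Y A → Y (U.L.obj A)) (hYRU : ∀ A, Y A → Y (U.R.obj A))
    (hYRW : ∀ A, Y A → Y (W.R.obj A))
    (hUW : ∀ C, Y C → IsZero (U.L.obj C) → IsZero (W.R.obj C))
    (hWU : ∀ C, Y C → IsZero (W.L.obj C) → IsZero (U.R.obj C))
    (hf : ∀ A, IsIso (f • 𝟙 (W.L.obj A)))
    {O P : D} (hO : Y O) (hP : Y P)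
    (hI : Tors f (W.R.obj (U.L.obj O)) O)
    (hPU : thick (U.L.obj O) (U.L.obj P)) (hPW : thick (W.L.obj O) (W.L.obj P)) :
    thick O P := by
  let 𝒰 : D → Prop := fun Q => Y Q ∧ thick (U.L.obj O) (U.L.obj Q)
  have h𝒰 : IsThick 𝒰 := hY.and ((thick_isThick (U.L.obj O)).comap U.L)
  have hO𝒰 : 𝒰 O := ⟨hO, thick_self _⟩
  have hT𝒰 : ∀ {Q}, thick O Q → 𝒰 Q := fun hQ => thick_ind h𝒰 hO𝒰 hQ
  let q := qT O
  -- (a) `f` is invertible on `q Q`
  have hFR : ∀ Q, Y Q → FInv q f (U.R.obj Q) := by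
    intro Q hQ
    have h0 : IsZero (W.R.obj (U.R.obj Q)) := hUW _ (hYRU Q hQ) (U.LR Q)
    have h1 := W.isIso_ι h0
    have h2 := hf (U.R.obj Q)
    have h3 : f • 𝟙 (U.R.obj Q) = inv (W.ι.app (U.R.obj Q)) ≫ (f • 𝟙 (W.L.obj (U.R.obj Q))) ≫
        W.ι.app (U.R.obj Q) := by
      rw [Linear.smul_comp, Category.id_comp, Linear.comp_smul, IsIso.inv_hom_id]
      rfl
    have h4 : IsIso (f • 𝟙 (U.R.obj Q)) := by rw [h3]; infer_instance
    exact (inferInstance : IsIso (q.map (f • 𝟙 (U.R.obj Q))))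
  have hFO : FInv q f O := isIso_of_isZero' (isZero_q_of_thick (thick_self O)) _
  have hFLO : FInv q f (U.L.obj O) := by
    obtain ⟨δ, hδ⟩ := U.tri O
    exact (finv_isThick q f).ext₁ _ hδ hFO (hFR O hO)
  have hF : ∀ Q, 𝒰 Q → FInv q f Q := by
    intro Q hQ
    obtain ⟨δ, hδ⟩ := U.tri Q
    exact (finv_isThick q f).ext₂ _ hδ (thick_ind (finv_isThick q f) hFLO hQ.2) (hFR Q hQ.1)
  -- (b)
  have hA0 : IsZero (U.R.obj (W.R.obj (U.L.obj O))) := hWU _ (hYRW _ (hYLU _ hO)) (W.LR _)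
  have hb1 : Tors f (W.R.obj (U.L.obj O)) (U.L.obj O) := by
    obtain ⟨δ, hδ⟩ := U.tri O
    exact (tors_isThick_right _).ext₁ _ hδ hI (U.tors_zero hA0 (U.LR O))
  have hb3 : ∀ Q, 𝒰 Q → Tors f (W.R.obj (U.L.obj O)) Q := by
    intro Q hQ
    obtain ⟨δ, hδ⟩ := U.tri Q
    exact (tors_isThick_right _).ext₂ _ hδ (thick_ind (tors_isThick_right _) hb1 hQ.2)
      (U.tors_zero hA0 (U.LR Q))
  have hb : ∀ P' Q, 𝒰 P' → 𝒰 Q → Tors f (W.R.obj P') Q := by
    intro P' Q hP' hQ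
    have hth := (tors_isThick_left (f := f) Q).comap W.R
    obtain ⟨δ, hδ⟩ := U.tri P'
    have h1 : Tors f (W.R.obj (U.L.obj P')) Q := thick_ind hth (hb3 Q hQ) hP'.2
    have h2 : Tors f (W.R.obj (U.R.obj P')) Q :=
      (tors_isThick_left (f := f) Q).zero _ (hUW _ (hYRU _ hP'.1) (U.LR _))
    exact hth.ext₂ _ hδ h1 h2
  -- (c)
  have hc : ∀ P', 𝒰 P' → Orth q 𝒰 (W.R.obj P') := by
    intro P' hP' Q hQ g
    obtain ⟨φ, hφ⟩ := Localization.exists_leftFraction q (TP O).trW g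
    obtain ⟨C, a, b, hT, hC⟩ := ((TP O).trW_iff φ.s).1 φ.hs
    have hY' : 𝒰 φ.Y' := h𝒰.ext₂ _ hT hQ (hT𝒰 hC)
    obtain ⟨N, hN⟩ := (hb P' φ.Y' hP' hY').hom φ.f
    have h1 : q.map φ.f = 0 := q_eq_zero_of_smul (hF _ hY') φ.f N (by rw [hN, Functor.map_zero])
    rw [hφ, MorphismProperty.LeftFraction.map, h1, zero_comp]
  have hqO : Orth q 𝒰 O := fun Q _ g => (isZero_q_of_thick (thick_self O)).eq_of_src _ _
  have hd : Orth q 𝒰 (W.L.obj O) := by
    obtain ⟨δ, hδ⟩ := W.tri O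
    exact (orth_isThick q h𝒰).ext₁ _ hδ hqO (hc O hO𝒰)
  have hP𝒰 : 𝒰 P := ⟨hP, hPU⟩
  have he : Orth q 𝒰 P := by
    obtain ⟨δ, hδ⟩ := W.tri P
    exact (orth_isThick q h𝒰).ext₂ _ hδ (thick_ind (orth_isThick q h𝒰) hd hPW) (hc P hP𝒰)
  have hz : IsZero (q.obj P) := (IsZero.iff_id_eq_zero _).2 (he P hP𝒰 (𝟙 _))
  exact thick_of_isZero_q hz
where
  isIso_of_isZero' {E : Type _} [Category E] {X : E} (hX : IsZero X) (g : X ⟶ X) : IsIso g := by
    rw [hX.eq_of_src g (𝟙 X)]; infer_instance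

end Pool.H29
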