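import Pool.Agent.H29.I1
import Pool.Agent.H29.ThmG2

open CategoryTheory Limits TopologicalSpace AlgebraicGeometry Opposite Pretriangulated

universe w u

namespace Pool.H29

variable {X : Scheme.{u}} [HasDerivedCategory.{w} X.Modules]

/-- `L_V` on the derived category. -/
noncomputable abbrev LD (V : X.Opens) : DerivedCategory X.Modules ⥤ DerivedCategory X.Modules :=
  (L V).mapDerivedCategory

/-- `R_V` on the derived category. -/
noncomputable abbrev RD (V : X.Opens) : DerivedCategory X.Modules ⥤ DerivedCategory X.Modules :=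
  (R V).mapDerivedCategory

variable (X) in
/-- Homology. -/
noncomputable abbrev Hn (n : ℤ) : DerivedCategory X.Modules ⥤ X.Modules :=
  DerivedCategory.homologyFunctor X.Modules n

lemma Supp.iso {V : X.Opens} {M N : X.Modules} (e : M ≅ N) (h : Supp V M) : Supp V N := by
  rw [supp_iff_isZero_R] at h ⊢
  exact h.of_iso ((Pool.H29.R V).mapIso e.symm)

lemma Van.iso {V : X.Opens} {M N : X.Modules} (e : M ≅ N) (h : Van V M) : Van V N := by
  rw [van_iff_isZero_L] at h ⊢
  exact h.of_iso ((Pool.H29.L V).mapIso e.symm)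

/-- Complexes supported in `V`. -/
def SuppD (V : X.Opens) (P : DerivedCategory X.Modules) : Prop := ∀ n, Supp V ((Hn X n).obj P)

/-- Complexes vanishing on `V`. -/
def VanD (V : X.Opens) (P : DerivedCategory X.Modules) : Prop := ∀ n, Van V ((Hn X n).obj P)

lemma isZero_RD_iff (V : X.Opens) (P : DerivedCategory X.Modules) :
    IsZero ((RD V).obj P) ↔ SuppD V P := by
  rw [DP.isZero_map_iff]
  exact forall_congr' fun n => (supp_iff_isZero_R V _).symm

lemma isZero_LD_iff (V : X.Opens) (P : DerivedCategory X.Modules) :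
    IsZero ((LD V).obj P) ↔ VanD V P := by
  rw [DP.isZero_map_iff]
  exact forall_congr' fun n => (van_iff_isZero_L V _).symm

lemma suppD_LD (V : X.Opens) (P : DerivedCategory X.Modules) : SuppD V ((LD V).obj P) := by
  intro n
  obtain ⟨e⟩ := DP.homology_iso (L V) P n
  exact (supp_L V _).iso e.symm

lemma vanD_RD (V : X.Opens) (P : DerivedCategory X.Modules) : VanD V ((RD V).obj P) := by
  intro n
  obtain ⟨e⟩ := DP.homology_iso (R V) P n
  exact (van_R V _).iso e.symm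

lemma SuppD.LD {V : X.Opens} {P : DerivedCategory X.Modules} (h : SuppD V P) (W : X.Opens) :
    SuppD V ((LD W).obj P) := by
  intro n
  obtain ⟨e⟩ := DP.homology_iso (Pool.H29.L W) P n
  exact ((h n).L W).iso e.symm

lemma SuppD.RD {V : X.Opens} {P : DerivedCategory X.Modules} (h : SuppD V P) (W : X.Opens) :
    SuppD V ((RD W).obj P) := by
  intro n
  obtain ⟨e⟩ := DP.homology_iso (Pool.H29.R W) P n
  exact ((h n).R W).iso e.symm

lemma SuppD.mono_open {V V' : X.Opens} {P : DerivedCategory X.Modules} (h : SuppD V P)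
    (hV : V ≤ V') : SuppD V' P := fun n => (h n).mono_open hV

lemma VanD.mono_open {V V' : X.Opens} {P : DerivedCategory X.Modules} (h : VanD V P)
    (hV : V' ≤ V) : VanD V' P := fun n => (h n).mono_open hV

/-- The decomposition of the derived category given by an open subset. -/
noncomputable def locX (V : X.Opens) : Loc (DerivedCategory X.Modules) where
  L := LD V
  R := RD V
  cL := inferInstance
  cR := inferInstance
  tL := inferInstance
  tR := inferInstance
  ι := DP.dι (Lι V)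
  π := DP.dπ (Rπ V)
  tri P := DP.exists_triangle (Lι V) (Rπ V) (fun M => Lι_Rπ V M)
    (fun M => LRseq_shortExact V M) P
  RL P := (isZero_RD_iff V _).2 (suppD_LD V P)
  LR P := (isZero_LD_iff V _).2 (vanD_RD V P)

/-- Scalars act invertibly on complexes supported in `X_f`. -/
lemma isIso_smul_LD {W : X.Opens} (f : Γ(X, ⊤)) (hf : W ≤ X.basicOpen f)
    (P : DerivedCategory X.Modules) : IsIso (f • 𝟙 ((LD W).obj P)) := by
  obtain ⟨K, ⟨e⟩⟩ : ∃ K : CochainComplex X.Modules ℤ, Nonempty (DerivedCategory.Q.obj K ≅ P) :=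
    ⟨_, ⟨DerivedCategory.Q.objObjPreimageIso P⟩⟩
  let K' := ((L W).mapHomologicalComplex (ComplexShape.up ℤ)).obj K
  let i : (LD W).obj P ≅ DerivedCategory.Q.obj K' := (LD W).mapIso e.symm ≪≫ DP.objIso (L W) K
  have h1 : IsIso (f • 𝟙 K') := by
    have : ∀ n, IsIso ((f • 𝟙 K').f n) := fun n => isIso_smul_of_supp (supp_L W (K.X n)) f hf
    exact HomologicalComplex.Hom.isIso_of_components _
  have h2 : f • 𝟙 ((LD W).obj P) = i.hom ≫ DerivedCategory.Q.map (f • 𝟙 K') ≫ i.inv := by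
    rw [Functor.map_smul, CategoryTheory.Functor.map_id, Linear.smul_comp, Category.id_comp,
      Linear.comp_smul, Iso.hom_inv_id]
  rw [h2]
  infer_instance

section tors

lemma exists_pow_smul_of_freeOn {U W : X.Opens} (hU : IsAffineOpen U) (f : Γ(X, ⊤))
    (hW : U ⊓ W = U ⊓ X.basicOpen f) {A : X.Modules} {g : Γ(A, U)} (hA : FreeOn U A g)
    (z : (L W).obj A ⟶ OX X) : ∃ (N : ℕ) (z' : A ⟶ OX X), f ^ N • z = lι W A ≫ z' := by
  have hF := hA.resL W
  have hle : U ⊓ W ≤ U := inf_le_left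
  have hb : U ⊓ W = X.basicOpen (rg U f) := by
    rw [hW]
    exact (X.basicOpen_res f (homOfLE le_top).op).symm
  obtain ⟨z₀, hz₀⟩ : ∃ z₀ : Γ(X, U ⊓ W), toO z₀ = z.app _ (toL W inf_le_right
    (res A inf_le_left g)) := ⟨z.app _ (toL W inf_le_right (res A inf_le_left g)), rfl⟩
  obtain ⟨y, N, hy⟩ := exists_pow_mul hU (rg U f) hle hb z₀
  obtain ⟨z', hz'⟩ := hA.exists_hom (M := OX X) (toO y)
  refine ⟨N, z', hF.hom_ext ?_⟩
  rw [comp_app', ι_toL, app_res, hz', smul_app, ← hz₀, res_toO', hy, smul_toO, map_pow,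
    mul_comm, rr_rg]

lemma exists_pow_smul_eq_zero_of_freeOn {U W : X.Opens} (hU : IsAffineOpen U) (f : Γ(X, ⊤))
    (hW : U ⊓ W = U ⊓ X.basicOpen f) {A : X.Modules} {g : Γ(A, U)} (hA : FreeOn U A g)
    (z : A ⟶ OX X) (hz : lι W A ≫ z = 0) : ∃ (N : ℕ), f ^ N • z = 0 := by
  have hle : U ⊓ W ≤ U := inf_le_left
  have hb : U ⊓ W = X.basicOpen (rg U f) := by
    rw [hW]
    exact (X.basicOpen_res f (homOfLE le_top).op).symm
  obtain ⟨z₀, hz₀⟩ : ∃ z₀ : Γ(X, U), toO z₀ = z.app _ g := ⟨z.app _ g, rfl⟩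
  have h1 : toO (rr hle z₀) = (lι W A ≫ z).app _ (toL W inf_le_right
      (res A inf_le_left g)) := by
    rw [comp_app', ι_toL, app_res, ← hz₀, res_toO']
  rw [hz] at h1
  have h2 : rr hle z₀ = 0 := h1
  obtain ⟨m, hm⟩ := exists_pow_mul_eq_zero hU (rg U f) hle hb z₀ h2
  refine ⟨m, hA.hom_ext ?_⟩
  rw [smul_app, ← hz₀, smul_toO, map_pow, hm]
  rfl

lemma HVan.shift {B : X.Modules} {n : ℤ} (h : HVan B n)
    (ζ : ((SX X).obj B)⟦(1 : ℤ)⟧ ⟶ ((SX X).obj (OX X))⟦n + 1⟧) : ζ = 0 := by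
  let e := (shiftFunctorAdd (DerivedCategory X.Modules) n 1).app ((SX X).obj (OX X))
  obtain ⟨ζ', hζ'⟩ := (shiftFunctor (DerivedCategory X.Modules) (1 : ℤ)).map_surjective
    (ζ ≫ e.hom)
  have h0 : ζ' = 0 := h ζ'
  rw [h0, Functor.map_zero] at hζ'
  exact (Preadditive.IsIso.comp_right_eq_zero ζ e.hom).1 hζ'.symm

/-- The torsion statement (I). -/
lemma torsHom_single {U W : X.Opens} (hU : IsAffineOpen U) (f : Γ(X, ⊤))
    (hW : U ⊓ W = U ⊓ X.basicOpen f) {A : X.Modules} {g : Γ(A, U)} (hA : FreeOn U A g) (n : ℤ) :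
    TorsHom f ((SX X).obj ((R W).obj A)) (((SX X).obj (OX X))⟦n⟧) := by
  intro ξ
  have hSE := LRseq_shortExact W A
  have hF := hA.resL W
  have haff : IsAffineOpen (U ⊓ W) := by
    have hb : U ⊓ W = X.basicOpen (rg U f) := by
      rw [hW]
      exact (X.basicOpen_res f (homOfLE le_top).op).symm
    rw [hb]
    exact hU.basicOpen _
  rcases lt_trichotomy n 0 with hn | hn | hn
  · exact ⟨0, by rw [eq_zero_of_neg hn ξ, smul_zero]⟩
  · subst hn
    let e := (shiftFunctorZero (DerivedCategory X.Modules) ℤ).app ((SX X).obj (OX X))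
    obtain ⟨x, hx⟩ := (SX X).map_surjective (ξ ≫ e.hom)
    obtain ⟨N, hN⟩ := exists_pow_smul_eq_zero_of_freeOn hU f hW hA (rπ W A ≫ x) (by
      rw [← Category.assoc, Lι_Rπ, zero_comp])
    refine ⟨N, ?_⟩
    rw [← Linear.comp_smul] at hN
    have h1 : f ^ N • x = 0 := by
      have : Epi (rπ W A) := inferInstance
      rw [← cancel_epi (rπ W A), hN, comp_zero]
    have h2 : (f ^ N • ξ) ≫ e.hom = 0 := by
      rw [Linear.smul_comp, ← hx, ← Functor.map_smul, h1, Functor.map_zero]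
    exact (Preadditive.IsIso.comp_right_eq_zero _ e.hom).1 h2
  rcases eq_or_lt_of_le (show (1 : ℤ) ≤ n by lia) with hn1 | hn1
  · subst hn1
    have hv : HVan A 1 := by simpa using hvan_affine 0 U hU A g hA
    have h0 : (SX X).map (rπ W A) ≫ ξ = 0 := hv _
    obtain ⟨ζ, hζ⟩ := Triangle.yoneda_exact₃ _ hSE.singleTriangle_distinguished ξ h0
    change ((SX X).obj ((L W).obj A))⟦(1 : ℤ)⟧ ⟶ _ at ζ
    change ξ = hSE.singleδ ≫ ζ at hζ
    obtain ⟨ζ', rfl⟩ := (shiftFunctor (DerivedCategory X.Modules) (1 : ℤ)).map_surjective ζ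
    obtain ⟨z, rfl⟩ := (SX X).map_surjective ζ'
    change (L W).obj A ⟶ OX X at z
    obtain ⟨N, z', hz'⟩ := exists_pow_smul_of_freeOn hU f hW hA z
    refine ⟨N, ?_⟩
    have hz2 := comp_distTriang_mor_zero₃₁ _ hSE.singleTriangle_distinguished
    change hSE.singleδ ≫ ((SX X).map (lι W A))⟦(1 : ℤ)⟧' = 0 at hz2
    rw [hζ, ← Linear.comp_smul, ← Functor.map_smul, ← Functor.map_smul, hz', Functor.map_comp,
      Functor.map_comp, ← Category.assoc, hz2, zero_comp]
  · obtain ⟨m, rfl⟩ : ∃ m : ℕ, n = (m : ℤ) + 1 + 1 := ⟨(n - 2).toNat, by lia⟩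
    have hv : HVan A ((m : ℤ) + 1 + 1) := by
      have := hvan_affine (m + 1) U hU A g hA
      push_cast at this
      exact this
    have h0 : (SX X).map (rπ W A) ≫ ξ = 0 := hv _
    obtain ⟨ζ, hζ⟩ := Triangle.yoneda_exact₃ _ hSE.singleTriangle_distinguished ξ h0
    change ((SX X).obj ((L W).obj A))⟦(1 : ℤ)⟧ ⟶ _ at ζ
    change ξ = hSE.singleδ ≫ ζ at hζ
    have hv2 : HVan ((L W).obj A) ((m : ℤ) + 1) := hvan_affine m _ haff _ _ hF
    have h1 : ζ = 0 := hv2.shift ζ
    exact ⟨0, by rw [hζ, h1, comp_zero, smul_zero]⟩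

end tors

end Pool.H29
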