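import Pool.Agent.H29.BQ
import Pool.Agent.H29.Lift

open CategoryTheory Limits AlgebraicGeometry ZeroObject TopologicalSpace Pretriangulated

universe w w' v v' u u'

namespace Pool.H29

section

variable {A : Type u} [Category.{v} A] [Abelian A] [HasDerivedCategory.{w} A]

/-- The single complex in degree `b`. -/
noncomputable abbrev sgd (A : Type u) [Category.{v} A] [Abelian A] (b : ℤ) :
    A ⥤ CochainComplex A ℤ := HomologicalComplex.single A (ComplexShape.up ℤ) b

/-- A morphism from a single complex becomes a morphism of complexes after an epimorphism. -/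
lemma exists_epi_rep {M : A} {b : ℤ} {G : CochainComplex A ℤ}
    (φ : DerivedCategory.Q.obj ((sgd A b).obj M) ⟶ DerivedCategory.Q.obj G) :
    ∃ (M' : A) (e : M' ⟶ M) (f : (sgd A b).obj M' ⟶ G), Epi e ∧
      DerivedCategory.Q.map ((sgd A b).map e) ≫ φ = DerivedCategory.Q.map f := by
  have hLE : ((sgd A b).obj M).IsStrictlyLE b := inferInstance
  obtain ⟨K, hK, s, hs, g, hfac⟩ := DerivedCategory.right_fac_of_isStrictlyLE φ b
  let c : (sgd A b).obj (K.X b) ⟶ K :=
    HomologicalComplex.mkHomFromSingle (𝟙 _) (by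
      intro k hk
      have : IsZero (K.X k) := K.isZero_of_isStrictlyLE b k (by
        simp only [ComplexShape.up_Rel] at hk
        lia)
      exact this.eq_of_tgt _ _)
  let e : K.X b ⟶ M := (sgd A b).preimage (c ≫ s)
  have he : (sgd A b).map e = c ≫ s := Functor.map_preimage _ _
  refine ⟨K.X b, e, c ≫ g, ?_, ?_⟩
  · rw [Preadditive.epi_iff_cancel_zero]
    intro T t ht
    have h1 : s ≫ (sgd A b).map t = 0 := by
      apply HomologicalComplex.to_single_hom_ext
      have h2 : c ≫ (s ≫ (sgd A b).map t) = 0 := by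
        rw [← Category.assoc, ← he, ← Functor.map_comp, ht, Functor.map_zero]
      have h3 := congrArg (fun φ => HomologicalComplex.Hom.f φ b) h2
      simp only [HomologicalComplex.comp_f, HomologicalComplex.zero_f] at h3
      have h4 : IsIso (c.f b) := by
        simp only [c, HomologicalComplex.mkHomFromSingle_f, Category.comp_id]
        infer_instance
      have h5 := (Preadditive.IsIso.comp_left_eq_zero (c.f b) _).1 h3
      exact h5
    have h2 : DerivedCategory.Q.map s ≫ DerivedCategory.Q.map ((sgd A b).map t) = 0 := by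
      rw [← DerivedCategory.Q.map_comp, h1, Functor.map_zero]
    have h3 := (Preadditive.IsIso.comp_left_eq_zero (DerivedCategory.Q.map s) _).1 h2
    have h4 : (Sd A b).map t = 0 := h3
    exact (Sd A b).map_injective (by rw [h4, Functor.map_zero])
  · rw [he, hfac, DerivedCategory.Q.map_comp, Category.assoc, IsIso.hom_inv_id_assoc,
      ← DerivedCategory.Q.map_comp]

variable {B : Type u'} [Category.{v'} B] [Abelian B] [HasDerivedCategory.{w'} B]
variable (F : A ⥤ B) [F.Additive] [PreservesFiniteLimits F] [PreservesFiniteColimits F]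

/-- If a morphism from a single complex becomes representable after an epimorphism which splits
after applying `F`, then its image under `F` is representable. -/
lemma exists_rep_map {M M' : A} {b : ℤ} {G : CochainComplex A ℤ}
    {φ : DerivedCategory.Q.obj ((sgd A b).obj M) ⟶ DerivedCategory.Q.obj G}
    {e : M' ⟶ M} {f : (sgd A b).obj M' ⟶ G}
    (h : DerivedCategory.Q.map ((sgd A b).map e) ≫ φ = DerivedCategory.Q.map f)
    (t : F.obj M ⟶ F.obj M') (ht : t ≫ F.map e = 𝟙 _) :
    ∃ (f' : (sgd B b).obj (F.obj M) ⟶ (F.mapHomologicalComplex (ComplexShape.up ℤ)).obj G)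
      (a : F.mapDerivedCategory.obj (DerivedCategory.Q.obj ((sgd A b).obj M)) ≅
        DerivedCategory.Q.obj ((sgd B b).obj (F.obj M))),
      F.mapDerivedCategory.map φ ≫ (DP.objIso F G).hom = a.hom ≫ DerivedCategory.Q.map f' := by
  let Φ := F.mapHomologicalComplex (ComplexShape.up ℤ)
  let σ : ∀ N : A, Φ.obj ((sgd A b).obj N) ≅ (sgd B b).obj (F.obj N) :=
    fun N => (HomologicalComplex.singleMapHomologicalComplex F (ComplexShape.up ℤ) b).app N
  have hσ : ∀ {N N' : A} (x : N ⟶ N'), Φ.map ((sgd A b).map x) ≫ (σ N').hom =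
      (σ N).hom ≫ (sgd B b).map (F.map x) := fun x =>
    (HomologicalComplex.singleMapHomologicalComplex F (ComplexShape.up ℤ) b).hom.naturality x
  let ρ : ∀ K : CochainComplex A ℤ, F.mapDerivedCategory.obj (DerivedCategory.Q.obj K) ≅
      DerivedCategory.Q.obj (Φ.obj K) := fun K => DP.objIso F K
  have hρ : ∀ {K K' : CochainComplex A ℤ} (x : K ⟶ K'),
      F.mapDerivedCategory.map (DerivedCategory.Q.map x) ≫ (ρ K').hom =
        (ρ K).hom ≫ DerivedCategory.Q.map (Φ.map x) := fun x =>
    F.mapDerivedCategoryFactors.hom.naturality x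
  refine ⟨(sgd B b).map t ≫ (σ M').inv ≫ Φ.map f, ρ _ ≪≫ DerivedCategory.Q.mapIso (σ M), ?_⟩
  have hσ' : (sgd B b).map t ≫ (σ M').inv ≫ Φ.map ((sgd A b).map e) = (σ M).inv := by
    rw [← cancel_mono (σ M).hom, Category.assoc, Category.assoc, hσ, Iso.inv_hom_id_assoc,
      ← Functor.map_comp, ht, CategoryTheory.Functor.map_id, Iso.inv_hom_id]
  have h1 : F.mapDerivedCategory.map (DerivedCategory.Q.map ((sgd A b).map e)) ≫
      F.mapDerivedCategory.map φ = F.mapDerivedCategory.map (DerivedCategory.Q.map f) := by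
    rw [← Functor.map_comp, h]
  have h2 : (ρ ((sgd A b).obj M')).inv ≫
      F.mapDerivedCategory.map (DerivedCategory.Q.map ((sgd A b).map e)) =
        DerivedCategory.Q.map (Φ.map ((sgd A b).map e)) ≫ (ρ _).inv := by
    rw [Iso.inv_comp_eq, ← Category.assoc, Iso.eq_comp_inv, hρ]
  have h3 : (ρ ((sgd A b).obj M')).inv ≫ F.mapDerivedCategory.map (DerivedCategory.Q.map f) =
      DerivedCategory.Q.map (Φ.map f) ≫ (ρ G).inv := by
    rw [Iso.inv_comp_eq, ← Category.assoc, Iso.eq_comp_inv, hρ]
  have h4 : DerivedCategory.Q.map (Φ.map ((sgd A b).map e)) ≫ (ρ _).inv ≫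
      F.mapDerivedCategory.map φ = DerivedCategory.Q.map (Φ.map f) ≫ (ρ G).inv := by
    rw [← h3, ← h1, ← Category.assoc, ← h2, Category.assoc]
  have h5 : DerivedCategory.Q.map (Φ.map ((sgd A b).map e)) ≫ (ρ _).inv ≫
      F.mapDerivedCategory.map φ ≫ (ρ G).hom = DerivedCategory.Q.map (Φ.map f) := by
    have := congrArg (fun z => z ≫ (ρ G).hom) h4
    simpa only [Category.assoc, Iso.inv_hom_id, Category.comp_id] using this
  have h6 : DerivedCategory.Q.map (σ M).inv ≫ (ρ _).inv ≫
      F.mapDerivedCategory.map φ ≫ (ρ G).hom =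
        DerivedCategory.Q.map ((sgd B b).map t ≫ (σ M').inv ≫ Φ.map f) := by
    rw [← hσ', Functor.map_comp, Functor.map_comp, Category.assoc, Category.assoc, h5,
      ← Functor.map_comp, ← Functor.map_comp]
  rw [← h6]
  simp only [Iso.trans_hom, Functor.mapIso_hom, Category.assoc]
  rw [← DerivedCategory.Q.map_comp_assoc, Iso.hom_inv_id, CategoryTheory.Functor.map_id,
    Category.id_comp, Iso.hom_inv_id_assoc]

end

end Pool.H29
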