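import Pool.Agent.H29.RetA
import Pool.Agent.H29.Rep

open CategoryTheory Limits AlgebraicGeometry ZeroObject TopologicalSpace Pretriangulated

universe w v u

namespace Pool.H29

attribute [local instance] HasDerivedCategory.standard

variable {X Y V : Scheme.{u}}

lemma BQ.restrict {n : ℕ} {b : ℤ} {E : DerivedCategory X.Modules} (h : BQ X n b E) (f : Y ⟶ X)
    [IsOpenImmersion f] : BQ Y n b ((rD f).obj E) := by
  obtain ⟨F, h1, h2, h3, ⟨e⟩⟩ := h
  refine ⟨((rF f).mapHomologicalComplex (ComplexShape.up ℤ)).obj F, ?_, ?_, ?_,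
    ⟨(rD f).mapIso e ≪≫ DP.objIso (rF f) F⟩⟩
  · intro i
    obtain ⟨m, hm⟩ := h1 i
    exact ⟨m, hm.restrict f⟩
  · exact fun i hi => Functor.map_isZero (rF f) (h2 i hi)
  · exact fun i hi => Functor.map_isZero (rF f) (h3 i hi)

lemma BQ.shift {n : ℕ} {b : ℤ} {E : DerivedCategory X.Modules} (h : BQ X n b E) (k : ℤ) :
    BQ X n (b - k) (E⟦k⟧) := by
  obtain ⟨F, h1, h2, h3, ⟨e⟩⟩ := h
  refine ⟨F⟦k⟧, fun i => h1 (i + k), fun i hi => h2 (i + k) (by lia),
    fun i hi => h3 (i + k) (by lia),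
    ⟨(shiftFunctor (DerivedCategory X.Modules) k).mapIso e ≪≫
      ((DerivedCategory.Q : _ ⥤ DerivedCategory X.Modules).commShiftIso k).symm.app F⟩⟩

/-- Perfect at a point. -/
def PA (Y : Scheme.{u}) (y : Y) (E : DerivedCategory Y.Modules) : Prop :=
  ∃ (V : Scheme.{u}) (j : V ⟶ Y) (_ : IsOpenImmersion j) (v : V), j v = y ∧
    ∃ (n : ℕ) (b : ℤ), BQ V n b ((rD j).obj E)

lemma PA.iso {y : Y} {E E' : DerivedCategory Y.Modules} (h : PA Y y E) (e : E ≅ E') :
    PA Y y E' := by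
  obtain ⟨V, j, hj, v, hv, n, b, hE⟩ := h
  exact ⟨V, j, hj, v, hv, n, b, hE.iso ((rD j).mapIso e)⟩

lemma PA.of_restrict (j : V ⟶ Y) [IsOpenImmersion j] {v : V} {y : Y} (hv : j v = y)
    {E : DerivedCategory Y.Modules} (h : PA V v ((rD j).obj E)) : PA Y y E := by
  obtain ⟨W, k, hk, w, hw, n, b, hE⟩ := h
  obtain ⟨e⟩ := DP.comp_iso (rF j) (rF k) (rF (k ≫ j))
    (Scheme.Modules.restrictFunctorComp k j).symm E
  refine ⟨W, k ≫ j, inferInstance, w, ?_, n, b, hE.iso e⟩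
  rw [Scheme.Hom.comp_apply, hw, hv]

lemma PA.restrict (j : V ⟶ Y) [IsOpenImmersion j] {v : V} {y : Y} (hv : j v = y)
    {E : DerivedCategory Y.Modules} (h : PA Y y E) : PA V v ((rD j).obj E) := by
  obtain ⟨W, k, hk, w, hw, n, b, hE⟩ := h
  obtain ⟨z, hz1, hz2⟩ := Scheme.Pullback.exists_preimage_pullback v w (hv.trans hw.symm)
  refine ⟨pullback j k, pullback.fst j k, inferInstance, z, hz1, n, b, ?_⟩
  have h1 := hE.restrict (pullback.snd j k)
  obtain ⟨e1⟩ := DP.comp_iso (rF k) (rF (pullback.snd j k)) (rF (pullback.snd j k ≫ k))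
    (Scheme.Modules.restrictFunctorComp _ k).symm E
  obtain ⟨e2⟩ := DP.comp_iso (rF j) (rF (pullback.fst j k)) (rF (pullback.snd j k ≫ k))
    ((Scheme.Modules.restrictFunctorComp _ j).symm ≪≫
      Scheme.Modules.restrictFunctorCongr pullback.condition) E
  exact h1.iso (e1 ≪≫ e2.symm)

lemma PA.shift {y : Y} {E : DerivedCategory Y.Modules} (h : PA Y y E) (k : ℤ) :
    PA Y y (E⟦k⟧) := by
  obtain ⟨V, j, hj, v, hv, n, b, hE⟩ := h
  exact ⟨V, j, hj, v, hv, n, b - k, (hE.shift k).iso (((rD j).commShiftIso k).symm.app E)⟩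

lemma BQ.pa {n : ℕ} {b : ℤ} {E : DerivedCategory Y.Modules} (h : BQ Y n b E) (y : Y) :
    PA Y y E :=
  ⟨Y, 𝟙 Y, inferInstance, y, rfl, n, b, h.restrict (𝟙 Y)⟩

lemma sd_restrict (j : V ⟶ Y) [IsOpenImmersion j] (b : ℤ) (M : Y.Modules) :
    Nonempty ((rD j).obj ((Sd Y.Modules b).obj M) ≅ (Sd V.Modules b).obj ((rF j).obj M)) :=
  ⟨((rF j).mapDerivedCategorySingleFunctor b).app M⟩

lemma bq_mappingCone {K L : CochainComplex V.Modules ℤ} (f : K ⟶ L) {n n' : ℕ} {b b' : ℤ}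
    (h1 : ∀ i, ∃ m, FF V m (K.X i)) (h2 : ∀ i, b < i → IsZero (K.X i))
    (h3 : ∀ i, i < b - n → IsZero (K.X i))
    (h1' : ∀ i, ∃ m, FF V m (L.X i)) (h2' : ∀ i, b' < i → IsZero (L.X i))
    (h3' : ∀ i, i < b' - n' → IsZero (L.X i)) :
    ∃ (n : ℕ) (b : ℤ), BQ V n b (DerivedCategory.Q.obj (CochainComplex.mappingCone f)) := by
  have e : ∀ i, Nonempty ((CochainComplex.mappingCone f).X i ≅ K.X (i + 1) ⊞ L.X i) :=
    fun i => ⟨HomologicalComplex.homotopyCofiber.XIsoBiprod f i (i + 1) rfl⟩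
  refine ⟨(max (b - 1) b' - min (b - 1 - n) (b' - n')).toNat, max (b - 1) b',
    CochainComplex.mappingCone f, ?_, ?_, ?_, ⟨Iso.refl _⟩⟩
  · intro i
    obtain ⟨e⟩ := e i
    obtain ⟨m, hm⟩ := h1 (i + 1)
    obtain ⟨m', hm'⟩ := h1' i
    exact ⟨m + m', (hm.biprod hm').iso e.symm⟩
  · intro i hi
    obtain ⟨e⟩ := e i
    exact ((biprod_isZero_iff _ _).2 ⟨h2 _ (by lia), h2' _ (by lia)⟩).of_iso e
  · intro i hi
    obtain ⟨e⟩ := e i
    have h0 : 0 ≤ max (b - 1) b' - min (b - 1 - n) (b' - n') := by lia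
    rw [Int.toNat_of_nonneg h0] at hi
    exact ((biprod_isZero_iff _ _).2 ⟨h3 _ (by lia), h3' _ (by lia)⟩).of_iso e

/-- The basic step: the cone of a morphism from a single finite free module. -/
lemma pa_cone_single {y : Y} {m : ℕ} {M : Y.Modules} (hM : FF Y m M) {b : ℤ}
    {E C : DerivedCategory Y.Modules} {φ : (Sd Y.Modules b).obj M ⟶ E} {g : E ⟶ C}
    {h : C ⟶ ((Sd Y.Modules b).obj M)⟦(1 : ℤ)⟧}
    (hT : Triangle.mk φ g h ∈ distTriang (DerivedCategory Y.Modules)) (hE : PA Y y E) :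
    PA Y y C := by
  obtain ⟨V, j, hj, v, hv, n, b', G, hG1, hG2, hG3, ⟨eG⟩⟩ := hE
  refine PA.of_restrict j hv ?_
  obtain ⟨eM⟩ := sd_restrict j b M
  have hM' := hM.restrict j
  have hT' := (rD j).map_distinguished _ hT
  let φ' : DerivedCategory.Q.obj ((sgd V.Modules b).obj ((rF j).obj M)) ⟶
      DerivedCategory.Q.obj G := eM.inv ≫ (rD j).map φ ≫ eG.hom
  obtain ⟨M', e, f, he, hf⟩ := exists_epi_rep φ'
  obtain ⟨W, k, hk, w, hw, t, ht⟩ := exists_lift m v hM' e he (𝟙 _)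
  rw [CategoryTheory.Functor.map_id] at ht
  obtain ⟨f', a, ha⟩ := exists_rep_map (rF k) hf t ht
  have hT'' := (rD k).map_distinguished _ hT'
  have hcone := DerivedCategory.mappingCone_triangle_distinguished f'
  let i₁ : (rD k).obj ((rD j).obj ((Sd Y.Modules b).obj M)) ≅
      DerivedCategory.Q.obj ((sgd W.Modules b).obj ((rF k).obj ((rF j).obj M))) :=
    (rD k).mapIso eM ≪≫ a
  let i₂ : (rD k).obj ((rD j).obj E) ≅ DerivedCategory.Q.obj
      (((rF k).mapHomologicalComplex (ComplexShape.up ℤ)).obj G) :=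
    (rD k).mapIso eG ≪≫ DP.objIso (rF k) G
  have hsq : (rD k).map ((rD j).map φ) ≫ i₂.hom = i₁.hom ≫ DerivedCategory.Q.map f' := by
    have h1 : (rD j).map φ ≫ eG.hom = eM.hom ≫ φ' := by simp [φ']
    simp only [i₁, i₂, Iso.trans_hom, Functor.mapIso_hom, Category.assoc]
    rw [← Functor.map_comp_assoc, h1, Functor.map_comp_assoc]
    exact congrArg (fun z => (rD k).map eM.hom ≫ z) ha
  obtain ⟨i₃⟩ : Nonempty ((rD k).obj ((rD j).obj C) ≅
      DerivedCategory.Q.obj (CochainComplex.mappingCone f')) :=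
    ⟨Triangle.π₃.mapIso (isoTriangleOfIso₁₂ _ _ hT'' hcone i₁ i₂ hsq)⟩
  obtain ⟨n₀, b₀, h₀⟩ : ∃ (n : ℕ) (b : ℤ),
      BQ W n b (DerivedCategory.Q.obj (CochainComplex.mappingCone f')) := by
    refine bq_mappingCone f' (n := 0) (b := b) (n' := n) (b' := b') ?_ ?_ ?_ ?_ ?_ ?_
    · intro i
      by_cases hi : i = b
      · subst hi
        exact ⟨m, (hM'.restrict k).iso (HomologicalComplex.singleObjXSelf _ _ _).symm⟩
      · exact ⟨0, HomologicalComplex.isZero_single_obj_X (ComplexShape.up ℤ) _ _ _ hi⟩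
    · exact fun i hi => HomologicalComplex.isZero_single_obj_X (ComplexShape.up ℤ) _ _ _ (by lia)
    · exact fun i hi => HomologicalComplex.isZero_single_obj_X (ComplexShape.up ℤ) _ _ _
        (by push_cast at hi; lia)
    · intro i
      obtain ⟨m, hm⟩ := hG1 i
      exact ⟨m, hm.restrict k⟩
    · exact fun i hi => Functor.map_isZero (rF k) (hG2 i hi)
    · exact fun i hi => Functor.map_isZero (rF k) (hG3 i hi)
  exact ⟨W, k, hk, w, hw, n₀, b₀, h₀.iso i₃.symm⟩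

/-- Cones, by induction on the length of the source. -/
lemma pa_cone_bq {y : Y} (n : ℕ) : ∀ {b : ℤ} {P E C : DerivedCategory Y.Modules}
    (_ : BQ Y n b P) {f : P ⟶ E} {g : E ⟶ C} {h : C ⟶ P⟦(1 : ℤ)⟧}
    (_ : Triangle.mk f g h ∈ distTriang (DerivedCategory Y.Modules)) (_ : PA Y y E),
    PA Y y C := by
  induction n with
  | zero =>
    intro b P E C hP f g h hT hE
    obtain ⟨m, M, hM, ⟨e⟩⟩ := hP.exists_single
    refine pa_cone_single hM (φ := e.inv ≫ f) (g := g) (h := h ≫ e.hom⟦(1 : ℤ)⟧') ?_ hE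
    refine isomorphic_distinguished _ hT _ (Triangle.isoMk _ _ e.symm (Iso.refl _) (Iso.refl _)
      ?_ ?_ ?_)
    · exact (Category.comp_id _)
    · exact (Category.comp_id _).trans (Category.id_comp _).symm
    · change (h ≫ e.hom⟦(1 : ℤ)⟧') ≫ e.inv⟦(1 : ℤ)⟧' = 𝟙 _ ≫ h
      rw [Category.assoc, ← Functor.map_comp, e.hom_inv_id, CategoryTheory.Functor.map_id,
        Category.id_comp]
      exact Category.comp_id _
  | succ n ih =>
    intro b P E C hP f g h hT hE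
    obtain ⟨m, M, P', α, β, γ, hM, hP', hT'⟩ := hP.exists_triangle
    obtain ⟨C₁, v, w, hT₁⟩ := distinguished_cocone_triangle (α ≫ f)
    have h1 : PA Y y C₁ := pa_cone_single hM hT₁ hE
    exact ih hP' (Triangulated.someOctahedron rfl hT' hT hT₁).mem h1

lemma PA.cone {y : Y} {E₁ E₂ C : DerivedCategory Y.Modules} {f : E₁ ⟶ E₂} {g : E₂ ⟶ C}
    {h : C ⟶ E₁⟦(1 : ℤ)⟧} (hT : Triangle.mk f g h ∈ distTriang (DerivedCategory Y.Modules))
    (h₁ : PA Y y E₁) (h₂ : PA Y y E₂) : PA Y y C := by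
  obtain ⟨V, j, hj, v, hv, n, b, hE⟩ := h₁
  exact PA.of_restrict j hv (pa_cone_bq n hE ((rD j).map_distinguished _ hT) (h₂.restrict j hv))

lemma PA.ext₂ {y : Y} (T : Triangle (DerivedCategory Y.Modules))
    (hT : T ∈ distTriang (DerivedCategory Y.Modules)) (h₁ : PA Y y T.obj₁) (h₃ : PA Y y T.obj₃) :
    PA Y y T.obj₂ :=
  PA.cone (inv_rot_of_distTriang _ hT) (h₃.shift (-1)) h₁

/-- Direct summands. -/
lemma PA.retract {y : Y} {E G : DerivedCategory Y.Modules} (hG : PA Y y G) (r : Retract E G) :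
    PA Y y E := by
  obtain ⟨V, j, hj, v, hv, n, b, hE⟩ := hG
  refine PA.of_restrict j hv ?_
  obtain ⟨v', hv'⟩ := V.affineCover.covers v
  refine PA.of_restrict (V.affineCover.f (V.affineCover.idx v)) hv' ?_
  refine pr_of_retract (Pr := PA _ v') PA.ext₂ ?_ n b _
    (hE.restrict (V.affineCover.f (V.affineCover.idx v))) _
    ((r.map (rD j)).map (rD (V.affineCover.f (V.affineCover.idx v))))
  intro m M b E hM r
  obtain ⟨N, ⟨r'⟩, ⟨e⟩⟩ := exists_retract_of_full (Sd _ b) r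
  refine PA.iso ?_ e.symm
  obtain ⟨W, k, hk, w, hw, m', hm'⟩ := exists_ff_of_retract m v' hM r'
  obtain ⟨e'⟩ := sd_restrict k b N
  exact ⟨W, k, hk, w, hw, 0, b, (bq_single hm' b).iso e'.symm⟩

lemma pa_zero (y : Y) {E : DerivedCategory Y.Modules} (hE : IsZero E) : PA Y y E := by
  have h1 : FF Y 0 (0 : Y.Modules) := isZero_zero _
  have h2 : IsZero ((Sd Y.Modules 0).obj (0 : Y.Modules)) :=
    Functor.map_isZero _ (isZero_zero _)
  exact ((bq_single h1 0).pa y).iso (h2.iso hE)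

lemma pa_isThick (y : Y) : IsThick (PA Y y) where
  zero _ hX := pa_zero y hX
  shift _ n hX := hX.shift n
  ext₂ T hT h1 h3 := PA.ext₂ T hT h1 h3
  retract _ _ e hY := by
    obtain ⟨e⟩ := e
    exact hY.retract e

/-- Objects of the thick subcategory generated by the structure sheaf are perfect. -/
theorem pa_of_thick {E : DerivedCategory Y.Modules} (h : thick (SO Y) E) (y : Y) : PA Y y E :=
  thick_ind (pa_isThick y) ((bq_single ff_one 0).pa y) h

end Pool.H29
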