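import Mathlib

/-!
# Even permutations of a union (packet C of MP_75608d_al)
-/

namespace Pool.Agent.H29.Pair

open Equiv

theorem apply_of_notMem {α : Type} [Fintype α] [DecidableEq α] {σ : Perm α} {Y : Finset α}
    (h : σ.support ⊆ Y) {z : α} (hz : z ∉ Y) : σ z = z :=
  Perm.notMem_support.1 fun h' => hz (h h')

theorem apply_mem {α : Type} [Fintype α] [DecidableEq α] {σ : Perm α} {Y : Finset α}
    (h : σ.support ⊆ Y) {z : α} (hz : z ∈ Y) : σ z ∈ Y := by
  by_contra h'
  have h1 : σ (σ z) = σ z := apply_of_notMem h h'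
  rw [σ.injective h1] at h'
  exact h' hz

theorem ext_perm {α : Type} [Fintype α] [DecidableEq α] (Y Z : Finset α) (f : α → α)
    (hZ : Z ⊆ Y) (hf : Set.InjOn f Z) (hfY : ∀ z ∈ Z, f z ∈ Y) :
    ∃ σ : Perm α, σ.support ⊆ Y ∧ ∀ z ∈ Z, σ z = f z := by
  induction Z using Finset.induction_on with
  | empty => exact ⟨1, by simp, by simp⟩
  | insert z Z hz ih =>
    obtain ⟨σ, h1, h2⟩ := ih (fun x hx => hZ (Finset.mem_insert_of_mem hx))
      (hf.mono (by simp)) (fun x hx => hfY x (Finset.mem_insert_of_mem hx))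
    have hzY : z ∈ Y := hZ (Finset.mem_insert_self _ _)
    have hfz : f z ∈ Y := hfY z (Finset.mem_insert_self _ _)
    refine ⟨swap (σ z) (f z) * σ, ?_, ?_⟩
    · intro x hx
      by_contra hxY
      rw [Perm.mem_support] at hx
      apply hx
      rw [Perm.mul_apply, apply_of_notMem h1 hxY]
      refine swap_apply_of_ne_of_ne ?_ ?_
      · rintro rfl; exact hxY (apply_mem h1 hzY)
      · rintro rfl; exact hxY hfz
    · intro x hx
      rw [Perm.mul_apply]
      rcases Finset.mem_insert.1 hx with rfl | hx'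
      · exact swap_apply_left _ _
      · have hne : x ≠ z := by rintro rfl; exact hz hx'
        have h3 : f x ≠ f z := fun h =>
          hne (hf (Finset.mem_coe.2 hx) (Finset.mem_coe.2 (Finset.mem_insert_self _ _)) h)
        have h4 : f x ≠ σ z := by
          rw [← h2 x hx']
          exact fun h => hne (σ.injective h)
        rw [h2 x hx', swap_apply_of_ne_of_ne h4 h3]

theorem ext_even {α : Type} [Fintype α] [DecidableEq α] (Y Z : Finset α) (f : α → α)
    (hZ : Z ⊆ Y) (hf : Set.InjOn f Z) (hfY : ∀ z ∈ Z, f z ∈ Y) (a b : α) (hab : a ≠ b)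
    (ha : a ∈ Y) (hb : b ∈ Y) (ha' : ∀ z ∈ Z, f z ≠ a) (hb' : ∀ z ∈ Z, f z ≠ b) :
    ∃ σ : Perm α, Perm.sign σ = 1 ∧ σ.support ⊆ Y ∧ ∀ z ∈ Z, σ z = f z := by
  obtain ⟨σ, h1, h2⟩ := ext_perm Y Z f hZ hf hfY
  rcases Int.units_eq_one_or (Perm.sign σ) with h | h
  · exact ⟨σ, h, h1, h2⟩
  · refine ⟨swap a b * σ, ?_, ?_, ?_⟩
    · rw [map_mul, h, Perm.sign_swap hab]; decide
    · intro x hx
      by_contra hxY
      rw [Perm.mem_support] at hx
      apply hx
      rw [Perm.mul_apply, apply_of_notMem h1 hxY]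
      refine swap_apply_of_ne_of_ne ?_ ?_
      · rintro rfl; exact hxY ha
      · rintro rfl; exact hxY hb
    · intro z hz
      rw [Perm.mul_apply, h2 z hz, swap_apply_of_ne_of_ne (ha' z hz) (hb' z hz)]

theorem union_step {α : Type} [Fintype α] [DecidableEq α] (N : Perm α → ℝ)
    (hmul : ∀ g h, N (g * h) ≤ N g + N h) (X Y : Finset α) (d₁ d₂ : ℝ)
    (h1 : (Y \ X).card + 2 ≤ (X ∩ Y).card)
    (hX : ∀ g : Perm α, Perm.sign g = 1 → g.support ⊆ X → N g ≤ d₁)
    (hY : ∀ g : Perm α, Perm.sign g = 1 → g.support ⊆ Y → N g ≤ d₂)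
    (g : Perm α) (hg : Perm.sign g = 1) (hs : g.support ⊆ X ∪ Y) : N g ≤ 2 * d₁ + d₂ := by
  obtain ⟨a, ha, b, hb, hab⟩ := Finset.one_lt_card.1 (show 1 < (X ∩ Y).card by omega)
  rw [Finset.mem_inter] at ha hb
  set A : Finset α := X.filter (fun e => g e ∈ Y \ X) with hA
  have hAc : A.card ≤ (Y \ X).card := by
    refine Finset.card_le_card_of_injOn g ?_ g.injective.injOn
    intro e he
    exact (Finset.mem_filter.1 he).2
  have hAc' : A.card ≤ ((X ∩ Y) \ {a, b}).card := by
    have h2 := Finset.le_card_sdiff {a, b} (X ∩ Y)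
    have h3 := Finset.card_le_two (a := a) (b := b)
    omega
  obtain ⟨φ⟩ : Nonempty (A ↪ ((X ∩ Y) \ {a, b} : Finset α)) :=
    Function.Embedding.nonempty_of_card_le (by rw [Fintype.card_coe, Fintype.card_coe]; exact hAc')
  let f : α → α := fun e => if h : e ∈ A then (φ ⟨e, h⟩ : α) else e
  have hf : ∀ e (h : e ∈ A), f e = φ ⟨e, h⟩ := fun e h => dif_pos h
  have hfm : ∀ e ∈ A, f e ∈ (X ∩ Y) \ {a, b} := by
    intro e h
    rw [hf e h]
    exact (φ ⟨e, h⟩).2
  obtain ⟨h₁, s1, s2, s3⟩ := ext_even X A f (Finset.filter_subset _ _) (by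
      intro x hx y hy hxy
      have hx' : x ∈ A := hx
      have hy' : y ∈ A := hy
      rw [hf x hx', hf y hy'] at hxy
      have := φ.injective (Subtype.ext hxy)
      exact congrArg Subtype.val this)
    (fun z hz => (Finset.mem_inter.1 (Finset.mem_sdiff.1 (hfm z hz)).1).1) a b hab ha.1 hb.1
    (by
      intro z hz h
      have h2 := (Finset.mem_sdiff.1 (hfm z hz)).2
      rw [h] at h2
      simp at h2)
    (by
      intro z hz h
      have h2 := (Finset.mem_sdiff.1 (hfm z hz)).2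
      rw [h] at h2
      simp at h2)
  set B : Finset α := Finset.univ.filter (fun e => g e ∈ Y \ X) with hB
  have hBsub : ∀ e ∈ B, e ∈ A ∨ e ∈ Y \ X := by
    intro e he
    have he' : g e ∈ Y \ X := (Finset.mem_filter.1 he).2
    by_cases hex : e ∈ X
    · exact Or.inl (Finset.mem_filter.2 ⟨hex, he'⟩)
    · right
      by_contra h
      have h2 : e ∉ X ∪ Y := by
        intro h3
        rcases Finset.mem_union.1 h3 with h3 | h3
        · exact hex h3
        · exact h (Finset.mem_sdiff.2 ⟨h3, hex⟩)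
      rw [apply_of_notMem hs h2] at he'
      exact h he'
  have hZY : B.image h₁ ⊆ Y := by
    intro z hz
    obtain ⟨e, he, rfl⟩ := Finset.mem_image.1 hz
    rcases hBsub e he with h | h
    · rw [s3 e h]
      exact (Finset.mem_inter.1 (Finset.mem_sdiff.1 (hfm e h)).1).2
    · rw [apply_of_notMem s2 (Finset.mem_sdiff.1 h).2]
      exact (Finset.mem_sdiff.1 h).1
  have hval : ∀ z ∈ B.image h₁, g (h₁.symm z) ∈ Y \ X := by
    intro z hz
    obtain ⟨e, he, rfl⟩ := Finset.mem_image.1 hz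
    rw [symm_apply_apply]
    exact (Finset.mem_filter.1 he).2
  obtain ⟨h₂, t1, t2, t3⟩ := ext_even Y (B.image h₁) (fun z => g (h₁.symm z)) hZY
    ((g.injective.comp h₁.symm.injective).injOn)
    (fun z hz => (Finset.mem_sdiff.1 (hval z hz)).1) a b hab ha.2 hb.2
    (by
      intro z hz h
      have h2 := (Finset.mem_sdiff.1 (hval z hz)).2
      rw [h] at h2
      exact h2 ha.1)
    (by
      intro z hz h
      have h2 := (Finset.mem_sdiff.1 (hval z hz)).2
      rw [h] at h2
      exact h2 hb.1)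
  have u1 : Perm.sign (g * h₁⁻¹ * h₂⁻¹) = 1 := by
    rw [map_mul, map_mul, map_inv, map_inv, hg, s1, t1]; decide
  have u2 : (g * h₁⁻¹ * h₂⁻¹).support ⊆ X := by
    intro z hz
    by_contra hzX
    rw [Perm.mem_support] at hz
    apply hz
    rw [Perm.mul_apply, Perm.mul_apply]
    by_cases hzY : z ∈ Y
    · have he : g.symm z ∈ B := by
        refine Finset.mem_filter.2 ⟨Finset.mem_univ _, ?_⟩
        rw [apply_symm_apply]
        exact Finset.mem_sdiff.2 ⟨hzY, hzX⟩
      have h3 : h₂ (h₁ (g.symm z)) = z := by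
        rw [t3 (h₁ (g.symm z)) (Finset.mem_image_of_mem _ he), symm_apply_apply, apply_symm_apply]
      rw [show h₂⁻¹ z = h₁ (g.symm z) by rw [Perm.inv_eq_iff_eq, h3]]
      change g (h₁.symm (h₁ (g.symm z))) = z
      rw [symm_apply_apply, apply_symm_apply]
    · have e2 : h₂⁻¹ z = z := by rw [Perm.inv_eq_iff_eq, apply_of_notMem t2 hzY]
      have e1 : h₁⁻¹ z = z := by rw [Perm.inv_eq_iff_eq, apply_of_notMem s2 hzX]
      rw [e2, e1]
      refine apply_of_notMem hs ?_
      intro h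
      rcases Finset.mem_union.1 h with h | h
      · exact hzX h
      · exact hzY h
  have e : g = (g * h₁⁻¹ * h₂⁻¹) * (h₂ * h₁) := by group
  have n1 := hX h₁ s1 s2
  have n2 := hY h₂ t1 t2
  have n3 := hX _ u1 u2
  have m1 := hmul (g * h₁⁻¹ * h₂⁻¹) (h₂ * h₁)
  have m2 := hmul h₂ h₁
  rw [← e] at m1
  linarith

end Pool.Agent.H29.Pair
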