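import Mathlib

/-!
# The alternating group is generated by two elements (packet E of MP_75608d_al)
-/

namespace Pool.Agent.H29.Pair

open Equiv

/-- products of two of the transpositions `(0 i)` generate the alternating group -/
theorem alt_le_of_star {n : ℕ} (H : Subgroup (Perm (Fin (n + 2))))
    (hH : ∀ g ∈ H, Perm.sign g = 1)
    (h : ∀ i j : Fin (n + 2), i ≠ 0 → j ≠ 0 → swap 0 i * swap 0 j ∈ H)
    (g : Perm (Fin (n + 2))) (hg : Perm.sign g = 1) : g ∈ H := by
  have h1 : (1 : Fin (n + 2)) ≠ 0 := Fin.zero_lt_one.ne'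
  have hQ : ∀ i : Fin (n + 2), i ≠ 0 → ∀ σ : Perm (Fin (n + 2)),
      (σ ∈ H ∨ swap 0 1 * σ ∈ H) → (swap 0 i * σ ∈ H ∨ swap 0 1 * (swap 0 i * σ) ∈ H) := by
    rintro i hi σ (hσ | hσ)
    · right
      rw [← mul_assoc]
      exact H.mul_mem (h 1 i h1 hi) hσ
    · left
      have : swap 0 i * σ = (swap 0 i * swap 0 1) * (swap 0 1 * σ) := by
        rw [mul_assoc, ← mul_assoc (swap 0 1) (swap 0 1) σ, swap_mul_self, one_mul]
      rw [this]
      exact H.mul_mem (h i 1 hi h1) hσ
  have hall : ∀ σ : Perm (Fin (n + 2)), σ ∈ H ∨ swap 0 1 * σ ∈ H := by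
    intro σ
    induction σ using Perm.swap_induction_on with
    | one => exact Or.inl H.one_mem
    | swap_mul σ x y hxy ih =>
      by_cases hx : x = 0
      · rw [hx]
        exact hQ y (fun h => hxy (hx.trans h.symm)) σ ih
      by_cases hy : y = 0
      · rw [hy, swap_comm]
        exact hQ x hx σ ih
      · have e : swap x y * σ = swap 0 x * (swap 0 y * (swap 0 x * σ)) := by
          rw [← mul_assoc, ← mul_assoc]
          congr 1
          rw [swap_comm 0 y]
          exact (swap_mul_swap_mul_swap hy hxy.symm).symm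
        rw [e]
        exact hQ x hx _ (hQ y hy _ (hQ x hx _ ih))
  rcases hall g with h2 | h2
  · exact h2
  · exfalso
    have := hH _ h2
    rw [map_mul, hg, Perm.sign_swap h1.symm] at this
    exact absurd this (by decide)

theorem conj_star {n : ℕ} (H : Subgroup (Perm (Fin (n + 2)))) (τ : Perm (Fin (n + 2)))
    (hτ : τ ∈ H) (h0 : τ 0 = 0) {a b : Fin (n + 2)} (h : swap 0 a * swap 0 b ∈ H) :
    swap 0 (τ a) * swap 0 (τ b) ∈ H := by
  have e : swap 0 (τ a) * swap 0 (τ b) = τ * (swap 0 a * swap 0 b) * τ⁻¹ := by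
    have e1 : ∀ c, swap 0 (τ c) = τ * swap 0 c * τ⁻¹ := by
      intro c
      have := swap_apply_apply τ 0 c
      rwa [h0] at this
    rw [e1, e1]
    group
  rw [e]
  exact H.mul_mem (H.mul_mem hτ h) (H.inv_mem hτ)

theorem star_trans {n : ℕ} (H : Subgroup (Perm (Fin (n + 2)))) {a b c : Fin (n + 2)}
    (h1 : swap 0 a * swap 0 b ∈ H) (h2 : swap 0 b * swap 0 c ∈ H) :
    swap 0 a * swap 0 c ∈ H := by
  have e : swap 0 a * swap 0 c = (swap 0 a * swap 0 b) * (swap 0 b * swap 0 c) := by
    rw [mul_assoc, ← mul_assoc (swap 0 b) (swap 0 b), swap_mul_self, one_mul]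
  rw [e]
  exact H.mul_mem h1 h2

theorem star_symm {n : ℕ} (H : Subgroup (Perm (Fin (n + 2)))) {a b : Fin (n + 2)}
    (h1 : swap 0 a * swap 0 b ∈ H) : swap 0 b * swap 0 a ∈ H := by
  have e : swap 0 b * swap 0 a = (swap 0 a * swap 0 b)⁻¹ := by
    rw [mul_inv_rev, swap_inv, swap_inv]
  rw [e]
  exact H.inv_mem h1

/-- the general criterion -/
theorem two_gen_of {n : ℕ} (x y : Perm (Fin (n + 2))) (hx : Perm.sign x = 1)
    (hy : Perm.sign y = 1) (b : Fin (n + 2))
    (h : ∀ H : Subgroup (Perm (Fin (n + 2))), x ∈ H → y ∈ H →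
      ∀ i : Fin (n + 2), i ≠ 0 → swap 0 b * swap 0 i ∈ H) :
    ∃ x y : alternatingGroup (Fin (n + 2)), Subgroup.closure {x, y} = ⊤ := by
  refine ⟨⟨x, hx⟩, ⟨y, hy⟩, ?_⟩
  rw [eq_top_iff]
  rintro g -
  have hm := alt_le_of_star
    ((Subgroup.closure {(⟨x, hx⟩ : alternatingGroup (Fin (n + 2))), ⟨y, hy⟩}).map
      (alternatingGroup (Fin (n + 2))).subtype) ?_ ?_ g.1 g.2
  · obtain ⟨g', hg', e⟩ := hm
    have : g' = g := Subtype.ext e
    rwa [← this]
  · rintro _ ⟨g', -, rfl⟩
    exact g'.2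
  · intro i j hi hj
    have hxm : x ∈ (Subgroup.closure {(⟨x, hx⟩ : alternatingGroup (Fin (n + 2))), ⟨y, hy⟩}).map
        (alternatingGroup (Fin (n + 2))).subtype :=
      ⟨⟨x, hx⟩, Subgroup.subset_closure (by simp), rfl⟩
    have hym : y ∈ (Subgroup.closure {(⟨x, hx⟩ : alternatingGroup (Fin (n + 2))), ⟨y, hy⟩}).map
        (alternatingGroup (Fin (n + 2))).subtype :=
      ⟨⟨y, hy⟩, Subgroup.subset_closure (by simp), rfl⟩
    exact star_trans _ (star_symm _ (h _ hxm hym i hi)) (h _ hxm hym j hj)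

theorem alt_two_gen_odd (m : ℕ) (hm : Odd (m + 1)) :
    ∃ x y : alternatingGroup (Fin (m + 1 + 2)), Subgroup.closure {x, y} = ⊤ := by
  -- `y` fixes `0`, `1` and rotates the other points
  refine two_gen_of (swap 0 1 * swap 0 2)
    (Perm.decomposeFin.symm (0, Perm.decomposeFin.symm (0, finRotate (m + 1)))) ?_ ?_ 1 ?_
  · rw [map_mul, Perm.sign_swap (by simp), Perm.sign_swap (by
      intro h
      have h2 : ((2 : Fin (m + 1 + 2)) : ℕ) = 2 % (m + 1 + 2) := rfl
      rw [← h, Nat.mod_eq_of_lt (by omega)] at h2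
      simp at h2)]
    decide
  · rw [Perm.decomposeFin.symm_sign, Perm.decomposeFin.symm_sign, sign_finRotate]
    simp only [if_true, one_mul, Nat.add_sub_cancel]
    exact Even.neg_one_pow (by simpa using Nat.Odd.sub_odd hm odd_one)
  · intro H hx hy
    have key : ∀ i : ℕ, ∀ hi : i < m + 1, swap 0 1 * swap 0 (⟨i, hi⟩ : Fin (m + 1)).succ.succ ∈ H := by
      intro i
      induction i with
      | zero => intro hi; exact hx
      | succ i ih =>
        intro hi
        have h1 := conj_star H _ hy (by simp) (ih (by omega))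
        have e1 : (Perm.decomposeFin.symm (0, Perm.decomposeFin.symm (0, finRotate (m + 1))))
            (1 : Fin (m + 1 + 2)) = 1 := by
          rw [Perm.decomposeFin_symm_apply_one]
          simp
        have e2 : (Perm.decomposeFin.symm (0, Perm.decomposeFin.symm (0, finRotate (m + 1))))
            ((⟨i, by omega⟩ : Fin (m + 1)).succ.succ) = (⟨i + 1, hi⟩ : Fin (m + 1)).succ.succ := by
          rw [Perm.decomposeFin_symm_apply_succ, Perm.decomposeFin_symm_apply_succ,
            finRotate_of_lt (by omega)]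
          simp
        rw [e1, e2] at h1
        exact h1
    intro i hi
    obtain ⟨j, rfl⟩ := Fin.exists_succ_eq.2 hi
    by_cases hj : j = 0
    · rw [hj]
      have : swap (0 : Fin (m + 1 + 2)) 1 * swap 0 (Fin.succ 0) = 1 := by
        rw [Fin.succ_zero_eq_one, swap_mul_self]
      rw [this]
      exact H.one_mem
    · obtain ⟨l, rfl⟩ := Fin.exists_succ_eq.2 hj
      exact key l.1 l.2

theorem alt_two_gen_even (m : ℕ) (hm : Odd (m + 2)) :
    ∃ x y : alternatingGroup (Fin (m + 1 + 2)), Subgroup.closure {x, y} = ⊤ := by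
  -- `y` fixes `0` and rotates the other points
  refine two_gen_of (swap 0 1 * swap 0 2)
    (Perm.decomposeFin.symm (0, finRotate (m + 2))) ?_ ?_ 1 ?_
  · rw [map_mul, Perm.sign_swap (by simp), Perm.sign_swap (by
      intro h
      have h2 : ((2 : Fin (m + 1 + 2)) : ℕ) = 2 % (m + 1 + 2) := rfl
      rw [← h, Nat.mod_eq_of_lt (by omega)] at h2
      simp at h2)]
    decide
  · rw [Perm.decomposeFin.symm_sign, sign_finRotate]
    simp only [if_true, one_mul]
    exact Even.neg_one_pow (by simpa using Nat.Odd.sub_odd hm odd_one)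
  · intro H hx hy
    have e2 : ∀ i : ℕ, ∀ hi : i + 1 < m + 2,
        (Perm.decomposeFin.symm (0, finRotate (m + 2)))
            ((⟨i, by omega⟩ : Fin (m + 2)).succ) = (⟨i + 1, hi⟩ : Fin (m + 2)).succ := by
      intro i hi
      rw [Perm.decomposeFin_symm_apply_succ, finRotate_of_lt (by omega)]
      simp
    have key : ∀ i : ℕ, ∀ hi : i + 1 < m + 2,
        swap 0 (⟨i, by omega⟩ : Fin (m + 2)).succ * swap 0 (⟨i + 1, hi⟩ : Fin (m + 2)).succ ∈ H := by
      intro i
      induction i with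
      | zero => intro hi; exact hx
      | succ i ih =>
        intro hi
        have h1 := conj_star H _ hy (by simp) (ih (by omega))
        rw [e2 i (by omega), e2 (i + 1) hi] at h1
        exact h1
    have key2 : ∀ i : ℕ, ∀ hi : i < m + 2, swap 0 1 * swap 0 (⟨i, hi⟩ : Fin (m + 2)).succ ∈ H := by
      intro i
      induction i with
      | zero =>
        intro hi
        have : swap (0 : Fin (m + 1 + 2)) 1 * swap 0 (⟨0, hi⟩ : Fin (m + 2)).succ = 1 :=
          swap_mul_self _ _
        rw [this]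
        exact H.one_mem
      | succ i ih =>
        intro hi
        exact star_trans H (ih (by omega)) (key i hi)
    intro i hi
    obtain ⟨j, rfl⟩ := Fin.exists_succ_eq.2 hi
    exact key2 j.1 j.2

theorem alt_two_gen (n : ℕ) (hn : 5 ≤ n) : ∃ x y : alternatingGroup (Fin n),
    Subgroup.closure {x, y} = ⊤ := by
  obtain ⟨m, rfl⟩ : ∃ m, n = m + 1 + 2 := ⟨n - 3, by omega⟩
  rcases Nat.even_or_odd (m + 1) with h | h
  · exact alt_two_gen_even m h.add_one
  · exact alt_two_gen_odd m h

end Pool.Agent.H29.Pair
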