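import Pool.Agent.H29.PA
import Pool.Agent.H29.Ex

open CategoryTheory Limits AlgebraicGeometry

namespace Pool.H29

attribute [local instance] HasDerivedCategory.standard

lemma thick_Q_of_free {Y : Scheme.{0}} (F : CochainComplex Y.Modules ℤ)
    (hb : ∃ a b : ℤ, ∀ i, i < a ∨ b < i → IsZero (F.X i))
    (hF : ∀ i, ∃ I : Type, Finite I ∧ Nonempty (F.X i ≅ SheafOfModules.free I)) :
    thick (SO Y) (DerivedCategory.Q.obj F) := by
  obtain ⟨a, b, hab⟩ := hb
  refine thick_Q_of_bounded (OX Y) (b - a + 1).toNat F b ?_ (fun i hi => hab i (Or.inr hi)) ?_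
  · intro i
    obtain ⟨I, _, ⟨e⟩⟩ := hF i
    have h1 : thick ((S₀ Y.Modules).obj (OX Y)) ((S₀ Y.Modules).obj (∐ fun _ : I => OX Y)) :=
      thick_coproduct (OX Y) I
    exact (thick_isThick _).iso ((S₀ Y.Modules).mapIso e).symm h1
  · intro i hi
    have := Int.self_le_toNat (b - a + 1)
    exact hab i (Or.inl (by lia))

/-- Two charts, one of which is the non-vanishing locus of a function. -/
theorem thick_of_two_charts {X U W : Scheme.{0}} [IsAffine U] [IsAffine W] (i : U ⟶ X) (j : W ⟶ X)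
    [IsOpenImmersion i] [IsOpenImmersion j] (f : Γ(X, ⊤)) (hf : X.basicOpen f = j.opensRange)
    (hc : (⊤ : X.Opens) ≤ i.opensRange ⊔ X.basicOpen f) (E : DerivedCategory X.Modules)
    (hE : ∀ x : X, ∃ V : X.Opens, x ∈ V ∧ LG E V) : thick (SO X) E := by
  have h1 : LG E i.opensRange := LG.of_affine i hE
  have h2 : LG E (X.basicOpen f) := by rw [hf]; exact LG.of_affine j hE
  have h3 : LG E ⊤ := by
    refine LG.patch f (isAffineOpen_opensRange i) le_top hc h1 ?_
    rwa [top_inf_eq]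
  exact h3.top

lemma exists_of_pa {X : Scheme.{0}} {E : DerivedCategory X.Modules} {x : X} (h : PA X x E) :
    ∃ V : X.Opens, x ∈ V ∧ ∃ F : CochainComplex V.toScheme.Modules ℤ,
      (∃ a b : ℤ, ∀ i, i < a ∨ b < i → IsZero (F.X i)) ∧
      (∀ i, ∃ I : Type, Finite I ∧ Nonempty (F.X i ≅ SheafOfModules.free I)) ∧
      Nonempty ((rD V.ι).obj E ≅ DerivedCategory.Q.obj F) := by
  obtain ⟨V, j, hj, v, rfl, n, b, hE⟩ := h
  have hι : j.opensRange.ι = j.isoOpensRange.inv ≫ j := by simp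
  obtain ⟨e⟩ := DP.comp_iso (rF j) (rF j.isoOpensRange.inv) (rF j.opensRange.ι)
    ((Scheme.Modules.restrictFunctorComp _ j).symm ≪≫
      Scheme.Modules.restrictFunctorCongr hι.symm) E
  obtain ⟨F, h1, h2, h3, ⟨e'⟩⟩ := (hE.restrict j.isoOpensRange.inv).iso e
  refine ⟨j.opensRange, ⟨v, rfl⟩, F, ⟨b - n, b, ?_⟩, ?_, ⟨e'⟩⟩
  · rintro i (hi | hi)
    · exact h3 i hi
    · exact h2 i hi
  · intro i
    obtain ⟨m, hm⟩ := h1 i
    exact hm.exists_free

end Pool.H29
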