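import Pool.Agent.H29.ResF

open CategoryTheory Limits TopologicalSpace AlgebraicGeometry Opposite Pretriangulated

universe w w' u

namespace Pool.H29

variable {X Y : Scheme.{u}} (f : Y ⟶ X) [IsOpenImmersion f]

lemma supp_rF_L (N : X.Opens) (M : X.Modules) : Supp (f ⁻¹ᵁ N) ((rF f).obj ((L N).obj M)) := by
  intro U s y hy hyN
  obtain ⟨W, hW, hxW, e⟩ := Lι_L_small (V := N) (M := M) (ofR f s) (f y) ⟨y, hy, rfl⟩ hyN
  have h2 : f ⁻¹ᵁ W ≤ U := by
    have := f.preimage_mono hW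
    rwa [f.preimage_image_eq] at this
  refine ⟨f ⁻¹ᵁ W, h2, hxW, ?_⟩
  change res _ (f.image_mono h2) (ofR f s) = 0
  rw [← res_res _ hW (f.image_preimage_le W), e, res_zero]

lemma small_toR {N : X.Opens} {M : X.Modules} {U : Y.Opens} {t : Γ((rF f).obj M, U)}
    (ht : Small (f ⁻¹ᵁ N) ((rF f).obj M) U t) : Small N M (f ''ᵁ U) (ofR f t) := by
  rintro x ⟨y, hy, rfl⟩ hxN
  obtain ⟨W, hW, hyW, e⟩ := ht y hy hxN
  exact ⟨f ''ᵁ W, f.image_mono hW, ⟨y, hyW, rfl⟩, e⟩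

/-- `j^* L_N ≅ L_{j⁻¹ N} j^*`. -/
noncomputable def rFL (N : X.Opens) : L N ⋙ rF f ≅ rF f ⋙ L (f ⁻¹ᵁ N) := by
  let a : ∀ M : X.Modules, (rF f).obj ((L N).obj M) ⟶ (L (f ⁻¹ᵁ N)).obj ((rF f).obj M) :=
    fun M => facL (f ⁻¹ᵁ N) ((rF f).map (lι N M)) (supp_rF_L f N M)
  have ha : ∀ M, a M ≫ lι (f ⁻¹ᵁ N) ((rF f).obj M) = (rF f).map (lι N M) := fun M =>
    facL_ι _ _ _
  have hiso : ∀ M, IsIso (a M) := by
    intro M
    refine isIso_of_app_bij _ fun U => ⟨?_, ?_⟩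
    · intro s t hst
      apply Lι_inj N M (f ''ᵁ U)
      have h1 := congrArg ((lι (f ⁻¹ᵁ N) ((rF f).obj M)).app U) hst
      rw [← comp_app', ← comp_app', ha] at h1
      exact h1
    · intro t
      obtain ⟨s, hs⟩ := Lι_exists (small_toR f (Lι_small t))
      refine ⟨toR f s, Lι_inj _ _ U ?_⟩
      rw [← comp_app', ha]
      exact hs
  exact NatIso.ofComponents (fun M => @asIso _ _ _ _ (a M) (hiso M)) (fun {M M'} φ => by
    simp only [asIso_hom, Functor.comp_map]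
    rw [← cancel_mono (lι (f ⁻¹ᵁ N) ((rF f).obj M'))]
    rw [Category.assoc, Category.assoc]
    erw [ha, lι_nat]
    rw [← Category.assoc]
    erw [ha]
    rw [← Functor.map_comp, ← Functor.map_comp, lι_nat])

variable [HasDerivedCategory.{w} X.Modules] [HasDerivedCategory.{w'} Y.Modules]

/-- Restriction on derived categories. -/
noncomputable abbrev rD : DerivedCategory X.Modules ⥤ DerivedCategory Y.Modules :=
  (rF f).mapDerivedCategory

/-- Extension by zero on derived categories. -/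
noncomputable abbrev eD : DerivedCategory Y.Modules ⥤ DerivedCategory X.Modules :=
  (eF f).mapDerivedCategory

lemma rD_LD (N : X.Opens) (P : DerivedCategory X.Modules) :
    Nonempty ((rD f).obj ((LD N).obj P) ≅ (LD (f ⁻¹ᵁ N)).obj ((rD f).obj P)) := by
  have : (L N ⋙ rF f).Additive := inferInstance
  have : PreservesFiniteLimits (L N ⋙ rF f) := inferInstance
  have : PreservesFiniteColimits (L N ⋙ rF f) := inferInstance
  obtain ⟨e1⟩ := DP.comp_iso (L N) (rF f) (L N ⋙ rF f) (Iso.refl _) P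
  obtain ⟨e2⟩ := DP.comp_iso (rF f) (L (f ⁻¹ᵁ N)) (L N ⋙ rF f) (rFL f N).symm P
  exact ⟨e1 ≪≫ e2.symm⟩

lemma eD_rD (P : DerivedCategory X.Modules) :
    Nonempty ((eD f).obj ((rD f).obj P) ≅ (LD f.opensRange).obj P) :=
  DP.comp_iso (rF f) (eF f) (L f.opensRange) (rFeF f) P

lemma rD_SO : Nonempty ((rD f).obj (SO X) ≅ SO Y) :=
  ⟨((rF f).mapDerivedCategorySingleFunctor 0).app (OX X) ≪≫
    (SX Y).mapIso (Scheme.Modules.restrictUnitIso f)⟩

lemma LG.restrict {E : DerivedCategory X.Modules} {N : X.Opens} (h : LG E N) :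
    LG ((rD f).obj E) (f ⁻¹ᵁ N) := by
  obtain ⟨e1⟩ := rD_LD f N (SO X)
  obtain ⟨e2⟩ := rD_LD f N E
  obtain ⟨e3⟩ := rD_SO f
  exact thick_iff_of_iso (e1 ≪≫ (LD (f ⁻¹ᵁ N)).mapIso e3) e2 (thick_map (rD f) h)

lemma LG.of_restrict {E : DerivedCategory X.Modules} (h : thick (SO Y) ((rD f).obj E)) :
    LG E f.opensRange := by
  obtain ⟨e1⟩ := eD_rD f (SO X)
  obtain ⟨e2⟩ := eD_rD f E
  obtain ⟨e3⟩ := rD_SO f
  exact thick_iff_of_iso ((eD f).mapIso e3.symm ≪≫ e1) e2 (thick_map (eD f) h)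

theorem LG.of_affine [IsAffine Y] {E : DerivedCategory X.Modules}
    (hE : ∀ x : X, ∃ V : X.Opens, x ∈ V ∧ LG E V) : LG E f.opensRange := by
  refine LG.of_restrict f (thick_of_affine _ fun y => ?_)
  obtain ⟨V, hV, h⟩ := hE (f y)
  exact ⟨f ⁻¹ᵁ V, hV, h.restrict f⟩

end Pool.H29
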