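import Pool.Agent.H29.LG

open CategoryTheory Limits TopologicalSpace AlgebraicGeometry Opposite Pretriangulated

universe w w' u

namespace Pool.H29

variable {X Y : Scheme.{u}} (f : Y ⟶ X) [IsOpenImmersion f]

/-- Restriction of modules along an open immersion. -/
noncomputable abbrev rF : X.Modules ⥤ Y.Modules := Scheme.Modules.restrictFunctor f

/-- Push-forward. -/
noncomputable abbrev pF : Y.Modules ⥤ X.Modules := Scheme.Modules.pushforward f

/-- A section of the restriction. -/
def toR {M : X.Modules} {U : Y.Opens} (s : Γ(M, f ''ᵁ U)) : Γ((rF f).obj M, U) := s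

/-- A section of the restriction, viewed as a section. -/
def ofR {M : X.Modules} {U : Y.Opens} (s : Γ((rF f).obj M, U)) : Γ(M, f ''ᵁ U) := s

lemma ofR_res {M : X.Modules} {U V : Y.Opens} (h : V ≤ U) (s : Γ((rF f).obj M, U)) :
    ofR f (res _ h s) = res M (f.image_mono h) (ofR f s) := rfl

lemma res_toR {M : X.Modules} {U V : Y.Opens} (h : V ≤ U) (s : Γ(M, f ''ᵁ U)) :
    res _ h (toR f s) = toR f (res M (f.image_mono h) s) := rfl

lemma rF_map_app {M N : X.Modules} (φ : M ⟶ N) {U : Y.Opens} (s : Γ((rF f).obj M, U)) :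
    ((rF f).map φ).app U s = toR f (φ.app _ (ofR f s)) := rfl

instance : (rF f).Additive where
  map_add := hom_ext' fun _ _ => rfl

lemma rF_shortExact {S : ShortComplex X.Modules} (hS : S.ShortExact) :
    (S.map (rF f)).ShortExact := by
  have := hS.mono_f
  have := hS.epi_g
  have hm : Mono ((rF f).map S.f) := mono_of_app_inj _ fun U s t h =>
    app_inj_of_mono S.f (f ''ᵁ U) h
  have he : Epi ((rF f).map S.g) := epi_of_locSurj _ fun U t x hx => by
    obtain ⟨V, hV, hxV, s, hs⟩ := locSurj_of_epi S.g (f ''ᵁ U) (ofR f t) (f x) ⟨x, hx, rfl⟩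
    have h1 : f ''ᵁ f ⁻¹ᵁ V ≤ V := f.image_preimage_le V
    have h2 : f ⁻¹ᵁ V ≤ U := by
      have := f.preimage_mono hV
      rwa [f.preimage_image_eq] at this
    refine ⟨f ⁻¹ᵁ V, h2, hxV, toR f (res _ h1 s), ?_⟩
    rw [rF_map_app]
    change S.g.app _ (res _ h1 s) = res S.X₃ (f.image_mono h2) (ofR f t)
    rw [app_res, hs, res_res]
  refine { exact := ?_, mono_f := hm, epi_g := he }
  rw [exact_iff_elem]
  intro U t ht x hx
  obtain ⟨s, hs⟩ := exists_section_of_exact hS.exact (f ''ᵁ U) (ofR f t) ht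
  exact ⟨U, le_rfl, hx, toR f s, by rw [res_self]; exact hs⟩

instance : PreservesFiniteLimits (rF f) :=
  (preserves_of_shortExact (rF f) (fun _ hS => rF_shortExact f hS)).1

instance : PreservesFiniteColimits (rF f) :=
  (preserves_of_shortExact (rF f) (fun _ hS => rF_shortExact f hS)).2

/-- Extension by zero. -/
noncomputable def eF : Y.Modules ⥤ X.Modules := pF f ⋙ L f.opensRange

/-- A section of the push-forward. -/
def toP {M : Y.Modules} {U : X.Opens} (s : Γ(M, f ⁻¹ᵁ U)) : Γ((pF f).obj M, U) := s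

/-- A section of the push-forward, viewed as a section. -/
def ofP {M : Y.Modules} {U : X.Opens} (s : Γ((pF f).obj M, U)) : Γ(M, f ⁻¹ᵁ U) := s

instance : (eF f).Additive := inferInstanceAs ((pF f ⋙ L f.opensRange).Additive)

lemma pF_mono {M N : Y.Modules} (φ : M ⟶ N) [Mono φ] : Mono ((pF f).map φ) :=
  mono_of_app_inj _ fun U _ _ h => app_inj_of_mono φ (f ⁻¹ᵁ U) h

lemma eF_shortExact {S : ShortComplex Y.Modules} (hS : S.ShortExact) :
    (S.map (eF f)).ShortExact := by
  have := hS.mono_f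
  have := hS.epi_g
  have := pF_mono f S.f
  have hm : Mono ((L f.opensRange).map ((pF f).map S.f)) := inferInstance
  have he : Epi ((L f.opensRange).map ((pF f).map S.g)) := epi_of_locSurj _ fun U t x hx => by
    by_cases hxV : x ∈ f.opensRange
    · obtain ⟨y, rfl⟩ := hxV
      obtain ⟨V, hV, hyV, s, hs⟩ := locSurj_of_epi S.g (f ⁻¹ᵁ U)
        (ofP f ((lι f.opensRange _).app U t)) y hx
      have h1 : f ''ᵁ V ≤ U := (f.image_mono hV).trans (f.image_preimage_le U)
      have h2 : f ''ᵁ V ≤ f.opensRange := f.image_le_opensRange V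
      have h3 : f ⁻¹ᵁ f ''ᵁ V ≤ V := (f.preimage_image_eq V).le
      refine ⟨f ''ᵁ V, h1, ⟨y, hyV, rfl⟩, toL _ h2 (toP f (res _ h3 s)), ?_⟩
      apply Lι_inj
      rw [L_map_app_ι, ι_toL, app_res]
      change S.g.app _ (res _ h3 s) =
        res S.X₃ (f.preimage_mono h1) (ofP f ((lι f.opensRange _).app U t))
      rw [app_res, hs, res_res]
    · obtain ⟨W, hW, hxW, e⟩ := Lι_L_small t x hx hxV
      exact ⟨W, hW, hxW, 0, by rw [map_zero, e]⟩
  refine { exact := ?_, mono_f := hm, epi_g := he }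
  rw [exact_iff_elem]
  intro U t ht x hx
  change ((L f.opensRange).map ((pF f).map S.g)).app U t = 0 at ht
  change ∃ (V : X.Opens) (h : V ≤ U), x ∈ V ∧ ∃ s : Γ((eF f).obj S.X₁, V),
      ((L f.opensRange).map ((pF f).map S.f)).app V s = res ((eF f).obj S.X₂) h t
  have ht' : S.g.app (f ⁻¹ᵁ U) (ofP f ((lι f.opensRange _).app U t)) = 0 := by
    have h1 := L_map_app_ι (V := f.opensRange) ((pF f).map S.g) U t
    rw [ht, map_zero] at h1
    exact h1.symm
  obtain ⟨s, hs⟩ := exists_section_of_exact hS.exact (f ⁻¹ᵁ U) _ ht'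
  have hsm : Small f.opensRange ((pF f).obj S.X₁) U (toP f s) := by
    refine Small.of_app ((pF f).map S.f) ?_
    have : ((pF f).map S.f).app U (toP f s) = (lι f.opensRange _).app U t := hs
    rw [this]
    exact Lι_small t
  obtain ⟨s', hs'⟩ := Lι_exists hsm
  refine ⟨U, le_rfl, hx, s', Lι_inj _ _ U ?_⟩
  rw [L_map_app_ι, hs', res_self]
  exact hs

instance : PreservesFiniteLimits (eF f) :=
  (preserves_of_shortExact (eF f) (fun _ hS => eF_shortExact f hS)).1

instance : PreservesFiniteColimits (eF f) :=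
  (preserves_of_shortExact (eF f) (fun _ hS => eF_shortExact f hS)).2

/-- `L_V φ` is an isomorphism if `φ` is one on `V`. -/
lemma isIso_L_map {V : X.Opens} {M N : X.Modules} (φ : M ⟶ N)
    (h : ∀ U : X.Opens, U ≤ V → Function.Bijective (φ.app U)) : IsIso ((L V).map φ) := by
  have hm : Mono ((L V).map φ) := mono_of_app_inj _ fun U => by
    rw [injective_iff_map_eq_zero]
    intro s hs
    apply Lι_inj V M U
    rw [map_zero]
    refine res_ext fun x hx => ?_
    by_cases hxV : x ∈ V
    · refine ⟨U ⊓ V, inf_le_left, ⟨hx, hxV⟩, (h (U ⊓ V) inf_le_right).1 ?_⟩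
      rw [app_res, ← L_map_app_ι, hs, map_zero, res_zero, res_zero, map_zero]
    · obtain ⟨W, hW, hxW, e⟩ := Lι_small s x hx hxV
      exact ⟨W, hW, hxW, by rw [e, res_zero]⟩
  have he : Epi ((L V).map φ) := epi_of_locSurj _ fun U t x hx => by
    by_cases hxV : x ∈ V
    · obtain ⟨m, hm⟩ := (h (U ⊓ V) inf_le_right).2 (res N inf_le_left ((lι V N).app U t))
      refine ⟨U ⊓ V, inf_le_left, ⟨hx, hxV⟩, toL V inf_le_right m, ?_⟩
      apply Lι_inj
      rw [L_map_app_ι, ι_toL, hm, app_res]
    · obtain ⟨W, hW, hxW, e⟩ := Lι_L_small t x hx hxV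
      exact ⟨W, hW, hxW, 0, by rw [map_zero, e]⟩
  exact isIso_of_mono_of_epi _

/-- `j^* ⋙ j_! ≅ L_V`. -/
noncomputable def rFeF : rF f ⋙ eF f ≅ L f.opensRange := by
  have h : ∀ M, IsIso ((L f.opensRange).map ((Scheme.Modules.restrictAdjunction f).unit.app M)) := by
    intro M
    refine isIso_L_map _ fun U hU => ?_
    have h1 : f ''ᵁ f ⁻¹ᵁ U = U := by
      rw [f.image_preimage_eq_opensRange_inf]
      exact inf_eq_right.2 hU
    rw [Scheme.Modules.restrictAdjunction_unit_app_app]
    have h2 : IsIso (homOfLE (f.image_preimage_le U)).op := by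
      have : homOfLE (f.image_preimage_le U) = eqToHom h1 := rfl
      rw [this]
      infer_instance
    have h3 : IsIso (M.presheaf.map (homOfLE (f.image_preimage_le U)).op) := inferInstance
    exact (ConcreteCategory.isIso_iff_bijective _).1 h3
  let α : L f.opensRange ⟶ rF f ⋙ eF f :=
    Functor.whiskerRight (Scheme.Modules.restrictAdjunction f).unit (L f.opensRange)
  have hα : ∀ M, IsIso (α.app M) := h
  have : IsIso α := NatIso.isIso_of_isIso_app α
  exact (asIso α).symm

end Pool.H29
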