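import Pool.Agent.H29.BQ

open CategoryTheory Limits AlgebraicGeometry ZeroObject TopologicalSpace Pretriangulated

universe w v u

namespace Pool.H29

variable {Y : Scheme.{u}}

lemma FF.hom_left {D : Type*} [Category D] [Preadditive D] {m : ℕ} {M : Y.Modules}
    (hM : FF Y m M) (G : Y.Modules ⥤ D) [G.Additive] {E : D}
    (h : ∀ ξ : G.obj (OX Y) ⟶ E, ξ = 0) (ξ : G.obj M ⟶ E) : ξ = 0 := by
  induction m generalizing M with
  | zero =>
    have h1 : 𝟙 (G.obj M) = 0 := by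
      rw [← G.map_id, (IsZero.iff_id_eq_zero M).1 hM, G.map_zero]
    rw [← Category.id_comp ξ, h1, zero_comp]
  | succ m ih =>
    obtain ⟨N, hN, ⟨e⟩⟩ := hM
    rw [← cancel_epi (G.map e.inv), comp_zero]
    have h1 : G.map (𝟙 (OX Y ⊞ N)) = G.map biprod.fst ≫ G.map biprod.inl +
        G.map biprod.snd ≫ G.map biprod.inr := by
      rw [← G.map_comp, ← G.map_comp, ← G.map_add, biprod.total]
    have h2 := h (G.map biprod.inl ≫ G.map e.inv ≫ ξ)
    have h3 := ih hN (G.map biprod.inr ≫ G.map e.inv ≫ ξ)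
    rw [← Category.id_comp (G.map e.inv ≫ ξ), ← G.map_id, h1, Preadditive.add_comp,
      Category.assoc, Category.assoc, h2, h3, comp_zero, comp_zero, add_zero]

lemma FF.hom_right {D : Type*} [Category D] [Preadditive D] {m : ℕ} {M : Y.Modules}
    (hM : FF Y m M) (G : Y.Modules ⥤ D) [G.Additive] {E : D}
    (h : ∀ ξ : E ⟶ G.obj (OX Y), ξ = 0) (ξ : E ⟶ G.obj M) : ξ = 0 := by
  induction m generalizing M with
  | zero =>
    have h1 : 𝟙 (G.obj M) = 0 := by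
      rw [← G.map_id, (IsZero.iff_id_eq_zero M).1 hM, G.map_zero]
    rw [← Category.comp_id ξ, h1, comp_zero]
  | succ m ih =>
    obtain ⟨N, hN, ⟨e⟩⟩ := hM
    rw [← cancel_mono (G.map e.hom), zero_comp]
    have h1 : G.map (𝟙 (OX Y ⊞ N)) = G.map biprod.fst ≫ G.map biprod.inl +
        G.map biprod.snd ≫ G.map biprod.inr := by
      rw [← G.map_comp, ← G.map_comp, ← G.map_add, biprod.total]
    have h2 := h ((ξ ≫ G.map e.hom) ≫ G.map biprod.fst)
    have h3 := ih hN ((ξ ≫ G.map e.hom) ≫ G.map biprod.snd)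
    rw [← Category.comp_id (ξ ≫ G.map e.hom), ← G.map_id, h1, Preadditive.comp_add,
      ← Category.assoc, ← Category.assoc (ξ ≫ G.map e.hom), h2, h3, zero_comp, zero_comp,
      add_zero]

variable [HasDerivedCategory.{w} Y.Modules]

lemma sd_hom_zero_unit [IsAffine Y] {b c : ℤ} (h : c < b)
    (ξ : (Sd Y.Modules b).obj (OX Y) ⟶ (Sd Y.Modules c).obj (OX Y)) : ξ = 0 := by
  let e1 : ((Sd Y.Modules b).obj (OX Y))⟦b⟧ ≅ (Sd Y.Modules 0).obj (OX Y) :=
    ((DerivedCategory.singleFunctors Y.Modules).shiftIso b 0 b (by simp)).app (OX Y)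
  let e2 : ((Sd Y.Modules c).obj (OX Y))⟦b⟧ ≅ (Sd Y.Modules (c - b)).obj (OX Y) :=
    ((DerivedCategory.singleFunctors Y.Modules).shiftIso b (c - b) c (by lia)).app (OX Y)
  obtain ⟨n, hn⟩ : ∃ n : ℕ, b - c = (n : ℤ) + 1 := ⟨(b - c - 1).toNat, by lia⟩
  let e3 : ((Sd Y.Modules 0).obj (OX Y))⟦(n : ℤ) + 1⟧ ≅ (Sd Y.Modules (c - b)).obj (OX Y) :=
    ((DerivedCategory.singleFunctors Y.Modules).shiftIso ((n : ℤ) + 1) (c - b) 0
      (by lia)).app (OX Y)
  have h1 := hvan_affine n ⊤ (isAffineOpen_top Y) (OX Y) (toO 1) freeOn_top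
    (e1.inv ≫ ξ⟦b⟧' ≫ e2.hom ≫ e3.inv)
  have h2 : ξ⟦b⟧' = 0 := by
    rw [← cancel_epi e1.inv, ← cancel_mono (e2.hom ≫ e3.inv), Category.assoc, h1]
    simp
  exact (shiftFunctor (DerivedCategory Y.Modules) b).map_injective (by rw [h2, Functor.map_zero])

lemma sd_hom_zero [IsAffine Y] {m k : ℕ} {M N : Y.Modules} (hM : FF Y m M) (hN : FF Y k N)
    {b c : ℤ} (h : c < b) (ξ : (Sd Y.Modules b).obj M ⟶ (Sd Y.Modules c).obj N) : ξ = 0 :=
  hM.hom_left (Sd Y.Modules b) (fun ξ => hN.hom_right (Sd Y.Modules c)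
    (fun ξ => sd_hom_zero_unit h ξ) ξ) ξ

lemma sd_bq_zero [IsAffine Y] {m : ℕ} {M : Y.Modules} (hM : FF Y m M) (n : ℕ) :
    ∀ {b c : ℤ} (_ : c < b) {E : DerivedCategory Y.Modules} (_ : BQ Y n c E)
      (ξ : (Sd Y.Modules b).obj M ⟶ E), ξ = 0 := by
  induction n with
  | zero =>
    intro b c h E hE ξ
    obtain ⟨k, N, hN, ⟨e⟩⟩ := hE.exists_single
    rw [← cancel_mono e.hom, zero_comp]
    exact sd_hom_zero hM hN h _
  | succ n ih =>
    intro b c h E hE ξ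
    obtain ⟨k, N, E', f, g, δ, hN, hE', hT⟩ := hE.exists_triangle
    have h1 : ξ ≫ g = 0 := ih (by lia) hE' _
    obtain ⟨η, hη⟩ := Triangle.coyoneda_exact₂ _ hT ξ h1
    have h2 : η = 0 := sd_hom_zero hM hN h η
    rw [hη, h2]
    exact zero_comp

/-- The reduction step: passing to direct summands. -/
theorem pr_of_retract [IsAffine Y] {Pr : DerivedCategory Y.Modules → Prop}
    (ext : ∀ T ∈ distTriang (DerivedCategory Y.Modules), Pr T.obj₁ → Pr T.obj₃ → Pr T.obj₂)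
    (hP : ∀ (m : ℕ) (M : Y.Modules) (b : ℤ) (E : DerivedCategory Y.Modules) (_ : FF Y m M)
      (_ : Retract E ((Sd Y.Modules b).obj M)), Pr E) (n : ℕ) :
    ∀ (b : ℤ) (G : DerivedCategory Y.Modules) (_ : BQ Y n b G) (E : DerivedCategory Y.Modules)
      (_ : Retract E G), Pr E := by
  induction n with
  | zero =>
    intro b G hG E r
    obtain ⟨m, M, hM, ⟨e⟩⟩ := hG.exists_single
    exact hP m M b E hM (r.trans (Retract.ofIso e))
  | succ n ih =>
    intro b G hG E r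
    obtain ⟨m, M, G', ι, π, δ, hM, hG', hT₀⟩ := hG.exists_triangle
    obtain ⟨C, v, w, hT₁⟩ := distinguished_cocone_triangle (ι ≫ r.r)
    have h0 : ((ι ≫ r.r) ≫ r.i) ≫ π = 0 := sd_bq_zero hM n (by lia) hG' _
    obtain ⟨ε, hε⟩ := Triangle.coyoneda_exact₂ _ hT₀ _ h0
    obtain ⟨c, hc1, hc2⟩ : ∃ c : C ⟶ G', v ≫ c = r.i ≫ π ∧ w ≫ ε⟦1⟧' = c ≫ δ := complete_distinguished_triangle_morphism _ _ hT₁ hT₀ ε r.i hε
    obtain ⟨d, hd1, hd2⟩ : ∃ d : G' ⟶ C, π ≫ d = r.r ≫ v ∧ δ ≫ (𝟙 _)⟦1⟧' = d ≫ w := complete_distinguished_triangle_morphism _ _ hT₀ hT₁ (𝟙 _) r.r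
      (Category.id_comp _).symm
    have h1 : v ≫ (𝟙 C - c ≫ d) = 0 := by
      rw [Preadditive.comp_sub, Category.comp_id, ← Category.assoc, hc1, Category.assoc, hd1,
        ← Category.assoc, r.retract, Category.id_comp, sub_self]
    obtain ⟨x, hx⟩ : ∃ x : ((Sd Y.Modules b).obj M)⟦(1 : ℤ)⟧ ⟶ C, 𝟙 C - c ≫ d = w ≫ x :=
      Triangle.yoneda_exact₃ _ hT₁ _ h1
    have h2 : BQ Y n (b - 1) ((((Sd Y.Modules b).obj M)⟦(1 : ℤ)⟧) ⊞ G') :=
      (((bq_single hM (b - 1)).mono le_rfl (by push_cast; lia)).iso (SdShift M b).symm).biprod hG'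
    have h3 : Pr C := ih (b - 1) _ h2 C ⟨biprod.lift w c, biprod.desc x d, by
      rw [biprod.lift_desc, ← hx]
      abel⟩
    exact ext _ hT₁ (hP m M b _ hM (Retract.refl _)) h3

end Pool.H29
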