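import Mathlib

open CategoryTheory Limits TopologicalSpace AlgebraicGeometry Opposite

universe u

namespace Pool.H29

variable {X : Scheme.{u}}

/-- Restriction of a section of a sheaf of modules. -/
noncomputable def res (M : X.Modules) {U V : X.Opens} (h : V ≤ U) (s : Γ(M, U)) : Γ(M, V) :=
  M.presheaf.map (homOfLE h).op s

section
variable (M N : X.Modules) {U V W : X.Opens}

lemma res_def (h : V ≤ U) (s : Γ(M, U)) : res M h s = M.presheaf.map (homOfLE h).op s := rfl

lemma res_res (h : V ≤ U) (h' : W ≤ V) (s : Γ(M, U)) :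
    res M h' (res M h s) = res M (h'.trans h) s := by
  simp only [res_def]
  rw [← ConcreteCategory.comp_apply, ← M.presheaf.map_comp]
  rfl

lemma res_self (h : U ≤ U) (s : Γ(M, U)) : res M h s = s := by
  simp only [res_def]
  have : (homOfLE h).op = 𝟙 (op U) := rfl
  rw [this, M.presheaf.map_id]; rfl

lemma res_add (h : V ≤ U) (s t : Γ(M, U)) : res M h (s + t) = res M h s + res M h t := by
  simp [res_def]

lemma res_sub (h : V ≤ U) (s t : Γ(M, U)) : res M h (s - t) = res M h s - res M h t := by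
  simp [res_def]

lemma res_zero (h : V ≤ U) : res M h (0 : Γ(M, U)) = 0 := by
  simp [res_def]

lemma res_neg (h : V ≤ U) (s : Γ(M, U)) : res M h (-s) = - res M h s := by
  simp [res_def]

lemma res_smul (h : V ≤ U) (r : Γ(X, U)) (s : Γ(M, U)) :
    res M h (r • s) = X.presheaf.map (homOfLE h).op r • res M h s := by
  simp only [res_def]
  exact Scheme.Modules.map_smul M (homOfLE h) r s

variable {M N}

lemma app_res (φ : M ⟶ N) (h : V ≤ U) (s : Γ(M, U)) :
    φ.app V (res M h s) = res N h (φ.app U s) := by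
  have := φ.mapPresheaf.naturality (homOfLE h).op
  exact congr($this s)

lemma res_ext {s t : Γ(M, U)} (H : ∀ x ∈ U, ∃ (V : X.Opens) (h : V ≤ U), x ∈ V ∧
    res M h s = res M h t) : s = t := by
  choose V h hx e using H
  have hM := M.isSheaf
  let F : TopCat.Sheaf Ab X := ⟨M.presheaf, hM⟩
  refine TopCat.Sheaf.eq_of_locally_eq' F (fun x : U => V x.1 x.2) U
    (fun x => homOfLE (h x.1 x.2)) ?_ s t ?_
  · intro x hxU
    exact Opens.mem_iSup.mpr ⟨⟨x, hxU⟩, hx x hxU⟩
  · intro x
    exact e x.1 x.2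

lemma res_glue {ι : Type u} (V : ι → X.Opens) (U : X.Opens) (hV : ∀ i, V i ≤ U)
    (hU : U ≤ iSup V) (s : ∀ i, Γ(M, V i))
    (hs : ∀ i j, res M (inf_le_left : V i ⊓ V j ≤ V i) (s i) =
      res M (inf_le_right : V i ⊓ V j ≤ V j) (s j)) :
    ∃ t : Γ(M, U), ∀ i, res M (hV i) t = s i := by
  have hM := M.isSheaf
  let F : TopCat.Sheaf Ab X := ⟨M.presheaf, hM⟩
  obtain ⟨t, ht, -⟩ := TopCat.Sheaf.existsUnique_gluing' F V U (fun i => homOfLE (hV i)) hU s
    (fun i j => hs i j)
  exact ⟨t, ht⟩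

/-- Constructor for morphisms of sheaves of modules from maps on sections. -/
noncomputable def mkHom (f : ∀ U : X.Opens, Γ(M, U) → Γ(N, U))
    (hadd : ∀ U s t, f U (s + t) = f U s + f U t)
    (hsmul : ∀ U (r : Γ(X, U)) (s : Γ(M, U)), f U (r • s) = r • f U s)
    (hres : ∀ (U V : X.Opens) (h : V ≤ U) (s : Γ(M, U)), f V (res M h s) = res N h (f U s)) :
    M ⟶ N :=
  ⟨PresheafOfModules.homMk
    { app := fun U => AddCommGrpCat.ofHom (AddMonoidHom.mk' (f U.unop) (hadd U.unop))
      naturality := fun U V i => by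
        ext s
        exact hres U.unop V.unop (leOfHom i.unop) s }
    (fun U r s => hsmul U.unop r s)⟩

@[simp]
lemma mkHom_app (f : ∀ U : X.Opens, Γ(M, U) → Γ(N, U)) (hadd hsmul hres) (U : X.Opens)
    (s : Γ(M, U)) : (mkHom (M := M) (N := N) f hadd hsmul hres).app U s = f U s := rfl

lemma hom_ext' {f g : M ⟶ N} (H : ∀ (U : X.Opens) (s : Γ(M, U)), f.app U s = g.app U s) :
    f = g := by
  apply Scheme.Modules.hom_ext
  intro U
  ext s
  exact H U s

lemma comp_app' {K : X.Modules} (f : M ⟶ N) (g : N ⟶ K) (U : X.Opens) (s : Γ(M, U)) :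
    (f ≫ g).app U s = g.app U (f.app U s) := rfl

lemma zero_app' (U : X.Opens) (s : Γ(M, U)) : (0 : M ⟶ N).app U s = 0 := rfl

lemma app_inj_of_mono (f : M ⟶ N) [Mono f] (U : X.Opens) : Function.Injective (f.app U) := by
  have : Mono ((Scheme.Modules.toPresheaf X).map f) := inferInstance
  have h2 : Mono (((Scheme.Modules.toPresheaf X).map f).app (op U)) := inferInstance
  exact (AddCommGrpCat.mono_iff_injective _).mp h2

lemma mono_of_app_inj (f : M ⟶ N) (h : ∀ U, Function.Injective (f.app U)) : Mono f := by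
  constructor
  intro Z g g' e
  refine hom_ext' fun U s => h U ?_
  rw [← comp_app', e, comp_app']

lemma isIso_of_app_bij (f : M ⟶ N) (h : ∀ U, Function.Bijective (f.app U)) : IsIso f := by
  rw [Scheme.Modules.Hom.isIso_iff_isIso_app]
  intro U
  rw [ConcreteCategory.isIso_iff_bijective]
  exact h U

/-- Local surjectivity. -/
def LocSurj (f : M ⟶ N) : Prop :=
  ∀ (U : X.Opens) (t : Γ(N, U)) (x : X), x ∈ U →
    ∃ (V : X.Opens) (h : V ≤ U), x ∈ V ∧ ∃ s : Γ(M, V), f.app V s = res N h t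

end

end Pool.H29
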