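import Mathlib

open CategoryTheory Limits TopologicalSpace AlgebraicGeometry Opposite

universe u

namespace Pool.H29

lemma appTop_comp_apply {X Y Z : Scheme.{u}} (f : X ⟶ Y) (g : Y ⟶ Z) (r : Γ(Z, ⊤)) :
    (f ≫ g).appTop r = f.appTop (g.appTop r) := by
  rw [Scheme.Hom.comp_appTop]
  rfl

lemma appTop_injective_of_isIso {X Y : Scheme.{u}} (f : X ⟶ Y) [IsIso f] :
    Function.Injective (f.appTop) := by
  have : IsIso f.appTop := inferInstanceAs (IsIso (f.app ⊤))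
  exact ((ConcreteCategory.isIso_iff_bijective f.appTop).1 this).1

lemma isClosedImmersion_aux {P₀ P₁ X₁ X₂ Z : Scheme.{u}} [IsAffine P₁] [IsAffine Z]
    (k : P₀ ⟶ P₁) (c : P₁ ⟶ X₁) (d : P₁ ⟶ X₂) (e : Z ≅ P₀) (a : Z ⟶ X₁) (b : Z ⟶ X₂)
    (ha : e.hom ≫ k ≫ c = a) (hb : e.hom ≫ k ≫ d = b)
    (hz : ∀ z : Γ(Z, ⊤), ∃ (p : Γ(X₁, ⊤)) (q : Γ(X₂, ⊤)), z = a.appTop p * b.appTop q) :
    IsClosedImmersion k := by
  have : IsAffine P₀ := .of_isIso e.inv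
  apply IsClosedImmersion.of_surjective_of_isAffine
  intro z₀
  obtain ⟨p, q, hpq⟩ := hz (e.hom.appTop z₀)
  refine ⟨c.appTop p * d.appTop q, ?_⟩
  apply appTop_injective_of_isIso e.hom
  rw [hpq, map_mul, map_mul, ← ha, ← hb]
  simp only [appTop_comp_apply]

/-- A criterion for separatedness of a scheme covered by affine schemes. -/
theorem isSeparated_of_cover {X : Scheme.{u}} (𝒰 : X.OpenCover) [∀ i, IsAffine (𝒰.X i)]
    (h : ∀ i j, ∃ (Z : Scheme.{u}) (_ : IsAffine Z) (a : Z ⟶ 𝒰.X i) (b : Z ⟶ 𝒰.X j)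
      (_ : IsPullback a b (𝒰.f i) (𝒰.f j)),
      ∀ z : Γ(Z, ⊤), ∃ (p : Γ(𝒰.X i, ⊤)) (q : Γ(𝒰.X j, ⊤)), z = a.appTop p * b.appTop q) :
    X.IsSeparated := by
  refine ⟨⟨IsZariskiLocalAtTarget.of_openCover (Scheme.Pullback.openCoverOfLeftRight 𝒰 𝒰 _ _) ?_⟩⟩
  intro ⟨i, j⟩
  dsimp [Scheme.Cover.pullbackHom]
  refine (MorphismProperty.cancel_left_of_respectsIso (P := @IsClosedImmersion)
    (f := (pullbackDiagonalMapIdIso ..).inv) _).mp ?_
  obtain ⟨Z, hZ, a, b, hpb, hz⟩ := h i j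
  have hP : IsAffine (pullback (𝒰.f i ≫ terminal.from X) (𝒰.f j ≫ terminal.from X)) :=
    inferInstance
  refine @isClosedImmersion_aux _ _ _ _ Z hP hZ _
    (pullback.fst (𝒰.f i ≫ terminal.from X) (𝒰.f j ≫ terminal.from X))
    (pullback.snd (𝒰.f i ≫ terminal.from X) (𝒰.f j ≫ terminal.from X)) hpb.isoPullback a b ?_ ?_ hz
  · refine Eq.trans ?_ hpb.isoPullback_hom_fst
    congr 1
    exact (Category.assoc _ _ _).trans (pullbackDiagonalMapIdIso_inv_snd_fst _ _ _)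
  · refine Eq.trans ?_ hpb.isoPullback_hom_snd
    congr 1
    exact (Category.assoc _ _ _).trans (pullbackDiagonalMapIdIso_inv_snd_snd _ _ _)

end Pool.H29
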