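import Pool.Agent.H29.Thick

open CategoryTheory Limits Pretriangulated ZeroObject

namespace Pool.H29

universe v u

variable {D : Type u} [Category.{v} D] [HasZeroObject D] [HasShift D ℤ] [Preadditive D]
  [∀ n : ℤ, (shiftFunctor D n).Additive] [Pretriangulated D] [IsTriangulated D]

section quotient

variable {E : Type*} [Category E] [HasZeroObject E] [HasShift E ℤ] [Preadditive E]
  [∀ n : ℤ, (shiftFunctor E n).Additive] [Pretriangulated E]
  (q : D ⥤ E) [q.CommShift ℤ] [q.IsTriangulated]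
  {k : Type*} [CommRing k] [Linear k D] [∀ n : ℤ, (shiftFunctor D n).Linear k]

/-- `f` is invertible on `q A`. -/
def FInv (f : k) (A : D) : Prop := IsIso (q.map (f • 𝟙 A))

omit [IsTriangulated D] in
lemma finv_isThick (f : k) : IsThick (FInv q f) where
  zero X hX := by
    have h : IsZero (q.obj X) := q.map_isZero hX
    have : q.map (f • 𝟙 X) = (h.iso h).hom := h.eq_of_src _ _
    rw [FInv, this]
    infer_instance
  shift X n hX := by
    have h1 : IsIso (q.map (f • 𝟙 X)) := hX
    have h2 : IsIso ((q.map (f • 𝟙 X))⟦n⟧') := inferInstance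
    have h3 := (q.commShiftIso n).hom.naturality (f • 𝟙 X)
    simp only [Functor.comp_map] at h3
    have h4 : (shiftFunctor D n).map (f • 𝟙 X) = f • 𝟙 (X⟦n⟧) := by
      rw [Functor.map_smul, CategoryTheory.Functor.map_id]
    rw [h4] at h3
    have h5 : q.map (f • 𝟙 (X⟦n⟧)) =
        (q.commShiftIso n).hom.app X ≫ (q.map (f • 𝟙 X))⟦n⟧' ≫
          (q.commShiftIso n).inv.app X := by
      rw [← Category.assoc, ← h3, Category.assoc, Iso.hom_inv_id_app, Category.comp_id]
    rw [FInv, h5]
    infer_instance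
  ext₂ T hT h1 h3 := by
    have h1' : IsIso (q.map (f • 𝟙 T.obj₁)) := h1
    have h3' : IsIso (q.map (f • 𝟙 T.obj₃)) := h3
    let φ : T ⟶ T :=
      { hom₁ := f • 𝟙 _
        hom₂ := f • 𝟙 _
        hom₃ := f • 𝟙 _
        comm₁ := by rw [Linear.comp_smul, Linear.smul_comp, Category.comp_id, Category.id_comp]
        comm₂ := by rw [Linear.comp_smul, Linear.smul_comp, Category.comp_id, Category.id_comp]
        comm₃ := by
          rw [Functor.map_smul, CategoryTheory.Functor.map_id, Linear.comp_smul,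
            Linear.smul_comp, Category.comp_id, Category.id_comp] }
    exact isIso₂_of_isIso₁₃ (q.mapTriangle.map φ) (q.map_distinguished T hT)
      (q.map_distinguished T hT) h1' h3'
  retract X Y e hY := by
    obtain ⟨e⟩ := e
    have h1 : IsIso (q.map (f • 𝟙 Y)) := hY
    let r : RetractArrow (q.map (f • 𝟙 X)) (q.map (f • 𝟙 Y)) :=
      { i := Arrow.homMk (q.map e.i) (q.map e.i) (by
          change q.map e.i ≫ q.map (f • 𝟙 Y) = q.map (f • 𝟙 X) ≫ q.map e.i
          rw [← q.map_comp, ← q.map_comp, Linear.comp_smul, Linear.smul_comp, Category.comp_id,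
            Category.id_comp])
        r := Arrow.homMk (q.map e.r) (q.map e.r) (by
          change q.map e.r ≫ q.map (f • 𝟙 X) = q.map (f • 𝟙 Y) ≫ q.map e.r
          rw [← q.map_comp, ← q.map_comp, Linear.comp_smul, Linear.smul_comp, Category.comp_id,
            Category.id_comp])
        retract := by
          ext
          · change q.map e.i ≫ q.map e.r = 𝟙 _
            rw [← q.map_comp, e.retract, CategoryTheory.Functor.map_id]
          · change q.map e.i ≫ q.map e.r = 𝟙 _
            rw [← q.map_comp, e.retract, CategoryTheory.Functor.map_id] }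
    exact (MorphismProperty.isomorphisms E).of_retract r h1

/-- All morphisms `q A ⟶ q Q` with `Q` in the class `𝒰` vanish. -/
def Orth (U : D → Prop) (A : D) : Prop := ∀ Q, U Q → ∀ g : q.obj A ⟶ q.obj Q, g = 0

omit [IsTriangulated D] in
lemma orth_isThick {U : D → Prop} (hU : IsThick U) : IsThick (Orth q U) where
  zero X hX Q _ g := (q.map_isZero hX).eq_of_src _ _
  shift X n hX Q hQ g := by
    let e1 : q.obj X ≅ (q.obj (X⟦n⟧))⟦-n⟧ :=
      ((shiftFunctorCompIsoId E n (-n) (by simp)).app (q.obj X)).symm ≪≫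
        (shiftFunctor E (-n)).mapIso ((q.commShiftIso n).app X).symm
    let e2 : (q.obj Q)⟦-n⟧ ≅ q.obj (Q⟦-n⟧) := ((q.commShiftIso (-n)).app Q).symm
    have h0 := hX (Q⟦-n⟧) (hU.shift Q (-n) hQ) (e1.hom ≫ g⟦-n⟧' ≫ e2.hom)
    have h1 := (Preadditive.IsIso.comp_left_eq_zero e1.hom _).1 h0
    have h2 := (Preadditive.IsIso.comp_right_eq_zero _ e2.hom).1 h1
    exact (shiftFunctor E (-n)).map_injective (by rw [h2, Functor.map_zero])
  ext₂ T hT h1 h3 Q hQ g := by
    obtain ⟨η, hη⟩ := Triangle.yoneda_exact₂ _ (q.map_distinguished T hT) g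
      (h1 Q hQ (q.map T.mor₁ ≫ g))
    have h0 : η = 0 := h3 Q hQ η
    rw [hη, h0]
    exact comp_zero
  retract X Y e hY Q hQ g := by
    obtain ⟨e⟩ := e
    have h := hY Q hQ (q.map e.r ≫ g)
    have h2 : g = q.map e.i ≫ q.map e.r ≫ g := by
      rw [← Category.assoc, ← q.map_comp, e.retract, CategoryTheory.Functor.map_id,
        Category.id_comp]
    rw [h2, h, comp_zero]

end quotient

/-- A localization-type decomposition `L P ⟶ P ⟶ R P ⟶` of a triangulated category. -/
structure Loc (D : Type u) [Category.{v} D] [HasZeroObject D] [HasShift D ℤ] [Preadditive D]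
    [∀ n : ℤ, (shiftFunctor D n).Additive] [Pretriangulated D] where
  L : D ⥤ D
  R : D ⥤ D
  cL : L.CommShift ℤ
  cR : R.CommShift ℤ
  tL : L.IsTriangulated
  tR : R.IsTriangulated
  ι : L ⟶ 𝟭 D
  π : 𝟭 D ⟶ R
  tri : ∀ P, ∃ δ : R.obj P ⟶ (L.obj P)⟦(1 : ℤ)⟧, Triangle.mk (ι.app P) (π.app P) δ ∈ distTriang D
  RL : ∀ P, IsZero (R.obj (L.obj P))
  LR : ∀ P, IsZero (L.obj (R.obj P))

attribute [instance] Loc.cL Loc.cR Loc.tL Loc.tR

namespace Loc

variable (V : Loc D)

omit [IsTriangulated D] in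
lemma isIso_ι {P : D} (h : IsZero (V.R.obj P)) : IsIso (V.ι.app P) := by
  obtain ⟨δ, hδ⟩ := V.tri P
  exact (Triangle.isZero₃_iff_isIso₁ _ hδ).1 h

omit [IsTriangulated D] in
lemma isIso_π {P : D} (h : IsZero (V.L.obj P)) : IsIso (V.π.app P) := by
  obtain ⟨δ, hδ⟩ := V.tri P
  exact (Triangle.isZero₁_iff_isIso₂ _ hδ).1 h

omit [IsTriangulated D] in
lemma hom_eq_zero {A B : D} (hA : IsZero (V.R.obj A)) (hB : IsZero (V.L.obj B)) (g : A ⟶ B) :
    g = 0 := by
  have h1 := V.isIso_π hB
  have h2 := V.π.naturality g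
  simp only [Functor.id_map] at h2
  rw [hA.eq_of_src (V.R.map g) 0, comp_zero] at h2
  exact (Preadditive.IsIso.comp_right_eq_zero g (V.π.app B)).1 h2

omit [IsTriangulated D] in
lemma tors_zero {k : Type*} [CommRing k] [Linear k D] {f : k}
    {A B : D} (hA : IsZero (V.R.obj A)) (hB : IsZero (V.L.obj B)) : Tors f A B := by
  intro m n ξ
  refine ⟨0, ?_⟩
  rw [V.hom_eq_zero ((isThick_isZero.comap V.R).shift A m hA)
    ((isThick_isZero.comap V.L).shift B n hB) ξ, smul_zero]

end Loc

end Pool.H29
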