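import Pool.Agent.H29.LR

open CategoryTheory Limits TopologicalSpace AlgebraicGeometry Opposite

universe u

namespace Pool.H29

variable {X : Scheme.{u}}

lemma isZero_iff_sections (M : X.Modules) : IsZero M ↔ ∀ (U : X.Opens) (s : Γ(M, U)), s = 0 := by
  rw [IsZero.iff_id_eq_zero]
  constructor
  · intro h U s
    have := congrArg (fun φ : M ⟶ M => φ.app U s) h
    exact this
  · intro h
    exact hom_ext' fun U s => h U s

/-- `M` is supported in `V` (in the strong sense that sections vanish near points outside). -/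
def Supp (V : X.Opens) (M : X.Modules) : Prop := ∀ (U : X.Opens) (s : Γ(M, U)), Small V M U s

/-- `M` vanishes on `V`. -/
def Van (V : X.Opens) (M : X.Modules) : Prop :=
  ∀ (U : X.Opens) (_ : U ≤ V) (s : Γ(M, U)), s = 0

lemma supp_iff_isZero_R (V : X.Opens) (M : X.Modules) : Supp V M ↔ IsZero ((R V).obj M) := by
  rw [isZero_iff_sections]
  constructor
  · intro h U t
    refine res_ext fun x hx => ?_
    obtain ⟨W, h', hW, s, hs⟩ := Rπ_exists t x hx
    refine ⟨W, h', hW, ?_⟩
    rw [res_zero, ← hs, Rπ_eq_zero_iff]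
    exact h W s
  · intro h U s
    rw [← Rπ_eq_zero_iff]
    exact h U _

lemma van_iff_isZero_L (V : X.Opens) (M : X.Modules) : Van V M ↔ IsZero ((L V).obj M) := by
  rw [isZero_iff_sections]
  constructor
  · intro h U t
    apply Lι_inj V M U
    rw [map_zero]
    refine res_ext fun x hx => ?_
    by_cases hxV : x ∈ V
    · refine ⟨U ⊓ V, inf_le_left, ⟨hx, hxV⟩, ?_⟩
      rw [res_zero]
      exact h _ inf_le_right _
    · obtain ⟨W, h', hW, e⟩ := Lι_small t x hx hxV
      exact ⟨W, h', hW, by rw [e, res_zero]⟩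
  · intro h U hU s
    obtain ⟨t, rfl⟩ := Lι_exists (V := V) (M := M) (t := s) (Small.of_le hU)
    rw [h U t, map_zero]

lemma isIso_Lι_of_supp {V : X.Opens} {M : X.Modules} (h : Supp V M) : IsIso (lι V M) :=
  (Lsub V M).isIso_ι h

lemma isIso_Lι_iff (V : X.Opens) (M : X.Modules) : IsIso (lι V M) ↔ Supp V M := by
  constructor
  · intro h U s
    have hb : Function.Bijective ((lι V M).app U) := by
      rw [← ConcreteCategory.isIso_iff_bijective]
      infer_instance
    obtain ⟨t, rfl⟩ := hb.2 s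
    exact Lι_small t
  · exact isIso_Lι_of_supp

lemma supp_L (V : X.Opens) (M : X.Modules) : Supp V ((L V).obj M) := fun _ s => Lι_L_small s

lemma van_R (V : X.Opens) (M : X.Modules) : Van V ((R V).obj M) := by
  intro U hU t
  refine res_ext fun x hx => ?_
  obtain ⟨W, h', hW, s, hs⟩ := Rπ_exists t x hx
  refine ⟨W, h', hW, ?_⟩
  rw [res_zero, ← hs, Rπ_eq_zero_iff]
  exact Small.of_le (h'.trans hU)

lemma Supp.mono_open {V V' : X.Opens} {M : X.Modules} (h : Supp V M) (hV : V ≤ V') : Supp V' M :=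
  fun U s x hx hxV => h U s x hx (fun h => hxV (hV h))

lemma Van.mono_open {V V' : X.Opens} {M : X.Modules} (h : Van V M) (hV : V' ≤ V) : Van V' M :=
  fun U hU s => h U (hU.trans hV) s

lemma Supp.L {V : X.Opens} {M : X.Modules} (h : Supp V M) (W : X.Opens) :
    Supp V ((L W).obj M) :=
  fun U s => Small.of_app (lι W M) (h U _)

lemma Van.L {V : X.Opens} {M : X.Modules} (h : Van V M) (W : X.Opens) :
    Van V ((L W).obj M) :=
  fun U hU s => Lι_inj W M U (by rw [map_zero]; exact h U hU _)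

lemma Supp.R {V : X.Opens} {M : X.Modules} (h : Supp V M) (W : X.Opens) :
    Supp V ((R W).obj M) := by
  intro U t x hx hxV
  obtain ⟨W', h', hW', s, hs⟩ := Rπ_exists t x hx
  obtain ⟨W'', h'', hW'', e⟩ := h W' s x hW' hxV
  refine ⟨W'', h''.trans h', hW'', ?_⟩
  rw [← res_res _ h' h'', ← hs, ← app_res, e, map_zero]

lemma Van.R {V : X.Opens} {M : X.Modules} (h : Van V M) (W : X.Opens) :
    Van V ((R W).obj M) := by
  intro U hU t
  refine res_ext fun x hx => ?_
  obtain ⟨W', h', hW', s, hs⟩ := Rπ_exists t x hx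
  refine ⟨W', h', hW', ?_⟩
  rw [res_zero, ← hs, h W' (h'.trans hU) s, map_zero]

lemma supp_of_van {Y U W : X.Opens} {M : X.Modules} (hY : Supp Y M) (hU : Van U M)
    (hYUW : Y ≤ U ⊔ W) : Supp W M := by
  intro U' s x hx hxW
  by_cases hxU : x ∈ U
  · exact ⟨U' ⊓ U, inf_le_left, ⟨hx, hxU⟩, hU _ inf_le_right _⟩
  · refine hY U' s x hx (fun h => ?_)
    rcases hYUW h with h | h
    · exact hxU h
    · exact hxW h

section linear

/-- Restriction of a global function. -/
noncomputable def rg (U : X.Opens) : Γ(X, ⊤) →+* Γ(X, U) :=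
  (X.presheaf.map (homOfLE (le_top : U ≤ ⊤)).op).hom

lemma rg_map {U V : X.Opens} (h : V ≤ U) (r : Γ(X, ⊤)) :
    X.presheaf.map (homOfLE h).op (rg U r) = rg V r := by
  change (X.presheaf.map (homOfLE le_top).op ≫ X.presheaf.map (homOfLE h).op) r = _
  rw [← X.presheaf.map_comp]
  rfl

lemma res_rg_smul (M : X.Modules) {U V : X.Opens} (h : V ≤ U) (r : Γ(X, ⊤)) (s : Γ(M, U)) :
    res M h (rg U r • s) = rg V r • res M h s := by
  rw [res_smul, rg_map]

/-- Scalar multiplication on morphisms. -/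
noncomputable def smulHom {M N : X.Modules} (r : Γ(X, ⊤)) (φ : M ⟶ N) : M ⟶ N :=
  mkHom (fun U s => rg U r • φ.app U s)
    (fun U s t => by rw [map_add, smul_add])
    (fun U a s => by rw [Scheme.Modules.Hom.app_smul, smul_comm])
    (fun U V h s => by rw [app_res, res_rg_smul])

noncomputable instance (M N : X.Modules) : SMul Γ(X, ⊤) (M ⟶ N) := ⟨smulHom⟩

lemma smul_app {M N : X.Modules} (r : Γ(X, ⊤)) (φ : M ⟶ N) (U : X.Opens) (s : Γ(M, U)) :
    (r • φ).app U s = rg U r • φ.app U s := rfl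

lemma add_app' {M N : X.Modules} (φ ψ : M ⟶ N) (U : X.Opens) (s : Γ(M, U)) :
    (φ + ψ).app U s = φ.app U s + ψ.app U s := rfl

noncomputable instance : Linear Γ(X, ⊤) X.Modules where
  homModule M N :=
    { one_smul := fun φ => hom_ext' fun U s => by rw [smul_app, map_one, one_smul]
      mul_smul := fun r r' φ => hom_ext' fun U s => by
        rw [smul_app, smul_app, smul_app, map_mul, mul_smul]
      smul_zero := fun r => hom_ext' fun U s => by rw [smul_app, zero_app', smul_zero]
      smul_add := fun r φ ψ => hom_ext' fun U s => by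
        rw [smul_app, add_app', add_app', smul_app, smul_app, smul_add]
      add_smul := fun r r' φ => hom_ext' fun U s => by
        rw [smul_app, add_app', smul_app, smul_app, map_add, add_smul]
      zero_smul := fun φ => hom_ext' fun U s => by rw [smul_app, map_zero, zero_smul, zero_app'] }
  smul_comp M N K r f g := hom_ext' fun U s => by
    rw [comp_app', smul_app, smul_app, comp_app', Scheme.Modules.Hom.app_smul]
  comp_smul M N K f r g := hom_ext' fun U s => by
    rw [comp_app', smul_app, smul_app, comp_app']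

instance (V : X.Opens) : (L V).Linear Γ(X, ⊤) where
  map_smul {M N} f r := by
    rw [← cancel_mono (lι V N), lι_nat, Linear.smul_comp, lι_nat, Linear.comp_smul]

instance (V : X.Opens) : (R V).Linear Γ(X, ⊤) where
  map_smul {M N} f r := by
    rw [← cancel_epi (rπ V M), ← rπ_nat, Linear.comp_smul, ← rπ_nat, Linear.smul_comp]

lemma isUnit_rg (f : Γ(X, ⊤)) (U : X.Opens) (hU : U ≤ X.basicOpen f) : IsUnit (rg U f) := by
  have h1 : IsUnit (rg (X.basicOpen f) f) := X.toRingedSpace.isUnit_res_basicOpen f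
  have h2 := h1.map (X.presheaf.map (homOfLE hU).op).hom
  have h3 := rg_map hU f
  rwa [← h3]

/-- `f` acts invertibly on modules supported in `X_f`. -/
lemma isIso_smul_of_supp {W : X.Opens} {M : X.Modules} (h : Supp W M) (f : Γ(X, ⊤))
    (hf : W ≤ X.basicOpen f) : IsIso (f • 𝟙 M) := by
  have hm : Mono (f • 𝟙 M) := mono_of_app_inj _ fun U => by
    rw [injective_iff_map_eq_zero]
    intro s hs
    change rg U f • s = 0 at hs
    refine res_ext fun x hx => ?_
    by_cases hxW : x ∈ W
    · refine ⟨U ⊓ W, inf_le_left, ⟨hx, hxW⟩, ?_⟩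
      rw [res_zero]
      obtain ⟨u, hu⟩ := isUnit_rg f (U ⊓ W) (inf_le_right.trans hf)
      have e := res_rg_smul M (inf_le_left : U ⊓ W ≤ U) f s
      rw [hs, res_zero, ← hu] at e
      have e2 := congrArg (fun z => (↑u⁻¹ : Γ(X, U ⊓ W)) • z) e
      simpa [smul_smul] using e2.symm
    · obtain ⟨V, hV, hxV, e⟩ := h U s x hx hxW
      exact ⟨V, hV, hxV, by rw [e, res_zero]⟩
  have he : Epi (f • 𝟙 M) := epi_of_locSurj _ fun U t x hx => by
    by_cases hxW : x ∈ W
    · obtain ⟨u, hu⟩ := isUnit_rg f (U ⊓ W) (inf_le_right.trans hf)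
      refine ⟨U ⊓ W, inf_le_left, ⟨hx, hxW⟩,
        (↑u⁻¹ : Γ(X, U ⊓ W)) • res M (inf_le_left : U ⊓ W ≤ U) t, ?_⟩
      change rg (U ⊓ W) f • ((↑u⁻¹ : Γ(X, U ⊓ W)) • res M (inf_le_left : U ⊓ W ≤ U) t) = _
      rw [← hu, smul_smul]
      simp
    · obtain ⟨V, hV, hxV, e⟩ := h U t x hx hxW
      exact ⟨V, hV, hxV, 0, by rw [map_zero, e]⟩
  exact isIso_of_mono_of_epi _

end linear

end Pool.H29
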